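import Pool.Agent.Work.MP_612dae_nt.Ident1

/-!
# The identity for a general symmetric core
-/

namespace Pool.Agent.BCF

/-- `W` repeated `n` times -/
def rep (W : List ℕ) (n : ℕ) : List ℕ := (List.replicate n W).flatten

theorem imat_rep (W : List ℕ) (n : ℕ) : imat (rep W n) = imat W ^ n := by
  induction n with
  | zero => simp [rep, imat, mat_nil]
  | succ n ih =>
      have : rep W (n + 1) = W ++ rep W n := by
        simp [rep, List.replicate_succ]
      rw [this, imat_append, ih, pow_succ']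

theorem rep_add (W : List ℕ) (n k : ℕ) : rep W (n + k) = rep W n ++ rep W k := by
  rw [rep, rep, rep, List.replicate_add, List.flatten_append]

theorem mem_rep {W : List ℕ} {n a : ℕ} (ha : a ∈ rep W n) : a ∈ W := by
  rw [rep, List.mem_flatten] at ha
  obtain ⟨l, hl, hal⟩ := ha
  rwa [List.eq_of_mem_replicate hl] at hal

/-- if `S0 = S0ᵀ`, `H = Hᵀ` and the two cores satisfy the identity, then the words
`X Wⁿ Y Wⁿ` give infinitely many periodic continued fractions in the field of `W` -/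
theorem infinite_core {m δ : ℕ} {W X Y : List ℕ} (hW : ∀ a ∈ W, 1 ≤ a ∧ a ≤ m)
    (hX : ∀ a ∈ X, 1 ≤ a ∧ a ≤ m) (hY : ∀ a ∈ Y, 1 ≤ a ∧ a ≤ m)
    (S0 X0 Y0 H : Matrix (Fin 2) (Fin 2) ℤ) (hS0 : S0.transpose = S0) (hH : H.transpose = H)
    (hWm : imat W = S0 * H) (hXm : imat X = S0 * H * X0 * H) (hYm : imat Y = S0 * H * Y0 * H)
    (dX : X0.det = 1) (dY : Y0.det = 1)
    (hid : ∀ R : Matrix (Fin 2) (Fin 2) ℤ, R.transpose = R →
      (X0 * R * Y0 * R).trace = (S0 * R * S0 * R).trace)
    (hdiff : ∃ c r r' : List ℕ, ∃ α β : ℕ, α ≠ β ∧ Y = c ++ α :: r ∧ W ++ W = c ++ β :: r')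
    {y : ℤ} (hδ : (imat W).trace ^ 2 - 4 * (imat W).det = δ * y ^ 2) :
    (pset m δ).Infinite := by
  set Z : ℕ → List ℕ := fun n => X ++ rep W n ++ Y ++ rep W n with hZd
  have hZ : ∀ n, ∀ a ∈ Z n, 1 ≤ a ∧ a ≤ m := by
    intro n a ha
    simp only [hZd, List.mem_append] at ha
    rcases ha with ((ha | ha) | ha) | ha
    · exact hX a ha
    · exact hW a (mem_rep ha)
    · exact hY a ha
    · exact hW a (mem_rep ha)
  obtain ⟨c, r, r', α, β, hαβ, hYc, hWc⟩ := hdiff
  have hne : ∀ n, Z n ≠ [] := by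
    intro n hcon
    have := congrArg List.length hcon
    simp [hZd, hYc] at this
  -- determinants
  have hdW : S0.det * H.det = 1 ∨ S0.det * H.det = -1 := by
    rw [← Matrix.det_mul, ← hWm, imat_det]
    exact neg_one_pow_eq_or ℤ _
  have hunit : S0.det ^ 2 = 1 ∧ H.det ^ 2 = 1 := by
    have h1 : IsUnit (S0.det * H.det) := by
      rcases hdW with h | h
      · rw [h]; exact isUnit_one
      · rw [h]; exact isUnit_one.neg
    have h2 := isUnit_of_mul_isUnit_left h1
    have h3 := isUnit_of_mul_isUnit_right h1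
    constructor
    · rcases Int.isUnit_iff.1 h2 with h | h <;> rw [h] <;> norm_num
    · rcases Int.isUnit_iff.1 h3 with h | h <;> rw [h] <;> norm_num
  have hdet : ∀ n, (imat (Z n)).det = 1 := by
    intro n
    have h1 : (imat (Z n)).det = (S0.det ^ 2) ^ (1 + n) * (H.det ^ 2) ^ (2 + n) *
        (X0.det * Y0.det) := by
      show (imat (X ++ rep W n ++ Y ++ rep W n)).det = _
      rw [imat_append, imat_append, imat_append, imat_rep, hXm, hYm, hWm]
      simp only [Matrix.det_mul, Matrix.det_pow]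
      ring
    rw [h1, hunit.1, hunit.2, dX, dY]
    norm_num
  have hdetW : ∀ n, ((imat W) ^ (2 * n + 4)).det = 1 := by
    intro n
    rw [Matrix.det_pow, hWm, Matrix.det_mul, mul_pow]
    have e : ∀ z : ℤ, z ^ (2 * n + 4) = (z ^ 2) ^ (n + 2) := by
      intro z
      rw [← pow_mul]
      congr 1
    rw [e, e, hunit.1, hunit.2]
    norm_num
  -- the symmetric matrix between the cores
  have hRsym : ∀ k, (H * (S0 * H) ^ k).transpose = H * (S0 * H) ^ k := by
    intro k
    induction k with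
    | zero => rw [pow_zero, mul_one, hH]
    | succ k ih =>
        have h1 : H * (S0 * H) ^ (k + 1) = H * (S0 * H) ^ k * (S0 * H) := by
          rw [pow_succ, Matrix.mul_assoc]
        have h2 : H * (S0 * H) ^ (k + 1) = (H * S0) * (H * (S0 * H) ^ k) := by
          rw [pow_succ']
          simp only [Matrix.mul_assoc]
        conv_lhs => rw [h1, Matrix.transpose_mul, Matrix.transpose_mul, ih, hS0, hH]
        rw [h2]
  have htr : ∀ n, (imat (Z n)).trace = ((imat W) ^ (2 * n + 4)).trace := by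
    intro n
    have h1 : imat (Z n) = (S0 * H) * (X0 * ((H * (S0 * H) ^ (n + 1)) * (Y0 *
        (H * (S0 * H) ^ n)))) := by
      show imat (X ++ rep W n ++ Y ++ rep W n) = _
      rw [imat_append, imat_append, imat_append, imat_rep, hXm, hYm, hWm, pow_succ]
      simp only [Matrix.mul_assoc]
    rw [h1, Matrix.trace_mul_comm]
    have h2 : X0 * (H * (S0 * H) ^ (n + 1) * (Y0 * (H * (S0 * H) ^ n))) * (S0 * H) =
        X0 * (H * (S0 * H) ^ (n + 1)) * Y0 * (H * (S0 * H) ^ (n + 1)) := by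
      have h3 : H * (S0 * H) ^ (n + 1) = H * (S0 * H) ^ n * (S0 * H) := by
        rw [pow_succ, Matrix.mul_assoc]
      conv_rhs => rw [h3]
      conv_lhs => rw [h3]
      simp only [Matrix.mul_assoc]
    rw [h2, hid _ (hRsym (n + 1)), hWm]
    congr 1
    have h4 : S0 * (H * (S0 * H) ^ (n + 1)) = (S0 * H) ^ (n + 2) := by
      rw [← Matrix.mul_assoc, ← pow_succ']
    rw [h4, Matrix.mul_assoc, h4, ← pow_add]
    congr 1
    ring
  have hex : ∀ n, ∃ x : ℝ, 1 < x ∧ act (Z n) x = x ∧ x ∈ pset m δ := by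
    intro n
    obtain ⟨u, hu⟩ := disc_lin (imat W) (2 * n + 4)
    refine exists_fixed (hne n) (hZ n) (y := u * y) ?_
    rw [htr, hdet, ← hdetW n, hu, hδ]
    ring
  choose f hf1 hf2 hf3 using hex
  refine Set.infinite_of_injective_forall_mem (f := fun k => f (2 * k)) ?_ fun k => hf3 _
  have key : ∀ n n', n + 2 ≤ n' → f n ≠ f n' := by
    intro n n' hnn heq
    set p : List ℕ := X ++ rep W n ++ c with hp
    obtain ⟨r₁, hr₁⟩ : ∃ s, Z n = p ++ α :: s := by
      refine ⟨r ++ rep W n, ?_⟩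
      simp [hZd, hp, hYc]
    obtain ⟨r₂, hr₂⟩ : ∃ s, Z n' = p ++ β :: s := by
      obtain ⟨k, rfl⟩ := Nat.exists_eq_add_of_le hnn
      refine ⟨r' ++ rep W k ++ Y ++ rep W (n + 2 + k), ?_⟩
      have h1 : rep W (n + 2 + k) = rep W n ++ ((W ++ W) ++ rep W k) := by
        rw [rep_add, rep_add, List.append_assoc]
        congr 1
        simp [rep, List.replicate_succ]
      have h2 : X ++ rep W (n + 2 + k) = X ++ (rep W n ++ ((c ++ β :: r') ++ rep W k)) := by
        rw [h1, hWc]
      show X ++ rep W (n + 2 + k) ++ Y ++ rep W (n + 2 + k) = _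
      rw [h2]
      simp [hp]
    have one : ∀ n, ∀ b ∈ Z n, 1 ≤ b := fun n b hb => (hZ n b hb).1
    have s1 := step_iterate_act (hf1 n) p (α :: r₁) (by rw [← hr₁]; exact one n)
    have s2 := step_iterate_act (hf1 n') p (β :: r₂) (by rw [← hr₂]; exact one n')
    rw [← hr₁, hf2] at s1
    rw [← hr₂, hf2, ← heq, s1] at s2
    have g1 : ⌊act (α :: r₁) (f n)⌋ = (α : ℕ) := floor_act (hf1 n) fun b hb => by
      refine one n b ?_
      rw [hr₁]
      exact List.mem_append_right _ (List.mem_cons_of_mem _ hb)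
    have g2 : ⌊act (β :: r₂) (f n')⌋ = (β : ℕ) := floor_act (hf1 n') fun b hb => by
      refine one n' b ?_
      rw [hr₂]
      exact List.mem_append_right _ (List.mem_cons_of_mem _ hb)
    rw [← heq] at g2
    rw [s2, g2] at g1
    exact hαβ (by exact_mod_cast g1.symm)
  intro n n' heq
  have heq' : f (2 * n) = f (2 * n') := heq
  rcases lt_trichotomy n n' with h1 | h1 | h1
  · exact absurd heq' (key _ _ (by omega))
  · exact h1
  · exact absurd heq'.symm (key _ _ (by omega))

end Pool.Agent.BCF
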