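import Pool.Agent.Work.MP_612dae_nt.Ident

/-!
# Euclid: matrices of determinant `±1` as products of letters
-/

namespace Pool.Agent.BCF

theorem mat_single (a : ℕ) : mat [a] = !![a, 1; 1, 0] := by
  rw [mat_cons, mat_nil, mul_one]

theorem mat_pair (a b : ℕ) : mat [a, b] = !![a * b + 1, a; b, 1] := by
  rw [mat_cons, mat_single]
  ext i j
  fin_cases i <;> fin_cases j <;> simp

theorem mat_cons_of (a p q r s : ℕ) {l : List ℕ} (h : mat l = !![p, q; r, s]) :
    mat (a :: l) = !![a * p + r, a * q + s; p, q] := by
  rw [mat_cons, h]
  ext i j
  fin_cases i <;> fin_cases j <;> simp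

/-- a matrix with decreasing natural entries and determinant `±1` is a product of letters -/
theorem exists_word : ∀ (r : ℕ) {p q s : ℕ}, q ≤ p → r ≤ p → s ≤ q → s ≤ r → 1 ≤ r → 1 ≤ q →
    ((p : ℤ) * s - q * r = 1 ∨ (p : ℤ) * s - q * r = -1) →
    ∃ l : List ℕ, l ≠ [] ∧ (∀ a ∈ l, 1 ≤ a) ∧ mat l = !![p, q; r, s] := by
  intro r
  induction r using Nat.strong_induction_on with
  | _ r ih =>
    intro p q s hqp hrp hsq hsr hr hq hdet
    rcases Nat.eq_zero_or_pos s with hs | hs
    · -- one letter
      subst hs
      have h1 : q * r = 1 := by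
        have h2 : ((q * r : ℕ) : ℤ) = 1 := by
          push_cast
          have h3 : (0 : ℤ) ≤ (q : ℤ) * r := by positivity
          push_cast at hdet
          rcases hdet with h | h <;> linarith
        exact_mod_cast h2
      have hq1 : q = 1 := Nat.eq_one_of_mul_eq_one_right h1
      have hr1 : r = 1 := Nat.eq_one_of_mul_eq_one_left h1
      subst hq1 hr1
      refine ⟨[p], by simp, ?_, mat_single p⟩
      intro a ha
      rw [List.mem_singleton.1 ha]
      exact hqp
    · rcases Nat.lt_or_ge r 2 with hr2 | hr2
      · -- two letters
        have hr1 : r = 1 := by omega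
        subst hr1
        have hs1 : s = 1 := by omega
        subst hs1
        have hpq : p = q + 1 := by
          push_cast at hdet
          rcases hdet with h | h
          · have : (p : ℤ) = q + 1 := by linarith
            exact_mod_cast this
          · exfalso
            have : (q : ℤ) ≤ p := by exact_mod_cast hqp
            linarith
        subst hpq
        refine ⟨[q, 1], by simp, ?_, ?_⟩
        · intro a ha
          simp only [List.mem_cons, List.not_mem_nil, or_false] at ha
          rcases ha with rfl | rfl
          · exact hq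
          · exact le_rfl
        · rw [mat_pair]
          simp
      · -- Euclid
        set a := p / r with ha
        set ρ := p % r with hρ
        have hp : r * a + ρ = p := Nat.div_add_mod p r
        have hρr : ρ < r := Nat.mod_lt _ (by omega)
        have ha1 : 1 ≤ a := Nat.div_pos hrp (by omega)
        have hpz : (p : ℤ) = r * a + ρ := by exact_mod_cast hp.symm
        have hρ1 : 1 ≤ ρ := by
          by_contra hcon
          have h0 : ρ = 0 := by omega
          rw [h0] at hpz
          have h2 : (r : ℤ) ∣ 1 := by
            rcases hdet with h | h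
            · exact ⟨a * s - q, by rw [hpz] at h; push_cast at h; linarith⟩
            · exact ⟨q - a * s, by rw [hpz] at h; push_cast at h; linarith⟩
          have h3 := Int.le_of_dvd one_pos h2
          omega
        have hsr' : s < r := by
          rcases Nat.lt_or_ge s r with h | h
          · exact h
          · exfalso
            have hsr2 : s = r := le_antisymm hsr h
            rw [hsr2] at hdet
            have h2 : (r : ℤ) ∣ 1 := by
              rcases hdet with h | h
              · exact ⟨p - q, by linarith⟩
              · exact ⟨q - p, by linarith⟩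
            have h3 := Int.le_of_dvd one_pos h2
            omega
        -- `q' = q - a s`
        have hkey : (r : ℤ) * (q - a * s) = ρ * s - 1 ∨ (r : ℤ) * (q - a * s) = ρ * s + 1 := by
          rw [hpz] at hdet
          rcases hdet with h | h
          · left; linarith
          · right; linarith
        have hρs : (1 : ℤ) ≤ (ρ : ℤ) * s := by
          have h1 : (1 : ℤ) ≤ ρ := by exact_mod_cast hρ1
          have h2 : (1 : ℤ) ≤ s := by exact_mod_cast hs
          nlinarith
        have hrz : (2 : ℤ) ≤ r := by exact_mod_cast hr2
        have hq0 : (0 : ℤ) ≤ (q : ℤ) - a * s := by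
          by_contra hcon
          push Not at hcon
          have : (r : ℤ) * (q - a * s) ≤ -r := by nlinarith
          rcases hkey with h | h <;> linarith
        have has : a * s ≤ q := by
          have : ((a * s : ℕ) : ℤ) ≤ q := by push_cast; linarith
          exact_mod_cast this
        obtain ⟨q', hq'⟩ := Nat.exists_eq_add_of_le has
        have hq'z : (q : ℤ) - a * s = q' := by rw [hq']; push_cast; ring
        rw [hq'z] at hkey hq0
        have hρz : (ρ : ℤ) + 1 ≤ r := by exact_mod_cast hρr
        have hsz : (s : ℤ) + 1 ≤ r := by exact_mod_cast hsr'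
        have hs1 : (1 : ℤ) ≤ s := by exact_mod_cast hs
        have hρ1z : (1 : ℤ) ≤ ρ := by exact_mod_cast hρ1
        have hq's : q' ≤ s := by
          have : (q' : ℤ) ≤ s := by
            by_contra hcon
            push Not at hcon
            have h1 : (r : ℤ) * (s + 1) ≤ r * q' := by nlinarith
            have h2 : (ρ : ℤ) * s ≤ (r - 1) * s := by nlinarith
            rcases hkey with h | h <;> nlinarith
          exact_mod_cast this
        have hq'ρ : q' ≤ ρ := by
          have : (q' : ℤ) ≤ ρ := by
            by_contra hcon
            push Not at hcon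
            have h1 : (r : ℤ) * (ρ + 1) ≤ r * q' := by nlinarith
            have h2 : (ρ : ℤ) * s ≤ ρ * (r - 1) := by nlinarith
            rcases hkey with h | h <;> nlinarith
          exact_mod_cast this
        obtain ⟨l, hl1, hl2, hl3⟩ := ih ρ hρr (p := r) (q := s) (s := q') hsr hρr.le hq's hq'ρ
          hρ1 hs (by
            rcases hkey with h | h
            · right; linarith
            · left; linarith)
        refine ⟨a :: l, by simp, ?_, ?_⟩
        · intro b hb
          rcases List.mem_cons.1 hb with rfl | hb
          · exact ha1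
          · exact hl2 b hb
        · rw [mat_cons_of a r s ρ q' hl3]
          have e1 : a * r + ρ = p := by rw [← hp, mul_comm]
          rw [e1, ← hq']

/-- entries of the matrix of a word with letters `≥ 1` are decreasing -/
theorem mat_mono_entries {l : List ℕ} (hl : l ≠ []) (h : ∀ b ∈ l, 1 ≤ b) :
    mat l 0 1 ≤ mat l 0 0 ∧ mat l 1 0 ≤ mat l 0 0 ∧ mat l 1 1 ≤ mat l 0 1 ∧
      mat l 1 1 ≤ mat l 1 0 := by
  induction l with
  | nil => exact absurd rfl hl
  | cons a l ih =>
      have ha := h a List.mem_cons_self
      by_cases hl' : l = []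
      · subst hl'
        rw [mat_single]
        simp
        omega
      · obtain ⟨h1, h2, h3, h4⟩ := ih hl' fun b hb => h b (List.mem_cons_of_mem _ hb)
        have e : mat l = !![mat l 0 0, mat l 0 1; mat l 1 0, mat l 1 1] := by
          ext i j
          fin_cases i <;> fin_cases j <;> rfl
        have e' := mat_cons_of a _ _ _ _ e
        have e00 : mat (a :: l) 0 0 = a * mat l 0 0 + mat l 1 0 := by rw [e']; rfl
        have e01 : mat (a :: l) 0 1 = a * mat l 0 1 + mat l 1 1 := by rw [e']; rfl
        have e10 : mat (a :: l) 1 0 = mat l 0 0 := by rw [e']; rfl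
        have e11 : mat (a :: l) 1 1 = mat l 0 1 := by rw [e']; rfl
        rw [e00, e01, e10, e11]
        refine ⟨?_, ?_, ?_, h1⟩
        · have := Nat.mul_le_mul_left a h1
          omega
        · nlinarith
        · nlinarith

/-- a word with letters `≥ 1` is determined by its matrix -/
theorem mat_inj : ∀ {l l' : List ℕ}, (∀ b ∈ l, 1 ≤ b) → (∀ b ∈ l', 1 ≤ b) → mat l = mat l' →
    l = l'
  | [], [], _, _, _ => rfl
  | [], a :: t, _, h', e => by
      exfalso
      have h1 := (mat_entries (List.cons_ne_nil a t) h').2.1
      rw [← e, mat_nil] at h1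
      simp at h1
  | a :: t, [], h, _, e => by
      exfalso
      have h1 := (mat_entries (List.cons_ne_nil a t) h).2.1
      rw [e, mat_nil] at h1
      simp at h1
  | a :: t, a' :: t', h, h', e => by
      have ht : ∀ b ∈ t, 1 ≤ b := fun b hb => h b (List.mem_cons_of_mem _ hb)
      have ht' : ∀ b ∈ t', 1 ≤ b := fun b hb => h' b (List.mem_cons_of_mem _ hb)
      have en : ∀ l : List ℕ, mat l = !![mat l 0 0, mat l 0 1; mat l 1 0, mat l 1 1] := by
        intro l
        ext i j
        fin_cases i <;> fin_cases j <;> rfl
      have e1 := mat_cons_of a _ _ _ _ (en t)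
      have e2 := mat_cons_of a' _ _ _ _ (en t')
      rw [e1, e2] at e
      have f00 : a * mat t 0 0 + mat t 1 0 = a' * mat t' 0 0 + mat t' 1 0 :=
        congrFun (congrFun e 0) 0
      have f01 : a * mat t 0 1 + mat t 1 1 = a' * mat t' 0 1 + mat t' 1 1 :=
        congrFun (congrFun e 0) 1
      have f10 : mat t 0 0 = mat t' 0 0 := congrFun (congrFun e 1) 0
      have f11 : mat t 0 1 = mat t' 0 1 := congrFun (congrFun e 1) 1
      -- bounds for the lower left entries
      have bd : ∀ l : List ℕ, (∀ b ∈ l, 1 ≤ b) →
          mat l 1 0 ≤ mat l 0 0 ∧ 1 ≤ mat l 0 0 ∧ (mat l 0 1 = 0 → l = []) ∧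
            (mat l 1 0 = 0 → l = []) := by
        intro l hl
        by_cases hn : l = []
        · subst hn
          rw [mat_nil]
          simp
        · obtain ⟨g1, g2, g3⟩ := mat_entries hn hl
          refine ⟨(mat_mono_entries hn hl).2.1, g1, fun h0 => ?_, fun h0 => ?_⟩
          · omega
          · omega
      obtain ⟨k1, k2, k3, k4⟩ := bd t ht
      obtain ⟨k1', k2', k3', k4'⟩ := bd t' ht'
      have main : ∀ {a a' : ℕ} {t t' : List ℕ}, a < a' → mat t 0 0 = mat t' 0 0 →
          mat t 0 1 = mat t' 0 1 → mat t 1 0 ≤ mat t 0 0 → 1 ≤ mat t' 0 0 →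
          (mat t 0 1 = 0 → t = []) → (mat t' 1 0 = 0 → t' = []) →
          a * mat t 0 0 + mat t 1 0 = a' * mat t' 0 0 + mat t' 1 0 → False := by
        intro a a' t t' haa g1 g2 g3 g4 g5 g6 g7
        rw [← g1] at g7 g4
        have h1 : (a + 1) * mat t 0 0 ≤ a' * mat t 0 0 := Nat.mul_le_mul_right _ haa
        have h2 : mat t' 1 0 = 0 := by nlinarith
        have h3 := g6 h2
        subst h3
        rw [mat_nil] at g2 g1
        have h4 := g5 (by rw [g2]; simp)
        subst h4
        rw [mat_nil] at g7 h2
        simp at g7
        omega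
      have haa : a = a' := by
        rcases lt_trichotomy a a' with hlt | heq | hlt
        · exact absurd (main hlt f10 f11 k1 k2' k3 k4' f00) id
        · exact heq
        · exact absurd (main hlt f10.symm f11.symm k1' k2 k3' k4 f00.symm) id
      subst haa
      have g10 : mat t 1 0 = mat t' 1 0 := by
        rw [f10] at f00
        omega
      have g11 : mat t 1 1 = mat t' 1 1 := by
        rw [f11] at f01
        omega
      have hmt : mat t = mat t' := by
        rw [en t, en t', f10, f11, g10, g11]
      rw [mat_inj ht ht' hmt]

end Pool.Agent.BCF
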