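import Pool.Agent.Work.MP_612dae_nt.Center
import Pool.Agent.Work.MP_612dae_nt.Euclid
import Pool.Agent.Work.MP_612dae_nt.CoreIdent

/-!
# Every real quadratic field: infinitely many periodic continued fractions bounded by `√D + 2`
-/

namespace Pool.Agent.BCF

open Matrix

theorem imat_cons (a : ℕ) (l : List ℕ) : imat (a :: l) = !![(a : ℤ), 1; 1, 0] * imat l := by
  have h : a :: l = [a] ++ l := rfl
  rw [h, imat_append, imat_one]

theorem imat_nil' : imat [] = 1 := by
  simp [imat, mat_nil]

/-- a word of length at least two ends with two letters -/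
theorem exists_two {w : List ℕ} (h : 2 ≤ w.length) : ∃ (p : List ℕ) (u v : ℕ), w = p ++ [u, v] := by
  rcases List.eq_nil_or_concat w with rfl | ⟨w', v, rfl⟩
  · simp at h
  · rcases List.eq_nil_or_concat w' with rfl | ⟨p, u, rfl⟩
    · simp at h
    · exact ⟨p, u, v, by simp⟩

/-! ### even centre -/

theorem even_X {B : ℕ} {w : List ℕ} (hlen : 2 ≤ w.length) (hw : ∀ a ∈ w, 1 ≤ a ∧ a ≤ B) :
    ∃ w' : List ℕ, (∀ a ∈ w', 1 ≤ a ∧ a ≤ B + 1) ∧ imat w' = imat w * !![2, 1; -1, 0] := by
  obtain ⟨p, u, v, rfl⟩ := exists_two hlen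
  have hp : ∀ a ∈ p, 1 ≤ a ∧ a ≤ B + 1 := fun a ha => by
    have := hw a (List.mem_append_left _ ha)
    omega
  have hu := hw u (by simp)
  have hv := hw v (by simp)
  by_cases hv2 : 2 ≤ v
  · refine ⟨p ++ [u, v - 1, 1, 1], ?_, ?_⟩
    · intro a ha
      rcases List.mem_append.1 ha with ha | ha
      · exact hp a ha
      · simp only [List.mem_cons, List.not_mem_nil, or_false] at ha
        omega
    · obtain ⟨v, rfl⟩ : ∃ v', v = v' + 1 := ⟨v - 1, by omega⟩
      rw [imat_append, imat_append, mul_assoc]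
      congr 1
      rw [Nat.add_sub_cancel]
      simp only [imat_cons, imat_nil', mul_one]
      ext i j
      fin_cases i <;> fin_cases j <;>
        simp [Matrix.mul_apply, Fin.sum_univ_two] <;> ring
  · have hv1 : v = 1 := by omega
    subst hv1
    refine ⟨p ++ [u + 1, 1], ?_, ?_⟩
    · intro a ha
      rcases List.mem_append.1 ha with ha | ha
      · exact hp a ha
      · simp only [List.mem_cons, List.not_mem_nil, or_false] at ha
        omega
    · rw [imat_append, imat_append, mul_assoc]
      congr 1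
      simp only [imat_cons, imat_nil', mul_one]
      ext i j
      fin_cases i <;> fin_cases j <;>
        simp [Matrix.mul_apply, Fin.sum_univ_two] <;> ring

/-- the case of an even centre `2 b` -/
theorem even_case {δ b : ℕ} (hb : 1 ≤ b) {h : List ℕ} (hne : h ≠ [])
    (hlet : ∀ a ∈ (2 * b) :: h, 1 ≤ a ∧ a ≤ 2 * b)
    (hsymm : (imat h).transpose = imat h) {y : ℤ}
    (hδ : (imat ((2 * b) :: h)).trace ^ 2 - 4 * (imat ((2 * b) :: h)).det = δ * y ^ 2) :
    (pset (2 * b + 1) δ).Infinite := by
  have hlen : 2 ≤ ((2 * b) :: h).length := by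
    have := List.length_pos_iff.2 hne
    simp
    omega
  obtain ⟨w', hw', hmw'⟩ := even_X hlen hlet
  have hlet' : ∀ a ∈ (2 * b) :: h, 1 ≤ a ∧ a ≤ 2 * b + 1 := fun a ha => by
    have := hlet a ha
    omega
  have hh : ∀ a ∈ h, 1 ≤ a ∧ a ≤ 2 * b + 1 := fun a ha => hlet' a (List.mem_cons_of_mem _ ha)
  have hWm : imat ((2 * b) :: h) = !![2 * (b : ℤ), 1; 1, 0] * imat h := by
    rw [imat_cons]
    push_cast
    rfl
  -- the word of `Y`
  obtain ⟨Y, hY, hYm, hdiff⟩ : ∃ Y : List ℕ, (∀ a ∈ Y, 1 ≤ a ∧ a ≤ 2 * b + 1) ∧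
      imat Y = !![2 * (b : ℤ), 1; 1, 0] * imat h *
        (!![2 * (b : ℤ) ^ 2, 2 * b - 1; 2 * b + 1, 2] : Matrix (Fin 2) (Fin 2) ℤ) * imat h ∧
      ∃ c r r' : List ℕ, ∃ α β : ℕ, α ≠ β ∧ Y = c ++ α :: r ∧
        ((2 * b) :: h) ++ ((2 * b) :: h) = c ++ β :: r' := by
    by_cases hb2 : 2 ≤ b
    · refine ⟨((2 * b) :: h) ++ ([b - 1, 1, 1, b] ++ h), ?_, ?_, (2 * b) :: h,
        [1, 1, b] ++ h, h, b - 1, 2 * b, by omega, by simp, by simp⟩
      · intro a ha
        rcases List.mem_append.1 ha with ha | ha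
        · exact hlet' a ha
        · rcases List.mem_append.1 ha with ha | ha
          · simp only [List.mem_cons, List.not_mem_nil, or_false] at ha
            omega
          · exact hh a ha
      · rw [imat_append, imat_append, hWm]
        rw [← mul_assoc]
        congr 2
        obtain ⟨b, rfl⟩ : ∃ b', b = b' + 1 := ⟨b - 1, by omega⟩
        rw [Nat.add_sub_cancel]
        simp only [imat_cons, imat_nil', mul_one]
        ext i j
        fin_cases i <;> fin_cases j <;>
          simp [Matrix.mul_apply, Fin.sum_univ_two] <;> ring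
    · have hb1 : b = 1 := by omega
      subst hb1
      obtain ⟨p, u, v, hpuv⟩ := exists_two hlen
      have hv := hlet v (by rw [hpuv]; simp)
      have hu := hlet u (by rw [hpuv]; simp)
      refine ⟨(p ++ [u]) ++ (v + 1) :: ([1, 1] ++ h), ?_, ?_, p ++ [u], [1, 1] ++ h,
        (2 * 1) :: h, v + 1, v, by omega, rfl, ?_⟩
      · intro a ha
        rcases List.mem_append.1 ha with ha | ha
        · apply hlet'
          rw [hpuv]
          rcases List.mem_append.1 ha with ha | ha
          · simp [ha]
          · simp at ha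
            simp [ha]
        · rcases List.mem_cons.1 ha with rfl | ha
          · omega
          · rcases List.mem_append.1 ha with ha | ha
            · simp only [List.mem_cons, List.not_mem_nil, or_false] at ha
              omega
            · exact hh a ha
      · have e1 : (p ++ [u]) ++ (v + 1) :: ([1, 1] ++ h) = (p ++ [u]) ++ ([v + 1, 1, 1] ++ h) := by
          simp
        have e2 : imat ((2 * 1) :: h) = imat (p ++ [u]) * imat [v] := by
          rw [hpuv, ← imat_append]
          simp
        rw [e1, imat_append (p ++ [u]), imat_append [v + 1, 1, 1]]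
        have e3 : !![2 * ((1 : ℕ) : ℤ), 1; 1, 0] * imat h = imat (p ++ [u]) * imat [v] := by
          rw [← e2, hWm]
        have e4 : imat [v + 1, 1, 1] = imat [v] *
            !![2 * ((1 : ℕ) : ℤ) ^ 2, 2 * ((1 : ℕ) : ℤ) - 1; 2 * ((1 : ℕ) : ℤ) + 1, 2] := by
          simp only [imat_cons, imat_nil', mul_one]
          ext i j
          fin_cases i <;> fin_cases j <;>
            simp [Matrix.mul_apply, Fin.sum_univ_two] <;> ring
        rw [e3, e4]
        simp only [mul_assoc]
      · rw [hpuv]
        simp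
  refine infinite_core hlet' (X := w' ++ h) ?_ hY !![2 * (b : ℤ), 1; 1, 0] !![2, 1; -1, 0]
    !![2 * (b : ℤ) ^ 2, 2 * b - 1; 2 * b + 1, 2] (imat h) ?_ hsymm hWm ?_ hYm ?_ ?_ ?_ hdiff hδ
  · intro a ha
    rcases List.mem_append.1 ha with ha | ha
    · exact hw' a ha
    · exact hh a ha
  · ext i j
    fin_cases i <;> fin_cases j <;> simp
  · rw [imat_append, hmw', hWm]
  · simp [Matrix.det_fin_two]
  · rw [Matrix.det_fin_two]
    simp
    ring
  · intro R hR
    have h01 : R 1 0 = R 0 1 := by
      have := congrFun (congrFun hR 0) 1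
      rwa [Matrix.transpose_apply] at this
    simp only [Matrix.trace_fin_two, Matrix.mul_apply, Fin.sum_univ_two, Matrix.of_apply,
      Matrix.cons_val', Matrix.cons_val_zero, Matrix.cons_val_one, Matrix.cons_val_fin_one, h01]
    ring

/-! ### odd centre -/

/-- the case of an odd centre `2 k + 1` -/
theorem odd_case {δ k m : ℕ} (hm : (1 ≤ k ∧ 2 * k + 3 ≤ m) ∨ (k = 0 ∧ 4 ≤ m))
    {h : List ℕ} (hne : h ≠ [])
    (hlet : ∀ a ∈ (2 * k + 1) :: h, 1 ≤ a ∧ a ≤ 2 * k + 1)
    (hsymm : (imat h).transpose = imat h) (hpal : h.reverse = h) {y : ℤ}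
    (hδ : (imat ((2 * k + 1) :: h)).trace ^ 2 - 4 * (imat ((2 * k + 1) :: h)).det = δ * y ^ 2) :
    (pset m δ).Infinite := by
  have hm3 : 2 * k + 3 ≤ m := by omega
  have hlen : 2 ≤ ((2 * k + 1) :: h).length := by
    have := List.length_pos_iff.2 hne
    simp
    omega
  obtain ⟨p, u, v, hpuv⟩ := exists_two hlen
  -- the last letter of `h` is `v`, hence so is the first one
  obtain ⟨h'', hh''⟩ : ∃ h'' : List ℕ, h = v :: h'' := by
    have h1 : ((2 * k + 1) :: h).reverse = [v, u] ++ p.reverse := by
      rw [hpuv]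
      simp
    rw [List.reverse_cons, hpal] at h1
    cases h with
    | nil => exact absurd rfl hne
    | cons a t =>
        have h2 : a = v := by
          have := congrArg List.head? h1
          simpa using this
        exact ⟨t, by rw [h2]⟩
  have hlet' : ∀ a ∈ (2 * k + 1) :: h, 1 ≤ a ∧ a ≤ m := fun a ha => by
    have := hlet a ha
    omega
  have hh : ∀ a ∈ h, 1 ≤ a ∧ a ≤ m := fun a ha => hlet' a (List.mem_cons_of_mem _ ha)
  have hh2 : ∀ a ∈ h'', 1 ≤ a ∧ a ≤ m := fun a ha => hh a (by rw [hh'']; simp [ha])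
  have hp : ∀ a ∈ p, 1 ≤ a ∧ a ≤ m := fun a ha => hlet' a (by rw [hpuv]; simp [ha])
  have hv := hlet v (by rw [hpuv]; simp)
  have hu := hlet u (by rw [hpuv]; simp)
  have hWm : imat ((2 * k + 1) :: h) = !![2 * (k : ℤ) + 1, 1; 1, 0] * imat h := by
    rw [imat_cons]
    push_cast
    rfl
  have hWp : !![2 * (k : ℤ) + 1, 1; 1, 0] * imat h = imat p * (imat [u] * imat [v]) := by
    rw [← hWm, hpuv, imat_append, ← imat_append [u]]
    rfl
  have hhv : imat h = imat [v] * imat h'' := by
    rw [hh'', imat_cons, imat_one]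
  -- the word of `X`
  obtain ⟨X, hX, hXm⟩ : ∃ X : List ℕ, (∀ a ∈ X, 1 ≤ a ∧ a ≤ m) ∧
      imat X = !![2 * (k : ℤ) + 1, 1; 1, 0] * imat h * !![1, 1; -1, 0] * imat h := by
    have hgoal : ∀ mid : List ℕ, imat mid = imat [u] * imat [v] * !![1, 1; -1, 0] * imat [v] →
        imat (p ++ (mid ++ h'')) =
          !![2 * (k : ℤ) + 1, 1; 1, 0] * imat h * !![1, 1; -1, 0] * imat h := by
      intro mid hmid
      rw [imat_append, imat_append, hmid, hWp, hhv]
      simp only [mul_assoc]
    by_cases hv2 : 2 ≤ v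
    · refine ⟨p ++ ([u, v - 1, v + 1] ++ h''), ?_, hgoal _ ?_⟩
      · intro a ha
        rcases List.mem_append.1 ha with ha | ha
        · exact hp a ha
        · rcases List.mem_append.1 ha with ha | ha
          · simp only [List.mem_cons, List.not_mem_nil, or_false] at ha
            omega
          · exact hh2 a ha
      · obtain ⟨v, rfl⟩ : ∃ v', v = v' + 1 := ⟨v - 1, by omega⟩
        rw [Nat.add_sub_cancel]
        simp only [imat_cons, imat_nil', mul_one]
        ext i j
        fin_cases i <;> fin_cases j <;>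
          simp [Matrix.mul_apply, Fin.sum_univ_two] <;> ring
    · have hv1 : v = 1 := by omega
      refine ⟨p ++ ([u + 2] ++ h''), ?_, hgoal _ ?_⟩
      · intro a ha
        rcases List.mem_append.1 ha with ha | ha
        · exact hp a ha
        · rcases List.mem_append.1 ha with ha | ha
          · simp only [List.mem_cons, List.not_mem_nil, or_false] at ha
            omega
          · exact hh2 a ha
      · rw [hv1]
        simp only [imat_cons, imat_nil', mul_one]
        ext i j
        fin_cases i <;> fin_cases j <;>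
          simp [Matrix.mul_apply, Fin.sum_univ_two] <;> ring
  -- the word of `Y`
  obtain ⟨Y, hY, hYm, hdiff⟩ : ∃ Y : List ℕ, (∀ a ∈ Y, 1 ≤ a ∧ a ≤ m) ∧
      imat Y = !![2 * (k : ℤ) + 1, 1; 1, 0] * imat h *
        (!![(2 * (k : ℤ) + 1) ^ 2, 4 * k + 1; 4 * k + 3, 4] : Matrix (Fin 2) (Fin 2) ℤ) *
          imat h ∧
      ∃ c r r' : List ℕ, ∃ α β : ℕ, α ≠ β ∧ Y = c ++ α :: r ∧
        ((2 * k + 1) :: h) ++ ((2 * k + 1) :: h) = c ++ β :: r' := by
    rcases hm with ⟨hk, hmk⟩ | ⟨hk, hm4⟩
    · refine ⟨((2 * k + 1) :: h) ++ ([k, 3, 1, k] ++ h), ?_, ?_, (2 * k + 1) :: h,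
        [3, 1, k] ++ h, h, k, 2 * k + 1, by omega, by simp, by simp⟩
      · intro a ha
        rcases List.mem_append.1 ha with ha | ha
        · exact hlet' a ha
        · rcases List.mem_append.1 ha with ha | ha
          · simp only [List.mem_cons, List.not_mem_nil, or_false] at ha
            omega
          · exact hh a ha
      · rw [imat_append, imat_append, hWm]
        rw [← mul_assoc]
        congr 2
        simp only [imat_cons, imat_nil', mul_one]
        ext i j
        fin_cases i <;> fin_cases j <;>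
          simp [Matrix.mul_apply, Fin.sum_univ_two] <;> ring
    · subst hk
      have hv1 : v = 1 := by omega
      refine ⟨(p ++ [u]) ++ (v + 3) :: ([v + 1] ++ h''), ?_, ?_, p ++ [u], [v + 1] ++ h'',
        (2 * 0 + 1) :: h, v + 3, v, by omega, rfl, ?_⟩
      · intro a ha
        rcases List.mem_append.1 ha with ha | ha
        · apply hlet'
          rw [hpuv]
          rcases List.mem_append.1 ha with ha | ha
          · simp [ha]
          · simp at ha
            simp [ha]
        · rcases List.mem_cons.1 ha with rfl | ha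
          · omega
          · rcases List.mem_append.1 ha with ha | ha
            · simp only [List.mem_cons, List.not_mem_nil, or_false] at ha
              omega
            · exact hh2 a ha
      · have e1 : (p ++ [u]) ++ (v + 3) :: ([v + 1] ++ h'') =
            p ++ ([u, v + 3, v + 1] ++ h'') := by simp
        rw [e1, imat_append, imat_append, hWp, hhv]
        have e2 : imat [u, v + 3, v + 1] = imat [u] * imat [v] *
            !![(2 * ((0 : ℕ) : ℤ) + 1) ^ 2, 4 * ((0 : ℕ) : ℤ) + 1; 4 * ((0 : ℕ) : ℤ) + 3, 4] *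
              imat [v] := by
          rw [hv1]
          simp only [imat_cons, imat_nil', mul_one]
          ext i j
          fin_cases i <;> fin_cases j <;>
            simp [Matrix.mul_apply, Fin.sum_univ_two] <;> ring
        rw [e2]
        simp only [mul_assoc]
      · rw [hpuv]
        simp
  refine infinite_core hlet' hX hY !![2 * (k : ℤ) + 1, 1; 1, 0] !![1, 1; -1, 0]
    !![(2 * (k : ℤ) + 1) ^ 2, 4 * k + 1; 4 * k + 3, 4] (imat h) ?_ hsymm hWm hXm hYm ?_ ?_ ?_
    hdiff hδ
  · ext i j
    fin_cases i <;> fin_cases j <;> simp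
  · simp [Matrix.det_fin_two]
  · rw [Matrix.det_fin_two]
    simp
    ring
  · intro R hR
    have h01 : R 1 0 = R 0 1 := by
      have := congrFun (congrFun hR 0) 1
      rwa [Matrix.transpose_apply] at this
    simp only [Matrix.trace_fin_two, Matrix.mul_apply, Fin.sum_univ_two, Matrix.of_apply,
      Matrix.cons_val', Matrix.cons_val_zero, Matrix.cons_val_one, Matrix.cons_val_fin_one, h01]
    ring

end Pool.Agent.BCF
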