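import Pool.Agent.Work.MP_612dae_nt.AllFields

/-!
# Every real quadratic field: infinitely many periodic continued fractions bounded by `bnd δ`
-/

namespace Pool.Agent.BCF

open Matrix

/-- the bound: `⌊√δ⌋ + 2` for `δ` congruent to `1` modulo `4`, and `2 ⌊√δ⌋ + 1` otherwise -/
def bnd (δ : ℕ) : ℕ := if δ % 4 = 1 then Nat.sqrt δ + 2 else 2 * Nat.sqrt δ + 1

theorem pset_mono {m m' δ : ℕ} (h : m ≤ m') : pset m δ ⊆ pset m' δ := by
  rintro x ⟨⟨hp, hb⟩, hx⟩
  refine ⟨⟨hp, fun n => ⟨(hb n).1, (hb n).2.trans ?_⟩⟩, hx⟩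
  exact_mod_cast h

/-- the cycle of the principal class of discriminant `D` -/
theorem exists_cycle {D : ℕ} (hD : ¬ IsSquare D) (h4 : D % 4 = 0 ∨ D % 4 = 1) :
    ∃ (x Y : ℕ) (h : List ℕ), 1 ≤ x ∧ x ^ 2 ≤ D ∧ D < (x + 2) ^ 2 ∧ x % 2 = D % 2 ∧ h ≠ [] ∧
      (∀ a ∈ x :: h, 1 ≤ a ∧ a ≤ x) ∧ (imat h).transpose = imat h ∧ h.reverse = h ∧
      (imat (x :: h)).trace ^ 2 - 4 * (imat (x :: h)).det = D * (2 * (Y : ℤ)) ^ 2 := by
  obtain ⟨x, E, hx, hE, hDx, hDx2⟩ := exists_center hD h4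
  obtain ⟨Y, Q, R, hY, hQ, hQY, hRQ, hdet, hR⟩ := exists_unit hD hx hE hDx hDx2
  obtain ⟨h, hne, hpos, hmat⟩ := exists_word Q (p := 2 * Y) (q := Q) (s := R) hQY hQY hRQ hRQ
    hQ hQ (Or.inr (by
      have : (2 * (Y : ℤ)) * R + 1 = Q * Q := by exact_mod_cast hdet
      push_cast
      linarith))
  have hpos' : ∀ a ∈ x :: h, 1 ≤ a := by
    intro a ha
    rcases List.mem_cons.1 ha with rfl | ha
    · exact hx
    · exact hpos a ha
  have hle := letters_le hY hDx hDx2 hR hne hpos' hmat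
  have hsymm : (mat h).transpose = mat h := by
    rw [hmat]
    ext i j
    fin_cases i <;> fin_cases j <;> rfl
  refine ⟨x, Y, h, hx, by omega, hDx2, ?_, hne, fun a ha => ⟨hpos' a ha, hle a ha⟩, ?_, ?_, ?_⟩
  · have h1 : x ^ 2 % 2 = x % 2 := by
      rcases Nat.mod_two_eq_zero_or_one x with h | h
      · rw [Nat.pow_mod, h]
      · rw [Nat.pow_mod, h]
    omega
  · rw [← imat_reverse]
    unfold imat
    rw [mat_reverse, hsymm]
  · apply mat_inj _ hpos
    · rw [mat_reverse, hsymm]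
    · intro b hb
      exact hpos b (List.mem_reverse.1 hb)
  · have e00 := mat00 x h
    have e01 := mat01 x h
    have e10 := mat10 x h
    have e11 := mat11 x h
    rw [hmat] at e00 e01 e10 e11
    rw [Matrix.trace_fin_two, Matrix.det_fin_two, imat_apply, imat_apply, imat_apply, imat_apply,
      e00, e01, e10, e11]
    simp only [Matrix.of_apply, Matrix.cons_val', Matrix.cons_val_zero, Matrix.cons_val_one,
      Matrix.cons_val_fin_one]
    have f1 : (x : ℤ) * Q + R = 2 * E * Y := by exact_mod_cast hR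
    have f2 : (2 * (Y : ℤ)) * R + 1 = Q * Q := by exact_mod_cast hdet
    have f3 : (D : ℤ) = (x : ℤ) ^ 2 + 4 * E := by exact_mod_cast hDx
    rw [f3]
    push_cast
    linear_combination (8 * (Y : ℤ)) * f1

/-- **every real quadratic field contains infinitely many periodic continued fractions bounded by
`bnd δ`** -/
theorem all_fields {δ : ℕ} (hδ : ¬ IsSquare δ) : (pset (bnd δ) δ).Infinite := by
  by_cases h1 : δ % 4 = 1
  · obtain ⟨x, Y, h, hx, hxD, hDx, hpar, hne, hlet, hsymm, hpal, hdisc⟩ :=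
      exists_cycle hδ (Or.inr h1)
    obtain ⟨k, rfl⟩ : ∃ k, x = 2 * k + 1 := ⟨x / 2, by omega⟩
    have hs : 2 * k + 1 ≤ Nat.sqrt δ := by
      rw [Nat.le_sqrt, ← sq]
      exact hxD
    have hb : bnd δ = Nat.sqrt δ + 2 := by rw [bnd, if_pos h1]
    rw [hb]
    apply odd_case (k := k) _ hne hlet hsymm hpal hdisc
    rcases Nat.eq_zero_or_pos k with hk | hk
    · right
      refine ⟨hk, ?_⟩
      subst hk
      have h5 : δ = 5 := by
        have : δ < 9 := by simpa using hDx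
        have h6 : δ ≠ 1 := fun h => hδ ⟨1, by rw [h]⟩
        omega
      subst h5
      have : 2 ≤ Nat.sqrt 5 := by rw [Nat.le_sqrt]; norm_num
      omega
    · left
      omega
  · have h4δ : ¬ IsSquare (4 * δ) := by
      rintro ⟨r, hr⟩
      have h2 : 2 ∣ r := by
        have h3 : 2 ∣ r * r := ⟨2 * δ, by omega⟩
        rcases (Nat.Prime.dvd_mul Nat.prime_two).1 h3 with h | h
        · exact h
        · exact h
      obtain ⟨t, rfl⟩ := h2
      exact hδ ⟨t, by nlinarith⟩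
    obtain ⟨x, Y, h, hx, hxD, hDx, hpar, hne, hlet, hsymm, hpal, hdisc⟩ :=
      exists_cycle h4δ (Or.inl (by omega))
    obtain ⟨b, rfl⟩ : ∃ b, x = 2 * b := ⟨x / 2, by omega⟩
    have hs : b ≤ Nat.sqrt δ := by
      rw [Nat.le_sqrt, ← sq]
      nlinarith
    have hb : bnd δ = 2 * Nat.sqrt δ + 1 := by rw [bnd, if_neg h1]
    rw [hb]
    have h6 := even_case (δ := δ) (b := b) (by omega) hne hlet hsymm (y := 4 * (Y : ℤ)) (by
      rw [hdisc]
      push_cast
      ring)
    exact h6.mono (pset_mono (by omega))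

end Pool.Agent.BCF
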