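import Pool.Agent.Work.MP_612dae_nt.AlmPig

/-!
# The average of `tset`
-/

namespace Pool.Agent.BCF

open Finset

theorem card_pairs (M : ℕ) :
    (((range (M + 1)) ×ˢ (Icc (-(M : ℤ)) M)).filter
      (fun p => p.2 ≠ 0 ∧ 2 ^ p.1 * p.2.natAbs ≤ M)).card ≤ 4 * M := by
  classical
  have h1 : (((range (M + 1)) ×ˢ (Icc (-(M : ℤ)) M)).filter
      (fun p => p.2 ≠ 0 ∧ 2 ^ p.1 * p.2.natAbs ≤ M)).card ≤
      ∑ j ∈ range (M + 1), 2 * (M / 2 ^ j) := by
    have h2 : (((range (M + 1)) ×ˢ (Icc (-(M : ℤ)) M)).filter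
        (fun p => p.2 ≠ 0 ∧ 2 ^ p.1 * p.2.natAbs ≤ M)).card ≤
        ((range (M + 1)).sigma
          (fun j => (Icc (-((M / 2 ^ j : ℕ) : ℤ)) (M / 2 ^ j : ℕ)).erase 0)).card := by
      apply Finset.card_le_card_of_injOn (fun q : ℕ × ℤ => (⟨q.1, q.2⟩ : (_ : ℕ) × ℤ))
      · rintro ⟨j, n⟩ hp
        rw [Finset.mem_coe] at hp ⊢
        rw [Finset.mem_filter, Finset.mem_product, Finset.mem_range] at hp
        obtain ⟨⟨hj, -⟩, hn, hle⟩ := hp
        simp only at hj hn hle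
        have h3 : n.natAbs ≤ M / 2 ^ j := by
          rw [Nat.le_div_iff_mul_le (by positivity), mul_comm]
          exact hle
        rw [Finset.mem_sigma, Finset.mem_range, Finset.mem_erase, Finset.mem_Icc]
        have h4 : -((M / 2 ^ j : ℕ) : ℤ) ≤ n := by omega
        have h5 : n ≤ ((M / 2 ^ j : ℕ) : ℤ) := by omega
        exact ⟨hj, hn, h4, h5⟩
      · rintro ⟨j, n⟩ _ ⟨j', n'⟩ _ h
        simp only [Sigma.mk.injEq, heq_eq_eq] at h
        obtain ⟨rfl, rfl⟩ := h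
        rfl
    refine h2.trans ?_
    rw [Finset.card_sigma]
    apply Finset.sum_le_sum
    intro j _
    generalize M / 2 ^ j = q
    rw [Finset.card_erase_of_mem (by rw [Finset.mem_Icc]; omega), Int.card_Icc]
    omega
  have h4 : ∀ J : ℕ, ∑ j ∈ range J, 2 * (M / 2 ^ j) + 4 * (M / 2 ^ J) ≤ 4 * M := by
    intro J
    induction J with
    | zero => simp
    | succ J ih =>
        rw [Finset.sum_range_succ]
        have h5 : 2 * (M / 2 ^ (J + 1)) ≤ M / 2 ^ J := by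
          rw [pow_succ, ← Nat.div_div_eq_div_mul]
          omega
        omega
  have := h4 (M + 1)
  omega

theorem card_class {X m : ℕ} (hm : 0 < m) (v : ℕ) :
    (((Icc 1 X).filter (fun x => x ≡ v [MOD m])).card : ℝ) ≤ X / m + 1 := by
  have hmr : (0 : ℝ) < m := by exact_mod_cast hm
  have h1 : (Icc 1 X).filter (fun x => x ≡ v [MOD m]) ⊆
      ((Icc 0 (X / m)).image (fun i => i * m + v % m)) := by
    intro x hx
    rw [Finset.mem_filter, Finset.mem_Icc] at hx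
    obtain ⟨⟨_, h2⟩, h3⟩ := hx
    rw [Finset.mem_image]
    refine ⟨x / m, ?_, ?_⟩
    · rw [Finset.mem_Icc]
      exact ⟨Nat.zero_le _, Nat.div_le_div_right h2⟩
    · have h4 : x % m = v % m := h3
      rw [← h4]
      exact Nat.div_add_mod' x m
  have h5 : ((Icc 1 X).filter (fun x => x ≡ v [MOD m])).card ≤ X / m + 1 := by
    refine (Finset.card_le_card h1).trans (Finset.card_image_le.trans ?_)
    rw [Nat.card_Icc, Nat.sub_zero]
  have h6 : ((X / m : ℕ) : ℝ) ≤ (X : ℝ) / m := Nat.cast_div_le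
  have h7 : (((Icc 1 X).filter (fun x => x ≡ v [MOD m])).card : ℝ) ≤ ((X / m + 1 : ℕ) : ℝ) := by
    exact_mod_cast h5
  push_cast at h7
  linarith

theorem sum_tset (M X : ℕ) :
    ∑ δ ∈ Icc 1 X, ((tset M δ).card : ℝ) ≤ 4 * M * (X + M) := by
  classical
  set A : Finset (ℕ × ℤ) := ((range (M + 1)) ×ˢ (Icc (-(M : ℤ)) M)).filter
    (fun p => p.2 ≠ 0 ∧ 2 ^ p.1 * p.2.natAbs ≤ M) with hA
  have h1 : ∀ δ : ℕ, (tset M δ).card ≤
      ∑ p ∈ A, ((range p.2.natAbs).filter (fun ρ : ℕ => p.2 ∣ (ρ : ℤ) ^ 2 - δ)).card := by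
    intro δ
    rw [← Finset.card_sigma]
    apply Finset.card_le_card_of_injOn
      (fun q : ℕ × ℤ × ℕ => (⟨(q.1, q.2.1), q.2.2⟩ : (_ : ℕ × ℤ) × ℕ))
    · rintro ⟨j, n, ρ⟩ hq
      rw [Finset.mem_coe] at hq ⊢
      unfold tset at hq
      rw [Finset.mem_filter, Finset.mem_product, Finset.mem_product] at hq
      obtain ⟨⟨k1, k2, k3⟩, k4, k5, k6, k7⟩ := hq
      rw [Finset.mem_sigma, hA, Finset.mem_filter, Finset.mem_product, Finset.mem_filter,
        Finset.mem_range (m := ρ)]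
      exact ⟨⟨⟨k1, k2⟩, k4, k5⟩, k6, k7⟩
    · rintro ⟨j, n, ρ⟩ _ ⟨j', n', ρ'⟩ _ h
      simp only [Sigma.mk.injEq, Prod.mk.injEq, heq_eq_eq] at h
      obtain ⟨⟨rfl, rfl⟩, rfl⟩ := h
      rfl
  have h2 : ∀ p ∈ A, ∑ δ ∈ Icc 1 X,
      (((range p.2.natAbs).filter (fun ρ : ℕ => p.2 ∣ (ρ : ℤ) ^ 2 - δ)).card : ℝ) ≤ X + M := by
    rintro ⟨j, n⟩ hp
    rw [hA, Finset.mem_filter] at hp
    obtain ⟨-, hn, hle⟩ := hp
    simp only at hn hle ⊢
    have hm : 0 < n.natAbs := Int.natAbs_pos.2 hn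
    have hmM : n.natAbs ≤ M := (Nat.le_mul_of_pos_left _ (by positivity)).trans hle
    have h3 : ∑ δ ∈ Icc 1 X,
        (((range n.natAbs).filter (fun ρ : ℕ => n ∣ (ρ : ℤ) ^ 2 - δ)).card : ℝ) =
        ∑ ρ ∈ range n.natAbs, (((Icc 1 X).filter (fun δ : ℕ => n ∣ (ρ : ℤ) ^ 2 - δ)).card : ℝ) := by
      simp only [Finset.card_filter, Nat.cast_sum]
      rw [Finset.sum_comm]
    rw [h3]
    have h4 : ∀ ρ ∈ range n.natAbs,
        (((Icc 1 X).filter (fun δ : ℕ => n ∣ (ρ : ℤ) ^ 2 - δ)).card : ℝ) ≤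
          X / n.natAbs + 1 := by
      intro ρ _
      refine le_trans ?_ (card_class hm (ρ ^ 2))
      have : (Icc 1 X).filter (fun δ : ℕ => n ∣ (ρ : ℤ) ^ 2 - δ) ⊆
          (Icc 1 X).filter (fun x => x ≡ ρ ^ 2 [MOD n.natAbs]) := by
        intro δ hδ
        rw [Finset.mem_filter] at hδ ⊢
        refine ⟨hδ.1, ?_⟩
        rw [Nat.modEq_iff_dvd]
        push_cast
        rw [abs_dvd]
        exact hδ.2
      exact_mod_cast Finset.card_le_card this
    refine (Finset.sum_le_sum h4).trans ?_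
    rw [Finset.sum_const, Finset.card_range, nsmul_eq_mul]
    have hmr : (0 : ℝ) < n.natAbs := by exact_mod_cast hm
    have hmMr : (n.natAbs : ℝ) ≤ M := by exact_mod_cast hmM
    have : (n.natAbs : ℝ) * (X / n.natAbs + 1) = X + n.natAbs := by
      field_simp
    rw [this]
    linarith
  calc ∑ δ ∈ Icc 1 X, ((tset M δ).card : ℝ)
      ≤ ∑ δ ∈ Icc 1 X, ∑ p ∈ A,
          (((range p.2.natAbs).filter (fun ρ : ℕ => p.2 ∣ (ρ : ℤ) ^ 2 - δ)).card : ℝ) := by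
        apply Finset.sum_le_sum
        intro δ _
        exact_mod_cast h1 δ
    _ = ∑ p ∈ A, ∑ δ ∈ Icc 1 X,
          (((range p.2.natAbs).filter (fun ρ : ℕ => p.2 ∣ (ρ : ℤ) ^ 2 - δ)).card : ℝ) :=
        Finset.sum_comm
    _ ≤ ∑ p ∈ A, ((X : ℝ) + M) := Finset.sum_le_sum h2
    _ = A.card * (X + M) := by rw [Finset.sum_const, nsmul_eq_mul]
    _ ≤ 4 * M * (X + M) := by
        apply mul_le_mul_of_nonneg_right _ (by positivity)
        exact_mod_cast card_pairs M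

end Pool.Agent.BCF
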