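import Pool.Agent.Work.MP_612dae_nt.AlmGood

/-!
# Counting the exceptional fields up to `X`
-/

namespace Pool.Agent.BCF

open Finset

theorem exists_M (X : ℕ) (hX : 1 ≤ X) : ∃ M : ℕ, 9 * X ≤ M ^ 2 ∧ (M : ℝ) ≤ 6 * √(X : ℝ) := by
  refine ⟨3 * (Nat.sqrt X + 1), ?_, ?_⟩
  · have h1 : X < (Nat.sqrt X + 1) * (Nat.sqrt X + 1) := Nat.lt_succ_sqrt X
    nlinarith
  · have h1 : (Nat.sqrt X : ℝ) ≤ √(X : ℝ) := Real.nat_sqrt_le_real_sqrt
    have h2 : 1 ≤ √(X : ℝ) := Real.one_le_sqrt.2 (by exact_mod_cast hX)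
    push_cast
    linarith

theorem exists_k (X : ℕ) (hX : 2 ≤ X) : ∃ k : ℕ, X ≤ 2 ^ k ∧ 2 ^ k ≤ 2 * X := by
  refine ⟨Nat.clog 2 X, Nat.le_pow_clog (by norm_num) X, ?_⟩
  have h1 : 1 ≤ Nat.clog 2 X := Nat.clog_pos (by norm_num) hX
  have h2 : 2 ^ (Nat.clog 2 X - 1) < X := by
    rw [← Nat.lt_clog_iff_pow_lt (by norm_num)]
    omega
  have h3 : 2 ^ Nat.clog 2 X = 2 * 2 ^ (Nat.clog 2 X - 1) := by
    conv_lhs => rw [show Nat.clog 2 X = (Nat.clog 2 X - 1) + 1 by omega, pow_succ]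
    ring
  omega

/-- a squarefree number outside of the three exceptional sets -/
theorem good_field {X δ M : ℕ} {c η : ℝ} (hX : 3 ≤ X) (hc : 0 ≤ c) (hM : 9 * X ≤ M ^ 2)
    (hi : 213000 * (6 + 3 * Real.log X) ≤
      1 / 2 * (√(X : ℝ) / (Real.log X ^ (η / 2) * Real.log X ^ c)))
    (hii : 426000 * (√(X : ℝ) * Real.log X ^ η / Real.log X ^ ((1 - η) * Real.log 2)) ≤
      1 / 2 * (√(X : ℝ) / (Real.log X ^ (η / 2) * Real.log X ^ c)))
    (hsq : Squarefree δ) (h1 : 1 < δ) (hδX : δ ≤ X)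
    (hE1 : ((tset M δ).card : ℝ) ≤ √(X : ℝ) * Real.log X ^ η)
    (hE2 : (1 - η) * Real.log (Real.log X) < δ.primeFactors.card)
    (hE3 : (X : ℝ) / Real.log X ^ η < δ) :
    (pset ⌊√(δ : ℝ) / Real.log δ ^ c⌋₊ δ).Infinite := by
  have hX0 : (0 : ℝ) < X := by
    have : 0 < X := by omega
    exact_mod_cast this
  have hδ1 : (1 : ℝ) < δ := by exact_mod_cast h1
  have hδ0 : (0 : ℝ) < δ := by linarith
  have hδXr : (δ : ℝ) ≤ X := by exact_mod_cast hδX
  set L : ℝ := Real.log X with hL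
  have hL1 : 1 ≤ L := by
    rw [hL, Real.le_log_iff_exp_le hX0]
    have h2 := Real.exp_one_lt_d9
    have h3 : (3 : ℝ) ≤ X := by exact_mod_cast hX
    linarith
  have hL0 : 0 < L := by linarith
  have hsX : 0 < √(X : ℝ) := Real.sqrt_pos.2 hX0
  -- the number of divisors
  have hD : (δ.divisors.card : ℝ) = 2 ^ (δ.primeFactors.card : ℝ) := by
    rw [card_divisors_sf hsq, Real.rpow_natCast]
    push_cast
    rfl
  set D : ℝ := (δ.divisors.card : ℝ) with hDd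
  have hD0 : 0 < D := by
    rw [hD]
    positivity
  have hDge : L ^ ((1 - η) * Real.log 2) ≤ D := by
    rw [hD]
    have e1 : L ^ ((1 - η) * Real.log 2) = 2 ^ ((1 - η) * Real.log L) := by
      rw [Real.rpow_def_of_pos hL0, Real.rpow_def_of_pos (by norm_num : (0 : ℝ) < 2)]
      congr 1
      ring
    rw [e1]
    exact Real.rpow_le_rpow_of_exponent_le (by norm_num) hE2.le
  set Q : ℝ := √(X : ℝ) * L ^ η with hQ
  have hQ0 : 0 < Q := by positivity
  set K : ℕ := ⌊Q / D⌋₊ + 1 with hK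
  have hKD : Q < D * K := by
    have : Q / D < K := by
      rw [hK]
      push_cast
      exact Nat.lt_floor_add_one _
    rw [div_lt_iff₀ hD0] at this
    linarith
  have hbig : (tset M δ).card < δ.divisors.card * K := by
    have : ((tset M δ).card : ℝ) < δ.divisors.card * K := lt_of_le_of_lt hE1 hKD
    exact_mod_cast this
  have hKle : (K : ℝ) ≤ Q / L ^ ((1 - η) * Real.log 2) + 1 := by
    have e1 : ((⌊Q / D⌋₊ : ℕ) : ℝ) ≤ Q / D := Nat.floor_le (by positivity)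
    have e2 : Q / D ≤ Q / (L ^ ((1 - η) * Real.log 2)) :=
      div_le_div_of_nonneg_left hQ0.le (by positivity) hDge
    rw [hK]
    push_cast
    linarith
  obtain ⟨k₀, hk, hk'⟩ := exists_k X (by omega)
  refine (good hsq h1 hδX hM hk hk' hbig).mono (pset_mono (Nat.floor_le_floor ?_))
  rw [← hL]
  have e4 : √(X : ℝ) / (L ^ (η / 2) * L ^ c) ≤ √(δ : ℝ) / Real.log δ ^ c := by
    have f1 : √(X : ℝ) / L ^ (η / 2) ≤ √(δ : ℝ) := by
      apply Real.le_sqrt_of_sq_le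
      rw [div_pow, Real.sq_sqrt hX0.le, ← Real.rpow_natCast (L ^ (η / 2)) 2,
        ← Real.rpow_mul hL0.le]
      have : η / 2 * ((2 : ℕ) : ℝ) = η := by
        push_cast
        ring
      rw [this]
      exact hE3.le
    have f2 : 0 < Real.log δ := Real.log_pos hδ1
    have f3 : Real.log δ ^ c ≤ L ^ c :=
      Real.rpow_le_rpow f2.le (Real.log_le_log hδ0 hδXr) hc
    have f4 : √(X : ℝ) / (L ^ (η / 2) * L ^ c) = √(X : ℝ) / L ^ (η / 2) / L ^ c := by
      rw [div_div]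
    rw [f4]
    exact div_le_div₀ (Real.sqrt_nonneg _) f1 (Real.rpow_pos_of_pos f2 _) f3
  refine le_trans ?_ e4
  linarith

theorem card_small (X : ℕ) {Y : ℝ} (hY : 0 ≤ Y) :
    (((Icc 1 X).filter (fun δ : ℕ => (δ : ℝ) ≤ Y)).card : ℝ) ≤ Y := by
  have h1 : (Icc 1 X).filter (fun δ : ℕ => (δ : ℝ) ≤ Y) ⊆ Icc 1 ⌊Y⌋₊ := by
    intro δ hδ
    rw [Finset.mem_filter, Finset.mem_Icc] at hδ
    rw [Finset.mem_Icc]
    exact ⟨hδ.1.1, Nat.le_floor hδ.2⟩
  have h2 := Finset.card_le_card h1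
  rw [Nat.card_Icc, Nat.add_sub_cancel] at h2
  have h3 : (((Icc 1 X).filter (fun δ : ℕ => (δ : ℝ) ≤ Y)).card : ℝ) ≤ (⌊Y⌋₊ : ℝ) := by
    exact_mod_cast h2
  exact h3.trans (Nat.floor_le hY)

theorem count_le {X : ℕ} {c η C : ℝ} (hX : 3 ≤ X) (hc : 0 ≤ c) (hη : 0 < η)
    (hη1 : η < 1)
    (hC : ∑ p ∈ (Icc 0 X).filter Nat.Prime, (1 : ℝ) / p ≤ Real.log (Real.log X) + C)
    (hi : 213000 * (6 + 3 * Real.log X) ≤
      1 / 2 * (√(X : ℝ) / (Real.log X ^ (η / 2) * Real.log X ^ c)))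
    (hii : 426000 * (√(X : ℝ) * Real.log X ^ η / Real.log X ^ ((1 - η) * Real.log 2)) ≤
      1 / 2 * (√(X : ℝ) / (Real.log X ^ (η / 2) * Real.log X ^ c))) :
    (Set.ncard {δ : ℕ | 1 < δ ∧ δ ≤ X ∧ Squarefree δ ∧
      ¬ (pset ⌊√(δ : ℝ) / Real.log δ ^ c⌋₊ δ).Infinite} : ℝ) ≤
      169 * X / Real.log X ^ η +
        3 * Real.exp ((1 - η) * C) * X / Real.log X ^ (η + (1 - η) * Real.log (1 - η)) := by
  classical
  have hX0 : (0 : ℝ) < X := by
    have : 0 < X := by omega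
    exact_mod_cast this
  have hX1 : (1 : ℝ) ≤ X := by
    have : 1 ≤ X := by omega
    exact_mod_cast this
  set L : ℝ := Real.log X with hL
  have hL1 : 1 ≤ L := by
    rw [hL, Real.le_log_iff_exp_le hX0]
    have h2 := Real.exp_one_lt_d9
    have h3 : (3 : ℝ) ≤ X := by exact_mod_cast hX
    linarith
  have hL0 : 0 < L := by linarith
  have hsX : 0 < √(X : ℝ) := Real.sqrt_pos.2 hX0
  have hz : 0 < 1 - η := by linarith
  obtain ⟨M, hM, hM6⟩ := exists_M X (by omega)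
  set E1 := (Icc 1 X).filter (fun δ => √(X : ℝ) * L ^ η < ((tset M δ).card : ℝ)) with hE1
  set E2 := (Icc 1 X).filter (fun δ => Squarefree δ ∧
      (δ.primeFactors.card : ℝ) ≤ (1 - η) * Real.log L) with hE2
  set E3 := (Icc 1 X).filter (fun δ : ℕ => (δ : ℝ) ≤ X / L ^ η) with hE3
  have hsub : {δ : ℕ | 1 < δ ∧ δ ≤ X ∧ Squarefree δ ∧
      ¬ (pset ⌊√(δ : ℝ) / Real.log δ ^ c⌋₊ δ).Infinite} ⊆ ((E1 ∪ E2 ∪ E3 : Finset ℕ) : Set ℕ) := by
    rintro δ ⟨h1, h2, hsq, hbad⟩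
    by_contra hcon
    apply hbad
    rw [Finset.mem_coe, Finset.mem_union, Finset.mem_union] at hcon
    push Not at hcon
    obtain ⟨⟨c1, c2⟩, c3⟩ := hcon
    have hmem : δ ∈ Icc 1 X := by
      rw [Finset.mem_Icc]
      omega
    rw [hE1, Finset.mem_filter, not_and, not_lt] at c1
    rw [hE2, Finset.mem_filter, not_and, not_and, not_le] at c2
    rw [hE3, Finset.mem_filter, not_and, not_le] at c3
    exact good_field hX hc hM hi hii hsq h1 h2 (c1 hmem) (c2 hmem hsq) (c3 hmem)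
  have h1 := Set.ncard_le_ncard hsub (Finset.finite_toSet _)
  rw [Set.ncard_coe_finset] at h1
  have h2 : (E1 ∪ E2 ∪ E3).card ≤ E1.card + E2.card + E3.card :=
    (Finset.card_union_le _ _).trans (Nat.add_le_add_right (Finset.card_union_le _ _) _)
  have h3 : (Set.ncard {δ : ℕ | 1 < δ ∧ δ ≤ X ∧ Squarefree δ ∧
      ¬ (pset ⌊√(δ : ℝ) / Real.log δ ^ c⌋₊ δ).Infinite} : ℝ) ≤
      (E1.card : ℝ) + E2.card + E3.card := by
    exact_mod_cast h1.trans h2
  have k1 : (E1.card : ℝ) ≤ 168 * X / L ^ η := by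
    refine (card_many (by positivity)).trans ?_
    rw [div_le_div_iff₀ (by positivity) (by positivity)]
    have f1 : √(X : ℝ) ≤ X := by
      rw [Real.sqrt_le_left hX0.le]
      nlinarith
    have f2 : (X : ℝ) + M ≤ 7 * X := by linarith
    have f3 : 4 * (M : ℝ) * (X + M) ≤ 4 * (6 * √(X : ℝ)) * (7 * X) := by gcongr
    calc 4 * (M : ℝ) * (X + M) * L ^ η ≤ 4 * (6 * √(X : ℝ)) * (7 * X) * L ^ η :=
          mul_le_mul_of_nonneg_right f3 (by positivity)
      _ = 168 * X * (√(X : ℝ) * L ^ η) := by ring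
  have k2 : (E2.card : ℝ) ≤ 3 * Real.exp ((1 - η) * C) * X /
      L ^ (η + (1 - η) * Real.log (1 - η)) := by
    refine (few_sf (by omega) hz (by linarith)).trans ?_
    have f1 : Real.exp ((1 - η) * ∑ p ∈ (Icc 0 X).filter Nat.Prime, (1 : ℝ) / p) ≤
        Real.exp ((1 - η) * C) * L ^ (1 - η) := by
      rw [Real.rpow_def_of_pos hL0, ← Real.exp_add]
      apply Real.exp_le_exp.2
      have := mul_le_mul_of_nonneg_left hC hz.le
      linarith
    have f2 : (1 - η) ^ ((1 - η) * Real.log L) = L ^ ((1 - η) * Real.log (1 - η)) := by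
      rw [Real.rpow_def_of_pos hz, Real.rpow_def_of_pos hL0]
      congr 1
      ring
    rw [f2, ← hL]
    have f3 : L ^ (η + (1 - η) * Real.log (1 - η)) * (L ^ (1 - η)) =
        L * L ^ ((1 - η) * Real.log (1 - η)) := by
      rw [← Real.rpow_add hL0]
      conv_rhs => rw [← Real.rpow_one L, ← Real.rpow_mul hL0.le, one_mul, ← Real.rpow_add hL0]
      congr 1
      ring
    have f4 : 0 < L ^ ((1 - η) * Real.log (1 - η)) := Real.rpow_pos_of_pos hL0 _
    have f5 : 0 < L ^ (η + (1 - η) * Real.log (1 - η)) := Real.rpow_pos_of_pos hL0 _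
    calc 3 * (X / L) * Real.exp ((1 - η) * ∑ p ∈ (Icc 0 X).filter Nat.Prime, (1 : ℝ) / p) /
          L ^ ((1 - η) * Real.log (1 - η))
        ≤ 3 * (X / L) * (Real.exp ((1 - η) * C) * L ^ (1 - η)) /
          L ^ ((1 - η) * Real.log (1 - η)) := by gcongr
      _ = 3 * Real.exp ((1 - η) * C) * X / L ^ (η + (1 - η) * Real.log (1 - η)) := by
          rw [div_eq_div_iff f4.ne' f5.ne']
          have : 3 * (X / L) * (Real.exp ((1 - η) * C) * L ^ (1 - η)) *
              L ^ (η + (1 - η) * Real.log (1 - η)) =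
              3 * (X / L) * Real.exp ((1 - η) * C) *
              (L ^ (η + (1 - η) * Real.log (1 - η)) * L ^ (1 - η)) := by ring
          rw [this, f3]
          field_simp
  have k3 : (E3.card : ℝ) ≤ X / L ^ η := card_small X (by positivity)
  have k4 : 169 * (X : ℝ) / L ^ η = 168 * X / L ^ η + X / L ^ η := by ring
  rw [k4]
  linarith

end Pool.Agent.BCF
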