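import Mathlib

/-!
# Two ambiguous forms with the same root give a unit

For `δ = g a₁ a₂ h` consider the forms `g a₁ x² - a₂ h y²` and `g a₂ x² - a₁ h y²`.  If they take
the same value `n` at two primitive vectors with the same root modulo `n`, the quotient of the
two vectors is `P √(a₁ a₂) + Q √(g h)` with integers `P`, `Q`.
-/

namespace Pool.Agent.BCF

theorem coll {g a₁ a₂ h n r x y x' y' : ℤ} (hgh : IsCoprime g h) (haa : IsCoprime a₁ a₂)
    (hn : n ≠ 0)
    (h1 : g * a₁ * x ^ 2 - a₂ * h * y ^ 2 = n) (h2 : g * a₂ * x' ^ 2 - a₁ * h * y' ^ 2 = n)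
    (r1 : n ∣ r * x - a₂ * h * y) (r2 : n ∣ r * y - g * a₁ * x)
    (r3 : n ∣ r * x' - a₁ * h * y') (r4 : n ∣ r * y' - g * a₂ * x') :
    ∃ P Q : ℤ, g * x * x' - h * y * y' = n * P ∧ a₁ * x * y' - a₂ * x' * y = n * Q ∧
      a₁ * a₂ * P ^ 2 - g * h * Q ^ 2 = 1 := by
  have e1 : n ∣ g * x * x' - h * y * y' := by
    have f1 : n ∣ a₁ * (g * x * x' - h * y * y') := by
      have : a₁ * (g * x * x' - h * y * y') =
          (r * x' - a₁ * h * y') * y - (r * y - g * a₁ * x) * x' := by ring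
      rw [this]
      exact dvd_sub (Dvd.dvd.mul_right r3 _) (Dvd.dvd.mul_right r2 _)
    have f2 : n ∣ a₂ * (g * x * x' - h * y * y') := by
      have : a₂ * (g * x * x' - h * y * y') =
          (r * x - a₂ * h * y) * y' - (r * y' - g * a₂ * x') * x := by ring
      rw [this]
      exact dvd_sub (Dvd.dvd.mul_right r1 _) (Dvd.dvd.mul_right r4 _)
    obtain ⟨u, v, huv⟩ := haa
    have : g * x * x' - h * y * y' =
        u * (a₁ * (g * x * x' - h * y * y')) + v * (a₂ * (g * x * x' - h * y * y')) := by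
      linear_combination (-(g * x * x' - h * y * y')) * huv
    rw [this]
    exact dvd_add (Dvd.dvd.mul_left f1 _) (Dvd.dvd.mul_left f2 _)
  have e2 : n ∣ a₁ * x * y' - a₂ * x' * y := by
    have f1 : n ∣ g * (a₁ * x * y' - a₂ * x' * y) := by
      have : g * (a₁ * x * y' - a₂ * x' * y) =
          (r * y' - g * a₂ * x') * y - (r * y - g * a₁ * x) * y' := by ring
      rw [this]
      exact dvd_sub (Dvd.dvd.mul_right r4 _) (Dvd.dvd.mul_right r2 _)
    have f2 : n ∣ h * (a₁ * x * y' - a₂ * x' * y) := by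
      have : h * (a₁ * x * y' - a₂ * x' * y) =
          (r * x - a₂ * h * y) * x' - (r * x' - a₁ * h * y') * x := by ring
      rw [this]
      exact dvd_sub (Dvd.dvd.mul_right r1 _) (Dvd.dvd.mul_right r3 _)
    obtain ⟨u, v, huv⟩ := hgh
    have : a₁ * x * y' - a₂ * x' * y =
        u * (g * (a₁ * x * y' - a₂ * x' * y)) + v * (h * (a₁ * x * y' - a₂ * x' * y)) := by
      linear_combination (-(a₁ * x * y' - a₂ * x' * y)) * huv
    rw [this]
    exact dvd_add (Dvd.dvd.mul_left f1 _) (Dvd.dvd.mul_left f2 _)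
  obtain ⟨P, hP⟩ := e1
  obtain ⟨Q, hQ⟩ := e2
  refine ⟨P, Q, hP, hQ, ?_⟩
  have h3 : n ^ 2 * (a₁ * a₂ * P ^ 2 - g * h * Q ^ 2) = n ^ 2 * 1 := by
    have : n ^ 2 * (a₁ * a₂ * P ^ 2 - g * h * Q ^ 2) =
        a₁ * a₂ * (n * P) ^ 2 - g * h * (n * Q) ^ 2 := by ring
    rw [this, ← hP, ← hQ]
    linear_combination (g * a₂ * x' ^ 2 - a₁ * h * y' ^ 2) * h1 + n * h2
  exact mul_left_cancel₀ (pow_ne_zero 2 hn) h3

/-- the root attached to a primitive vector -/
theorem exists_root {d e x y : ℤ} (hxy : IsCoprime x y) :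
    ∃ r : ℤ, (d * x ^ 2 - e * y ^ 2) ∣ r * x - e * y ∧ (d * x ^ 2 - e * y ^ 2) ∣ r * y - d * x ∧
      (d * x ^ 2 - e * y ^ 2) ∣ r ^ 2 - d * e := by
  obtain ⟨v, u, huv⟩ := hxy
  -- `x v + y u = 1`
  have k1 : (d * x ^ 2 - e * y ^ 2) ∣ (d * x * u + e * y * v) * x - e * y :=
    ⟨u, by linear_combination (e * y) * huv⟩
  have k2 : (d * x ^ 2 - e * y ^ 2) ∣ (d * x * u + e * y * v) * y - d * x :=
    ⟨-v, by linear_combination (d * x) * huv⟩
  refine ⟨d * x * u + e * y * v, k1, k2, ?_⟩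
  have : (d * x * u + e * y * v) ^ 2 - d * e =
      ((d * x * u + e * y * v) * x - e * y) * (d * u) +
      ((d * x * u + e * y * v) * y - d * x) * (e * v) := by
    linear_combination (d * e) * huv
  rw [this]
  exact dvd_add (Dvd.dvd.mul_right k1 _) (Dvd.dvd.mul_right k2 _)

theorem coll_triv {g h n x y x' y' P : ℤ} (hn : n ≠ 0)
    (h1 : g * x ^ 2 - h * y ^ 2 = n)
    (e1 : g * x * x' - h * y * y' = n * P) (e2 : x * y' - x' * y = 0) :
    x' = P * x ∧ y' = P * y := by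
  have k1 : n * x' = n * (P * x) := by
    linear_combination (-x') * h1 + x * e1 + (h * y) * e2
  have k2 : n * y' = n * (P * y) := by
    linear_combination (-y') * h1 + y * e1 + (g * x) * e2
  exact ⟨mul_left_cancel₀ hn k1, mul_left_cancel₀ hn k2⟩

end Pool.Agent.BCF
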