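import Pool.Agent.Work.MP_612dae_nt.AlmCnt
import Pool.Agent.Work.MP_e4117e_nt.Mertens2

/-!
# Almost all real quadratic fields
-/

namespace Pool.Agent.BCF

open Finset Filter Topology

theorem rpow_div_le {X L B α κ : ℝ} (hX : 0 ≤ X) (hL : 0 < L)
    (h : 2 * B ≤ L ^ (α - κ)) : B * X / L ^ α ≤ 1 / 2 * (X / L ^ κ) := by
  have h1 : L ^ α = L ^ (α - κ) * L ^ κ := by
    rw [← Real.rpow_add hL]
    congr 1
    ring
  have h2 : 0 < L ^ (α - κ) := Real.rpow_pos_of_pos hL _
  have h3 : 0 < L ^ κ := Real.rpow_pos_of_pos hL _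
  rw [h1, div_le_iff₀ (mul_pos h2 h3)]
  have h4 : 1 / 2 * (X / L ^ κ) * (L ^ (α - κ) * L ^ κ) = 1 / 2 * X * L ^ (α - κ) := by
    field_simp
  rw [h4]
  nlinarith

/-- **almost all real quadratic fields contain infinitely many periodic continued fractions
bounded by `√δ / (log δ) ^ c`, for every `c < log 2`** -/
theorem almost_all {c : ℝ} (hc : 0 ≤ c) (hc2 : c < Real.log 2) :
    ∃ κ : ℝ, 0 < κ ∧ ∀ᶠ X : ℕ in atTop,
      (Set.ncard {δ : ℕ | 1 < δ ∧ δ ≤ X ∧ Squarefree δ ∧
        ¬ (pset ⌊√(δ : ℝ) / Real.log δ ^ c⌋₊ δ).Infinite} : ℝ) ≤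
        X / Real.log X ^ κ := by
  obtain ⟨C, hC0, hC⟩ := Pool.Agent.Work.MP_e4117e_nt.mertens2
  set η : ℝ := (Real.log 2 - c) / 4 with hη
  have hη0 : 0 < η := by
    rw [hη]
    linarith
  have hl2 := Real.log_two_lt_d9
  have hη1 : η < 1 := by
    rw [hη]
    linarith
  have hcη : c = Real.log 2 - 4 * η := by
    rw [hη]
    ring
  have hz : 0 < 1 - η := by linarith
  set q : ℝ := η + (1 - η) * Real.log (1 - η) with hq
  have hq0 : 0 < q := by
    have h1 : Real.log (1 - η)⁻¹ < (1 - η)⁻¹ - 1 := by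
      apply Real.log_lt_sub_one_of_pos (by positivity)
      intro h
      rw [inv_eq_one] at h
      linarith
    rw [Real.log_inv] at h1
    have h2 := mul_lt_mul_of_pos_left h1 hz
    have h3 : (1 - η) * ((1 - η)⁻¹ - 1) = η := by
      field_simp
      ring
    rw [h3] at h2
    rw [hq]
    linarith
  set κ : ℝ := min η q / 2 with hκ
  have hκ0 : 0 < κ := by
    rw [hκ]
    exact half_pos (lt_min hη0 hq0)
  have hκη : 0 < η - κ := by
    have := min_le_left η q
    rw [hκ]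
    linarith
  have hκq : 0 < q - κ := by
    have := min_le_right η q
    rw [hκ]
    linarith
  have hlog : Tendsto (fun X : ℕ => Real.log (X : ℝ)) atTop atTop :=
    Real.tendsto_log_atTop.comp tendsto_natCast_atTop_atTop
  have ev1 : ∀ᶠ X : ℕ in atTop, 3 ≤ X := eventually_ge_atTop 3
  have ev2 : ∀ᶠ X : ℕ in atTop, 2 * 169 ≤ Real.log (X : ℝ) ^ (η - κ) :=
    ((tendsto_rpow_atTop hκη).comp hlog).eventually_ge_atTop _
  have ev3 : ∀ᶠ X : ℕ in atTop, 2 * (3 * Real.exp ((1 - η) * C)) ≤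
      Real.log (X : ℝ) ^ (q - κ) :=
    ((tendsto_rpow_atTop hκq).comp hlog).eventually_ge_atTop _
  have ev4 : ∀ᶠ X : ℕ in atTop, 213000 * (6 + 3 * Real.log (X : ℝ)) ≤
      1 / 2 * (√(X : ℝ) / (Real.log X ^ (η / 2) * Real.log X ^ c)) := by
    have h1 := (isLittleO_log_rpow_rpow_atTop (s := 1 / 2) (1 + η / 2 + c) (by norm_num)).bound
      (c := 1 / 3834000) (by norm_num)
    have h2 := (tendsto_natCast_atTop_atTop (R := ℝ)).eventually h1
    filter_upwards [h2, hlog.eventually_ge_atTop 1] with X h3 h4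
    set L : ℝ := Real.log (X : ℝ) with hL
    have hL0 : 0 < L := by linarith
    rw [Real.norm_eq_abs, Real.norm_eq_abs, abs_of_nonneg (Real.rpow_nonneg hL0.le _),
      abs_of_nonneg (by positivity), ← Real.sqrt_eq_rpow] at h3
    have h5 : L ^ (1 + η / 2 + c) = L * (L ^ (η / 2) * L ^ c) := by
      rw [add_assoc, Real.rpow_add hL0, Real.rpow_one, Real.rpow_add hL0]
    rw [h5] at h3
    have h6 : 0 < L ^ (η / 2) * L ^ c := by positivity
    have h7 : L ≤ 1 / 3834000 * (√(X : ℝ) / (L ^ (η / 2) * L ^ c)) := by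
      rw [← mul_div_assoc, le_div_iff₀ h6]
      exact h3
    linarith
  have ev5 : ∀ᶠ X : ℕ in atTop, 426000 * (√(X : ℝ) * Real.log X ^ η /
      Real.log X ^ ((1 - η) * Real.log 2)) ≤
      1 / 2 * (√(X : ℝ) / (Real.log X ^ (η / 2) * Real.log X ^ c)) := by
    have hκ' : 0 < (1 - η) * Real.log 2 - η - η / 2 - c := by
      rw [hcη]
      have : (1 - η) * Real.log 2 - η - η / 2 - (Real.log 2 - 4 * η) =
          η * (5 / 2 - Real.log 2) := by ring
      rw [this]
      apply mul_pos hη0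
      linarith
    have h1 := ((tendsto_rpow_atTop hκ').comp hlog).eventually_ge_atTop 852000
    filter_upwards [h1, hlog.eventually_ge_atTop 1] with X h3 h4
    set L : ℝ := Real.log (X : ℝ) with hL
    have hL0 : 0 < L := by linarith
    simp only [Function.comp_apply] at h3
    rw [← hL] at h3
    have h5 : L ^ ((1 - η) * Real.log 2) =
        L ^ ((1 - η) * Real.log 2 - η - η / 2 - c) * (L ^ η * (L ^ (η / 2) * L ^ c)) := by
      rw [← Real.rpow_add hL0, ← Real.rpow_add hL0, ← Real.rpow_add hL0]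
      congr 1
      ring
    set W : ℝ := L ^ ((1 - η) * Real.log 2 - η - η / 2 - c) with hW
    have hW0 : 0 < W := by positivity
    have hη' : 0 < L ^ η := by positivity
    have h6 : 0 < L ^ (η / 2) * L ^ c := by positivity
    rw [h5]
    have h7 : √(X : ℝ) * L ^ η / (W * (L ^ η * (L ^ (η / 2) * L ^ c))) =
        (1 / W) * (√(X : ℝ) / (L ^ (η / 2) * L ^ c)) := by
      field_simp
    rw [h7]
    have h8 : 1 / W ≤ 1 / 852000 := by
      rw [div_le_div_iff₀ hW0 (by norm_num)]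
      linarith
    have h9 : 0 ≤ √(X : ℝ) / (L ^ (η / 2) * L ^ c) := by positivity
    have h10 := mul_le_mul_of_nonneg_right h8 h9
    linarith
  refine ⟨κ, hκ0, ?_⟩
  filter_upwards [ev1, ev2, ev3, ev4, ev5, hlog.eventually_ge_atTop 1] with X h1 h2 h3 h4 h5 hL
  have hC' : ∑ p ∈ (Icc 0 X).filter Nat.Prime, (1 : ℝ) / p ≤ Real.log (Real.log X) + C := by
    have h6 := (abs_le.1 (hC X (by omega))).2
    linarith
  have h6 := count_le h1 hc hη0 hη1 hC' h4 h5
  refine h6.trans ?_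
  have hXr : (0 : ℝ) ≤ X := by positivity
  have hL0 : 0 < Real.log (X : ℝ) := by linarith
  have k1 := rpow_div_le hXr hL0 h2
  have k2 := rpow_div_le hXr hL0 h3
  rw [← hq]
  linarith

end Pool.Agent.BCF
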