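import Pool.Agent.Work.MP_308fa9_nt.HT

/-!
# Few squarefree numbers have few prime factors
-/

namespace Pool.Agent.BCF

open Finset

/-- the number of divisors of a squarefree number -/
theorem card_divisors_sf {δ : ℕ} (hsq : Squarefree δ) :
    δ.divisors.card = 2 ^ δ.primeFactors.card := by
  have hδ0 : δ ≠ 0 := hsq.ne_zero
  rw [Nat.card_divisors hδ0, Finset.prod_congr rfl (g := fun _ => 2), Finset.prod_const]
  intro p hp
  have h2 : δ.factorization p = 1 := by
    have h3 := (Nat.squarefree_iff_factorization_le_one hδ0).1 hsq p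
    have h4 : 0 < δ.factorization p :=
      (Nat.prime_of_mem_primeFactors hp).factorization_pos_of_dvd hδ0
        (Nat.dvd_of_mem_primeFactors hp)
    omega
  rw [h2]

/-- Rankin's method -/
theorem few_sf {X : ℕ} (hX : 2 ≤ X) {z t : ℝ} (hz : 0 < z) (hz1 : z ≤ 1) :
    (((Icc 1 X).filter (fun δ => Squarefree δ ∧ (δ.primeFactors.card : ℝ) ≤ t)).card : ℝ) ≤
      3 * (X / Real.log X) * Real.exp (z * ∑ p ∈ (Icc 0 X).filter Nat.Prime, (1 : ℝ) / p) /
        z ^ t := by
  classical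
  have hXr : (2 : ℝ) ≤ X := by exact_mod_cast hX
  have hlog : 0 < Real.log X := Real.log_pos (by linarith)
  have h1 := Stoll308.HT.sum_hf_le (H := fun _ => z) (K := 1) (fun _ _ => hz.le)
    (fun _ _ => hz1) hX
  have hPR : Stoll308.MeanSum.PR X = (Icc 0 X).filter Nat.Prime := by
    ext p
    rw [Stoll308.MeanSum.mem_PR, Finset.mem_filter, Finset.mem_Icc]
    constructor
    · rintro ⟨h2, h3⟩
      exact ⟨⟨Nat.zero_le _, h3⟩, h2⟩
    · rintro ⟨⟨_, h3⟩, h2⟩
      exact ⟨h2, h3⟩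
  rw [hPR] at h1
  have h2 : ∑ p ∈ (Icc 0 X).filter Nat.Prime, z / (p : ℝ) =
      z * ∑ p ∈ (Icc 0 X).filter Nat.Prime, (1 : ℝ) / p := by
    rw [Finset.mul_sum]
    apply Finset.sum_congr rfl
    intro p _
    ring
  rw [h2] at h1
  have h3 : (((Icc 1 X).filter
      (fun δ => Squarefree δ ∧ (δ.primeFactors.card : ℝ) ≤ t)).card : ℝ) * z ^ t ≤
      ∑ n ∈ Icc 1 X, Stoll308.HT.hf (fun _ => z) n := by
    calc (((Icc 1 X).filter
          (fun δ => Squarefree δ ∧ (δ.primeFactors.card : ℝ) ≤ t)).card : ℝ) * z ^ t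
        = ∑ _δ ∈ (Icc 1 X).filter
            (fun δ => Squarefree δ ∧ (δ.primeFactors.card : ℝ) ≤ t), z ^ t := by
          rw [Finset.sum_const, nsmul_eq_mul]
      _ ≤ ∑ δ ∈ (Icc 1 X).filter
            (fun δ => Squarefree δ ∧ (δ.primeFactors.card : ℝ) ≤ t),
            Stoll308.HT.hf (fun _ => z) δ := by
          apply Finset.sum_le_sum
          intro δ hδ
          obtain ⟨-, hsq, ht⟩ := Finset.mem_filter.1 hδ
          unfold Stoll308.HT.hf
          rw [if_pos hsq, Finset.prod_const, ← Real.rpow_natCast]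
          exact Real.rpow_le_rpow_of_exponent_ge hz hz1 ht
      _ ≤ ∑ n ∈ Icc 1 X, Stoll308.HT.hf (fun _ => z) n :=
          Finset.sum_le_sum_of_subset_of_nonneg (Finset.filter_subset _ _)
            fun n _ _ => Stoll308.HT.hf_nonneg (fun _ _ => hz.le) n
  rw [le_div_iff₀ (Real.rpow_pos_of_pos hz _)]
  refine h3.trans (h1.trans (le_of_eq ?_))
  norm_num

end Pool.Agent.BCF
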