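import Pool.Agent.Work.MP_612dae_nt.LogInf

/-!
# Infinitely many periodic continued fractions bounded by `C log ε` in every field
-/

namespace Pool.Agent.BCF

open Finset

theorem cu_grow {t : ℤ} (ht : 3 ≤ t) (n k : ℕ) : 2 ^ k * cu t (n + 1) ≤ cu t (n + 1 + k) := by
  induction k with
  | zero => simp
  | succ k ih =>
      have h1 := (cu_ge ht (n + k)).1
      have h2 := (cu_ge ht (n + k)).2.1
      have e0 : n + 1 + (k + 1) = n + k + 1 + 1 := by ring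
      have e1 : cu t (n + k + 1 + 1) = t * cu t (n + k + 1) - cu t (n + k) := rfl
      have e2 : n + 1 + k = n + k + 1 := by ring
      rw [e2] at ih
      rw [e0, e1, pow_succ]
      nlinarith

theorem cu_succ_pos {t : ℤ} (ht : 3 ≤ t) (n : ℕ) : 0 < cu t (n + 1) := by
  have h1 := (cu_ge ht n).1
  have h2 := cu_succ_lt ht n
  omega

theorem inf_of_good {t u δ : ℕ} (ht : 16 ≤ t) (hδ : ¬ IsSquare δ) (hu : 1 ≤ u)
    (hdisc : t ^ 2 = δ * u ^ 2 + 4) {e : ℝ} (he : e ^ 2 - ((t : ℤ) : ℝ) * e + 1 = 0)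
    (hlt : ((t : ℤ) : ℝ) - e < e) (hd : e - ((t : ℝ) - e) = u * √(δ : ℝ))
    {f L : ℕ} (hf : fp t = f) (hf0 : 0 < f) (hL : 0 < L) (heL : e ^ 12 ≤ 2 ^ L)
    (hcond : 12 * (L : ℝ) * (t : ℝ) ^ 2 * (f.divisors.card : ℝ) ^ 2 < f) :
    (pset (3072 * L) δ).Infinite := by
  have ht' : (16 : ℤ) ≤ (t : ℤ) := by exact_mod_cast ht
  have ht3 : (3 : ℤ) ≤ (t : ℤ) := by omega
  have hδ0 : 0 < δ := by
    rcases Nat.eq_zero_or_pos δ with h0 | h0
    · exact absurd ⟨0, by rw [h0]⟩ hδ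
    · exact h0
  have hfz : (0 : ℤ) < f := by exact_mod_cast hf0
  have hD : (0 : ℤ) < δ * u ^ 2 := by positivity
  have key : ∀ i : ℕ, ∃ x ∈ pset (3072 * L) δ, Irrational x ∧
      Lev ((f : ℤ) ^ 2)
        ((f : ℤ) ^ 2 * (cu t (48 * (f ^ 2 * (i + 1)) + 1)) ^ 2 * (δ * u ^ 2)) x := by
    intro i
    have hj : 1 ≤ f ^ 2 * (i + 1) := Nat.mul_pos (pow_pos hf0 2) (Nat.succ_pos i)
    have D := dat ht' he hlt hf hj
    have h12 : cu (t : ℤ) 12 = t * f := by rw [cu12, hf]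
    obtain ⟨p, q, hpq, hgood⟩ := exists_good_fam ht' he hlt hf0 h12 D heL (by
      push_cast
      exact hcond)
    obtain ⟨x, hx, hirr, hlev⟩ := exists_of_good_fam hδ hu hdisc (e := e) hd hf0 hL
      D.a_pos D.b_pos (ca_cb_coprime t _) hpq (by
        intro v hv hfv
        have := hgood v hv hfv
        push_cast at this ⊢
        exact this)
    rw [ca_mul_cb] at hlev
    exact ⟨x, hx, hirr, hlev⟩
  choose x hx hirr hlev using key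
  have hlt' : ∀ i i', i < i' → x i ≠ x i' := by
    intro i i' hii heq
    have h1 : (0 : ℤ) < cu t (48 * (f ^ 2 * (i + 1)) + 1) := cu_succ_pos ht3 _
    have h1' : (0 : ℤ) < cu t (48 * (f ^ 2 * (i' + 1)) + 1) := cu_succ_pos ht3 _
    have hlev' := hlev i'
    rw [← heq] at hlev'
    have h2 := Lev.le (by positivity) (by positivity) (by positivity) (hirr i) (hlev i) hlev'
    obtain ⟨k, rfl⟩ : ∃ k, i' = i + (k + 1) := ⟨i' - i - 1, by omega⟩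
    have h3 := cu_grow ht3 (48 * (f ^ 2 * (i + 1))) (48 * (f ^ 2 * (k + 1)))
    have e1 : 48 * (f ^ 2 * (i + 1)) + 1 + 48 * (f ^ 2 * (k + 1)) =
        48 * (f ^ 2 * (i + (k + 1) + 1)) + 1 := by ring
    rw [e1] at h3
    have h4 : (f : ℤ) ^ 2 < 2 ^ (48 * (f ^ 2 * (k + 1))) := by
      have h5 : f ^ 2 < 2 ^ (f ^ 2) := Nat.lt_two_pow_self
      have h6 : 2 ^ (f ^ 2) ≤ 2 ^ (48 * (f ^ 2 * (k + 1))) := by
        apply Nat.pow_le_pow_right (by norm_num)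
        nlinarith [pow_pos hf0 2]
      exact_mod_cast h5.trans_le h6
    set c : ℤ := cu t (48 * (f ^ 2 * (i + 1)) + 1) with hc
    set c' : ℤ := cu t (48 * (f ^ 2 * (i + (k + 1) + 1)) + 1) with hc'
    have h5 : (f : ℤ) ^ 2 * c < c' := (mul_lt_mul_of_pos_right h4 h1).trans_le h3
    have h6 : ((f : ℤ) ^ 2 * c) ^ 2 < c' ^ 2 := pow_lt_pow_left₀ h5 (by positivity) (by norm_num)
    have h7 : (f : ℤ) ^ 2 * ((f : ℤ) ^ 2 * c) ^ 2 * (δ * u ^ 2) <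
        (f : ℤ) ^ 2 * c' ^ 2 * (δ * u ^ 2) := by
      apply mul_lt_mul_of_pos_right _ hD
      exact mul_lt_mul_of_pos_left h6 (by positivity)
    have h8 : ((f : ℤ) ^ 2) ^ 2 * ((f : ℤ) ^ 2 * c ^ 2 * (δ * u ^ 2)) =
        (f : ℤ) ^ 2 * ((f : ℤ) ^ 2 * c) ^ 2 * (δ * u ^ 2) := by ring
    rw [h8] at h2
    exact absurd h2 (not_le.2 h7)
  have hinj : Function.Injective x := by
    intro i i' h
    rcases lt_trichotomy i i' with hi | hi | hi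
    · exact absurd h (hlt' i i' hi)
    · exact hi
    · exact absurd h.symm (hlt' i' i hi)
  exact Set.infinite_of_injective_forall_mem hinj hx

theorem num_cond {l : ℕ} (hl : 16 ≤ l) : 1728 ^ 2 * 2 ^ 25 * l ^ 3 < (2 ^ (l - 1)) ^ 4 := by
  induction l, hl using Nat.le_induction with
  | base => norm_num
  | succ l hl ih =>
      have e1 : l + 1 - 1 = (l - 1) + 1 := by omega
      have e2 : (2 ^ (l + 1 - 1)) ^ 4 = 16 * (2 ^ (l - 1)) ^ 4 := by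
        rw [e1, pow_succ]
        ring
      rw [e2]
      have h1 : (l + 1) ^ 3 ≤ 16 * l ^ 3 := by
        have : (l + 1) ^ 3 ≤ (2 * l) ^ 3 := Nat.pow_le_pow_left (by omega) 3
        calc (l + 1) ^ 3 ≤ (2 * l) ^ 3 := this
          _ = 8 * l ^ 3 := by ring
          _ ≤ 16 * l ^ 3 := Nat.mul_le_mul_right _ (by norm_num)
      calc 1728 ^ 2 * 2 ^ 25 * (l + 1) ^ 3 ≤ 1728 ^ 2 * 2 ^ 25 * (16 * l ^ 3) :=
            Nat.mul_le_mul_left _ h1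
        _ = 16 * (1728 ^ 2 * 2 ^ 25 * l ^ 3) := by ring
        _ < 16 * (2 ^ (l - 1)) ^ 4 := Nat.mul_lt_mul_of_pos_left ih (by norm_num)

theorem fp_ge {t : ℕ} (ht : 16 ≤ t) : (t : ℝ) ^ 10 / 2 ≤ ((fp t : ℤ) : ℝ) := by
  have hT : (16 : ℝ) ≤ t := by exact_mod_cast ht
  set T : ℝ := (t : ℝ) with hTd
  have hT2 : (256 : ℝ) ≤ T ^ 2 := by nlinarith
  have h1 : 0.9 * T ^ 2 ≤ T ^ 2 - 1 := by linarith
  have h2 : 0.9 * T ^ 2 ≤ T ^ 2 - 2 := by linarith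
  have h3 : 0.9 * T ^ 2 ≤ T ^ 2 - 3 := by linarith
  have h4 : 0.9 * T ^ 4 ≤ T ^ 4 - 4 * T ^ 2 + 1 := by nlinarith
  have e1 : ((fp t : ℤ) : ℝ) = (T ^ 2 - 1) * (T ^ 2 - 2) * (T ^ 2 - 3) *
      (T ^ 4 - 4 * T ^ 2 + 1) := by
    unfold fp
    push_cast
    ring
  rw [e1]
  have p0 : 0 ≤ 0.9 * T ^ 2 := by positivity
  have p4 : 0 ≤ 0.9 * T ^ 4 := by positivity
  have q1 : (0.9 * T ^ 2) * (0.9 * T ^ 2) ≤ (T ^ 2 - 1) * (T ^ 2 - 2) :=
    mul_le_mul h1 h2 p0 (p0.trans h1)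
  have q2 : (0.9 * T ^ 2) * (0.9 * T ^ 2) * (0.9 * T ^ 2) ≤
      (T ^ 2 - 1) * (T ^ 2 - 2) * (T ^ 2 - 3) :=
    mul_le_mul q1 h3 p0 ((mul_nonneg p0 p0).trans q1)
  have q3 : (0.9 * T ^ 2) * (0.9 * T ^ 2) * (0.9 * T ^ 2) * (0.9 * T ^ 4) ≤
      (T ^ 2 - 1) * (T ^ 2 - 2) * (T ^ 2 - 3) * (T ^ 4 - 4 * T ^ 2 + 1) :=
    mul_le_mul q2 h4 p4 ((mul_nonneg (mul_nonneg p0 p0) p0).trans q2)
  have q4 : T ^ 10 / 2 ≤ (0.9 * T ^ 2) * (0.9 * T ^ 2) * (0.9 * T ^ 2) * (0.9 * T ^ 4) := by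
    have : (0.9 * T ^ 2) * (0.9 * T ^ 2) * (0.9 * T ^ 2) * (0.9 * T ^ 4) =
        0.6561 * T ^ 10 := by ring
    rw [this]
    have : 0 ≤ T ^ 10 := by positivity
    linarith
  exact q4.trans q3

theorem cond_inf {t f l : ℕ} (ht : 16 ≤ t) (hf : (t : ℝ) ^ 10 / 2 ≤ (f : ℝ)) (hl : 16 ≤ l)
    (hlt : 2 ^ (l - 1) ≤ t) :
    12 * ((12 * l : ℕ) : ℝ) * (t : ℝ) ^ 2 * (f.divisors.card : ℝ) ^ 2 < f := by
  have hT : (16 : ℝ) ≤ t := by exact_mod_cast ht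
  have hfpos : (0 : ℝ) < f := lt_of_lt_of_le (by positivity) hf
  have hcube : ((f.divisors.card : ℝ)) ^ 3 ≤ 4096 * f := by
    have := card_divisors_cube (n := f) (by
      rintro rfl
      norm_num at hfpos)
    exact_mod_cast this
  have h1 : (1728 : ℝ) ^ 2 * 2 ^ 25 * (l : ℝ) ^ 3 < (t : ℝ) ^ 4 := by
    have h2 := num_cond hl
    have h3 : (2 ^ (l - 1)) ^ 4 ≤ t ^ 4 := Nat.pow_le_pow_left hlt 4
    exact_mod_cast h2.trans_le h3
  have h2 : (1728 : ℝ) ^ 2 * 2 ^ 24 * (l : ℝ) ^ 3 * (t : ℝ) ^ 6 < f := by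
    calc (1728 : ℝ) ^ 2 * 2 ^ 24 * (l : ℝ) ^ 3 * (t : ℝ) ^ 6
        = ((1728 : ℝ) ^ 2 * 2 ^ 25 * (l : ℝ) ^ 3) * ((t : ℝ) ^ 6 / 2) := by ring
      _ < (t : ℝ) ^ 4 * ((t : ℝ) ^ 6 / 2) := mul_lt_mul_of_pos_right h1 (by positivity)
      _ = (t : ℝ) ^ 10 / 2 := by ring
      _ ≤ f := hf
  apply lt_of_pow_lt_pow_left₀ 3 hfpos.le
  have hc6 : ((f.divisors.card : ℝ)) ^ 6 ≤ (4096 * (f : ℝ)) ^ 2 := by
    have e1 : ((f.divisors.card : ℝ)) ^ 6 = (((f.divisors.card : ℝ)) ^ 3) ^ 2 := by ring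
    rw [e1]
    gcongr
  push_cast
  calc (12 * (12 * (l : ℝ)) * (t : ℝ) ^ 2 * (f.divisors.card : ℝ) ^ 2) ^ 3
      = 1728 ^ 2 * (l : ℝ) ^ 3 * (t : ℝ) ^ 6 * (f.divisors.card : ℝ) ^ 6 := by ring
    _ ≤ 1728 ^ 2 * (l : ℝ) ^ 3 * (t : ℝ) ^ 6 * (4096 * (f : ℝ)) ^ 2 := by gcongr
    _ = ((1728 : ℝ) ^ 2 * 2 ^ 24 * (l : ℝ) ^ 3 * (t : ℝ) ^ 6) * (f : ℝ) ^ 2 := by ring
    _ < f * (f : ℝ) ^ 2 := mul_lt_mul_of_pos_right h2 (by positivity)
    _ = (f : ℝ) ^ 3 := by ring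

theorem large_inf {t u δ : ℕ} (ht : 2 ^ 15 < t) (hδ : ¬ IsSquare δ) (hu : 1 ≤ u)
    (hdisc : t ^ 2 = δ * u ^ 2 + 4) : (pset (36864 * Nat.clog 2 t) δ).Infinite := by
  have ht16 : 16 ≤ t := le_trans (by norm_num) ht.le
  have hδ0 : 0 < δ := by
    rcases Nat.eq_zero_or_pos δ with h0 | h0
    · exact absurd ⟨0, by rw [h0]⟩ hδ
    · exact h0
  have hur : (0 : ℝ) < u := by exact_mod_cast hu
  have hsδ : 0 < √(δ : ℝ) := Real.sqrt_pos.2 (by exact_mod_cast hδ0)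
  have hsδ2 : √(δ : ℝ) ^ 2 = δ := Real.sq_sqrt (by positivity)
  have hdr : (t : ℝ) ^ 2 = δ * (u : ℝ) ^ 2 + 4 := by exact_mod_cast hdisc
  set e : ℝ := ((t : ℝ) + u * √(δ : ℝ)) / 2 with hed
  have he : e ^ 2 - ((t : ℤ) : ℝ) * e + 1 = 0 := by
    rw [hed]
    push_cast
    linear_combination ((u : ℝ) ^ 2 / 4) * hsδ2 - (1 / 4 : ℝ) * hdr
  have hus : 0 < u * √(δ : ℝ) := by positivity
  have hut : u * √(δ : ℝ) < t := by
    apply lt_of_pow_lt_pow_left₀ 2 (by positivity)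
    rw [mul_pow, hsδ2, hdr]
    nlinarith
  have hlt : (((t : ℕ) : ℤ) : ℝ) - e < e := by
    rw [hed]
    push_cast
    linarith
  have hd : e - ((t : ℝ) - e) = u * √(δ : ℝ) := by
    rw [hed]
    ring
  have het : e < (t : ℝ) := by
    rw [hed]
    linarith
  have he0 : 0 < e := by
    rw [hed]
    positivity
  set l := Nat.clog 2 t with hl
  have hl16 : 16 ≤ l := by
    rw [hl]
    have h1 : 15 < Nat.clog 2 t := by
      rw [Nat.lt_clog_iff_pow_lt (by norm_num)]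
      exact ht
    omega
  have hl2 : 2 ^ (l - 1) ≤ t := by
    have : 2 ^ (l - 1) < t := by
      rw [← Nat.lt_clog_iff_pow_lt (by norm_num), ← hl]
      omega
    exact this.le
  have htl : t ≤ 2 ^ l := Nat.le_pow_clog (by norm_num) t
  have hfge := fp_ge ht16
  have hfp0 : (0 : ℝ) < ((fp t : ℤ) : ℝ) := lt_of_lt_of_le (by positivity) hfge
  have hfp0' : 0 < fp (t : ℤ) := by exact_mod_cast hfp0
  obtain ⟨f, hf⟩ := Int.eq_ofNat_of_zero_le hfp0'.le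
  rw [hf] at hfge hfp0'
  have hf0 : 0 < f := by exact_mod_cast hfp0'
  have heL : e ^ 12 ≤ 2 ^ (12 * l) := by
    have h1 : e ≤ 2 ^ l := by
      have h2 : (t : ℝ) ≤ 2 ^ l := by exact_mod_cast htl
      linarith
    calc e ^ 12 ≤ (2 ^ l) ^ 12 := by gcongr
      _ = 2 ^ (12 * l) := by rw [← pow_mul, mul_comm]
  have := inf_of_good ht16 hδ hu hdisc he hlt hd hf hf0 (by omega : 0 < 12 * l) heL
    (cond_inf ht16 (by exact_mod_cast hfge) hl16 hl2)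
  have e1 : 3072 * (12 * l) = 36864 * l := by ring
  rwa [e1] at this

theorem small_inf {t u δ : ℕ} (ht3 : 3 ≤ t) (ht : t ≤ 2 ^ 15) (hδ : ¬ IsSquare δ) (hu : 1 ≤ u)
    (hdisc : t ^ 2 = δ * u ^ 2 + 4) : (pset (36864 * Nat.clog 2 t) δ).Infinite := by
  have h1 : Nat.sqrt δ < t := by
    rw [Nat.sqrt_lt']
    nlinarith [Nat.mul_le_mul_left δ (Nat.one_le_pow 2 u hu)]
  have h2 : bnd δ ≤ 36864 * Nat.clog 2 t := by
    have h3 : bnd δ ≤ 2 * t - 1 := by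
      unfold bnd
      split_ifs <;> omega
    refine h3.trans ?_
    have h4 : 2 ≤ Nat.clog 2 t := by
      have : 1 < Nat.clog 2 t := by
        rw [Nat.lt_clog_iff_pow_lt (by norm_num)]
        omega
      omega
    norm_num at ht
    omega
  exact (all_fields hδ).mono (pset_mono h2)

/-- infinitely many periodic continued fractions with partial quotients `O(log t)` -/
theorem trace_inf {t u δ : ℕ} (ht3 : 3 ≤ t) (hδ : ¬ IsSquare δ) (hu : 1 ≤ u)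
    (hdisc : t ^ 2 = δ * u ^ 2 + 4) : (pset (36864 * Nat.clog 2 t) δ).Infinite := by
  rcases Nat.lt_or_ge (2 ^ 15) t with h | h
  · exact large_inf h hδ hu hdisc
  · exact small_inf ht3 h hδ hu hdisc

theorem clog_le {t u δ : ℕ} (ht3 : 3 ≤ t) (hdisc : t ^ 2 = δ * u ^ 2 + 4) :
    36864 * (Nat.clog 2 t : ℝ) ≤ 106500 * Real.log (((t : ℝ) + u * √(δ : ℝ)) / 2) := by
  have htr : (3 : ℝ) ≤ t := by exact_mod_cast ht3
  have hdr : (t : ℝ) ^ 2 = δ * (u : ℝ) ^ 2 + 4 := by exact_mod_cast hdisc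
  have hs : (t : ℝ) - 2 ≤ u * √(δ : ℝ) := by
    apply le_of_sq_le_sq _ (by positivity)
    rw [mul_pow, Real.sq_sqrt (by positivity)]
    nlinarith
  have h1 : ((t - 1 : ℕ) : ℝ) ≤ ((t : ℝ) + u * √(δ : ℝ)) / 2 := by
    rw [Nat.cast_sub (by omega)]
    push_cast
    linarith
  set l := Nat.clog 2 t with hl
  have hl2 : 2 ≤ l := by
    have : 1 < Nat.clog 2 t := by
      rw [Nat.lt_clog_iff_pow_lt (by norm_num)]
      omega
    omega
  have h2 : 2 ^ (l - 1) ≤ t - 1 := by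
    have : 2 ^ (l - 1) < t := by
      rw [← Nat.lt_clog_iff_pow_lt (by norm_num), ← hl]
      omega
    omega
  have h3 : (2 : ℝ) ^ (l - 1) ≤ ((t : ℝ) + u * √(δ : ℝ)) / 2 := by
    have : (2 : ℝ) ^ (l - 1) ≤ ((t - 1 : ℕ) : ℝ) := by exact_mod_cast h2
    exact this.trans h1
  have h4 : ((l - 1 : ℕ) : ℝ) * Real.log 2 ≤ Real.log (((t : ℝ) + u * √(δ : ℝ)) / 2) := by
    rw [← Real.log_pow]
    exact Real.log_le_log (by positivity) h3
  have h5 : (l : ℝ) ≤ 2 * ((l - 1 : ℕ) : ℝ) := by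
    have : l ≤ 2 * (l - 1) := by omega
    exact_mod_cast this
  have h6 := Real.log_two_gt_d9
  have h7 : (0 : ℝ) ≤ ((l - 1 : ℕ) : ℝ) := by positivity
  nlinarith
where
  le_of_sq_le_sq {a b : ℝ} (h : a ^ 2 ≤ b ^ 2) (hb : 0 ≤ b) : a ≤ b := by
    exact le_of_sq_le_sq' h hb
  le_of_sq_le_sq' {a b : ℝ} (h : a ^ 2 ≤ b ^ 2) (hb : 0 ≤ b) : a ≤ b := by
    nlinarith [abs_le_of_sq_le_sq h hb, le_abs_self a]

/-- **the bound `213000 log ε`** for every unit `ε = (t + u √δ) / 2 > 1` of norm `± 1` -/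
theorem log_inf {t u δ : ℕ} (hδ : ¬ IsSquare δ) (hu : 1 ≤ u)
    (hdisc : t ^ 2 = δ * u ^ 2 + 4 ∨ t ^ 2 + 4 = δ * u ^ 2) :
    (pset ⌊213000 * Real.log (((t : ℝ) + u * √(δ : ℝ)) / 2)⌋₊ δ).Infinite := by
  have hδ2 : 2 ≤ δ := by
    by_contra h
    push Not at h
    apply hδ
    interval_cases δ
    · exact ⟨0, rfl⟩
    · exact ⟨1, rfl⟩
  rcases hdisc with h | h
  · have ht3 : 3 ≤ t := by
      by_contra hcon
      push Not at hcon
      have h1 : t ^ 2 ≤ 2 ^ 2 := Nat.pow_le_pow_left (by omega) 2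
      have h2 : 1 ≤ u ^ 2 := Nat.one_le_pow _ _ hu
      nlinarith
    refine (trace_inf ht3 hδ hu h).mono (pset_mono ?_)
    have h1 := clog_le ht3 h
    apply Nat.le_floor
    push_cast
    have h2 : (0 : ℝ) ≤ 36864 * (Nat.clog 2 t : ℝ) := by positivity
    linarith
  · have ht1 : 1 ≤ t := by
      by_contra hcon
      have h0 : t = 0 := by omega
      subst h0
      apply hδ
      have h1 : u ≤ 2 := by
        by_contra h2
        push Not at h2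
        have h3 : 3 ^ 2 ≤ u ^ 2 := Nat.pow_le_pow_left h2 2
        nlinarith
      interval_cases u
      · exact ⟨2, by omega⟩
      · exact ⟨1, by omega⟩
    have hT : (t ^ 2 + 2) ^ 2 = δ * (t * u) ^ 2 + 4 := by
      have : δ * (t * u) ^ 2 = t ^ 2 * (δ * u ^ 2) := by ring
      rw [this, ← h]
      ring
    have hT3 : 3 ≤ t ^ 2 + 2 := by
      have := Nat.one_le_pow 2 t ht1
      omega
    refine (trace_inf hT3 hδ (Nat.mul_pos ht1 hu) hT).mono (pset_mono ?_)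
    have h1 := clog_le hT3 hT
    have hr : (t : ℝ) ^ 2 + 4 = δ * (u : ℝ) ^ 2 := by exact_mod_cast h
    have hs : √(δ : ℝ) ^ 2 = δ := Real.sq_sqrt (by positivity)
    have h3 : (((t ^ 2 + 2 : ℕ) : ℝ) + ((t * u : ℕ) : ℝ) * √(δ : ℝ)) / 2 =
        (((t : ℝ) + u * √(δ : ℝ)) / 2) ^ 2 := by
      push_cast
      linear_combination (1 / 4 : ℝ) * hr - ((u : ℝ) ^ 2 / 4) * hs
    rw [h3, Real.log_pow] at h1
    apply Nat.le_floor
    push_cast at h1 ⊢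
    linarith

end Pool.Agent.BCF
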