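import Pool.Agent.Work.MP_612dae_nt.AlmAvg
import Pool.Agent.Work.MP_612dae_nt.AlmOmg
import Pool.Agent.Work.MP_612dae_nt.LogFin

/-!
# Fields with many classes and few targets
-/

namespace Pool.Agent.BCF

open Finset

/-- Markov's inequality for the number of targets -/
theorem card_many {X M : ℕ} {Y : ℝ} (hY : 0 < Y) :
    (((Icc 1 X).filter (fun δ => Y < ((tset M δ).card : ℝ))).card : ℝ) ≤
      4 * M * (X + M) / Y := by
  classical
  rw [le_div_iff₀ hY]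
  calc (((Icc 1 X).filter (fun δ => Y < ((tset M δ).card : ℝ))).card : ℝ) * Y
      = ∑ _δ ∈ (Icc 1 X).filter (fun δ => Y < ((tset M δ).card : ℝ)), Y := by
        rw [Finset.sum_const, nsmul_eq_mul]
    _ ≤ ∑ δ ∈ (Icc 1 X).filter (fun δ => Y < ((tset M δ).card : ℝ)), ((tset M δ).card : ℝ) := by
        apply Finset.sum_le_sum
        intro δ hδ
        exact (Finset.mem_filter.1 hδ).2.le
    _ ≤ ∑ δ ∈ Icc 1 X, ((tset M δ).card : ℝ) :=
        Finset.sum_le_sum_of_subset_of_nonneg (Finset.filter_subset _ _) fun _ _ _ => by positivity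
    _ ≤ 4 * M * (X + M) := sum_tset M X

theorem not_isSquare_of_sf {δ : ℕ} (hsq : Squarefree δ) (h1 : 1 < δ) : ¬ IsSquare δ := by
  rintro ⟨r, hr⟩
  have h2 := hsq r ⟨1, by rw [hr, mul_one]⟩
  rw [Nat.isUnit_iff] at h2
  rw [h2] at hr
  omega

/-- the unit found by the pigeonhole, and the numbers it gives -/
theorem good {X δ M K k₀ : ℕ} (hsq : Squarefree δ) (h1 : 1 < δ) (hX : δ ≤ X)
    (hM : 9 * X ≤ M ^ 2) (hk : X ≤ 2 ^ k₀) (hk' : 2 ^ k₀ ≤ 2 * X)
    (hbig : (tset M δ).card < δ.divisors.card * K) :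
    (pset ⌊213000 * (4 + 3 * Real.log X + 2 * K)⌋₊ δ).Infinite := by
  have hns := not_isSquare_of_sf hsq h1
  have hδ0 : (0 : ℝ) < δ := by
    have : 0 < δ := by omega
    exact_mod_cast this
  have hX0 : (0 : ℝ) < X := by
    have : 0 < X := by omega
    exact_mod_cast this
  obtain ⟨T, U, hU, hTU, hsz⟩ := pigeon (k₀ := k₀) (K := K) hsq hns (by omega)
    (hX.trans (hk.trans (Nat.le_self_pow (by norm_num) _))) hbig
  have h2 := log_inf (t := 2 * T) (u := 2 * U) hns (by omega)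
    (Or.inl (by
      have : (2 * T) ^ 2 = 4 * T ^ 2 := by ring
      rw [this, hTU]
      ring))
  have h3 : (((2 * T : ℕ) : ℝ) + ((2 * U : ℕ) : ℝ) * √(δ : ℝ)) / 2 = T + U * √(δ : ℝ) := by
    push_cast
    ring
  rw [h3] at h2
  refine h2.mono (pset_mono (Nat.floor_le_floor ?_))
  apply mul_le_mul_of_nonneg_left _ (by norm_num)
  have hsδ : 0 < √(δ : ℝ) := Real.sqrt_pos.2 hδ0
  have hUr : (1 : ℝ) ≤ U := by exact_mod_cast hU
  have hpos : 0 < (T : ℝ) + U * √(δ : ℝ) := by positivity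
  have h4 : Real.log (T + U * √(δ : ℝ)) ≤ Real.log ((3 * 2 ^ (k₀ + K) * √(δ : ℝ)) ^ 2) :=
    Real.log_le_log hpos hsz
  have h5 : (3 * 2 ^ (k₀ + K) * √(δ : ℝ)) ^ 2 = 9 * ((2 : ℝ) ^ k₀) ^ 2 * (2 ^ K) ^ 2 * δ := by
    rw [mul_pow, Real.sq_sqrt hδ0.le, pow_add]
    ring
  have h6 : 9 * ((2 : ℝ) ^ k₀) ^ 2 * (2 ^ K) ^ 2 * δ ≤ 36 * X ^ 3 * (2 ^ K) ^ 2 := by
    have e1 : (2 : ℝ) ^ k₀ ≤ 2 * X := by exact_mod_cast hk'
    have e2 : (δ : ℝ) ≤ X := by exact_mod_cast hX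
    calc 9 * ((2 : ℝ) ^ k₀) ^ 2 * (2 ^ K) ^ 2 * (δ : ℝ)
        ≤ 9 * (2 * (X : ℝ)) ^ 2 * (2 ^ K) ^ 2 * (X : ℝ) := by gcongr
      _ = 36 * (X : ℝ) ^ 3 * (2 ^ K) ^ 2 := by ring
  have h7 : Real.log (36 * X ^ 3 * (2 ^ K) ^ 2) = Real.log 36 + 3 * Real.log X +
      2 * (K * Real.log 2) := by
    rw [Real.log_mul (by positivity) (by positivity), Real.log_mul (by positivity) (by positivity),
      Real.log_pow, Real.log_pow, Real.log_pow]
    push_cast
    ring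
  have h8 : Real.log ((3 * 2 ^ (k₀ + K) * √(δ : ℝ)) ^ 2) ≤ Real.log 36 + 3 * Real.log X +
      2 * (K * Real.log 2) := by
    rw [← h7, h5]
    exact Real.log_le_log (by positivity) h6
  have h9 : Real.log 36 ≤ 4 := by
    rw [Real.log_le_iff_le_exp (by norm_num)]
    have h10 := Real.exp_one_gt_d9
    have h11 : Real.exp 4 = Real.exp 1 ^ 4 := by
      rw [← Real.exp_nat_mul]
      norm_num
    rw [h11]
    calc (36 : ℝ) ≤ 2.7 ^ 4 := by norm_num
      _ ≤ Real.exp 1 ^ 4 := by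
          apply pow_le_pow_left₀ (by norm_num)
          linarith
  have h10 : (K : ℝ) * Real.log 2 ≤ K := by
    have := Real.log_two_lt_d9
    have hK : (0 : ℝ) ≤ K := by positivity
    nlinarith
  linarith

end Pool.Agent.BCF
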