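import Pool.Agent.Work.MP_612dae_nt.AlmUnit

/-!
# The pigeonhole bound for the fundamental unit
-/

namespace Pool.Agent.BCF

open Finset

/-- the possible values, roots and shifts -/
noncomputable def tset (M δ : ℕ) : Finset (ℕ × ℤ × ℕ) :=
  ((range (M + 1)) ×ˢ (Icc (-(M : ℤ)) M) ×ˢ (range (M + 1))).filter fun p =>
    p.2.1 ≠ 0 ∧ 2 ^ p.1 * p.2.1.natAbs ≤ M ∧ p.2.2 < p.2.1.natAbs ∧ p.2.1 ∣ (p.2.2 : ℤ) ^ 2 - δ

theorem val_ne_zero {δ d e : ℕ} (hδ : ¬ IsSquare δ) (hde : d * e = δ) {x y : ℤ} (hx : 0 < x) :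
    (d : ℤ) * x ^ 2 - e * y ^ 2 ≠ 0 := by
  intro h0
  have hd : 0 < d := by
    rcases Nat.eq_zero_or_pos d with h | h
    · exact absurd ⟨0, by rw [← hde, h]; simp⟩ hδ
    · exact h
  have h1 : (δ : ℤ) * y ^ 2 = (d * x) ^ 2 := by
    rw [← hde]
    push_cast
    linear_combination (-(d : ℤ)) * h0
  have hy : y ≠ 0 := by
    rintro rfl
    have : (0 : ℤ) < (d * x) ^ 2 := by positivity
    rw [← h1] at this
    norm_num at this
  have h2 : y ∣ d * x := by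
    rw [← Int.pow_dvd_pow_iff (n := 2) (by norm_num), ← h1]
    exact Dvd.intro_left _ rfl
  obtain ⟨z, hz⟩ := h2
  have h3 : (δ : ℤ) = z ^ 2 := by
    have h4 : y ^ 2 * (δ : ℤ) = y ^ 2 * z ^ 2 := by
      rw [mul_comm, h1, hz]
      ring
    exact mul_left_cancel₀ (pow_ne_zero 2 hy) h4
  apply hδ
  refine ⟨z.natAbs, ?_⟩
  have h5 : ((z.natAbs * z.natAbs : ℕ) : ℤ) = δ := by
    rw [h3]
    push_cast
    rw [abs_mul_abs_self]
    ring
  exact_mod_cast h5.symm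

theorem val_bound {d e : ℕ} {x y : ℤ} {N N' : ℕ} (hN' : 0 < N') (hx : 0 < x) (hy : 0 ≤ y)
    (h1 : |(x : ℝ) * √(d : ℝ) - y * √(e : ℝ)| ≤ √(e : ℝ) / N')
    (h2 : (x : ℝ) * √(d : ℝ) + y * √(e : ℝ) ≤ 3 * N * √(d : ℝ)) :
    (N' : ℝ) * |(((d : ℤ) * x ^ 2 - e * y ^ 2 : ℤ) : ℝ)| ≤ N * (3 * √((d * e : ℕ) : ℝ)) := by
  have hNr : (0 : ℝ) < N' := by exact_mod_cast hN'
  have hxr : (0 : ℝ) < x := by exact_mod_cast hx
  have hyr : (0 : ℝ) ≤ y := by exact_mod_cast hy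
  have qd : √(d : ℝ) ^ 2 = d := Real.sq_sqrt (by positivity)
  have qe : √(e : ℝ) ^ 2 = e := Real.sq_sqrt (by positivity)
  have h3 : 0 ≤ (x : ℝ) * √(d : ℝ) + y * √(e : ℝ) := by positivity
  have h4 : (((d : ℤ) * x ^ 2 - e * y ^ 2 : ℤ) : ℝ) =
      (x * √(d : ℝ) - y * √(e : ℝ)) * (x * √(d : ℝ) + y * √(e : ℝ)) := by
    push_cast
    linear_combination (-(x : ℝ) ^ 2) * qd + (y : ℝ) ^ 2 * qe
  rw [h4, abs_mul, abs_of_nonneg h3]
  have h5 : √((d * e : ℕ) : ℝ) = √(d : ℝ) * √(e : ℝ) := by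
    push_cast
    exact Real.sqrt_mul (by positivity) _
  rw [h5]
  calc (N' : ℝ) * (|x * √(d : ℝ) - y * √(e : ℝ)| * (x * √(d : ℝ) + y * √(e : ℝ)))
      ≤ (N' : ℝ) * (√(e : ℝ) / N' * (3 * N * √(d : ℝ))) := by
        apply mul_le_mul_of_nonneg_left _ hNr.le
        exact mul_le_mul h1 h2 h3 (by positivity)
    _ = N * (3 * (√(d : ℝ) * √(e : ℝ))) := by
        field_simp

/-- the vector and the root -/
theorem exists_vr {δ d : ℕ} (hδ : ¬ IsSquare δ) (hd : d ∈ δ.divisors) {N : ℕ} (hN : 0 < N)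
    (hδN : δ ≤ N ^ 4) :
    ∃ (v : ℤ × ℤ) (ρ : ℕ), 0 < v.1 ∧ 0 ≤ v.2 ∧
      |(v.1 : ℝ) * √(d : ℝ) - v.2 * √((δ / d : ℕ) : ℝ)| ≤ √((δ / d : ℕ) : ℝ) / N ∧
      (v.1 : ℝ) * √(d : ℝ) + v.2 * √((δ / d : ℕ) : ℝ) ≤ 3 * N * √(d : ℝ) ∧
      ρ < ((d : ℤ) * v.1 ^ 2 - (δ / d : ℕ) * v.2 ^ 2).natAbs ∧
      ((d : ℤ) * v.1 ^ 2 - (δ / d : ℕ) * v.2 ^ 2) ∣ ρ * v.1 - (δ / d : ℕ) * v.2 ∧
      ((d : ℤ) * v.1 ^ 2 - (δ / d : ℕ) * v.2 ^ 2) ∣ ρ * v.2 - d * v.1 ∧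
      ((d : ℤ) * v.1 ^ 2 - (δ / d : ℕ) * v.2 ^ 2) ∣ (ρ : ℤ) ^ 2 - δ := by
  obtain ⟨hdδ, hδ0⟩ := Nat.mem_divisors.1 hd
  have hδpos : 0 < δ := Nat.pos_of_ne_zero hδ0
  have hdpos : 0 < d := Nat.pos_of_dvd_of_pos hdδ hδpos
  have hde : d * (δ / d) = δ := Nat.mul_div_cancel' hdδ
  have hepos : 0 < δ / d := Nat.div_pos (Nat.le_of_dvd hδpos hdδ) hdpos
  set e : ℕ := δ / d with he
  have heN : e ≤ N ^ 4 * d := by
    have h1 : e ≤ δ := Nat.div_le_self _ _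
    have h2 : N ^ 4 ≤ N ^ 4 * d := Nat.le_mul_of_pos_right _ hdpos
    omega
  obtain ⟨x, y, hxy, hx, hy, h1, h2⟩ := exists_vec hdpos hepos hN heN
  obtain ⟨r, r1, r2, r3⟩ := exists_root (d := (d : ℤ)) (e := (e : ℤ)) hxy
  have hn := val_ne_zero hδ hde (y := y) hx
  set n : ℤ := (d : ℤ) * x ^ 2 - e * y ^ 2 with hnd
  have hm0 : 0 ≤ r % n := Int.emod_nonneg _ hn
  have hm1 : r % n < |n| := Int.emod_lt_abs _ hn
  obtain ⟨ρ, hρ⟩ := Int.eq_ofNat_of_zero_le hm0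
  have hρr : n ∣ (ρ : ℤ) - r := by
    rw [← hρ]
    exact ⟨-(r / n), by linear_combination Int.emod_add_mul_ediv r n⟩
  refine ⟨(x, y), ρ, hx, hy, h1, h2, ?_, ?_, ?_, ?_⟩
  · have : (ρ : ℤ) < |n| := by rw [← hρ]; exact hm1
    have h3 : ((n.natAbs : ℕ) : ℤ) = |n| := Int.natCast_natAbs n
    rw [← h3] at this
    exact_mod_cast this
  · have : (ρ : ℤ) * x - e * y = (r * x - e * y) + ((ρ : ℤ) - r) * x := by ring
    change n ∣ (ρ : ℤ) * x - e * y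
    rw [this]
    exact dvd_add r1 (Dvd.dvd.mul_right hρr _)
  · have : (ρ : ℤ) * y - d * x = (r * y - d * x) + ((ρ : ℤ) - r) * y := by ring
    change n ∣ (ρ : ℤ) * y - d * x
    rw [this]
    exact dvd_add r2 (Dvd.dvd.mul_right hρr _)
  · have hδz : (δ : ℤ) = d * e := by exact_mod_cast hde.symm
    have : (ρ : ℤ) ^ 2 - δ = (r ^ 2 - d * e) + ((ρ : ℤ) - r) * (ρ + r) := by
      rw [hδz]
      ring
    change n ∣ (ρ : ℤ) ^ 2 - δ
    rw [this]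
    exact dvd_add r3 (Dvd.dvd.mul_right hρr _)

theorem pigeon {δ M K k₀ : ℕ} (hsq : Squarefree δ) (hδ : ¬ IsSquare δ) (hM : 9 * δ ≤ M ^ 2)
    (hk₀ : δ ≤ (2 ^ k₀) ^ 4) (hbig : (tset M δ).card < δ.divisors.card * K) :
    ∃ T U : ℕ, 1 ≤ U ∧ T ^ 2 = δ * U ^ 2 + 1 ∧
      (T : ℝ) + U * √(δ : ℝ) ≤ (3 * 2 ^ (k₀ + K) * √(δ : ℝ)) ^ 2 := by
  classical
  have hδ0 : δ ≠ 0 := hsq.ne_zero
  have hδpos : 0 < δ := Nat.pos_of_ne_zero hδ0
  have hδr : (0 : ℝ) < δ := by exact_mod_cast hδpos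
  have key : ∀ d k : ℕ, ∃ (v : ℤ × ℤ) (ρ : ℕ), d ∈ δ.divisors →
      0 < v.1 ∧ 0 ≤ v.2 ∧
      |(v.1 : ℝ) * √(d : ℝ) - v.2 * √((δ / d : ℕ) : ℝ)| ≤
        √((δ / d : ℕ) : ℝ) / (2 ^ (k₀ + k) : ℕ) ∧
      (v.1 : ℝ) * √(d : ℝ) + v.2 * √((δ / d : ℕ) : ℝ) ≤ 3 * (2 ^ (k₀ + k) : ℕ) * √(d : ℝ) ∧
      ρ < ((d : ℤ) * v.1 ^ 2 - (δ / d : ℕ) * v.2 ^ 2).natAbs ∧
      ((d : ℤ) * v.1 ^ 2 - (δ / d : ℕ) * v.2 ^ 2) ∣ ρ * v.1 - (δ / d : ℕ) * v.2 ∧
      ((d : ℤ) * v.1 ^ 2 - (δ / d : ℕ) * v.2 ^ 2) ∣ ρ * v.2 - d * v.1 ∧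
      ((d : ℤ) * v.1 ^ 2 - (δ / d : ℕ) * v.2 ^ 2) ∣ (ρ : ℤ) ^ 2 - δ := by
    intro d k
    by_cases hd : d ∈ δ.divisors
    · obtain ⟨v, ρ, h⟩ := exists_vr (N := 2 ^ (k₀ + k)) hδ hd (by positivity) (by
        refine hk₀.trans (Nat.pow_le_pow_left ?_ 4)
        exact Nat.pow_le_pow_right (by norm_num) (Nat.le_add_right _ _))
      exact ⟨v, ρ, fun _ => h⟩
    · exact ⟨(0, 0), 0, fun h => absurd h hd⟩
  choose v ρ hv using key
  set nn : ℕ → ℕ → ℤ := fun d k => (d : ℤ) * (v d k).1 ^ 2 - (δ / d : ℕ) * (v d k).2 ^ 2 with hnn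
  have hex : ∀ d k : ℕ, ∃ i, v d i = v d k := fun d k => ⟨k, rfl⟩
  have hfind_le : ∀ d k, Nat.find (hex d k) ≤ k := fun d k => Nat.find_min' _ rfl
  have hfind_eq : ∀ d k, v d (Nat.find (hex d k)) = v d k := fun d k => Nat.find_spec (hex d k)
  have hbound : ∀ d ∈ δ.divisors, ∀ k, 2 ^ (k - Nat.find (hex d k)) * (nn d k).natAbs ≤ M := by
    intro d hd k
    obtain ⟨g1, g2, g3, g4, -⟩ := hv d k hd
    obtain ⟨-, -, -, l4, -⟩ := hv d (Nat.find (hex d k)) hd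
    rw [hfind_eq] at l4
    have hb := val_bound (by positivity) g1 g2 g3 l4
    have hdδ := (Nat.mem_divisors.1 hd).1
    rw [Nat.mul_div_cancel' hdδ] at hb
    set i := Nat.find (hex d k) with hi
    have hik : i ≤ k := hfind_le d k
    have h2 : ((2 ^ (k₀ + k) : ℕ) : ℝ) = (2 ^ (k₀ + i) : ℕ) * 2 ^ (k - i) := by
      push_cast
      rw [← pow_add]
      congr 1
      omega
    rw [h2, mul_assoc] at hb
    have h3 := le_of_mul_le_mul_left hb (by positivity)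
    have h4 : ((2 ^ (k - i) * (nn d k).natAbs : ℕ) : ℝ) ≤ 3 * √(δ : ℝ) := by
      push_cast
      rw [Nat.cast_natAbs, Int.cast_abs]
      exact h3
    have h5 : (3 * √(δ : ℝ)) ^ 2 ≤ (M : ℝ) ^ 2 := by
      rw [mul_pow, Real.sq_sqrt hδr.le]
      have : ((9 * δ : ℕ) : ℝ) ≤ ((M ^ 2 : ℕ) : ℝ) := by exact_mod_cast hM
      push_cast at this
      linarith
    have h6 : 3 * √(δ : ℝ) ≤ M :=
      (le_abs_self _).trans (abs_le_of_sq_le_sq h5 (by positivity))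
    exact_mod_cast h4.trans h6
  have hne0 : ∀ d ∈ δ.divisors, ∀ k, nn d k ≠ 0 := by
    intro d hd k
    exact val_ne_zero hδ (Nat.mul_div_cancel' (Nat.mem_divisors.1 hd).1) (hv d k hd).1
  obtain ⟨⟨d, k⟩, hdk, ⟨d', k'⟩, hdk', hne, heq⟩ :=
    Finset.exists_ne_map_eq_of_card_lt_of_maps_to (s := δ.divisors ×ˢ range K)
      (t := tset M δ) (f := fun p => (p.2 - Nat.find (hex p.1 p.2), nn p.1 p.2, ρ p.1 p.2))
      (by rw [Finset.card_product, Finset.card_range]; exact hbig) (by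
        rintro ⟨d, k⟩ hp
        rw [Finset.mem_coe, Finset.mem_product] at hp
        have hd : d ∈ δ.divisors := hp.1
        have hb := hbound d hd k
        have h0 := Int.natAbs_pos.2 (hne0 d hd k)
        obtain ⟨-, -, -, -, g5, -, -, g8⟩ := hv d k hd
        have h1 : (nn d k).natAbs ≤ M :=
          (Nat.le_mul_of_pos_left _ (by positivity)).trans hb
        have h2 : k - Nat.find (hex d k) < 2 ^ (k - Nat.find (hex d k)) := Nat.lt_two_pow_self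
        have h3 : 2 ^ (k - Nat.find (hex d k)) ≤ M :=
          (Nat.le_mul_of_pos_right _ h0).trans hb
        have h4 : k - Nat.find (hex d k) < M + 1 := by omega
        have h5 : -(M : ℤ) ≤ nn d k := by omega
        have h6 : nn d k ≤ M := by omega
        have h7 : ρ d k < M + 1 := by
          have h8 : ρ d k < (nn d k).natAbs := g5
          omega
        rw [Finset.mem_coe]
        unfold tset
        rw [Finset.mem_filter, Finset.mem_product, Finset.mem_product, Finset.mem_range,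
          Finset.mem_Icc, Finset.mem_range]
        exact ⟨⟨h4, ⟨h5, h6⟩, h7⟩, hne0 d hd k, hb, g5, g8⟩)
  rw [Finset.mem_product, Finset.mem_range] at hdk hdk'
  simp only [Prod.mk.injEq] at heq hdk hdk'
  obtain ⟨q1, q2, q3⟩ := heq
  obtain ⟨hd, hk⟩ := hdk
  obtain ⟨hd', hk'⟩ := hdk'
  have hdδ := (Nat.mem_divisors.1 hd).1
  have hdδ' := (Nat.mem_divisors.1 hd').1
  have hdpos : 0 < d := Nat.pos_of_dvd_of_pos hdδ hδpos
  have hdpos' : 0 < d' := Nat.pos_of_dvd_of_pos hdδ' hδpos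
  set g : ℕ := Nat.gcd d d' with hg
  have hgpos : 0 < g := Nat.gcd_pos_of_pos_left _ hdpos
  obtain ⟨a₁, ha₁⟩ : g ∣ d := Nat.gcd_dvd_left d d'
  obtain ⟨a₂, ha₂⟩ : g ∣ d' := Nat.gcd_dvd_right d d'
  have h1pos : 0 < a₁ := by
    rcases Nat.eq_zero_or_pos a₁ with h | h
    · rw [h, mul_zero] at ha₁
      omega
    · exact h
  have h2pos : 0 < a₂ := by
    rcases Nat.eq_zero_or_pos a₂ with h | h
    · rw [h, mul_zero] at ha₂
      omega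
    · exact h
  have haa : a₁.Coprime a₂ := by
    have h1 := Nat.coprime_div_gcd_div_gcd (m := d) (n := d') hgpos
    rw [← hg] at h1
    have e1 : d / g = a₁ := Nat.div_eq_of_eq_mul_right hgpos ha₁
    have e2 : d' / g = a₂ := Nat.div_eq_of_eq_mul_right hgpos ha₂
    rwa [e1, e2] at h1
  have hlcm : g * a₁ * a₂ ∣ δ := by
    have h1 : Nat.lcm d d' ∣ δ := Nat.lcm_dvd hdδ hdδ'
    have h2 : Nat.lcm d d' = g * a₁ * a₂ := by
      have h3 : g * Nat.lcm d d' = d * d' := Nat.gcd_mul_lcm d d'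
      have h4 : g * Nat.lcm d d' = g * (g * a₁ * a₂) := by
        rw [h3]
        conv_lhs => rw [ha₁, ha₂]
        ring
      exact Nat.eq_of_mul_eq_mul_left hgpos h4
    rwa [h2] at h1
  obtain ⟨h, hh⟩ := hlcm
  have hhpos : 0 < h := by
    rcases Nat.eq_zero_or_pos h with h0 | h0
    · rw [h0, mul_zero] at hh
      omega
    · exact h0
  have hgh : g.Coprime h := by
    have h1 : (g * a₁ * a₂).Coprime h := by
      apply Nat.coprime_of_squarefree_mul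
      rw [← hh]
      exact hsq
    rw [mul_assoc] at h1
    exact Nat.Coprime.coprime_mul_right h1
  have he : δ / d = a₂ * h := by
    apply Nat.div_eq_of_eq_mul_right hdpos
    rw [hh, ha₁]
    ring
  have he' : δ / d' = a₁ * h := by
    apply Nat.div_eq_of_eq_mul_right hdpos'
    rw [hh, ha₂]
    ring
  obtain ⟨x1, x2, x3, x4, x5, x6, x7, x8⟩ := hv d k hd
  obtain ⟨y1, y2, y3, y4, y5, y6, y7, y8⟩ := hv d' k' hd'
  have hdz : (d : ℤ) = g * a₁ := by exact_mod_cast ha₁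
  have hdz' : (d' : ℤ) = g * a₂ := by exact_mod_cast ha₂
  have hez : ((δ / d : ℕ) : ℤ) = a₂ * h := by exact_mod_cast he
  have hez' : ((δ / d' : ℕ) : ℤ) = a₁ * h := by exact_mod_cast he'
  change nn d k ∣ _ at x6
  change nn d k ∣ _ at x7
  change nn d' k' ∣ _ at y6
  change nn d' k' ∣ _ at y7
  rw [hez] at x6
  rw [hdz] at x7
  rw [hez', ← q2, ← q3] at y6
  rw [hdz', ← q2, ← q3] at y7
  have hnd : (g : ℤ) * a₁ * (v d k).1 ^ 2 - a₂ * h * (v d k).2 ^ 2 = nn d k := by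
    rw [hnn]
    simp only
    rw [hez, hdz]
  have hnd' : (g : ℤ) * a₂ * (v d' k').1 ^ 2 - a₁ * h * (v d' k').2 ^ 2 = nn d k := by
    rw [q2, hnn]
    simp only
    rw [hez', hdz']
  have sqd : √(d : ℝ) = √(g : ℝ) * √(a₁ : ℝ) := by
    have : (d : ℝ) = (g : ℝ) * a₁ := by exact_mod_cast ha₁
    rw [this, Real.sqrt_mul (by positivity)]
  have sqd' : √(d' : ℝ) = √(g : ℝ) * √(a₂ : ℝ) := by
    have : (d' : ℝ) = (g : ℝ) * a₂ := by exact_mod_cast ha₂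
    rw [this, Real.sqrt_mul (by positivity)]
  have sqe : √((δ / d : ℕ) : ℝ) = √(a₂ : ℝ) * √(h : ℝ) := by
    rw [he]
    push_cast
    rw [Real.sqrt_mul (by positivity)]
  have sqe' : √((δ / d' : ℕ) : ℝ) = √(a₁ : ℝ) * √(h : ℝ) := by
    rw [he']
    push_cast
    rw [Real.sqrt_mul (by positivity)]
  have hsize : ∀ d₁ ∈ δ.divisors, ∀ k₁ < K, 3 * ((2 ^ (k₀ + k₁) : ℕ) : ℝ) * √(d₁ : ℝ) ≤
      3 * 2 ^ (k₀ + K) * √(δ : ℝ) := by
    intro d₁ hd₁ k₁ hk₁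
    have h1 : (d₁ : ℝ) ≤ δ := by
      exact_mod_cast Nat.le_of_dvd hδpos (Nat.mem_divisors.1 hd₁).1
    have h2 : √(d₁ : ℝ) ≤ √(δ : ℝ) := Real.sqrt_le_sqrt h1
    have h3 : ((2 ^ (k₀ + k₁) : ℕ) : ℝ) ≤ 2 ^ (k₀ + K) := by
      push_cast
      exact pow_le_pow_right₀ (by norm_num) (by omega)
    gcongr
  have hres := unit_of_coll (g := g) (a₁ := a₁) (a₂ := a₂) (h := h) hgpos h1pos h2pos hhpos hgh haa
    (n := nn d k) (r := ρ d k) (x := (v d k).1) (y := (v d k).2) (x' := (v d' k').1)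
    (y' := (v d' k').2) (hne0 d hd k) hnd hnd' x6 x7 y6 y7 x1 x2 y1 y2 (by
      rintro ⟨f1, f2, f3⟩
      have f4 : d = d' := by rw [ha₁, ha₂, f1]
      subst f4
      have f5 : v d k = v d k' := Prod.ext f2 f3
      have f6 : Nat.find (hex d k) = Nat.find (hex d k') := by
        congr 1
        ext i
        rw [f5]
      have f7 := hfind_le d k
      have f8 := hfind_le d k'
      apply hne
      have : k = k' := by omega
      rw [this])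
    (R := 3 * 2 ^ (k₀ + K) * √(δ : ℝ)) (by
      have := x4.trans (hsize d hd k hk)
      rwa [sqd, sqe] at this) (by
      have := y4.trans (hsize d' hd' k' hk')
      rwa [sqd', sqe'] at this)
  obtain ⟨T, U, hU, hTU, hsz⟩ := hres
  rw [← hh] at hTU hsz
  exact ⟨T, U, hU, hTU, hsz⟩

end Pool.Agent.BCF
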