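import Pool.Agent.Work.MP_612dae_nt.AlmVec

/-!
# A collision gives a unit of bounded size
-/

namespace Pool.Agent.BCF

theorem abs_comb {P Q A B R : ℝ} (d1 : |P * A + Q * B| ≤ R) (d2 : |P * A - Q * B| ≤ R) :
    |P| * A + |Q| * B ≤ R := by
  rw [abs_le] at d1 d2
  obtain ⟨d1a, d1b⟩ := d1
  obtain ⟨d2a, d2b⟩ := d2
  rcases abs_cases P with ⟨k1, -⟩ | ⟨k1, -⟩
  · rcases abs_cases Q with ⟨k2, -⟩ | ⟨k2, -⟩
    · rw [k1, k2]
      exact d1b
    · rw [k1, k2]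
      linarith only [d2b]
  · rcases abs_cases Q with ⟨k2, -⟩ | ⟨k2, -⟩
    · rw [k1, k2]
      linarith only [d2a]
    · rw [k1, k2]
      linarith only [d1a]

theorem unit_of_coll {g a₁ a₂ h : ℕ} (hg : 0 < g) (h1' : 0 < a₁) (h2' : 0 < a₂) (hh : 0 < h)
    (hgh : g.Coprime h) (haa : a₁.Coprime a₂) {n r x y x' y' : ℤ} (hn : n ≠ 0)
    (h1 : g * a₁ * x ^ 2 - a₂ * h * y ^ 2 = n) (h2 : g * a₂ * x' ^ 2 - a₁ * h * y' ^ 2 = n)
    (r1 : n ∣ r * x - a₂ * h * y) (r2 : n ∣ r * y - g * a₁ * x)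
    (r3 : n ∣ r * x' - a₁ * h * y') (r4 : n ∣ r * y' - g * a₂ * x')
    (hx : 0 < x) (hy : 0 ≤ y) (hx' : 0 < x') (hy' : 0 ≤ y')
    (hne : ¬ (a₁ = a₂ ∧ x = x' ∧ y = y')) {R : ℝ}
    (hw : (x : ℝ) * (√(g : ℝ) * √(a₁ : ℝ)) + y * (√(a₂ : ℝ) * √(h : ℝ)) ≤ R)
    (hw' : (x' : ℝ) * (√(g : ℝ) * √(a₂ : ℝ)) + y' * (√(a₁ : ℝ) * √(h : ℝ)) ≤ R) :
    ∃ T U : ℕ, 1 ≤ U ∧ T ^ 2 = g * a₁ * a₂ * h * U ^ 2 + 1 ∧
      (T : ℝ) + U * √((g * a₁ * a₂ * h : ℕ) : ℝ) ≤ R ^ 2 := by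
  obtain ⟨P, Q, hP, hQ, hPQ⟩ := coll (Nat.isCoprime_iff_coprime.2 hgh)
    (Nat.isCoprime_iff_coprime.2 haa) hn h1 h2 r1 r2 r3 r4
  have hgz : (0 : ℤ) < g := by exact_mod_cast hg
  have h1z : (0 : ℤ) < a₁ := by exact_mod_cast h1'
  have h2z : (0 : ℤ) < a₂ := by exact_mod_cast h2'
  have hhz : (0 : ℤ) < h := by exact_mod_cast hh
  have hP0 : P ≠ 0 := by
    rintro rfl
    have h3 : (0 : ℤ) ≤ g * h * Q ^ 2 := by positivity
    have h4 : (a₁ : ℤ) * a₂ * 0 ^ 2 = 0 := by ring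
    linarith
  have hQ0 : Q ≠ 0 := by
    rintro rfl
    have h3 : (a₁ : ℤ) * a₂ * P ^ 2 = 1 := by linear_combination hPQ
    have h4 : 1 ≤ P ^ 2 := by
      have := sq_nonneg P
      have h5 : P ^ 2 ≠ 0 := pow_ne_zero 2 hP0
      omega
    have h5 : (1 : ℤ) ≤ a₁ * a₂ := by
      have := mul_pos h1z h2z
      omega
    have h6 : (a₁ : ℤ) * a₂ = 1 := by nlinarith
    have h7 : P ^ 2 = 1 := by rw [h6, one_mul] at h3; exact h3
    have h8 : a₁ = 1 := by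
      have : a₁ * a₂ = 1 := by exact_mod_cast h6
      exact Nat.eq_one_of_mul_eq_one_right this
    have h9 : a₂ = 1 := by
      have : a₁ * a₂ = 1 := by exact_mod_cast h6
      exact Nat.eq_one_of_mul_eq_one_left this
    subst h8 h9
    push_cast at h1 hP hQ
    obtain ⟨k1, k2⟩ := coll_triv (g := g) (h := h) (x := x) (y := y) (x' := x') (y' := y')
      (P := P) hn (by linear_combination h1) hP (by linear_combination hQ)
    have hP1 : P = 1 := by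
      have h10 : (P - 1) * (P + 1) = 0 := by linear_combination h7
      rcases mul_eq_zero.1 h10 with h11 | h11
      · omega
      · have h12 : P = -1 := by omega
        rw [h12] at k1
        omega
    rw [hP1, one_mul] at k1 k2
    exact hne ⟨rfl, k1.symm, k2.symm⟩
  set sg : ℝ := √(g : ℝ) with hsg
  set s1 : ℝ := √(a₁ : ℝ) with hs1
  set s2 : ℝ := √(a₂ : ℝ) with hs2
  set sh : ℝ := √(h : ℝ) with hsh
  have qg : sg ^ 2 = g := Real.sq_sqrt (by positivity)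
  have q1 : s1 ^ 2 = a₁ := Real.sq_sqrt (by positivity)
  have q2 : s2 ^ 2 = a₂ := Real.sq_sqrt (by positivity)
  have qh : sh ^ 2 = h := Real.sq_sqrt (by positivity)
  have pg : 1 ≤ sg := by
    rw [hsg]
    exact Real.one_le_sqrt.2 (by exact_mod_cast hg)
  have p1 : 1 ≤ s1 := by
    rw [hs1]
    exact Real.one_le_sqrt.2 (by exact_mod_cast h1')
  have p2 : 1 ≤ s2 := by
    rw [hs2]
    exact Real.one_le_sqrt.2 (by exact_mod_cast h2')
  have ph : 1 ≤ sh := by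
    rw [hsh]
    exact Real.one_le_sqrt.2 (by exact_mod_cast hh)
  have hxr : (1 : ℝ) ≤ x := by exact_mod_cast hx
  have hyr : (0 : ℝ) ≤ y := by exact_mod_cast hy
  have hxr' : (1 : ℝ) ≤ x' := by exact_mod_cast hx'
  have hyr' : (0 : ℝ) ≤ y' := by exact_mod_cast hy'
  set w : ℝ := (x : ℝ) * (sg * s1) + y * (s2 * sh) with hwd
  set w' : ℝ := (x' : ℝ) * (sg * s2) + y' * (s1 * sh) with hwd'
  have hw1 : 1 ≤ w := by
    have : 1 ≤ (x : ℝ) * (sg * s1) :=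
      one_le_mul_of_one_le_of_one_le hxr (one_le_mul_of_one_le_of_one_le pg p1)
    have : 0 ≤ y * (s2 * sh) := by positivity
    linarith
  have hw1' : 1 ≤ w' := by
    have : 1 ≤ (x' : ℝ) * (sg * s2) :=
      one_le_mul_of_one_le_of_one_le hxr' (one_le_mul_of_one_le_of_one_le pg p2)
    have : 0 ≤ y' * (s1 * sh) := by positivity
    linarith
  have hw0 : 0 < w := lt_of_lt_of_le one_pos hw1
  have hw0' : 0 < w' := lt_of_lt_of_le one_pos hw1'
  have hnr : (n : ℝ) ≠ 0 := by exact_mod_cast hn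
  have h1r : (g : ℝ) * a₁ * x ^ 2 - a₂ * h * y ^ 2 = n := by exact_mod_cast h1
  have h2r : (g : ℝ) * a₂ * x' ^ 2 - a₁ * h * y' ^ 2 = n := by exact_mod_cast h2
  have hPr : (g : ℝ) * x * x' - h * y * y' = n * P := by exact_mod_cast hP
  have hQr : (a₁ : ℝ) * x * y' - a₂ * x' * y = n * Q := by exact_mod_cast hQ
  -- the quotients
  have c1 : w * (P * (s1 * s2) + Q * (sg * sh)) = w' := by
    have e1 : (n : ℝ) * (w * (P * (s1 * s2) + Q * (sg * sh))) = n * w' := by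
      have e2 : (n : ℝ) * (w * (P * (s1 * s2) + Q * (sg * sh))) =
          w * ((n * P) * (s1 * s2) + (n * Q) * (sg * sh)) := by ring
      rw [e2, ← hPr, ← hQr, ← h1r, hwd, hwd', ← qg, ← q1, ← q2, ← qh]
      ring
    exact mul_left_cancel₀ hnr e1
  have c2 : w' * (P * (s1 * s2) - Q * (sg * sh)) = w := by
    have e1 : (n : ℝ) * (w' * (P * (s1 * s2) - Q * (sg * sh))) = n * w := by
      have e2 : (n : ℝ) * (w' * (P * (s1 * s2) - Q * (sg * sh))) =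
          w' * ((n * P) * (s1 * s2) - (n * Q) * (sg * sh)) := by ring
      rw [e2, ← hPr, ← hQr, ← h2r, hwd, hwd', ← qg, ← q1, ← q2, ← qh]
      ring
    exact mul_left_cancel₀ hnr e1
  have d1 : |P * (s1 * s2) + Q * (sg * sh)| ≤ R := by
    have e1 : |P * (s1 * s2) + Q * (sg * sh)| ≤ w * |P * (s1 * s2) + Q * (sg * sh)| :=
      le_mul_of_one_le_left (abs_nonneg _) hw1
    have e2 : w * |P * (s1 * s2) + Q * (sg * sh)| = w' := by
      conv_lhs => rw [← abs_of_pos hw0]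
      rw [← abs_mul, c1, abs_of_pos hw0']
    exact (e1.trans e2.le).trans hw'
  have d2 : |P * (s1 * s2) - Q * (sg * sh)| ≤ R := by
    have e1 : |P * (s1 * s2) - Q * (sg * sh)| ≤ w' * |P * (s1 * s2) - Q * (sg * sh)| :=
      le_mul_of_one_le_left (abs_nonneg _) hw1'
    have e2 : w' * |P * (s1 * s2) - Q * (sg * sh)| = w := by
      conv_lhs => rw [← abs_of_pos hw0']
      rw [← abs_mul, c2, abs_of_pos hw0]
    exact (e1.trans e2.le).trans hw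
  have hA : 0 ≤ s1 * s2 := by positivity
  have hB : 0 ≤ sg * sh := by positivity
  have d3 : |(P : ℝ)| * (s1 * s2) + |(Q : ℝ)| * (sg * sh) ≤ R := abs_comb d1 d2
  refine ⟨a₁ * a₂ * P.natAbs ^ 2 + g * h * Q.natAbs ^ 2, 2 * P.natAbs * Q.natAbs, ?_, ?_, ?_⟩
  · have e1 : 0 < P.natAbs := Int.natAbs_pos.2 hP0
    have e2 : 0 < Q.natAbs := Int.natAbs_pos.2 hQ0
    have e3 := Nat.mul_pos e1 e2
    have e4 : 2 * P.natAbs * Q.natAbs = 2 * (P.natAbs * Q.natAbs) := by ring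
    omega
  · have e1 : |P| ^ 2 = P ^ 2 := sq_abs P
    have e2 : |Q| ^ 2 = Q ^ 2 := sq_abs Q
    zify
    rw [mul_pow, mul_pow, e1, e2]
    linear_combination (a₁ * a₂ * P ^ 2 - g * h * Q ^ 2 + 1) * hPQ
  · have e1 : ((P.natAbs : ℕ) : ℝ) = |(P : ℝ)| := by
      rw [Nat.cast_natAbs, Int.cast_abs]
    have e2 : ((Q.natAbs : ℕ) : ℝ) = |(Q : ℝ)| := by
      rw [Nat.cast_natAbs, Int.cast_abs]
    have e3 : √((g * a₁ * a₂ * h : ℕ) : ℝ) = sg * s1 * s2 * sh := by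
      have : ((g * a₁ * a₂ * h : ℕ) : ℝ) = (sg * s1 * s2 * sh) ^ 2 := by
        push_cast
        rw [← qg, ← q1, ← q2, ← qh]
        ring
      rw [this, Real.sqrt_sq (by positivity)]
    have e4 : (((a₁ * a₂ * P.natAbs ^ 2 + g * h * Q.natAbs ^ 2 : ℕ)) : ℝ) +
        ((2 * P.natAbs * Q.natAbs : ℕ) : ℝ) * (sg * s1 * s2 * sh) =
        (|(P : ℝ)| * (s1 * s2) + |(Q : ℝ)| * (sg * sh)) ^ 2 := by
      push_cast
      rw [e1, e2, ← qg, ← q1, ← q2, ← qh]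
      ring
    rw [e3, e4]
    exact pow_le_pow_left₀ (by positivity) d3 2

end Pool.Agent.BCF
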