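import Pool.Agent.Work.MP_612dae_nt.AlmColl

/-!
# Vectors of small norm in the ambiguous lattices
-/

namespace Pool.Agent.BCF

/-- Dirichlet's theorem for the form `d x² - e y²` -/
theorem exists_vec {d e : ℕ} (hd : 0 < d) (he : 0 < e) {N : ℕ} (hN : 0 < N)
    (hNe : e ≤ N ^ 4 * d) :
    ∃ x y : ℤ, IsCoprime x y ∧ 0 < x ∧ 0 ≤ y ∧
      |(x : ℝ) * √(d : ℝ) - y * √(e : ℝ)| ≤ √(e : ℝ) / N ∧
      (x : ℝ) * √(d : ℝ) + y * √(e : ℝ) ≤ 3 * N * √(d : ℝ) := by
  have hdr : (0 : ℝ) < d := by exact_mod_cast hd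
  have her : (0 : ℝ) < e := by exact_mod_cast he
  have hNr : (0 : ℝ) < N := by exact_mod_cast hN
  have hsd : 0 < √(d : ℝ) := Real.sqrt_pos.2 hdr
  have hse : 0 < √(e : ℝ) := Real.sqrt_pos.2 her
  set ξ : ℝ := √(d : ℝ) / √(e : ℝ) with hξ
  have hξ0 : 0 < ξ := div_pos hsd hse
  obtain ⟨q, hq, hqN⟩ := Real.exists_rat_abs_sub_le_and_den_le ξ hN
  have hden : (0 : ℝ) < q.den := by exact_mod_cast q.den_pos
  have hqd : (q : ℝ) * q.den = q.num := by exact_mod_cast Rat.mul_den_eq_num q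
  have h1 : |ξ * q.den - q.num| ≤ 1 / (N + 1) := by
    rw [← hqd, ← sub_mul, abs_mul, abs_of_pos hden]
    calc |ξ - q| * q.den ≤ 1 / ((N + 1) * q.den) * q.den :=
          mul_le_mul_of_nonneg_right hq hden.le
      _ = 1 / (N + 1) := by
          field_simp
  have h1' : |ξ * q.den - q.num| ≤ 1 / N := h1.trans
    (one_div_le_one_div_of_le hNr (by linarith))
  have hx1 : (1 : ℝ) ≤ q.den := by exact_mod_cast q.den_pos
  have h2 : (q.den : ℝ) * √(d : ℝ) - q.num * √(e : ℝ) = √(e : ℝ) * (ξ * q.den - q.num) := by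
    rw [hξ]
    field_simp
  have h3 : |(q.den : ℝ) * √(d : ℝ) - q.num * √(e : ℝ)| ≤ √(e : ℝ) / N := by
    rw [h2, abs_mul, abs_of_pos hse]
    calc √(e : ℝ) * |ξ * q.den - q.num| ≤ √(e : ℝ) * (1 / N) :=
          mul_le_mul_of_nonneg_left h1' hse.le
      _ = √(e : ℝ) / N := by ring
  have hy0 : 0 ≤ q.num := by
    have h4 : ξ * q.den - q.num ≤ 1 / (N + 1) := (le_abs_self _).trans h1
    have h5 : (1 : ℝ) / (N + 1) < 1 := by
      rw [div_lt_one (by positivity)]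
      linarith
    have h6 : 0 < ξ * q.den := by positivity
    have h7 : (-1 : ℝ) < q.num := by linarith
    have h8 : (-1 : ℤ) < q.num := by exact_mod_cast h7
    omega
  have hkey : √(e : ℝ) / N ≤ N * √(d : ℝ) := by
    rw [div_le_iff₀ hNr]
    apply le_of_sq_le_sq'
    · have h5 : (N * √(d : ℝ) * N) ^ 2 = (N : ℝ) ^ 4 * d := by
        have : (N * √(d : ℝ) * N) ^ 2 = (N : ℝ) ^ 4 * √(d : ℝ) ^ 2 := by ring
        rw [this, Real.sq_sqrt hdr.le]
      rw [h5, Real.sq_sqrt her.le]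
      exact_mod_cast hNe
    · positivity
  refine ⟨q.den, q.num, ?_, by exact_mod_cast q.den_pos, hy0, by exact_mod_cast h3, ?_⟩
  · rw [isCoprime_comm, Int.isCoprime_iff_gcd_eq_one]
    have := q.reduced
    unfold Nat.Coprime at this
    rwa [Int.gcd, Int.natAbs_natCast]
  · have h4 : (q.den : ℝ) ≤ N := by exact_mod_cast hqN
    have h5 : (q.den : ℝ) * √(d : ℝ) + q.num * √(e : ℝ) =
        2 * (q.den * √(d : ℝ)) - (q.den * √(d : ℝ) - q.num * √(e : ℝ)) := by ring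
    have h6 := (neg_le_abs _).trans h3
    have h7 : (q.den : ℝ) * √(d : ℝ) ≤ N * √(d : ℝ) := mul_le_mul_of_nonneg_right h4 hsd.le
    push_cast
    rw [h5]
    linarith
where
  le_of_sq_le_sq' {a b : ℝ} (h : a ^ 2 ≤ b ^ 2) (hb : 0 ≤ b) : a ≤ b := by
    nlinarith [abs_le_of_sq_le_sq h hb, le_abs_self a]

end Pool.Agent.BCF
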