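import Pool.Agent.Work.MP_612dae_nt.Mult

/-!
# Prescribed splitting at finitely many primes
-/

namespace Pool.Agent.BCF

open Finset

theorem exists_neg {p : ℕ} (hp : p.Prime) (hp2 : p ≠ 2) :
    ∃ t : ℕ, jacobiSym ((t ^ 2 + 1 : ℕ) : ℤ) p = -1 := by
  have := Fact.mk hp
  by_contra! hcon
  have h1 : ∀ n : ℕ, IsSquare (n : ZMod p) := by
    intro n
    induction n with
    | zero => exact ⟨0, by simp⟩
    | succ n ih =>
        obtain ⟨r, hr⟩ := ih
        obtain ⟨t, ht⟩ := ZMod.natCast_zmod_surjective r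
        have h2 := hcon t
        rw [← jacobiSym.legendreSym.to_jacobiSym] at h2
        have h3 : ((((t ^ 2 + 1 : ℕ) : ℤ)) : ZMod p) = ((n + 1 : ℕ) : ZMod p) := by
          push_cast
          rw [ht, hr]
          ring
        have h4 : IsSquare ((((t ^ 2 + 1 : ℕ) : ℤ)) : ZMod p) := by
          by_contra h5
          exact h2 (by rw [legendreSym.eq_neg_one_iff]; exact h5)
        rwa [h3] at h4
  have hc : ringChar (ZMod p) ≠ 2 := by
    rw [ZMod.ringChar_zmod_n]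
    exact hp2
  obtain ⟨a, ha⟩ := FiniteField.exists_nonsquare hc
  obtain ⟨n, hn⟩ := ZMod.natCast_zmod_surjective a
  exact ha (hn ▸ h1 n)

/-- residues of `τ` that force the splitting -/
theorem exists_residue {p : ℕ} (hp : p.Prime) (b : Bool) : ∃ t : ℕ, ∀ τ y δ : ℕ,
    τ ≡ t [MOD (if p = 2 then 4 else p)] → τ ^ 2 + 1 = δ * y ^ 2 →
    (if b then SplitAt p δ else InertAt p δ) := by
  by_cases hp2 : p = 2
  · subst hp2
    refine ⟨if b then 0 else 2, ?_⟩
    intro τ y δ h1 h2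
    rw [if_pos rfl] at h1
    have e1 : (τ ^ 2 + 1) % 8 = if b then 1 else 5 := by
      have h3 : τ % 4 = (if b then 0 else 2) := by
        cases b
        · exact h1
        · exact h1
      have h4 : τ % 8 = (if b then 0 else 2) ∨ τ % 8 = (if b then 4 else 6) := by
        cases b <;> simp at h3 ⊢ <;> omega
      rw [Nat.add_mod, Nat.pow_mod]
      cases b <;> simp at h4 ⊢ <;> rcases h4 with h | h <;> rw [h]
    rw [h2] at e1
    have e2 : δ % 8 = if b then 1 else 5 := by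
      have h5 : y % 8 < 8 := Nat.mod_lt _ (by norm_num)
      have h6 : δ % 8 < 8 := Nat.mod_lt _ (by norm_num)
      rw [Nat.mul_mod, Nat.pow_mod] at e1
      generalize y % 8 = a at *
      generalize δ % 8 = d at *
      cases b <;> simp at e1 ⊢ <;> interval_cases a <;> interval_cases d <;> simp at e1 ⊢
    cases b
    · simp [InertAt] at e2 ⊢
      exact e2
    · simp [SplitAt] at e2 ⊢
      exact e2
  · have := Fact.mk hp
    obtain ⟨t, ht⟩ : ∃ t : ℕ, jacobiSym ((t ^ 2 + 1 : ℕ) : ℤ) p = if b then 1 else -1 := by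
      cases b
      · simpa using exists_neg hp hp2
      · exact ⟨0, by simp⟩
    refine ⟨t, ?_⟩
    intro τ y δ h1 h2
    rw [if_neg hp2] at h1
    have e1 : jacobiSym ((τ ^ 2 + 1 : ℕ) : ℤ) p = if b then 1 else -1 := by
      rw [← ht]
      have h3 : ((τ ^ 2 + 1 : ℕ) : ℤ) % p = ((t ^ 2 + 1 : ℕ) : ℤ) % p := by
        have h4 : τ ^ 2 + 1 ≡ t ^ 2 + 1 [MOD p] := (h1.pow 2).add_right 1
        exact_mod_cast h4
      rw [jacobiSym.mod_left, h3, ← jacobiSym.mod_left]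
    rw [h2] at e1
    push_cast at e1
    rw [jacobiSym.mul_left, jacobiSym.pow_left] at e1
    have e2 : jacobiSym (y : ℤ) p ^ 2 = 1 := by
      rcases jacobiSym.trichotomy (y : ℤ) p with h | h | h
      · rw [h] at e1
        cases b <;> simp at e1
      · rw [h]; norm_num
      · rw [h]; norm_num
    rw [e2, mul_one] at e1
    cases b
    · simpa [InertAt, hp2] using e1
    · simpa [SplitAt, hp2] using e1

/-- residues of `τ` that force ramification -/
theorem exists_residue_ram {p : ℕ} (hp : p.Prime) (h3 : p % 4 ≠ 3) : ∃ t : ℕ, ∀ τ y δ : ℕ,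
    τ ≡ t [MOD (if p = 2 then 4 else p ^ 2)] → τ ^ 2 + 1 = δ * y ^ 2 → RamAt p δ := by
  by_cases hp2 : p = 2
  · subst hp2
    refine ⟨1, ?_⟩
    intro τ y δ h1 h2
    rw [if_pos rfl] at h1
    rw [RamAt, if_pos rfl]
    intro h4
    have h5 : τ % 4 = 1 := h1
    have h6 : (τ ^ 2 + 1) % 4 = 2 := by
      rw [Nat.add_mod, Nat.pow_mod, h5]
    rw [h2, Nat.mul_mod, h4, Nat.pow_mod] at h6
    have h7 : y % 4 < 4 := Nat.mod_lt _ (by norm_num)
    generalize y % 4 = a at *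
    interval_cases a <;> simp at h6
  · have := Fact.mk hp
    obtain ⟨t, ht⟩ : ∃ t : ℕ, p ∣ t ^ 2 + 1 := by
      have h1 : IsSquare (-1 : ZMod p) := ZMod.exists_sq_eq_neg_one_iff.2 h3
      obtain ⟨r, hr⟩ := h1
      obtain ⟨t, ht⟩ := ZMod.natCast_zmod_surjective r
      refine ⟨t, ?_⟩
      rw [← ZMod.natCast_eq_zero_iff]
      push_cast
      rw [ht, sq, ← hr]
      ring
    obtain ⟨t', ht', ht2⟩ : ∃ t : ℕ, p ∣ t ^ 2 + 1 ∧ ¬ p ^ 2 ∣ t ^ 2 + 1 := by
      by_cases h : p ^ 2 ∣ t ^ 2 + 1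
      · refine ⟨t + p, ?_, ?_⟩
        · have : (t + p) ^ 2 + 1 = (t ^ 2 + 1) + p * (2 * t + p) := by ring
          rw [this]
          exact dvd_add ht (dvd_mul_right _ _)
        · intro hcon
          have e : (t + p) ^ 2 + 1 = (t ^ 2 + 1 + p ^ 2) + p * (2 * t) := by ring
          rw [e] at hcon
          have h4 : p ^ 2 ∣ p * (2 * t) := (Nat.dvd_add_right (dvd_add h (dvd_refl _))).1 hcon
          rw [sq] at h4
          have h5 : p ∣ 2 * t := Nat.dvd_of_mul_dvd_mul_left hp.pos h4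
          rcases hp.dvd_mul.1 h5 with h6 | h6
          · exact hp2 ((Nat.prime_dvd_prime_iff_eq hp Nat.prime_two).1 h6)
          · have h7 : p ∣ 1 := by
              have h8 : p ∣ t ^ 2 := dvd_pow h6 (by norm_num)
              exact (Nat.dvd_add_right h8).1 ht
            exact hp.one_lt.ne' (Nat.dvd_one.1 h7)
      · exact ⟨t, ht, h⟩
    refine ⟨t', ?_⟩
    intro τ y δ h1 h2
    rw [if_neg hp2] at h1
    rw [RamAt, if_neg hp2]
    have h4 : τ ^ 2 + 1 ≡ t' ^ 2 + 1 [MOD p ^ 2] := (h1.pow 2).add_right 1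
    have h5 : p ∣ τ ^ 2 + 1 := by
      have h6 : τ ^ 2 + 1 ≡ t' ^ 2 + 1 [MOD p] := h4.of_dvd (dvd_pow_self p (by norm_num))
      exact (h6.dvd_iff (dvd_refl _)).2 ht'
    have h7 : ¬ p ^ 2 ∣ τ ^ 2 + 1 := fun h => ht2 ((h4.dvd_iff (dvd_refl _)).1 h)
    rw [h2] at h5 h7
    rcases hp.dvd_mul.1 h5 with h8 | h8
    · exact h8
    · exfalso
      apply h7
      have h9 := hp.dvd_of_dvd_pow h8
      exact dvd_mul_of_dvd_right (pow_dvd_pow_of_dvd h9 2) _

/-- one residue class of `τ` forces all the splitting conditions -/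
theorem exists_class (P Q R : Finset ℕ) (hP : ∀ p ∈ P, p.Prime) (hQ : ∀ p ∈ Q, p.Prime)
    (hR : ∀ p ∈ R, p.Prime ∧ p % 4 ≠ 3) (hPQ : Disjoint P Q) (hPR : Disjoint P R)
    (hQR : Disjoint Q R) : ∃ N t : ℕ, N ≠ 0 ∧ ∀ τ y δ : ℕ, τ ≡ t [MOD N] →
    τ ^ 2 + 1 = δ * y ^ 2 → (∀ p ∈ P, SplitAt p δ) ∧ (∀ p ∈ Q, InertAt p δ) ∧
      ∀ p ∈ R, RamAt p δ := by
  classical
  have hall : ∀ p ∈ P ∪ Q ∪ R, p.Prime := by
    intro p hp
    rcases Finset.mem_union.1 hp with h | h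
    · rcases Finset.mem_union.1 h with h | h
      · exact hP p h
      · exact hQ p h
    · exact (hR p h).1
  set M : ℕ → ℕ := fun p => if p = 2 then 4 else p ^ 2 with hM
  have hex : ∀ p : ℕ, ∃ t : ℕ, p ∈ P ∪ Q ∪ R → ∀ τ y δ : ℕ,
      τ ≡ t [MOD M p] → τ ^ 2 + 1 = δ * y ^ 2 →
      (p ∈ P → SplitAt p δ) ∧ (p ∈ Q → InertAt p δ) ∧ (p ∈ R → RamAt p δ) := by
    intro p
    have hdvd : (if p = 2 then 4 else p) ∣ M p := by
      simp only [hM]
      split_ifs
      · exact dvd_refl _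
      · exact dvd_pow_self p (by norm_num)
    by_cases hp1 : p ∈ P
    · obtain ⟨t, ht⟩ := exists_residue (hP p hp1) true
      refine ⟨t, fun _ τ y δ h1 h2 => ⟨fun _ => ?_, fun h => ?_, fun h => ?_⟩⟩
      · exact ht τ y δ (h1.of_dvd hdvd) h2
      · exact absurd h (Finset.disjoint_left.1 hPQ hp1)
      · exact absurd h (Finset.disjoint_left.1 hPR hp1)
    · by_cases hp2 : p ∈ Q
      · obtain ⟨t, ht⟩ := exists_residue (hQ p hp2) false
        refine ⟨t, fun _ τ y δ h1 h2 => ⟨fun h => absurd h hp1, fun _ => ?_, fun h => ?_⟩⟩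
        · exact ht τ y δ (h1.of_dvd hdvd) h2
        · exact absurd h (Finset.disjoint_left.1 hQR hp2)
      · by_cases hp3 : p ∈ R
        · obtain ⟨t, ht⟩ := exists_residue_ram (hR p hp3).1 (hR p hp3).2
          exact ⟨t, fun _ τ y δ h1 h2 => ⟨fun h => absurd h hp1, fun h => absurd h hp2,
            fun _ => ht τ y δ h1 h2⟩⟩
        · exact ⟨0, fun h => by simp [hp1, hp2, hp3] at h⟩
  choose r hr using hex
  have hne : ∀ p ∈ P ∪ Q ∪ R, M p ≠ 0 := by
    intro p hp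
    simp only [hM]
    split_ifs
    · norm_num
    · exact pow_ne_zero _ (hall p hp).ne_zero
  have hcop : Set.Pairwise (↑(P ∪ Q ∪ R) : Set ℕ) (Function.onFun Nat.Coprime M) := by
    intro p hp q hq hne
    rw [Finset.mem_coe] at hp hq
    have h3 : Nat.Coprime p q := (Nat.coprime_primes (hall p hp) (hall q hq)).2 hne
    have hM2 : ∀ x, M x = x ^ 2 := by
      intro x
      simp only [hM]
      split_ifs with h
      · rw [h]; norm_num
      · rfl
    show Nat.Coprime (M p) (M q)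
    rw [hM2, hM2]
    exact Nat.Coprime.pow 2 2 h3
  obtain ⟨t, ht⟩ := Nat.chineseRemainderOfFinset r M (P ∪ Q ∪ R) hne hcop
  refine ⟨∏ p ∈ P ∪ Q ∪ R, M p, t, Finset.prod_ne_zero_iff.2 hne, ?_⟩
  intro τ y δ h1 h2
  have key : ∀ p ∈ P ∪ Q ∪ R,
      (p ∈ P → SplitAt p δ) ∧ (p ∈ Q → InertAt p δ) ∧ (p ∈ R → RamAt p δ) := by
    intro p hp
    apply hr p hp τ y δ _ h2
    exact (h1.of_dvd (Finset.dvd_prod_of_mem _ hp)).trans (ht p hp)
  exact ⟨fun p hp => (key p (by simp [hp])).1 hp, fun p hp => (key p (by simp [hp])).2.1 hp,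
    fun p hp => (key p (by simp [hp])).2.2 hp⟩

end Pool.Agent.BCF
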