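import Pool.Agent.Work.MP_612dae_nt.Defs

/-!
# Words of a given length with letters in `1, …, m`
-/

namespace Pool.Agent.BCF

/-- the words of length `L` with letters in `1, …, m` -/
def words (m : ℕ) : ℕ → Finset (List ℕ)
  | 0 => {[]}
  | L + 1 => ((Finset.Icc 1 m) ×ˢ words m L).image (fun p => p.1 :: p.2)

theorem mem_words {m L : ℕ} {l : List ℕ} :
    l ∈ words m L ↔ l.length = L ∧ ∀ a ∈ l, 1 ≤ a ∧ a ≤ m := by
  induction L generalizing l with
  | zero =>
      simp only [words, Finset.mem_singleton, List.length_eq_zero_iff]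
      constructor
      · rintro rfl
        simp
      · exact fun h => h.1
  | succ L ih =>
      simp only [words, Finset.mem_image, Finset.mem_product, Finset.mem_Icc, Prod.exists]
      constructor
      · rintro ⟨a, t, ⟨ha, ht⟩, rfl⟩
        rw [ih] at ht
        refine ⟨by rw [List.length_cons, ht.1], fun b hb => ?_⟩
        rcases List.mem_cons.1 hb with rfl | hb
        · exact ha
        · exact ht.2 b hb
      · rintro ⟨h1, h2⟩
        cases l with
        | nil => simp at h1
        | cons a t =>
            refine ⟨a, t, ⟨h2 a List.mem_cons_self, ?_⟩, rfl⟩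
            rw [ih]
            exact ⟨by simpa using h1, fun b hb => h2 b (List.mem_cons_of_mem _ hb)⟩

theorem sum_words_succ (m L : ℕ) (f : List ℕ → ℝ) :
    ∑ l ∈ words m (L + 1), f l = ∑ l ∈ words m L, ∑ a ∈ Finset.Icc 1 m, f (a :: l) := by
  rw [words, Finset.sum_image, Finset.sum_product_right]
  rintro ⟨a, t⟩ _ ⟨b, u⟩ _ h
  simp only [List.cons.injEq] at h
  exact Prod.ext h.1 h.2

end Pool.Agent.BCF
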