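import Pool.Agent.Work.MP_612dae_nt.Ident
import Pool.Agent.Work.MP_612dae_nt.Words
import Mathlib.Topology.MetricSpace.HausdorffDimension

/-!
# The set of bounded continued fractions and its Hausdorff dimension
-/

namespace Pool.Agent.BCF

open MeasureTheory Filter Topology ENNReal

/-- reading the first `L` digits -/
theorem exists_digits {m : ℕ} : ∀ (L : ℕ) (z : ℝ),
    (∀ n, 1 ≤ ⌊step^[n] z⌋ ∧ ⌊step^[n] z⌋ ≤ (m : ℤ)) → ∃ b ∈ words m L, z = act b (step^[L] z)
  | 0, z, _ => ⟨[], by simp [words], rfl⟩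
  | L + 1, z, h => by
      obtain ⟨b, hb, hz⟩ := exists_digits L (step z) fun n => by
        have := h (n + 1)
        rwa [Function.iterate_succ_apply] at this
      have h0 := h 0
      have h1 := h 1
      rw [Function.iterate_zero_apply] at h0
      rw [Function.iterate_one] at h1
      have hfr : z - ⌊z⌋ ≠ 0 := by
        intro h2
        have h3 : step z = 0 := by rw [step, h2, _root_.inv_zero]
        rw [h3, Int.floor_zero] at h1
        omega
      refine ⟨⌊z⌋.toNat :: b, ?_, ?_⟩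
      · rw [words, Finset.mem_image]
        refine ⟨(⌊z⌋.toNat, b), ?_, rfl⟩
        rw [Finset.mem_product, Finset.mem_Icc]
        refine ⟨⟨?_, ?_⟩, hb⟩
        · show 1 ≤ ⌊z⌋.toNat
          omega
        · show ⌊z⌋.toNat ≤ m
          omega
      · show z = ((⌊z⌋.toNat : ℕ) : ℝ) + (act b (step^[L + 1] z))⁻¹
        rw [Function.iterate_succ_apply, ← hz, step, inv_inv]
        have h4 : ((⌊z⌋.toNat : ℕ) : ℝ) = (⌊z⌋ : ℝ) := by
          have : ((⌊z⌋.toNat : ℕ) : ℤ) = ⌊z⌋ := Int.toNat_of_nonneg (by omega)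
          exact_mod_cast this
        rw [h4]
        ring

theorem fib_le_mat {m : ℕ} : ∀ (L : ℕ) (b : List ℕ), b ∈ words m L →
    Nat.fib (L + 1) ≤ mat b 0 0 ∧ Nat.fib L ≤ mat b 1 0
  | 0, b, hb => by
      have : b = [] := by simpa [words] using hb
      subst this
      simp [mat_nil]
  | L + 1, b, hb => by
      rw [words, Finset.mem_image] at hb
      obtain ⟨⟨a, t⟩, hat, rfl⟩ := hb
      rw [Finset.mem_product, Finset.mem_Icc] at hat
      obtain ⟨⟨h1, _⟩, ht⟩ := hat
      obtain ⟨h2, h3⟩ := fib_le_mat L t ht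
      have e00 : mat (a :: t) 0 0 = a * mat t 0 0 + mat t 1 0 := by
        rw [mat_cons, Matrix.mul_apply, Fin.sum_univ_two]
        simp
      have e10 : mat (a :: t) 1 0 = mat t 0 0 := by
        rw [mat_cons, Matrix.mul_apply, Fin.sum_univ_two]
        simp
      have h1' : 1 ≤ a := h1
      show Nat.fib (L + 1 + 1) ≤ mat (a :: t) 0 0 ∧ Nat.fib (L + 1) ≤ mat (a :: t) 1 0
      rw [e00, e10]
      refine ⟨?_, h2⟩
      rw [Nat.fib_add_two]
      nlinarith

/-- the cylinder of a word -/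
def cyl (b : List ℕ) : Set ℝ := (fun y => (act b y)⁻¹) '' Set.Ici 1

theorem dist_cyl (b : List ℕ) {y y' : ℝ} (hy : 1 ≤ y) (hy' : 1 ≤ y') (hyy : y ≤ y')
    (hA : 1 ≤ mat b 0 0) :
    |(act b y)⁻¹ - (act b y')⁻¹| ≤ 1 / (mat b 0 0 : ℝ) ^ 2 := by
  have hy0 : 0 < y := by linarith
  have hy0' : 0 < y' := by linarith
  obtain ⟨h1, h2⟩ := act_eq b hy0
  obtain ⟨h1', h2'⟩ := act_eq b hy0'
  have hd : ((mat b 0 0 : ℝ) * mat b 1 1 - mat b 0 1 * mat b 1 0) ^ 2 = 1 := by
    have h3 := imat_det b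
    rw [Matrix.det_fin_two, imat_apply, imat_apply, imat_apply, imat_apply] at h3
    have h4 : (((mat b 0 0 : ℤ) * mat b 1 1 - mat b 0 1 * mat b 1 0) ^ 2 : ℤ) = 1 := by
      rw [h3, ← pow_mul, mul_comm, pow_mul]
      norm_num
    exact_mod_cast h4
  set A : ℝ := (mat b 0 0 : ℝ) with hAd
  set B : ℝ := (mat b 0 1 : ℝ) with hBd
  set C : ℝ := (mat b 1 0 : ℝ) with hCd
  set D : ℝ := (mat b 1 1 : ℝ) with hDd
  have hA1 : (1 : ℝ) ≤ A := by rw [hAd]; exact_mod_cast hA
  have hB0 : (0 : ℝ) ≤ B := Nat.cast_nonneg _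
  have hp : 0 < A * y + B := by positivity
  have hp' : 0 < A * y' + B := by positivity
  have e : (act b y)⁻¹ - (act b y')⁻¹ =
      (A * D - B * C) * ((y' - y) / ((A * y + B) * (A * y' + B))) := by
    rw [h2, h2', inv_div, inv_div]
    field_simp
    ring
  have habs : |A * D - B * C| = 1 := by
    rw [← sq_abs] at hd
    have := abs_nonneg (A * D - B * C)
    nlinarith
  have hnn : 0 ≤ (y' - y) / ((A * y + B) * (A * y' + B)) :=
    div_nonneg (by linarith) (by positivity)
  rw [e, abs_mul, habs, one_mul, abs_of_nonneg hnn, div_le_div_iff₀ (by positivity) (by positivity)]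
  have h5 : A * y * (A * y') ≤ (A * y + B) * (A * y' + B) := by
    have : 0 ≤ A * y * B + B * (A * y') + B * B := by positivity
    nlinarith
  have h6 : (y' - y) * A ^ 2 ≤ A * y * (A * y') := by
    have : y' - y ≤ y * y' := by nlinarith
    nlinarith [sq_nonneg A]
  linarith

theorem ediam_cyl_le (b : List ℕ) (hA : 1 ≤ mat b 0 0) :
    Metric.ediam (cyl b) ≤ ENNReal.ofReal (1 / (mat b 0 0 : ℝ) ^ 2) := by
  apply Metric.ediam_le
  rintro _ ⟨y, hy, rfl⟩ _ ⟨y', hy', rfl⟩
  rw [edist_dist, Real.dist_eq]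
  apply ENNReal.ofReal_le_ofReal
  rcases le_total y y' with h | h
  · exact dist_cyl b hy hy' h hA
  · rw [abs_sub_comm]
    exact dist_cyl b hy' hy h hA

/-- if the Hausdorff dimension is larger than `s / 2`, then the sum over the words of some length
is at least `1` -/
theorem dim_words {m : ℕ} {s : ℝ} (hs : 0 ≤ s) (h : ENNReal.ofReal (s / 2) < dimH (Em m)) :
    ∃ L, 0 < L ∧ 1 ≤ ∑ b ∈ words m L, (2 * (mat b 0 0 : ℝ)) ^ (-s) := by
  by_contra! hcon
  have hs2 : 0 ≤ s / 2 := by positivity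
  have htop : μH[(Real.toNNReal (s / 2) : ℝ)] (Em m) = ∞ := hausdorffMeasure_of_lt_dimH h
  rw [Real.coe_toNNReal _ hs2] at htop
  have hA : ∀ L, ∀ b ∈ words m L, 1 ≤ mat b 0 0 := fun L b hb =>
    (Nat.fib_pos.2 (Nat.succ_pos L)).trans_le (fib_le_mat L b hb).1
  have hle := Measure.hausdorffMeasure_le_liminf_sum (s / 2) (Em m) (l := atTop)
    (ι := fun L : ℕ => {b // b ∈ words m L})
    (fun L : ℕ => ENNReal.ofReal (1 / (L : ℝ))) ?_ (fun L b => cyl b.1) ?_ ?_
  · have h2 : liminf (fun L : ℕ => ∑ b : {b // b ∈ words m L},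
        Metric.ediam (cyl b.1) ^ (s / 2)) atTop ≤ ENNReal.ofReal ((2 : ℝ) ^ s) := by
      apply liminf_le_of_frequently_le'
      apply Eventually.frequently
      filter_upwards [eventually_gt_atTop 0] with L hL
      have h3 : ∀ b : {b // b ∈ words m L}, Metric.ediam (cyl b.1) ^ (s / 2) ≤
          ENNReal.ofReal ((2 : ℝ) ^ s * (2 * (mat b.1 0 0 : ℝ)) ^ (-s)) := by
        intro b
        have hb := hA L b.1 b.2
        have hb' : (1 : ℝ) ≤ (mat b.1 0 0 : ℝ) := by exact_mod_cast hb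
        refine (ENNReal.rpow_le_rpow (ediam_cyl_le b.1 hb) hs2).trans ?_
        rw [ENNReal.ofReal_rpow_of_nonneg (by positivity) hs2]
        apply ENNReal.ofReal_le_ofReal
        apply le_of_eq
        rw [one_div, Real.inv_rpow (by positivity), ← Real.rpow_natCast, ← Real.rpow_mul
          (by positivity), Real.mul_rpow (by norm_num) (by positivity), ← mul_assoc,
          ← Real.rpow_add (by norm_num), add_neg_cancel, Real.rpow_zero, one_mul,
          Real.rpow_neg (by positivity)]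
        congr 2
        push_cast
        ring
      calc ∑ b : {b // b ∈ words m L}, Metric.ediam (cyl b.1) ^ (s / 2)
          ≤ ∑ b : {b // b ∈ words m L},
              ENNReal.ofReal ((2 : ℝ) ^ s * (2 * (mat b.1 0 0 : ℝ)) ^ (-s)) :=
            Finset.sum_le_sum fun b _ => h3 b
        _ = ENNReal.ofReal (∑ b : {b // b ∈ words m L},
              (2 : ℝ) ^ s * (2 * (mat b.1 0 0 : ℝ)) ^ (-s)) := by
            rw [ENNReal.ofReal_sum_of_nonneg]
            intro b _
            positivity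
        _ ≤ ENNReal.ofReal ((2 : ℝ) ^ s) := by
            apply ENNReal.ofReal_le_ofReal
            rw [← Finset.mul_sum]
            have h4 : ∑ b : {b // b ∈ words m L}, (2 * (mat b.1 0 0 : ℝ)) ^ (-s) =
                ∑ b ∈ words m L, (2 * (mat b 0 0 : ℝ)) ^ (-s) :=
              Finset.sum_coe_sort (words m L) fun b => (2 * (mat b 0 0 : ℝ)) ^ (-s)
            rw [h4]
            have h5 := hcon L hL
            have h6 : (0 : ℝ) < 2 ^ s := by positivity
            nlinarith
    rw [htop] at hle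
    exact absurd (hle.trans h2) (not_le.2 ENNReal.ofReal_lt_top)
  · have h1 : Tendsto (fun L : ℕ => 1 / (L : ℝ)) atTop (𝓝 0) := tendsto_one_div_atTop_nhds_zero_nat
    have h2 := ENNReal.tendsto_ofReal h1
    rwa [ENNReal.ofReal_zero] at h2
  · filter_upwards [eventually_gt_atTop 0] with L hL
    rintro ⟨b, hb⟩
    refine (ediam_cyl_le b (hA L b hb)).trans ?_
    apply ENNReal.ofReal_le_ofReal
    have h1 : L ≤ mat b 0 0 := by
      have h2 := (fib_le_mat L b hb).1
      have h3 := Nat.le_fib_add_one (L + 1)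
      omega
    have h2 : (L : ℝ) ≤ (mat b 0 0 : ℝ) := by exact_mod_cast h1
    have h3 : (1 : ℝ) ≤ (mat b 0 0 : ℝ) := by exact_mod_cast hA L b hb
    have h4 : (0 : ℝ) < L := by exact_mod_cast hL
    apply one_div_le_one_div_of_le h4
    nlinarith
  · refine Eventually.of_forall fun L x hx => ?_
    obtain ⟨hx0, hx1, hx2⟩ := hx
    have h0 : ⌊x⌋ = 0 := Int.floor_eq_zero_iff.2 ⟨hx0.le, hx1⟩
    have hz : x = (step x)⁻¹ := by
      rw [step, h0, inv_inv]
      simp
    obtain ⟨b, hb, hb2⟩ := exists_digits L (step x) fun n => by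
      have := hx2 n
      rwa [Function.iterate_succ_apply] at this
    rw [Set.mem_iUnion]
    refine ⟨⟨b, hb⟩, step^[L] (step x), ?_, ?_⟩
    · have h1 := (hx2 L).1
      rw [Function.iterate_succ_apply] at h1
      have h2 : ((1 : ℤ) : ℝ) ≤ step^[L] (step x) := Int.le_floor.1 h1
      rw [Int.cast_one] at h2
      exact h2
    · show (act b (step^[L] (step x)))⁻¹ = x
      rw [← hb2, ← hz]

end Pool.Agent.BCF
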