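import Pool.Agent.Work.MP_612dae_nt.Words

/-!
# Multiplicities: words with the same trace, traces in the same field
-/

namespace Pool.Agent.BCF

open Finset

def a1 (V : List ℕ) : ℕ := 2 * mat V 0 0 + mat V 0 1
def a2 (V : List ℕ) : ℕ := 2 * mat V 1 0 + mat V 1 1
def b1 (V : List ℕ) : ℕ := 3 * mat V 0 0 + 2 * mat V 0 1
def b2 (V : List ℕ) : ℕ := 3 * mat V 1 0 + 2 * mat V 1 1

/-- half of the trace of `V ++ [1,1,2,1,1] ++ V.reverse` -/
def tau (V : List ℕ) : ℕ := a1 V * b1 V + a2 V * b2 V

def nrm (V : List ℕ) : ℕ := a1 V ^ 2 + a2 V ^ 2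

theorem mat_cons' (a : ℕ) (l : List ℕ) : mat (a :: l) = !![a, 1; 1, 0] * mat l := by
  unfold mat
  rw [List.map_cons, List.prod_cons]

theorem mat00 (a : ℕ) (l : List ℕ) : mat (a :: l) 0 0 = a * mat l 0 0 + mat l 1 0 := by
  rw [mat_cons', Matrix.mul_apply, Fin.sum_univ_two]
  simp

theorem mat01 (a : ℕ) (l : List ℕ) : mat (a :: l) 0 1 = a * mat l 0 1 + mat l 1 1 := by
  rw [mat_cons', Matrix.mul_apply, Fin.sum_univ_two]
  simp

theorem mat10 (a : ℕ) (l : List ℕ) : mat (a :: l) 1 0 = mat l 0 0 := by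
  rw [mat_cons', Matrix.mul_apply, Fin.sum_univ_two]
  simp

theorem mat11 (a : ℕ) (l : List ℕ) : mat (a :: l) 1 1 = mat l 0 1 := by
  rw [mat_cons', Matrix.mul_apply, Fin.sum_univ_two]
  simp

theorem a1_nil : a1 [] = 2 := by simp [a1, mat]
theorem a2_nil : a2 [] = 1 := by simp [a2, mat]

theorem a1_cons (v : ℕ) (V : List ℕ) : a1 (v :: V) = v * a1 V + a2 V := by
  rw [a1, mat00, mat01, a1, a2]
  ring

theorem a2_cons (v : ℕ) (V : List ℕ) : a2 (v :: V) = a1 V := by
  rw [a2, mat10, mat11, a1]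

theorem a_pos {V : List ℕ} (h : ∀ a ∈ V, 1 ≤ a) : 0 < a2 V ∧ a2 V < a1 V := by
  induction V with
  | nil => rw [a1_nil, a2_nil]; omega
  | cons v V ih =>
      obtain ⟨h1, h2⟩ := ih fun a ha => h a (List.mem_cons_of_mem _ ha)
      have hv := h v List.mem_cons_self
      rw [a1_cons, a2_cons]
      refine ⟨by omega, ?_⟩
      nlinarith

theorem a_inj : ∀ {V V' : List ℕ}, (∀ a ∈ V, 1 ≤ a) → (∀ a ∈ V', 1 ≤ a) →
    a1 V = a1 V' → a2 V = a2 V' → V = V'
  | [], [], _, _, _, _ => rfl
  | [], v :: V', _, h', _, e2 => by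
      have h1 := a_pos fun a ha => h' a (List.mem_cons_of_mem _ ha)
      rw [a2_nil, a2_cons] at e2
      omega
  | v :: V, [], h, _, _, e2 => by
      have h1 := a_pos fun a ha => h a (List.mem_cons_of_mem _ ha)
      rw [a2_nil, a2_cons] at e2
      omega
  | v :: V, v' :: V', h, h', e1, e2 => by
      have g := fun a ha => h a (List.mem_cons_of_mem v ha)
      have g' := fun a ha => h' a (List.mem_cons_of_mem v' ha)
      obtain ⟨h1, h2⟩ := a_pos g
      obtain ⟨h3, h4⟩ := a_pos g'
      rw [a2_cons, a2_cons] at e2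
      rw [a1_cons, a1_cons, ← e2] at e1
      rw [← e2] at h4
      have e3 : v = v' := by
        rcases lt_trichotomy v v' with hv | hv | hv
        · exfalso
          have : (v + 1) * a1 V ≤ v' * a1 V := Nat.mul_le_mul_right _ hv
          nlinarith
        · exact hv
        · exfalso
          have : (v' + 1) * a1 V ≤ v * a1 V := Nat.mul_le_mul_right _ hv
          nlinarith
      subst e3
      have e4 : a2 V = a2 V' := by omega
      rw [a_inj g g' e2 e4]

theorem cross (V : List ℕ) :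
    (a1 V : ℤ) * b2 V - (a2 V : ℤ) * b1 V = (-1) ^ V.length := by
  have hdet : ∀ V : List ℕ, (mat V 0 0 : ℤ) * mat V 1 1 - (mat V 0 1 : ℤ) * mat V 1 0 =
      (-1) ^ V.length := by
    intro V
    induction V with
    | nil => simp [mat]
    | cons v V ih =>
        rw [mat00, mat01, mat10, mat11, List.length_cons, pow_succ, ← ih]
        push_cast
        ring
  rw [← hdet V, a1, a2, b1, b2]
  push_cast
  ring

theorem tau_sq (V : List ℕ) : tau V ^ 2 + 1 = nrm V * (b1 V ^ 2 + b2 V ^ 2) := by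
  have h := cross V
  have h2 : ((a1 V : ℤ) * b2 V - (a2 V : ℤ) * b1 V) ^ 2 = 1 := by
    rw [h, ← pow_mul, mul_comm, pow_mul]
    simp
  have h3 : ((tau V ^ 2 + 1 : ℕ) : ℤ) = ((nrm V * (b1 V ^ 2 + b2 V ^ 2) : ℕ) : ℤ) := by
    rw [tau, nrm]
    push_cast
    linear_combination -h2
  exact_mod_cast h3

theorem a_coprime (V : List ℕ) : Nat.Coprime (a1 V) (a2 V) := by
  rw [← Nat.isCoprime_iff_coprime]
  have h := cross V
  rcases Nat.even_or_odd V.length with hp | hp
  · rw [hp.neg_one_pow] at h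
    exact ⟨b2 V, -b1 V, by linear_combination h⟩
  · rw [hp.neg_one_pow] at h
    exact ⟨-b2 V, b1 V, by linear_combination -h⟩

theorem tau_pos {V : List ℕ} (h : ∀ a ∈ V, 1 ≤ a) : 0 < tau V := by
  obtain ⟨h1, h2⟩ := a_pos h
  have h3 : 0 < b1 V := by
    have : a1 V ≤ b1 V := by rw [a1, b1]; omega
    omega
  rw [tau]
  have : 0 < a1 V := by omega
  positivity

/-- a word is determined by the trace, the parity of its length, and a divisor of `τ² + 1` -/
theorem word_inj {V V' : List ℕ} (h : ∀ a ∈ V, 1 ≤ a) (h' : ∀ a ∈ V', 1 ≤ a)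
    (ht : tau V = tau V') (hpar : V.length % 2 = V'.length % 2) (hn : nrm V = nrm V') :
    V = V' := by
  obtain ⟨p1, p2⟩ := a_pos h
  obtain ⟨p3, p4⟩ := a_pos h'
  have c1 := cross V
  have c2 := cross V'
  have hη : ((-1 : ℤ)) ^ V'.length = (-1) ^ V.length := by
    rcases Nat.even_or_odd V.length with hp | hp
    · have hp' : Even V'.length := by
        rw [Nat.even_iff] at hp ⊢
        omega
      rw [hp.neg_one_pow, hp'.neg_one_pow]
    · have hp' : Odd V'.length := by
        rw [Nat.odd_iff] at hp ⊢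
        omega
      rw [hp.neg_one_pow, hp'.neg_one_pow]
  rw [hη] at c2
  set η : ℤ := (-1) ^ V.length with hηd
  have hηη : η * η = 1 := by
    rw [hηd, ← mul_pow]
    simp
  have ht' : (tau V : ℤ) = tau V' := by exact_mod_cast ht
  have e1 : (tau V : ℤ) * a2 V + η * a1 V = nrm V * b2 V := by
    rw [← c1, tau, nrm]
    push_cast
    ring
  have e2 : (tau V' : ℤ) * a2 V' + η * a1 V' = nrm V * b2 V' := by
    rw [hn, ← c2, tau, nrm]
    push_cast
    ring
  have hdvd : (nrm V : ℤ) ∣ (a1 V : ℤ) * a2 V' - a1 V' * a2 V := by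
    refine ⟨η * (a2 V' * b2 V - a2 V * b2 V'), ?_⟩
    have e3 : η * ((a1 V : ℤ) * a2 V' - a1 V' * a2 V) =
        nrm V * (a2 V' * b2 V - a2 V * b2 V') := by
      linear_combination (a2 V' : ℤ) * e1 - (a2 V : ℤ) * e2 - (a2 V : ℤ) * (a2 V') * ht'
    calc (a1 V : ℤ) * a2 V' - a1 V' * a2 V
        = (η * η) * ((a1 V : ℤ) * a2 V' - a1 V' * a2 V) := by rw [hηη, one_mul]
      _ = η * (η * ((a1 V : ℤ) * a2 V' - a1 V' * a2 V)) := by ring
      _ = _ := by rw [e3]; ring
  have b1' : a1 V * a2 V' < nrm V := by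
    have q1 : a1 V ^ 2 < nrm V := by rw [nrm]; nlinarith
    have q2 : a2 V' ^ 2 < nrm V := by rw [hn, nrm]; nlinarith
    nlinarith
  have b2' : a1 V' * a2 V < nrm V := by
    have q1 : a2 V ^ 2 < nrm V := by rw [nrm]; nlinarith
    have q2 : a1 V' ^ 2 < nrm V := by rw [hn, nrm]; nlinarith
    nlinarith
  have hz : (a1 V : ℤ) * a2 V' - a1 V' * a2 V = 0 := by
    apply Int.eq_zero_of_abs_lt_dvd hdvd
    rw [abs_lt]
    have z1 : ((a1 V * a2 V' : ℕ) : ℤ) < nrm V := by exact_mod_cast b1'
    have z2 : ((a1 V' * a2 V : ℕ) : ℤ) < nrm V := by exact_mod_cast b2'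
    have z3 : (0 : ℤ) ≤ ((a1 V * a2 V' : ℕ) : ℤ) := Nat.cast_nonneg _
    have z4 : (0 : ℤ) ≤ ((a1 V' * a2 V : ℕ) : ℤ) := Nat.cast_nonneg _
    push_cast at z1 z2 z3 z4
    constructor <;> linarith
  have hz' : a1 V * a2 V' = a1 V' * a2 V := by
    have : ((a1 V * a2 V' : ℕ) : ℤ) = ((a1 V' * a2 V : ℕ) : ℤ) := by
      push_cast
      linarith
    exact_mod_cast this
  have d1 : a1 V ∣ a1 V' := by
    have : a1 V ∣ a1 V' * a2 V := ⟨a2 V', hz'.symm⟩
    exact (a_coprime V).dvd_of_dvd_mul_right this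
  have d2 : a1 V' ∣ a1 V := by
    have : a1 V' ∣ a1 V * a2 V' := ⟨a2 V, hz'⟩
    exact (a_coprime V').dvd_of_dvd_mul_right this
  have f1 : a1 V = a1 V' := Nat.dvd_antisymm d1 d2
  have f2 : a2 V = a2 V' := by
    rw [f1] at hz'
    have : 0 < a1 V' := by omega
    exact (Nat.eq_of_mul_eq_mul_left this hz').symm
  exact a_inj h h' f1 f2

/-- at most `2 d(τ²+1)` words have a given trace -/
theorem card_le_tau (A : Finset (List ℕ)) (hA : ∀ V ∈ A, ∀ a ∈ V, 1 ≤ a) (D : ℕ)
    (hD : ∀ V ∈ A, (tau V ^ 2 + 1).divisors.card ≤ D) :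
    A.card ≤ 2 * D * (A.image tau).card := by
  classical
  apply Finset.card_le_mul_card_image
  intro t ht
  rw [Finset.mem_image] at ht
  obtain ⟨V₀, hV₀, rfl⟩ := ht
  calc (A.filter fun V => tau V = tau V₀).card
      ≤ ((Finset.range 2) ×ˢ (tau V₀ ^ 2 + 1).divisors).card := by
        apply Finset.card_le_card_of_injOn (fun V => (V.length % 2, nrm V))
        · intro V hV
          rw [Finset.mem_coe, Finset.mem_filter] at hV
          rw [Finset.mem_coe, Finset.mem_product, Finset.mem_range, Nat.mem_divisors]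
          refine ⟨Nat.mod_lt _ (by norm_num), ?_, by positivity⟩
          rw [← hV.2, tau_sq]
          exact dvd_mul_right _ _
        · intro V hV V' hV' heq
          rw [Finset.mem_coe, Finset.mem_filter] at hV hV'
          simp only [Prod.mk.injEq] at heq
          exact word_inj (hA V hV.1) (hA V' hV'.1) (hV.2.trans hV'.2.symm) heq.1 heq.2
    _ = 2 * (tau V₀ ^ 2 + 1).divisors.card := by
        rw [Finset.card_product, Finset.card_range]
    _ ≤ 2 * D := Nat.mul_le_mul_left _ (hD V₀ hV₀)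

/-- the squarefree kernel -/
noncomputable def sf (n : ℕ) : ℕ := (Nat.sq_mul_squarefree n).choose

theorem sf_spec (n : ℕ) : ∃ y, y ^ 2 * sf n = n ∧ Squarefree (sf n) :=
  (Nat.sq_mul_squarefree n).choose_spec

/-- the solutions of `t² + 1 = δ y²` at least double -/
theorem doubling {δ t y t' y' : ℕ} (hδ : 2 ≤ δ) (hy : 0 < y) (h : t ^ 2 + 1 = δ * y ^ 2)
    (h' : t' ^ 2 + 1 = δ * y' ^ 2) (hlt : y < y') : 2 * y ≤ y' := by
  have hty : y ≤ t := by
    by_contra hcon
    push Not at hcon
    have : t ^ 2 + 1 ≤ y ^ 2 := by nlinarith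
    nlinarith [Nat.mul_le_mul_right (y ^ 2) hδ]
  have hty' : y' ≤ t' := by
    by_contra hcon
    push Not at hcon
    have : t' ^ 2 + 1 ≤ y' ^ 2 := by nlinarith
    nlinarith [Nat.mul_le_mul_right (y' ^ 2) hδ]
  by_contra hcon
  push Not at hcon
  -- `t' y > t y'`
  have e : (t' * y) ^ 2 + y ^ 2 = (t * y') ^ 2 + y' ^ 2 := by
    calc (t' * y) ^ 2 + y ^ 2 = (t' ^ 2 + 1) * y ^ 2 := by ring
      _ = (t ^ 2 + 1) * y' ^ 2 := by rw [h, h']; ring
      _ = _ := by ring
  have h1 : t * y' < t' * y := by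
    by_contra hc
    push Not at hc
    have q1 := Nat.mul_le_mul hc hc
    have q2 := Nat.mul_lt_mul'' hlt hlt
    nlinarith
  have h2 : (t * y' + 1) * (t * y' + 1) ≤ (t' * y) * (t' * y) := Nat.mul_le_mul h1 h1
  -- `(t'y - ty')(t'y + ty') = y'² - y²`
  have h3 : t' * y + t * y' + y ^ 2 ≤ y' ^ 2 := by
    obtain ⟨k, hk⟩ := Nat.exists_eq_add_of_lt h1
    rw [hk] at e ⊢
    nlinarith
  have h4 : y' * y ≤ t' * y := Nat.mul_le_mul_right _ hty'
  have h5 : y * y' ≤ t * y' := Nat.mul_le_mul_right _ hty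
  nlinarith

/-- a field contains few of the traces -/
theorem card_le_sf (S : Finset ℕ) (T : ℕ) (hS : ∀ t ∈ S, 0 < t ∧ t ≤ T) :
    S.card ≤ (Nat.log 2 (T + 1) + 1) * (S.image fun t => sf (t ^ 2 + 1)).card := by
  classical
  apply Finset.card_le_mul_card_image
  intro d hd
  choose y hy using sf_spec
  calc (S.filter fun t => sf (t ^ 2 + 1) = d).card
      ≤ (Finset.range (Nat.log 2 (T + 1) + 1)).card := by
        apply Finset.card_le_card_of_injOn (fun t => Nat.log 2 (y (t ^ 2 + 1)))
        · intro t ht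
          rw [Finset.mem_coe, Finset.mem_filter] at ht
          rw [Finset.mem_coe, Finset.mem_range]
          apply Nat.lt_succ_of_le
          apply Nat.log_mono_right
          have h1 := (hy (t ^ 2 + 1)).1
          have h2 : 0 < sf (t ^ 2 + 1) := by
            rcases Nat.eq_zero_or_pos (sf (t ^ 2 + 1)) with h | h
            · rw [h, mul_zero] at h1
              omega
            · exact h
          have h3 : y (t ^ 2 + 1) ^ 2 ≤ t ^ 2 + 1 := by
            calc y (t ^ 2 + 1) ^ 2 ≤ y (t ^ 2 + 1) ^ 2 * sf (t ^ 2 + 1) :=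
                  Nat.le_mul_of_pos_right _ h2
              _ = _ := h1
          have h4 := (hS t ht.1).2
          by_contra hcon
          push Not at hcon
          nlinarith
        · have key : ∀ t ∈ S, ∀ t' ∈ S, sf (t ^ 2 + 1) = d → sf (t' ^ 2 + 1) = d →
              y (t ^ 2 + 1) < y (t' ^ 2 + 1) →
              Nat.log 2 (y (t ^ 2 + 1)) < Nat.log 2 (y (t' ^ 2 + 1)) := by
            intro t ht t' ht' hd1 hd2 hlt
            have h1 := (hy (t ^ 2 + 1)).1
            have h2 := (hy (t' ^ 2 + 1)).1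
            rw [hd1] at h1
            rw [hd2] at h2
            have hy0 : 0 < y (t ^ 2 + 1) := by
              rcases Nat.eq_zero_or_pos (y (t ^ 2 + 1)) with h | h
              · rw [h] at h1
                simp at h1
              · exact h
            have hd0 : 2 ≤ d := by
              have ht0 := (hS t ht).1
              rcases Nat.lt_or_ge d 2 with h | h
              · exfalso
                interval_cases d
                · simp at h1
                · rw [mul_one] at h1
                  have h5 : t < y (t ^ 2 + 1) := by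
                    by_contra hcon
                    push Not at hcon
                    nlinarith
                  nlinarith
              · exact h
            have h3 := doubling hd0 hy0 (h1.symm.trans (mul_comm _ _))
              (h2.symm.trans (mul_comm _ _)) hlt
            have h4 : Nat.log 2 (y (t ^ 2 + 1)) + 1 = Nat.log 2 (y (t ^ 2 + 1) * 2) :=
              (Nat.log_mul_base (by norm_num) hy0.ne').symm
            have h5 := Nat.log_mono_right (b := 2) h3
            rw [mul_comm] at h5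
            omega
          intro t ht t' ht' heq
          rw [Finset.mem_coe, Finset.mem_filter] at ht ht'
          have h1 := (hy (t ^ 2 + 1)).1
          have h2 := (hy (t' ^ 2 + 1)).1
          simp only at heq
          rcases lt_trichotomy (y (t ^ 2 + 1)) (y (t' ^ 2 + 1)) with hl | hl | hl
          · have := key t ht.1 t' ht'.1 ht.2 ht'.2 hl
            omega
          · rw [ht.2, hl] at h1
            rw [ht'.2] at h2
            have h3 : t ^ 2 + 1 = t' ^ 2 + 1 := h1.symm.trans h2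
            have h4 : t ^ 2 = t' ^ 2 := by omega
            exact Nat.pow_left_injective (by norm_num : (2 : ℕ) ≠ 0) h4
          · have := key t' ht'.1 t ht.1 ht'.2 ht.2 hl
            omega
    _ = _ := Finset.card_range _

end Pool.Agent.BCF
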