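import Pool.Agent.Work.MP_612dae_nt.Ident
import Pool.Agent.Work.MP_612dae_nt.Mult

/-!
# Prescribing the half trace modulo `N`
-/

namespace Pool.Agent.BCF

open Matrix

section

variable (N : ℕ) [NeZero N]

/-- reduction modulo `N` -/
def red : SpecialLinearGroup (Fin 2) ℤ →* SpecialLinearGroup (Fin 2) (ZMod N) :=
  SpecialLinearGroup.map (Int.castRingHom (ZMod N))

/-- the matrix is represented modulo `N` by a word with letters `1, 2` -/
def Rep (x : SpecialLinearGroup (Fin 2) (ZMod N)) : Prop :=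
  ∃ U : List ℕ, (∀ a ∈ U, 1 ≤ a ∧ a ≤ 2) ∧
    (mat U).map (Nat.castRingHom (ZMod N)) = (x : Matrix (Fin 2) (Fin 2) (ZMod N))

variable {N}

omit [NeZero N] in
theorem rep_one : Rep N 1 := by
  refine ⟨[], by simp, ?_⟩
  rw [mat_nil, Matrix.map_one _ (map_zero _) (map_one _)]
  rfl

omit [NeZero N] in
theorem rep_mul {x y : SpecialLinearGroup (Fin 2) (ZMod N)} (hx : Rep N x) (hy : Rep N y) :
    Rep N (x * y) := by
  obtain ⟨U, hU, hxU⟩ := hx
  obtain ⟨V, hV, hyV⟩ := hy
  refine ⟨U ++ V, fun a ha => (List.mem_append.1 ha).elim (hU a) (hV a), ?_⟩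
  rw [mat_append, Matrix.map_mul, hxU, hyV]
  rfl

omit [NeZero N] in
theorem rep_pow {x : SpecialLinearGroup (Fin 2) (ZMod N)} (hx : Rep N x) (n : ℕ) :
    Rep N (x ^ n) := by
  induction n with
  | zero => rw [pow_zero]; exact rep_one
  | succ n ih => rw [pow_succ]; exact rep_mul ih hx

theorem rep_inv {x : SpecialLinearGroup (Fin 2) (ZMod N)} (hx : Rep N x) : Rep N x⁻¹ := by
  have h1 : x * x ^ (orderOf x - 1) = 1 := by
    rw [← pow_succ', Nat.sub_add_cancel (orderOf_pos x), pow_orderOf_eq_one]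
  rw [inv_eq_of_mul_eq_one_right h1]
  exact rep_pow hx _

omit [NeZero N] in
theorem rep_of {U : List ℕ} {g : SpecialLinearGroup (Fin 2) ℤ} (hU : ∀ a ∈ U, 1 ≤ a ∧ a ≤ 2)
    (h : ∀ i j, ((mat U i j : ℕ) : ℤ) = g i j) : Rep N (red N g) := by
  refine ⟨U, hU, ?_⟩
  ext i j
  rw [Matrix.map_apply, red, SpecialLinearGroup.map_apply_coe, RingHom.mapMatrix_apply,
    Matrix.map_apply, ← h i j]
  simp

/-- `[[2, 1], [1, 1]]` -/
def gA : SpecialLinearGroup (Fin 2) ℤ := ⟨!![2, 1; 1, 1], by simp [Matrix.det_fin_two_of]⟩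
/-- `[[3, 2], [1, 1]]` -/
def gB : SpecialLinearGroup (Fin 2) ℤ := ⟨!![3, 2; 1, 1], by simp [Matrix.det_fin_two_of]⟩
/-- `[[3, 1], [2, 1]]` -/
def gC : SpecialLinearGroup (Fin 2) ℤ := ⟨!![3, 1; 2, 1], by simp [Matrix.det_fin_two_of]⟩

theorem mat_two (a b : ℕ) : mat [a, b] = !![a * b + 1, a; b, 1] := by
  rw [mat_cons, mat_cons, mat_nil, mul_one]
  ext i j
  fin_cases i <;> fin_cases j <;> simp

omit [NeZero N] in
theorem rep_gA : Rep N (red N gA) := by
  refine rep_of (U := [1, 1]) (by decide) fun i j => ?_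
  rw [mat_two]
  fin_cases i <;> fin_cases j <;> rfl

omit [NeZero N] in
theorem rep_gB : Rep N (red N gB) := by
  refine rep_of (U := [2, 1]) (by decide) fun i j => ?_
  rw [mat_two]
  fin_cases i <;> fin_cases j <;> rfl

omit [NeZero N] in
theorem rep_gC : Rep N (red N gC) := by
  refine rep_of (U := [1, 2]) (by decide) fun i j => ?_
  rw [mat_two]
  fin_cases i <;> fin_cases j <;> rfl

theorem T_eq : ModularGroup.T = gB * gA⁻¹ := by decide

theorem S_eq : ModularGroup.S = ModularGroup.T⁻¹ * (gA⁻¹ * gC) * ModularGroup.T⁻¹ := by decide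

/-- every matrix of `SL(2, ℤ)` is represented modulo `N` -/
theorem rep_red (g : SpecialLinearGroup (Fin 2) ℤ) : Rep N (red N g) := by
  have hT : Rep N (red N ModularGroup.T) := by
    rw [T_eq, map_mul, map_inv]
    exact rep_mul rep_gB (rep_inv rep_gA)
  have hS : Rep N (red N ModularGroup.S) := by
    rw [S_eq, map_mul, map_mul, map_mul, map_inv, map_inv]
    exact rep_mul (rep_mul (rep_inv hT) (rep_mul (rep_inv rep_gA) rep_gC)) (rep_inv hT)
  have hg : g ∈ Subgroup.closure {ModularGroup.S, ModularGroup.T} := by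
    rw [SpecialLinearGroup.SL2Z_generators]
    exact Subgroup.mem_top g
  induction hg using Subgroup.closure_induction with
  | mem x hx =>
      rcases hx with rfl | hx
      · exact hS
      · rw [Set.mem_singleton_iff.1 hx]
        exact hT
  | one => rw [map_one]; exact rep_one
  | mul x y _ _ hx hy => rw [map_mul]; exact rep_mul hx hy
  | inv x _ hx => rw [map_inv]; exact rep_inv hx

end

/-- one word fixes the half trace modulo `N`, a finite set of words serves for all `V` -/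
theorem fix_word (N : ℕ) [NeZero N] (r : ZMod N) :
    ∃ 𝒰 : Finset (List ℕ), (∀ U ∈ 𝒰, ∀ a ∈ U, 1 ≤ a ∧ a ≤ 2) ∧
      ∀ V : List ℕ, ∃ U ∈ 𝒰, ((tau (U ++ V) : ℕ) : ZMod N) = r := by
  classical
  have : Fintype (SpecialLinearGroup (Fin 2) (ZMod N)) := Fintype.ofFinite _
  choose! f hf using fun (x : SpecialLinearGroup (Fin 2) (ZMod N)) (hx : Rep N x) => hx
  refine ⟨(Finset.univ.filter fun x => Rep N x).image f, ?_, fun V => ?_⟩
  · intro U hU
    rw [Finset.mem_image] at hU
    obtain ⟨x, hx, rfl⟩ := hU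
    exact (hf x (Finset.mem_filter.1 hx).2).1
  · obtain ⟨ρ, hρ⟩ := ZMod.intCast_surjective r
    have hc := cross V
    have hε : ((-1 : ℤ) ^ V.length) ^ 2 = 1 := by
      rw [← pow_mul, mul_comm, pow_mul]
      simp
    set ε : ℤ := (-1) ^ V.length with hεd
    let g : SpecialLinearGroup (Fin 2) ℤ :=
      ⟨!![ε * (b2 V - ρ * a2 V), ε * (ρ * a1 V - b1 V); -(a2 V : ℤ), (a1 V : ℤ)], by
        rw [Matrix.det_fin_two_of]
        linear_combination ε * hc + hε⟩
    have hg : Rep N (red N g) := rep_red g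
    refine ⟨f (red N g), Finset.mem_image_of_mem f (Finset.mem_filter.2 ⟨Finset.mem_univ _, hg⟩),
      ?_⟩
    have h1 := (hf _ hg).2
    set U := f (red N g) with hU
    have h2 : ∀ i j, ((mat U i j : ℕ) : ZMod N) = ((g i j : ℤ) : ZMod N) := by
      intro i j
      have h3 := congrFun (congrFun h1 i) j
      rw [Matrix.map_apply, red, SpecialLinearGroup.map_apply_coe, RingHom.mapMatrix_apply,
        Matrix.map_apply] at h3
      simpa using h3
    have g00 : g 0 0 = ε * (b2 V - ρ * a2 V) := rfl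
    have g01 : g 0 1 = ε * (ρ * a1 V - b1 V) := rfl
    have g10 : g 1 0 = -(a2 V : ℤ) := rfl
    have g11 : g 1 1 = (a1 V : ℤ) := rfl
    have e1 : a1 (U ++ V) = mat U 0 0 * a1 V + mat U 0 1 * a2 V := by
      rw [a1, a1, a2, mat_append, Matrix.mul_apply, Matrix.mul_apply, Fin.sum_univ_two,
        Fin.sum_univ_two]
      ring
    have e2 : a2 (U ++ V) = mat U 1 0 * a1 V + mat U 1 1 * a2 V := by
      rw [a2, a1, a2, mat_append, Matrix.mul_apply, Matrix.mul_apply, Fin.sum_univ_two,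
        Fin.sum_univ_two]
      ring
    have e3 : b1 (U ++ V) = mat U 0 0 * b1 V + mat U 0 1 * b2 V := by
      rw [b1, b1, b2, mat_append, Matrix.mul_apply, Matrix.mul_apply, Fin.sum_univ_two,
        Fin.sum_univ_two]
      ring
    have e4 : b2 (U ++ V) = mat U 1 0 * b1 V + mat U 1 1 * b2 V := by
      rw [b2, b1, b2, mat_append, Matrix.mul_apply, Matrix.mul_apply, Fin.sum_univ_two,
        Fin.sum_univ_two]
      ring
    have hc' : ((a1 V : ℤ) : ZMod N) * (b2 V : ℤ) - ((a2 V : ℤ) : ZMod N) * (b1 V : ℤ) =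
        (ε : ZMod N) := by
      exact_mod_cast congrArg (Int.cast : ℤ → ZMod N) hc
    have hε' : ((ε : ℤ) : ZMod N) ^ 2 = 1 := by
      exact_mod_cast congrArg (Int.cast : ℤ → ZMod N) hε
    rw [tau, e1, e2, e3, e4]
    push_cast at hc' hε' ⊢
    rw [h2, h2, h2, h2, g00, g01, g10, g11, ← hρ]
    push_cast
    set A := (a1 V : ZMod N)
    set B := (a2 V : ZMod N)
    set C := (b1 V : ZMod N)
    set D := (b2 V : ZMod N)
    set E := (ε : ZMod N)
    set R := (ρ : ZMod N)
    linear_combination (E * R * (A * D - B * C) * E + R * E ^ 2) * hc' * 0 +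
      (E ^ 2 * R * (A * D - B * C) + E ^ 3 * R) * hc' + R * (E ^ 2 + 1) * hε'

end Pool.Agent.BCF
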