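import Pool.Agent.Work.MP_612dae_nt.Defs

/-!
# Prescribed splitting at finitely many primes, for `τ² = δ y² + 1`
-/

namespace Pool.Agent.BCF

open Finset

/-- the modulus used at the prime `p` -/
def modp (p : ℕ) : ℕ := if p = 2 then 64 else p ^ 3

theorem dvd_y {p δ y : ℕ} (hp : p.Prime) (hδ : Squarefree δ) (h : p ^ 2 ∣ δ * y ^ 2) : p ∣ y := by
  by_contra hcon
  have h1 : Nat.Coprime (p ^ 2) (y ^ 2) := ((Nat.Prime.coprime_iff_not_dvd hp).2 hcon).pow 2 2
  have h2 : p ^ 2 ∣ δ := h1.dvd_of_dvd_mul_right h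
  rw [sq] at h2
  have h3 := hδ p h2
  rw [Nat.isUnit_iff] at h3
  exact hp.one_lt.ne' h3

theorem reduce {p δ y n : ℕ} (hp : p.Prime) (hδ : Squarefree δ) (h : δ * y ^ 2 = p ^ 2 * n) :
    ∃ y', δ * y' ^ 2 = n := by
  obtain ⟨y', rfl⟩ := dvd_y hp hδ ⟨n, h⟩
  refine ⟨y', ?_⟩
  have h1 : p ^ 2 * (δ * y' ^ 2) = p ^ 2 * n := by rw [← h]; ring
  exact Nat.eq_of_mul_eq_mul_left (pow_pos hp.pos 2) h1

/-- from `δ y² ≡ c mod 8` with `c` odd -/
theorem mod8 {δ y c : ℕ} (hc : c % 2 = 1) (h : (δ * y ^ 2) % 8 = c % 8) : δ % 8 = c % 8 := by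
  have h1 : y % 2 = 1 := by
    rcases Nat.mod_two_eq_zero_or_one y with h2 | h2
    · exfalso
      obtain ⟨k, hk⟩ := Nat.dvd_of_mod_eq_zero h2
      rw [hk] at h
      have : δ * (2 * k) ^ 2 = 2 * (2 * (δ * k ^ 2)) := by ring
      rw [this] at h
      omega
    · exact h2
  have h2 : y ^ 2 % 8 = 1 := by
    have h3 : y % 8 < 8 := Nat.mod_lt _ (by norm_num)
    rw [Nat.pow_mod]
    have h4 : (y % 8) % 2 = 1 := by omega
    generalize y % 8 = a at *
    interval_cases a <;> simp_all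
  rw [Nat.mul_mod, h2, mul_one, Nat.mod_mod] at h
  exact h

theorem two_case {δ y τ t c : ℕ} (hδ : Squarefree δ) (hτ : τ ≡ t [MOD 64])
    (h : τ ^ 2 = δ * y ^ 2 + 1) (hc : c % 2 = 1) (ht : t ^ 2 % 128 = (16 * c + 1) % 128) :
    δ % 8 = c % 8 := by
  have h1 : τ ^ 2 % 128 = t ^ 2 % 128 := by
    have h2 : τ % 128 = t % 128 ∨ τ % 128 = (t + 64) % 128 := by
      have : τ % 64 = t % 64 := hτ
      omega
    rcases h2 with h2 | h2
    · rw [Nat.pow_mod, h2, ← Nat.pow_mod]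
    · rw [Nat.pow_mod, h2, ← Nat.pow_mod]
      have : (t + 64) ^ 2 = t ^ 2 + 128 * (t + 32) := by ring
      rw [this, Nat.add_mul_mod_self_left]
  rw [ht, h] at h1
  obtain ⟨n, hn⟩ : ∃ n, δ * y ^ 2 = 2 ^ 2 * (2 ^ 2 * n) ∧ n % 8 = c % 8 := by
    refine ⟨δ * y ^ 2 / 16, ?_, ?_⟩
    · omega
    · omega
  obtain ⟨y1, h3⟩ := reduce Nat.prime_two hδ hn.1
  obtain ⟨y2, h4⟩ := reduce Nat.prime_two hδ h3
  exact mod8 hc (by rw [h4]; exact hn.2)

/-- from `δ y² = u` to symbols -/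
theorem symbol_of {p δ y : ℕ} {u : ℤ} {e : ℤ} (he : e = 1 ∨ e = -1) (h : ((δ * y ^ 2 : ℕ) : ℤ) = u)
    (hu : jacobiSym u p = e) : jacobiSym δ p = e := by
  rw [← h] at hu
  push_cast at hu
  rw [jacobiSym.mul_left, jacobiSym.pow_left] at hu
  have e2 : jacobiSym (y : ℤ) p ^ 2 = 1 := by
    rcases jacobiSym.trichotomy (y : ℤ) p with h | h | h
    · rw [h] at hu
      rcases he with he | he <;> rw [he] at hu <;> simp at hu
    · rw [h]; norm_num
    · rw [h]; norm_num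
  rw [e2, mul_one] at hu
  exact hu

theorem res_split {p : ℕ} (hp : p.Prime) : ∃ t : ℕ, ∀ τ y δ : ℕ, Squarefree δ →
    τ ≡ t [MOD modp p] → τ ^ 2 = δ * y ^ 2 + 1 → SplitAt p δ := by
  by_cases hp2 : p = 2
  · subst hp2
    refine ⟨23, fun τ y δ hδ h1 h2 => ?_⟩
    rw [SplitAt, if_pos rfl]
    exact two_case hδ (by simpa [modp] using h1) h2 (c := 1) (by norm_num) (by norm_num)
  · have := Fact.mk hp
    by_cases hp3 : p = 3
    · subst hp3
      refine ⟨8, fun τ y δ hδ h1 h2 => ?_⟩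
      rw [SplitAt, if_neg (by norm_num)]
      have h3 : τ % 27 = 8 := by simpa [modp, Nat.ModEq] using h1
      have h4 : τ ^ 2 % 27 = 10 := by rw [Nat.pow_mod, h3]
      rw [h2] at h4
      obtain ⟨n, hn, hn3⟩ : ∃ n, δ * y ^ 2 = 3 ^ 2 * n ∧ n % 3 = 1 :=
        ⟨δ * y ^ 2 / 9, by omega, by omega⟩
      obtain ⟨y1, h5⟩ := reduce Nat.prime_three hδ hn
      apply symbol_of (y := y1) (u := (n : ℤ)) (Or.inl rfl)
      · rw [h5]
      · rw [jacobiSym.mod_left]
        have : (n : ℤ) % (3 : ℕ) = 1 := by omega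
        rw [this]
        exact jacobiSym.one_left 3
    · -- `4 t ≡ 5`
      have h4u : IsUnit (4 : ZMod p) := by
        rw [isUnit_iff_ne_zero]
        intro h
        have h5 : ((4 : ℕ) : ZMod p) = 0 := by exact_mod_cast h
        rw [ZMod.natCast_eq_zero_iff] at h5
        have h6 : p ∣ 2 ^ 2 := by norm_num; exact h5
        exact hp2 ((Nat.prime_dvd_prime_iff_eq hp Nat.prime_two).1 (hp.dvd_of_dvd_pow h6))
      obtain ⟨t, ht⟩ := ZMod.natCast_zmod_surjective ((5 : ZMod p) / 4)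
      have ht4 : (4 : ZMod p) * t = 5 := by
        rw [ht, mul_div_cancel₀ _ h4u.ne_zero]
      refine ⟨t, fun τ y δ hδ h1 h2 => ?_⟩
      rw [SplitAt, if_neg hp2]
      have hτ : (τ : ZMod p) = t := by
        rw [ZMod.natCast_eq_natCast_iff]
        apply h1.of_dvd
        rw [modp, if_neg hp2]
        exact dvd_pow_self p (by norm_num)
      have h3ne : ¬ p ∣ 3 := fun h => hp3 ((Nat.prime_dvd_prime_iff_eq hp Nat.prime_three).1 h)
      apply symbol_of (y := 4 * y) (u := 16 * ((τ : ℤ) ^ 2 - 1)) (Or.inl rfl)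
      · have : (τ : ℤ) ^ 2 = δ * y ^ 2 + 1 := by exact_mod_cast h2
        rw [this]
        push_cast
        ring
      · have h5 : (16 * ((τ : ℤ) ^ 2 - 1)) % p = (3 ^ 2 : ℤ) % p := by
          rw [← ZMod.intCast_eq_intCast_iff']
          push_cast
          rw [hτ]
          linear_combination (4 * (t : ZMod p) + 5) * ht4
        rw [jacobiSym.mod_left, h5, ← jacobiSym.mod_left]
        apply jacobiSym.sq_one'
        rw [Int.gcd_eq_natAbs]
        simp only [Int.natAbs_natCast]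
        exact (Nat.coprime_primes Nat.prime_three hp).2 (fun h => hp3 h.symm)

theorem res_inert {p : ℕ} (hp : p.Prime) : ∃ t : ℕ, ∀ τ y δ : ℕ, Squarefree δ →
    τ ≡ t [MOD modp p] → τ ^ 2 = δ * y ^ 2 + 1 → InertAt p δ := by
  by_cases hp2 : p = 2
  · subst hp2
    refine ⟨9, fun τ y δ hδ h1 h2 => ?_⟩
    rw [InertAt, if_pos rfl]
    exact two_case hδ (by simpa [modp] using h1) h2 (c := 5) (by norm_num) (by norm_num)
  · have := Fact.mk hp
    obtain ⟨t, ht⟩ : ∃ t : ℕ, jacobiSym ((t : ℤ) ^ 2 - 1) p = -1 := by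
      by_contra! hcon
      have h1 : ∀ n : ℕ, IsSquare (-(n : ZMod p)) := by
        intro n
        induction n with
        | zero => exact ⟨0, by simp⟩
        | succ n ih =>
            obtain ⟨r, hr⟩ := ih
            obtain ⟨t, ht⟩ := ZMod.natCast_zmod_surjective r
            have h2 := hcon t
            rw [← jacobiSym.legendreSym.to_jacobiSym] at h2
            have h3 : ((((t : ℤ) ^ 2 - 1 : ℤ)) : ZMod p) = -((n + 1 : ℕ) : ZMod p) := by
              push_cast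
              rw [ht]
              linear_combination -hr
            have h4 : IsSquare ((((t : ℤ) ^ 2 - 1 : ℤ)) : ZMod p) := by
              by_contra h5
              exact h2 (by rw [legendreSym.eq_neg_one_iff]; exact h5)
            rwa [h3] at h4
      have hc : ringChar (ZMod p) ≠ 2 := by
        rw [ZMod.ringChar_zmod_n]
        exact hp2
      obtain ⟨a, ha⟩ := FiniteField.exists_nonsquare hc
      obtain ⟨n, hn⟩ := ZMod.natCast_zmod_surjective (-a)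
      have h5 := h1 n
      rw [hn, neg_neg] at h5
      exact ha h5
    refine ⟨t, fun τ y δ hδ h1 h2 => ?_⟩
    rw [InertAt, if_neg hp2]
    have hτ : (τ : ZMod p) = t := by
      rw [ZMod.natCast_eq_natCast_iff]
      apply h1.of_dvd
      rw [modp, if_neg hp2]
      exact dvd_pow_self p (by norm_num)
    apply symbol_of (y := y) (u := (τ : ℤ) ^ 2 - 1) (Or.inr rfl)
    · have : (τ : ℤ) ^ 2 = δ * y ^ 2 + 1 := by exact_mod_cast h2
      rw [this]
      push_cast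
      ring
    · rw [← ht]
      have h5 : ((τ : ℤ) ^ 2 - 1) % p = ((t : ℤ) ^ 2 - 1) % p := by
        rw [← ZMod.intCast_eq_intCast_iff']
        push_cast
        rw [hτ]
      rw [jacobiSym.mod_left, h5, ← jacobiSym.mod_left]

theorem res_ram {p : ℕ} (hp : p.Prime) : ∃ t : ℕ, ∀ τ y δ : ℕ, Squarefree δ →
    τ ≡ t [MOD modp p] → τ ^ 2 = δ * y ^ 2 + 1 → RamAt p δ := by
  by_cases hp2 : p = 2
  · subst hp2
    refine ⟨0, fun τ y δ hδ h1 h2 => ?_⟩
    rw [RamAt, if_pos rfl]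
    intro h4
    have h3 : τ % 64 = 0 := by simpa [modp, Nat.ModEq] using h1
    have h5 : τ ^ 2 % 4 = 0 := by
      have h6 : τ % 4 = 0 := by omega
      rw [Nat.pow_mod, h6]
    rw [h2, Nat.add_mod, Nat.mul_mod, h4, Nat.pow_mod] at h5
    have h7 : y % 4 < 4 := Nat.mod_lt _ (by norm_num)
    generalize y % 4 = a at *
    interval_cases a <;> simp at h5
  · have := Fact.mk hp
    refine ⟨1 + p, fun τ y δ hδ h1 h2 => ?_⟩
    rw [RamAt, if_neg hp2]
    have hτ : τ ≡ 1 + p [MOD p ^ 2] := by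
      apply h1.of_dvd
      rw [modp, if_neg hp2]
      exact pow_dvd_pow p (by norm_num)
    obtain ⟨k, hk⟩ : ∃ k : ℤ, (τ : ℤ) = 1 + p + p ^ 2 * k := by
      have h3 : ((p ^ 2 : ℕ) : ℤ) ∣ (τ : ℤ) - (1 + p : ℕ) := (Nat.modEq_iff_dvd.1 hτ.symm)
      obtain ⟨k, hk⟩ := h3
      refine ⟨k, ?_⟩
      push_cast at hk
      linear_combination hk
    have h3 : ((δ * y ^ 2 : ℕ) : ℤ) = p * (2 + p * (1 + p * k) ^ 2 + 2 * (p * k)) := by
      have : (τ : ℤ) ^ 2 = δ * y ^ 2 + 1 := by exact_mod_cast h2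
      push_cast
      rw [hk] at this
      linear_combination -this
    have h4 : p ∣ δ * y ^ 2 := by
      have : (p : ℤ) ∣ ((δ * y ^ 2 : ℕ) : ℤ) := ⟨_, h3⟩
      exact_mod_cast this
    rcases hp.dvd_mul.1 h4 with h5 | h5
    · exact h5
    · exfalso
      have h6 := hp.dvd_of_dvd_pow h5
      obtain ⟨z, rfl⟩ := h6
      have hp0 : (p : ℤ) ≠ 0 := by exact_mod_cast hp.ne_zero
      have h7 : (p : ℤ) * (δ * z ^ 2) = 2 + p * (1 + p * k) ^ 2 + 2 * (p * k) := by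
        apply mul_left_cancel₀ hp0
        rw [← h3]
        push_cast
        ring
      have h8 : (p : ℤ) ∣ 2 := by
        refine ⟨δ * z ^ 2 - (1 + p * k) ^ 2 - 2 * k, ?_⟩
        linear_combination -h7
      have h9 : p ∣ 2 := by exact_mod_cast h8
      exact hp2 ((Nat.prime_dvd_prime_iff_eq hp Nat.prime_two).1 h9)

/-- one residue class of `τ` forces all the splitting conditions -/
theorem exists_class1 (P Q R : Finset ℕ) (hP : ∀ p ∈ P, p.Prime) (hQ : ∀ p ∈ Q, p.Prime)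
    (hR : ∀ p ∈ R, p.Prime) (hPQ : Disjoint P Q) (hPR : Disjoint P R)
    (hQR : Disjoint Q R) : ∃ N t : ℕ, N ≠ 0 ∧ ∀ τ y δ : ℕ, Squarefree δ → τ ≡ t [MOD N] →
    τ ^ 2 = δ * y ^ 2 + 1 → (∀ p ∈ P, SplitAt p δ) ∧ (∀ p ∈ Q, InertAt p δ) ∧
      ∀ p ∈ R, RamAt p δ := by
  classical
  have hall : ∀ p ∈ P ∪ Q ∪ R, p.Prime := by
    intro p hp
    rcases Finset.mem_union.1 hp with h | h
    · rcases Finset.mem_union.1 h with h | h
      · exact hP p h
      · exact hQ p h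
    · exact hR p h
  have hex : ∀ p : ℕ, ∃ t : ℕ, p ∈ P ∪ Q ∪ R → ∀ τ y δ : ℕ, Squarefree δ →
      τ ≡ t [MOD modp p] → τ ^ 2 = δ * y ^ 2 + 1 →
      (p ∈ P → SplitAt p δ) ∧ (p ∈ Q → InertAt p δ) ∧ (p ∈ R → RamAt p δ) := by
    intro p
    by_cases hp1 : p ∈ P
    · obtain ⟨t, ht⟩ := res_split (hP p hp1)
      exact ⟨t, fun _ τ y δ h0 h1 h2 => ⟨fun _ => ht τ y δ h0 h1 h2,
        fun h => absurd h (Finset.disjoint_left.1 hPQ hp1),
        fun h => absurd h (Finset.disjoint_left.1 hPR hp1)⟩⟩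
    · by_cases hp2 : p ∈ Q
      · obtain ⟨t, ht⟩ := res_inert (hQ p hp2)
        exact ⟨t, fun _ τ y δ h0 h1 h2 => ⟨fun h => absurd h hp1,
          fun _ => ht τ y δ h0 h1 h2, fun h => absurd h (Finset.disjoint_left.1 hQR hp2)⟩⟩
      · by_cases hp3 : p ∈ R
        · obtain ⟨t, ht⟩ := res_ram (hR p hp3)
          exact ⟨t, fun _ τ y δ h0 h1 h2 => ⟨fun h => absurd h hp1, fun h => absurd h hp2,
            fun _ => ht τ y δ h0 h1 h2⟩⟩
        · exact ⟨0, fun h => by simp [hp1, hp2, hp3] at h⟩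
  choose r hr using hex
  have hne : ∀ p ∈ P ∪ Q ∪ R, modp p ≠ 0 := by
    intro p hp
    rw [modp]
    split_ifs
    · norm_num
    · exact pow_ne_zero _ (hall p hp).ne_zero
  have hcop : Set.Pairwise (↑(P ∪ Q ∪ R) : Set ℕ) (Function.onFun Nat.Coprime modp) := by
    intro p hp q hq hne
    rw [Finset.mem_coe] at hp hq
    have h3 : Nat.Coprime p q := (Nat.coprime_primes (hall p hp) (hall q hq)).2 hne
    have hM2 : ∀ x, ∃ e, modp x = x ^ e := by
      intro x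
      rw [modp]
      split_ifs with h
      · exact ⟨6, by rw [h]; norm_num⟩
      · exact ⟨3, rfl⟩
    obtain ⟨e, he⟩ := hM2 p
    obtain ⟨f, hf⟩ := hM2 q
    show Nat.Coprime (modp p) (modp q)
    rw [he, hf]
    exact Nat.Coprime.pow e f h3
  obtain ⟨t, ht⟩ := Nat.chineseRemainderOfFinset r modp (P ∪ Q ∪ R) hne hcop
  refine ⟨∏ p ∈ P ∪ Q ∪ R, modp p, t, Finset.prod_ne_zero_iff.2 hne, ?_⟩
  intro τ y δ h0 h1 h2
  have key : ∀ p ∈ P ∪ Q ∪ R,
      (p ∈ P → SplitAt p δ) ∧ (p ∈ Q → InertAt p δ) ∧ (p ∈ R → RamAt p δ) := by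
    intro p hp
    apply hr p hp τ y δ h0 _ h2
    exact (h1.of_dvd (Finset.dvd_prod_of_mem _ hp)).trans (ht p hp)
  exact ⟨fun p hp => (key p (by simp [hp])).1 hp, fun p hp => (key p (by simp [hp])).2.1 hp,
    fun p hp => (key p (by simp [hp])).2.2 hp⟩

end Pool.Agent.BCF
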