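import Pool.Agent.Work.MP_612dae_nt.Mult

/-!
# The family of determinant one: half of the trace of `V ++ [1,1,2,1,1] ++ V.reverse ++ [1]`
-/

namespace Pool.Agent.BCF

/-- the off-diagonal entry of `M(V) * [[12,7],[7,4]] * M(V)ᵀ` -/
def s12 (V : List ℕ) : ℕ := 12 * (mat V 0 0 * mat V 1 0) +
  7 * (mat V 0 0 * mat V 1 1 + mat V 0 1 * mat V 1 0) + 4 * (mat V 0 1 * mat V 1 1)

/-- half of the trace of the matrix of `V ++ [1,1,2,1,1] ++ V.reverse ++ [1]` -/
def tau1 (V : List ℕ) : ℕ := a1 V * b1 V + s12 V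

end Pool.Agent.BCF
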