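import Pool.Agent.Work.MP_612dae_nt.Ident
import Pool.Agent.Work.MP_612dae_nt.Defs1

/-!
# The family of determinant one: infinitely many periodic continued fractions
-/

namespace Pool.Agent.BCF

section words

variable (V : List ℕ)

def word1 : List ℕ := word V ++ [1]
def wX1 : List ℕ := wX V ++ [1]
def wY1 : List ℕ := wY V ++ [1]
/-- `W` repeated `n` times -/
def wpow1 (n : ℕ) : List ℕ := (List.replicate n (word1 V)).flatten
def wZ1 (n : ℕ) : List ℕ := wX1 V ++ wpow1 V n ++ wY1 V ++ wpow1 V n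

theorem imat_wpow1 (n : ℕ) : imat (wpow1 V n) = imat (word1 V) ^ n := by
  induction n with
  | zero => simp [wpow1, imat, mat_nil]
  | succ n ih =>
      have : wpow1 V (n + 1) = word1 V ++ wpow1 V n := by
        simp [wpow1, List.replicate_succ]
      rw [this, imat_append, ih, pow_succ']

/-- powers of a matrix -/
theorem pow_lin (M : Matrix (Fin 2) (Fin 2) ℤ) (k : ℕ) :
    ∃ u c : ℤ, M ^ k = u • M + c • 1 := by
  induction k with
  | zero => exact ⟨0, 1, by simp⟩
  | succ k ih =>
      obtain ⟨u, c, h⟩ := ih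
      have hCH : M * M = M.trace • M + (-M.det) • (1 : Matrix (Fin 2) (Fin 2) ℤ) := by
        rw [Matrix.det_fin_two]
        ext i j
        fin_cases i <;> fin_cases j <;>
          simp only [Matrix.mul_apply, Fin.sum_univ_two, Matrix.trace_fin_two, Matrix.add_apply,
            Matrix.smul_apply, smul_eq_mul, Fin.zero_eta, Fin.mk_one, Matrix.one_apply_eq,
            Matrix.one_apply_ne (zero_ne_one : (0 : Fin 2) ≠ 1),
            Matrix.one_apply_ne (one_ne_zero : (1 : Fin 2) ≠ 0)] <;> ring1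
      refine ⟨u * M.trace + c, u * -M.det, ?_⟩
      rw [pow_succ, h, add_mul, smul_mul_assoc, hCH, smul_mul_assoc, one_mul, smul_add,
        smul_smul, smul_smul, add_smul]
      abel

theorem disc_lin (M : Matrix (Fin 2) (Fin 2) ℤ) (k : ℕ) : ∃ u : ℤ, (M ^ k).trace ^ 2 -
    4 * (M ^ k).det = u ^ 2 * (M.trace ^ 2 - 4 * M.det) := by
  obtain ⟨u, c, h⟩ := pow_lin M k
  refine ⟨u, ?_⟩
  rw [h]
  simp only [Matrix.det_fin_two, Matrix.trace_fin_two, Matrix.add_apply, Matrix.smul_apply,
    Matrix.one_apply_eq, smul_eq_mul, Matrix.one_apply_ne (zero_ne_one : (0 : Fin 2) ≠ 1),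
    Matrix.one_apply_ne (one_ne_zero : (1 : Fin 2) ≠ 0)]
  ring

theorem det_word1 : (imat (word1 V)).det = 1 := by
  rw [word1, imat_append, Matrix.det_mul, det_word, imat_one, Matrix.det_fin_two_of]
  norm_num

/-- the discriminant of the long words -/
theorem disc_wZ1 (n : ℕ) : ∃ u : ℤ, (imat (wZ1 V n)).trace ^ 2 - 4 * (imat (wZ1 V n)).det =
    u ^ 2 * ((imat (word1 V)).trace ^ 2 - 4) := by
  set A : Matrix (Fin 2) (Fin 2) ℤ := imat [1] with hA
  have hAT : A.transpose = A := by
    rw [hA, imat_one]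
    ext i j
    fin_cases i <;> fin_cases j <;> rfl
  have hW1 : imat (word1 V) = imat (word V) * A := by rw [word1, imat_append]
  have hS : (A * imat (wpow1 V n)).transpose = A * imat (wpow1 V n) := by
    rw [imat_wpow1, hW1, Matrix.transpose_mul, Matrix.transpose_pow, Matrix.transpose_mul,
      imat_word_symm, hAT]
    induction n with
    | zero => simp
    | succ n ih =>
        rw [pow_succ', Matrix.mul_assoc, ih, pow_succ', ← Matrix.mul_assoc, ← Matrix.mul_assoc,
          ← Matrix.mul_assoc]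
  have h1 : imat (wZ1 V n) = imat (wX V) * (A * imat (wpow1 V n)) * imat (wY V) *
      (A * imat (wpow1 V n)) := by
    rw [wZ1, wX1, wY1]
    simp only [imat_append, Matrix.mul_assoc]
    rfl
  have h2 : (imat (wZ1 V n)).trace = (imat (word1 V) ^ (2 * n + 2)).trace := by
    rw [h1, imat_wX, imat_wY, trace_ident _ _ hS, ← imat_word, imat_wpow1]
    congr 1
    have h3 : ∀ k, imat (word V) * (A * imat (word1 V) ^ k) = imat (word1 V) ^ (k + 1) := by
      intro k
      rw [← Matrix.mul_assoc, ← hW1, ← pow_succ']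
    rw [h3, Matrix.mul_assoc, h3, ← pow_add]
    congr 1
    ring
  have h3 : (imat (wZ1 V n)).det = (imat (word1 V) ^ (2 * n + 2)).det := by
    rw [Matrix.det_pow, det_word1, imat_det, one_pow]
    have h4 : Even (wZ1 V n).length := by
      have hX : (wX1 V).length = 2 * (V.length + 2) + 1 := by simp [wX1, wX]; ring
      have hY : (wY1 V).length = 2 * (V.length + 3) + 1 := by simp [wY1, wY]; ring
      rw [wZ1, List.length_append, List.length_append, List.length_append, hX, hY]
      exact ⟨(V.length + 3) + (wpow1 V n).length + (V.length + 3), by ring⟩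
    exact h4.neg_one_pow
  rw [h2, h3]
  obtain ⟨u, hu⟩ := disc_lin (imat (word1 V)) (2 * n + 2)
  refine ⟨u, ?_⟩
  rw [hu, det_word1, mul_one]

theorem trace_word1 : (imat (word1 V)).trace = 2 * (tau1 V : ℤ) := by
  rw [word1, imat_append, imat_word, imat_one, Matrix.trace_fin_two]
  simp only [Matrix.mul_apply, Fin.sum_univ_two, Matrix.transpose_apply, Matrix.of_apply,
    Matrix.cons_val', Matrix.cons_val_zero, Matrix.cons_val_one, Matrix.cons_val_fin_one,
    imat_apply]
  rw [tau1, s12, a1, b1]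
  push_cast
  ring

end words

/-- one word gives infinitely many periodic continued fractions in its field with the same
bound -/
theorem infinite_pset1 {m : ℕ} (hm : 2 ≤ m) {V : List ℕ} (hV : ∀ a ∈ V, 1 ≤ a ∧ a ≤ m)
    {δ y : ℕ} (h : tau1 V ^ 2 = δ * y ^ 2 + 1) : (pset m δ).Infinite := by
  have hcore : ∀ c : List ℕ, (∀ a ∈ c, 1 ≤ a ∧ a ≤ 2) → ∀ a ∈ V ++ c ++ V.reverse ++ [1],
      1 ≤ a ∧ a ≤ m := by
    intro c hc a ha
    simp only [List.mem_append, List.mem_reverse, List.mem_singleton] at ha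
    rcases ha with ((ha | ha) | ha) | rfl
    · exact hV a ha
    · exact ⟨(hc a ha).1, (hc a ha).2.trans hm⟩
    · exact hV a ha
    · omega
  have hW : ∀ a ∈ word1 V, 1 ≤ a ∧ a ≤ m := hcore _ (by decide)
  have hP : ∀ n, ∀ a ∈ wpow1 V n, 1 ≤ a ∧ a ≤ m := by
    intro n a ha
    rw [wpow1, List.mem_flatten] at ha
    obtain ⟨l, hl, hal⟩ := ha
    rw [List.eq_of_mem_replicate hl] at hal
    exact hW a hal
  have hX : ∀ a ∈ wX1 V, 1 ≤ a ∧ a ≤ m := hcore _ (by decide)
  have hY : ∀ a ∈ wY1 V, 1 ≤ a ∧ a ≤ m := hcore _ (by decide)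
  have hZ : ∀ n, ∀ a ∈ wZ1 V n, 1 ≤ a ∧ a ≤ m := by
    intro n a ha
    simp only [wZ1, List.mem_append] at ha
    rcases ha with ((ha | ha) | ha) | ha
    · exact hX a ha
    · exact hP n a ha
    · exact hY a ha
    · exact hP n a ha
  have hne : ∀ n, wZ1 V n ≠ [] := by
    intro n hcon
    have := congrArg List.length hcon
    simp [wZ1, wX1] at this
  have htr : (imat (word1 V)).trace ^ 2 - 4 = δ * (2 * y : ℤ) ^ 2 := by
    rw [trace_word1]
    have h1 : (tau1 V : ℤ) ^ 2 = δ * (y : ℤ) ^ 2 + 1 := by exact_mod_cast h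
    linear_combination 4 * h1
  have hex : ∀ n, ∃ x : ℝ, 1 < x ∧ act (wZ1 V n) x = x ∧ x ∈ pset m δ := by
    intro n
    obtain ⟨u, hu⟩ := disc_wZ1 V n
    refine exists_fixed (hne n) (hZ n) (y := u * (2 * y)) ?_
    rw [hu, htr]
    ring
  choose f hf1 hf2 hf3 using hex
  refine Set.infinite_of_injective_forall_mem (f := f) ?_ hf3
  have key : ∀ n n', n < n' → f n ≠ f n' := by
    intro n n' hnn heq
    set p : List ℕ := wX1 V ++ wpow1 V n ++ (V ++ [1]) with hp
    obtain ⟨r₁, hr₁⟩ : ∃ r, wZ1 V n = p ++ 2 :: r := by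
      refine ⟨[1, 1, 1, 1] ++ V.reverse ++ [1] ++ wpow1 V n, ?_⟩
      simp [wZ1, wY1, wY, hp]
    obtain ⟨r₂, hr₂⟩ : ∃ r, wZ1 V n' = p ++ 1 :: r := by
      obtain ⟨k, rfl⟩ := Nat.exists_eq_add_of_lt hnn
      refine ⟨[2, 1, 1] ++ V.reverse ++ [1] ++ wpow1 V k ++ wY1 V ++ wpow1 V (n + k + 1), ?_⟩
      have h1 : wpow1 V (n + k + 1) = wpow1 V n ++ (word1 V ++ wpow1 V k) := by
        have : n + k + 1 = n + (k + 1) := by ring
        rw [this, wpow1, wpow1, wpow1, List.replicate_add, List.flatten_append,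
          List.replicate_succ, List.flatten_cons]
      have h2 : wZ1 V (n + k + 1) = wX1 V ++ (wpow1 V n ++ (word1 V ++ wpow1 V k)) ++ wY1 V ++
          wpow1 V (n + k + 1) := by
        rw [wZ1, h1]
      rw [h2]
      simp [word1, word, hp]
    have one : ∀ n, ∀ b ∈ wZ1 V n, 1 ≤ b := fun n b hb => (hZ n b hb).1
    have s1 := step_iterate_act (hf1 n) p (2 :: r₁) (by rw [← hr₁]; exact one n)
    have s2 := step_iterate_act (hf1 n') p (1 :: r₂) (by rw [← hr₂]; exact one n')
    rw [← hr₁, hf2] at s1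
    rw [← hr₂, hf2, ← heq, s1] at s2
    have g1 : ⌊act (2 :: r₁) (f n)⌋ = (2 : ℕ) := floor_act (hf1 n) fun b hb => by
      refine one n b ?_
      rw [hr₁]
      exact List.mem_append_right _ (List.mem_cons_of_mem _ hb)
    have g2 : ⌊act (1 :: r₂) (f n')⌋ = (1 : ℕ) := floor_act (hf1 n') fun b hb => by
      refine one n' b ?_
      rw [hr₂]
      exact List.mem_append_right _ (List.mem_cons_of_mem _ hb)
    rw [← heq] at g2
    rw [s2, g2] at g1
    norm_num at g1
  intro n n' heq
  rcases lt_trichotomy n n' with h1 | h1 | h1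
  · exact absurd heq (key n n' h1)
  · exact h1
  · exact absurd heq.symm (key n' n h1)

end Pool.Agent.BCF
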