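import Pool.Agent.Work.MP_612dae_nt.Local
import Pool.Agent.Work.MP_612dae_nt.Defs1

/-!
# Prescribing the two columns modulo `N`; the half trace of the family of determinant one
-/

namespace Pool.Agent.BCF

open Matrix

/-- one word brings the columns to `(1, 0)` and `(ρ, ± 1)` modulo `N` -/
theorem fix_pair (N : ℕ) [NeZero N] :
    ∃ 𝒰 : Finset (List ℕ), (∀ U ∈ 𝒰, ∀ a ∈ U, 1 ≤ a ∧ a ≤ 2) ∧
      ∀ (V : List ℕ) (r : ZMod N), ∃ U ∈ 𝒰, ((a1 (U ++ V) : ℕ) : ZMod N) = 1 ∧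
        ((a2 (U ++ V) : ℕ) : ZMod N) = 0 ∧ ((b1 (U ++ V) : ℕ) : ZMod N) = r ∧
        ((b2 (U ++ V) : ℕ) : ZMod N) = (-1) ^ V.length := by
  classical
  have : Fintype (SpecialLinearGroup (Fin 2) (ZMod N)) := Fintype.ofFinite _
  choose! f hf using fun (x : SpecialLinearGroup (Fin 2) (ZMod N)) (hx : Rep N x) => hx
  refine ⟨(Finset.univ.filter fun x => Rep N x).image f, ?_, fun V r => ?_⟩
  · intro U hU
    rw [Finset.mem_image] at hU
    obtain ⟨x, hx, rfl⟩ := hU
    exact (hf x (Finset.mem_filter.1 hx).2).1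
  · obtain ⟨ρ, hρ⟩ := ZMod.intCast_surjective r
    have hc := cross V
    have hε : ((-1 : ℤ) ^ V.length) ^ 2 = 1 := by
      rw [← pow_mul, mul_comm, pow_mul]
      simp
    have hcast : ((-1 : ZMod N)) ^ V.length = (((-1 : ℤ) ^ V.length : ℤ) : ZMod N) := by
      push_cast
      rfl
    rw [hcast]
    set ε : ℤ := (-1) ^ V.length with hεd
    let g : SpecialLinearGroup (Fin 2) ℤ :=
      ⟨!![ε * (b2 V - ρ * a2 V), ε * (ρ * a1 V - b1 V); -(a2 V : ℤ), (a1 V : ℤ)], by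
        rw [Matrix.det_fin_two_of]
        linear_combination ε * hc + hε⟩
    have hg : Rep N (red N g) := rep_red g
    refine ⟨f (red N g), Finset.mem_image_of_mem f (Finset.mem_filter.2 ⟨Finset.mem_univ _, hg⟩),
      ?_⟩
    have h1 := (hf _ hg).2
    set U := f (red N g) with hU
    have h2 : ∀ i j, ((mat U i j : ℕ) : ZMod N) = ((g i j : ℤ) : ZMod N) := by
      intro i j
      have h3 := congrFun (congrFun h1 i) j
      rw [Matrix.map_apply, red, SpecialLinearGroup.map_apply_coe, RingHom.mapMatrix_apply,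
        Matrix.map_apply] at h3
      simpa using h3
    have g00 : g 0 0 = ε * (b2 V - ρ * a2 V) := rfl
    have g01 : g 0 1 = ε * (ρ * a1 V - b1 V) := rfl
    have g10 : g 1 0 = -(a2 V : ℤ) := rfl
    have g11 : g 1 1 = (a1 V : ℤ) := rfl
    have e1 : a1 (U ++ V) = mat U 0 0 * a1 V + mat U 0 1 * a2 V := by
      rw [a1, a1, a2, mat_append, Matrix.mul_apply, Matrix.mul_apply, Fin.sum_univ_two,
        Fin.sum_univ_two]
      ring
    have e2 : a2 (U ++ V) = mat U 1 0 * a1 V + mat U 1 1 * a2 V := by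
      rw [a2, a1, a2, mat_append, Matrix.mul_apply, Matrix.mul_apply, Fin.sum_univ_two,
        Fin.sum_univ_two]
      ring
    have e3 : b1 (U ++ V) = mat U 0 0 * b1 V + mat U 0 1 * b2 V := by
      rw [b1, b1, b2, mat_append, Matrix.mul_apply, Matrix.mul_apply, Fin.sum_univ_two,
        Fin.sum_univ_two]
      ring
    have e4 : b2 (U ++ V) = mat U 1 0 * b1 V + mat U 1 1 * b2 V := by
      rw [b2, b1, b2, mat_append, Matrix.mul_apply, Matrix.mul_apply, Fin.sum_univ_two,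
        Fin.sum_univ_two]
      ring
    have hc' : ((a1 V : ℤ) : ZMod N) * (b2 V : ℤ) - ((a2 V : ℤ) : ZMod N) * (b1 V : ℤ) =
        (ε : ZMod N) := by
      exact_mod_cast congrArg (Int.cast : ℤ → ZMod N) hc
    have hε' : ((ε : ℤ) : ZMod N) ^ 2 = 1 := by
      exact_mod_cast congrArg (Int.cast : ℤ → ZMod N) hε
    push_cast at hc' hε'
    rw [e1, e2, e3, e4]
    push_cast
    rw [h2, h2, h2, h2, g00, g01, g10, g11, ← hρ]
    push_cast
    set A := (a1 V : ZMod N)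
    set B := (a2 V : ZMod N)
    set C := (b1 V : ZMod N)
    set D := (b2 V : ZMod N)
    set E := (ε : ZMod N)
    set R := (ρ : ZMod N)
    refine ⟨?_, ?_, ?_, ?_⟩
    · linear_combination E * hc' + hε'
    · ring
    · linear_combination E * R * hc' + R * hε'
    · linear_combination hc'

theorem s12_eq (V : List ℕ) : s12 V = a1 V * b2 V + a2 V * b1 V := by
  rw [s12, a1, a2, b1, b2]
  ring

/-- one word fixes the half trace modulo `N`, a finite set of words serves for all `V` -/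
theorem fix_word1 (N : ℕ) [NeZero N] (r : ZMod N) :
    ∃ 𝒰 : Finset (List ℕ), (∀ U ∈ 𝒰, ∀ a ∈ U, 1 ≤ a ∧ a ≤ 2) ∧
      ∀ V : List ℕ, ∃ U ∈ 𝒰, ((tau1 (U ++ V) : ℕ) : ZMod N) = r := by
  obtain ⟨𝒰, h1, h2⟩ := fix_pair N
  refine ⟨𝒰, h1, fun V => ?_⟩
  obtain ⟨U, hU, e1, e2, e3, e4⟩ := h2 V (r - (-1) ^ V.length)
  refine ⟨U, hU, ?_⟩
  rw [tau1, s12_eq]
  push_cast
  rw [e1, e2, e3, e4]
  ring

end Pool.Agent.BCF
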