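import Pool.Agent.Work.MP_612dae_nt.Many1
import Pool.Agent.Work.MP_612dae_nt.Cond1
import Pool.Agent.Work.MP_612dae_nt.Dim
import Pool.Agent.Work.MP_612dae_nt.Ident1
import Pool.Agent.Work.MP_612dae_nt.Local1

/-!
# Assembly: many real quadratic fields with infinitely many bounded periodic continued fractions
-/

namespace Pool.Agent.BCF

open Filter Finset

theorem count_of_good1 {m : ℕ} (hm : 2 ≤ m) {s s' : ℝ} (hG : Good m s) (hs' : s' < s)
    (P Q R : Finset ℕ) (hP : ∀ p ∈ P, p.Prime) (hQ : ∀ p ∈ Q, p.Prime)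
    (hR : ∀ p ∈ R, p.Prime) (hPQ : Disjoint P Q) (hPR : Disjoint P R)
    (hQR : Disjoint Q R) :
    ∀ᶠ X : ℝ in atTop, X ^ (s' / 4) ≤ (fieldCount m P Q R X : ℝ) := by
  obtain ⟨N, t, hN, hcond⟩ := exists_class1 P Q R hP hQ hR hPQ hPR hQR
  have : NeZero N := ⟨hN⟩
  have hGP := goodP_of_good (P := fun V => ((tau1 V : ℕ) : ZMod N) = (t : ZMod N)) hm
    (fix_word1 N (t : ZMod N)) hG
  filter_upwards [many_kernels1 hGP hs'] with X hX
  obtain ⟨S, hS1, hS2⟩ := hX
  refine hS1.trans ?_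
  have hfin : Set.Finite {δ : ℕ | Squarefree δ ∧ 1 < δ ∧ (δ : ℝ) ≤ X ∧ (∀ p ∈ P, SplitAt p δ) ∧
      (∀ p ∈ Q, InertAt p δ) ∧ (∀ p ∈ R, RamAt p δ) ∧ (pset m δ).Infinite} := by
    apply (Set.finite_Iic ⌊X⌋₊).subset
    intro δ hδ
    exact Nat.le_floor hδ.2.2.1
  have hsub : (↑S : Set ℕ) ⊆ {δ : ℕ | Squarefree δ ∧ 1 < δ ∧ (δ : ℝ) ≤ X ∧
      (∀ p ∈ P, SplitAt p δ) ∧ (∀ p ∈ Q, InertAt p δ) ∧ (∀ p ∈ R, RamAt p δ) ∧
      (pset m δ).Infinite} := by
    intro δ hδ
    obtain ⟨h1, h2, h3, V, hV, hr, y, hy⟩ := hS2 δ hδ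
    have hmod : tau1 V ≡ t [MOD N] := (ZMod.natCast_eq_natCast_iff _ _ _).1 hr
    obtain ⟨h4, h5, h6⟩ := hcond (tau1 V) y δ h1 hmod hy
    exact ⟨h1, h2, h3, h4, h5, h6, infinite_pset1 hm hV hy⟩
  have h := Set.ncard_le_ncard hsub hfin
  rw [Set.ncard_coe_finset] at h
  exact_mod_cast h

theorem count_main1 {m : ℕ} (hm : 2 ≤ m) {s : ℝ}
    (hs : s < max (max (51 / 200 : ℝ) (1 / 2 - 8 / m)) ((dimH (Em m)).toReal / 2))
    (P Q R : Finset ℕ) (hP : ∀ p ∈ P, p.Prime) (hQ : ∀ p ∈ Q, p.Prime)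
    (hR : ∀ p ∈ R, p.Prime) (hPQ : Disjoint P Q) (hPR : Disjoint P R)
    (hQR : Disjoint Q R) :
    ∀ᶠ X : ℝ in atTop, X ^ s ≤ (fieldCount m P Q R X : ℝ) := by
  have hfin : ∀ s₁ : ℝ, s < s₁ / 4 → Good m s₁ →
      ∀ᶠ X : ℝ in atTop, X ^ s ≤ (fieldCount m P Q R X : ℝ) := by
    intro s₁ h1 hG
    have h2 := count_of_good1 hm hG (s' := 4 * s) (by linarith) P Q R hP hQ hR hPQ hPR hQR
    have h3 : 4 * s / 4 = s := by ring
    rwa [h3] at h2
  have hA : s < 51 / 200 → ∀ᶠ X : ℝ in atTop, X ^ s ≤ (fieldCount m P Q R X : ℝ) := fun h =>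
    hfin (51 / 50) (by linarith) (good_two.mono hm)
  rcases lt_max_iff.1 hs with hs | hs
  · rcases lt_max_iff.1 hs with hs | hs
    · exact hA hs
    · by_cases hm32 : m ≤ 32
      · apply hA
        have h1 : (m : ℝ) ≤ 32 := by exact_mod_cast hm32
        have h2 : (2 : ℝ) ≤ m := by exact_mod_cast hm
        have h3 : (8 : ℝ) / 32 ≤ 8 / m := div_le_div_of_nonneg_left (by norm_num) (by linarith) h1
        linarith
      · push Not at hm32
        have hk : 2 ≤ (m + 2) / 8 := by omega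
        refine hfin _ ?_ (good_large hk (by omega))
        have h1 : m - 5 ≤ 8 * ((m + 2) / 8) := by omega
        have h2 : (m : ℝ) - 5 ≤ 8 * (((m + 2) / 8 : ℕ) : ℝ) := by
          have : (m : ℝ) ≤ 8 * (((m + 2) / 8 : ℕ) : ℝ) + 5 := by
            have h3 : m ≤ 8 * ((m + 2) / 8) + 5 := by omega
            exact_mod_cast h3
          linarith
        have hm0 : (32 : ℝ) < m := by exact_mod_cast hm32
        set k : ℝ := (((m + 2) / 8 : ℕ) : ℝ) with hkd
        have hk0 : 0 < k := by linarith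
        have h4 : 3 / k ≤ 32 / m := by
          rw [div_le_div_iff₀ hk0 (by linarith)]
          linarith
        have h5 : (32 : ℝ) / m = 4 * (8 / m) := by ring
        linarith
  · by_cases hs0 : s < 51 / 200
    · exact hA hs0
    · push Not at hs0
      obtain ⟨s₂, h1, h2⟩ := exists_between hs
      have hs2 : 0 ≤ 4 * s₂ := by linarith
      obtain ⟨L, hL, hsum⟩ := dim_words (m := m) hs2 (by
        rw [← ENNReal.ofReal_toReal (a := dimH (Em m))]
        · apply (ENNReal.ofReal_lt_ofReal_iff _).2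
          · linarith
          · linarith
        · intro htop
          rw [htop] at h2
          simp at h2
          linarith)
      exact hfin (4 * s₂) (by linarith) (good_of_sum hL _ hs2 hsum)

end Pool.Agent.BCF
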