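import Pool.Agent.Work.MP_612dae_nt.Renewal
import Pool.Agent.Work.MP_612dae_nt.Mult

/-!
# Many words: blocks for large `m`, letters for `m = 2`
-/

namespace Pool.Agent.BCF

open Finset

theorem mat_append' (l l' : List ℕ) : mat (l ++ l') = mat l * mat l' := by
  unfold mat
  rw [List.map_append, List.prod_append]

theorem mat_mono {V : List ℕ} (h : ∀ a ∈ V, 1 ≤ a) :
    mat V 0 1 ≤ mat V 0 0 ∧ mat V 1 0 ≤ mat V 0 0 ∧ 1 ≤ mat V 0 0 ∧
      (V ≠ [] → mat V 1 1 ≤ mat V 1 0) := by
  induction V with
  | nil => simp [mat]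
  | cons v V ih =>
      obtain ⟨h1, h2, h3, h4⟩ := ih fun a ha => h a (List.mem_cons_of_mem _ ha)
      have hv := h v List.mem_cons_self
      rw [mat00, mat01, mat10, mat11]
      have h5 : mat V 0 0 ≤ v * mat V 0 0 := Nat.le_mul_of_pos_left _ hv
      have h6 : v * mat V 0 1 ≤ v * mat V 0 0 := Nat.mul_le_mul_left _ h1
      refine ⟨?_, by omega, by omega, fun _ => h1⟩
      by_cases hV : V = []
      · subst hV
        simp [mat]
        exact hv
      · have := h4 hV
        omega

theorem cont_append {u v : List ℕ} (hu : ∀ a ∈ u, 1 ≤ a) (hv : ∀ a ∈ v, 1 ≤ a) :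
    cont (u ++ v) ≤ 2 * cont u * cont v := by
  obtain ⟨h1, _, _, _⟩ := mat_mono hu
  obtain ⟨_, h2, _, _⟩ := mat_mono hv
  rw [cont, mat_append', Matrix.mul_apply, Fin.sum_univ_two, cont, cont]
  have := Nat.mul_le_mul h1 h2
  nlinarith

theorem cont_pos {V : List ℕ} (h : ∀ a ∈ V, 1 ≤ a) : 1 ≤ cont V := (mat_mono h).2.2.1

theorem cont_flatten {m L : ℕ} (l : List (List ℕ)) (h : ∀ b ∈ l, b ∈ words m L) :
    (∀ a ∈ l.flatten, 1 ≤ a) ∧
    (cont l.flatten : ℝ) ≤ (l.map fun b => 2 * (cont b : ℝ)).prod := by
  induction l with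
  | nil =>
      refine ⟨by simp, ?_⟩
      simp [cont, mat]
  | cons b l ih =>
      obtain ⟨h1, h2⟩ := ih fun b hb => h b (List.mem_cons_of_mem _ hb)
      have hb : ∀ a ∈ b, 1 ≤ a := fun a ha => ((mem_words.1 (h b List.mem_cons_self)).2 a ha).1
      rw [List.flatten_cons, List.map_cons, List.prod_cons]
      refine ⟨?_, ?_⟩
      · intro a ha
        rcases List.mem_append.1 ha with ha | ha
        · exact hb a ha
        · exact h1 a ha
      · have h3 : (cont (b ++ l.flatten) : ℝ) ≤ 2 * cont b * cont l.flatten := by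
          exact_mod_cast cont_append hb h1
        refine h3.trans ?_
        apply mul_le_mul_of_nonneg_left h2 (by positivity)

/-- blocks with large sum give many words -/
theorem good_of_sum {m L : ℕ} (hL : 0 < L) (s : ℝ) (hs : 0 ≤ s)
    (hsum : 1 ≤ ∑ b ∈ words m L, (2 * (mat b 0 0 : ℝ)) ^ (-s)) : Good m s := by
  refine good_of_weights hL (fun b => 2 * (cont b : ℝ)) s hs ?_ hsum 1 le_rfl ?_
  · intro b hb
    have h1 : 1 ≤ cont b := cont_pos fun a ha => ((mem_words.1 hb).2 a ha).1
    have h2 : (1 : ℝ) ≤ cont b := by exact_mod_cast h1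
    show 1 < 2 * (cont b : ℝ)
    linarith
  · intro l hl
    rw [one_mul]
    exact (cont_flatten l hl).2

/-- the length of a cylinder -/
noncomputable def cylR (b : List ℕ) : ℝ := 1 / ((cont b : ℝ) * (cont b + mat b 1 0))

theorem sum_cylR (m L : ℕ) : ((m : ℝ) / (m + 2)) ^ L ≤ ∑ b ∈ words m L, cylR b := by
  induction L with
  | zero => simp [words, cylR, cont, mat]
  | succ L ih =>
      rw [sum_words_succ, pow_succ]
      have h0 : (0 : ℝ) ≤ (m : ℝ) / (m + 2) := by positivity
      calc ((m : ℝ) / (m + 2)) ^ L * ((m : ℝ) / (m + 2))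
          ≤ (∑ b ∈ words m L, cylR b) * ((m : ℝ) / (m + 2)) :=
            mul_le_mul_of_nonneg_right ih h0
        _ = ∑ b ∈ words m L, cylR b * ((m : ℝ) / (m + 2)) := by rw [Finset.sum_mul]
        _ ≤ _ := by
            apply Finset.sum_le_sum
            intro b hb
            have hb1 : ∀ a ∈ b, 1 ≤ a := fun a ha => ((mem_words.1 hb).2 a ha).1
            obtain ⟨_, h2, h3, _⟩ := mat_mono hb1
            have hp : (1 : ℝ) ≤ cont b := by exact_mod_cast h3
            have hqp : (mat b 1 0 : ℝ) ≤ cont b := by exact_mod_cast h2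
            have hq : (0 : ℝ) ≤ mat b 1 0 := Nat.cast_nonneg _
            set p : ℝ := (cont b : ℝ) with hpd
            set q : ℝ := (mat b 1 0 : ℝ) with hqd
            have hterm : ∀ a ∈ Finset.Icc 1 m, cylR (a :: b) =
                (1 / p) * (1 / (a * p + q) - 1 / ((a + 1 : ℕ) * p + q)) := by
              intro a ha
              have ha1 : (1 : ℝ) ≤ a := by exact_mod_cast (Finset.mem_Icc.1 ha).1
              rw [cylR, cont, mat00, mat10]
              push_cast
              have e1 : (mat b 0 0 : ℝ) = p := rfl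
              rw [e1, ← hqd]
              have g1 : 0 < a * p + q := by positivity
              have g2 : 0 < (a + 1) * p + q := by positivity
              have g3 : 0 < a * p + q + p := by positivity
              field_simp
              ring
            rw [Finset.sum_congr rfl hterm, ← Finset.mul_sum]
            have htel : ∑ a ∈ Finset.Icc 1 m, (1 / ((a : ℝ) * p + q) -
                1 / (((a + 1 : ℕ) : ℝ) * p + q)) = 1 / (p + q) - 1 / ((m + 1) * p + q) := by
              clear hterm ih
              induction m with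
              | zero => simp
              | succ m ihm =>
                  rw [Finset.sum_Icc_succ_top (by omega)]
                  have hb' : ∑ a ∈ Finset.Icc 1 m, (1 / ((a : ℝ) * p + q) -
                      1 / (((a + 1 : ℕ) : ℝ) * p + q)) =
                      1 / (p + q) - 1 / ((m + 1) * p + q) := by
                    clear hb ihm
                    induction m with
                    | zero => simp
                    | succ m ihm =>
                        rw [Finset.sum_Icc_succ_top (by omega), ihm]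
                        · push_cast
                          ring
                        · positivity
                  rw [hb']
                  push_cast
                  ring
            rw [htel, cylR, ← hpd, ← hqd]
            have g1 : 0 < p + q := by positivity
            have g2 : 0 < ((m : ℝ) + 1) * p + q := by positivity
            have g3 : (0 : ℝ) < m + 2 := by positivity
            have e : (1 / p) * (1 / (p + q) - 1 / (((m : ℝ) + 1) * p + q)) =
                (1 / (p * (p + q))) * ((m : ℝ) * p / ((m + 1) * p + q)) := by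
              field_simp
              ring
            rw [e]
            apply mul_le_mul_of_nonneg_left _ (by positivity)
            rw [div_le_div_iff₀ g3 g2]
            have hm0 : (0 : ℝ) ≤ m := Nat.cast_nonneg _
            nlinarith

theorem cont_ge (k : ℕ) : ∀ b : List ℕ, (∀ a ∈ b, 1 ≤ a) → b.length = 2 * k →
    2 ^ k ≤ cont b := by
  induction k with
  | zero =>
      intro b hb _
      rw [pow_zero]
      exact cont_pos hb
  | succ k ih =>
      intro b hb hl
      match b, hb, hl with
      | [], _, hl => simp at hl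
      | [a], _, hl => simp at hl; omega
      | a :: c :: t, hb, hl =>
          have h1 := ih t (fun x hx => hb x (by simp [hx])) (by simp at hl; omega)
          have ha : 1 ≤ a := hb a (by simp)
          have hc : 1 ≤ c := hb c (by simp)
          rw [cont, mat00, mat00, mat10, pow_succ]
          rw [cont] at h1
          have h2 : mat t 0 0 ≤ c * mat t 0 0 := Nat.le_mul_of_pos_left _ hc
          have h3 : c * mat t 0 0 + mat t 1 0 ≤ a * (c * mat t 0 0 + mat t 1 0) :=
            Nat.le_mul_of_pos_left _ ha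
          omega

/-- for large `m` the exponent is close to `2` -/
theorem good_large {m k : ℕ} (hk : 2 ≤ k) (hm8 : 8 * k ≤ m + 2) : Good m (2 - 3 / k) := by
  have hk1 : (2 : ℝ) ≤ k := by exact_mod_cast hk
  have hk0 : (0 : ℝ) < k := by linarith
  set ε : ℝ := 3 / k with hεd
  have hε : 0 < ε := by positivity
  have hε2 : ε ≤ 3 / 2 := by
    rw [hεd]
    apply div_le_div_of_nonneg_left (by norm_num) (by norm_num) hk1
  have hk : 8 ≤ ((2 : ℝ) ^ ε) ^ k := by
    have h1 : ((2 : ℝ) ^ ε) ^ k = 8 := by
      rw [← Real.rpow_natCast, ← Real.rpow_mul (by norm_num), hεd]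
      have : (3 : ℝ) / k * k = 3 := by field_simp
      rw [this]
      norm_num
    rw [h1]
  apply good_of_sum (L := 2 * k) (by omega) _ (by linarith)
  have hm : (1 : ℝ) / 2 ≤ ((m : ℝ) / (m + 2)) ^ (2 * k) := by
    have h1 : (m : ℝ) / (m + 2) = 1 + (-(2 / ((m : ℝ) + 2))) := by
      field_simp
      ring
    rw [h1]
    have hm8' : 8 * (k : ℝ) ≤ m + 2 := by exact_mod_cast hm8
    have h2 : 2 / ((m : ℝ) + 2) ≤ 1 := by
      rw [div_le_one (by positivity)]
      linarith
    have h3 := one_add_mul_le_pow (a := -(2 / ((m : ℝ) + 2))) (by linarith) (2 * k)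
    refine le_trans ?_ h3
    push_cast
    have h4 : 2 * (k : ℝ) * (2 / (m + 2)) ≤ 1 / 2 := by
      rw [mul_div_assoc', div_le_iff₀ (by positivity)]
      linarith
    linarith
  calc (1 : ℝ) ≤ 1 / 4 * 8 * (1 / 2) := by norm_num
    _ ≤ 1 / 4 * 8 * ∑ b ∈ words m (2 * k), cylR b := by
        apply mul_le_mul_of_nonneg_left (hm.trans (sum_cylR _ _)) (by norm_num)
    _ = ∑ b ∈ words m (2 * k), 1 / 4 * 8 * cylR b := by rw [Finset.mul_sum]
    _ ≤ _ := by
        apply Finset.sum_le_sum
        intro b hb
        have hb1 : ∀ a ∈ b, 1 ≤ a := fun a ha => ((mem_words.1 hb).2 a ha).1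
        have hc1 : 1 ≤ cont b := cont_pos hb1
        have hc2 : 2 ^ k ≤ cont b := cont_ge k b hb1 (mem_words.1 hb).1
        have hp : (1 : ℝ) ≤ cont b := by exact_mod_cast hc1
        have hp2 : (2 : ℝ) ^ k ≤ cont b := by exact_mod_cast hc2
        have hq : (0 : ℝ) ≤ mat b 1 0 := Nat.cast_nonneg _
        have hcd : (mat b 0 0 : ℝ) = (cont b : ℝ) := rfl
        rw [hcd]
        have hp0 : (0 : ℝ) < cont b := by linarith
        have e1 : (2 * (cont b : ℝ)) ^ (-(2 - ε)) =
            (2 : ℝ) ^ (-(2 - ε)) * (((cont b : ℝ) ^ 2)⁻¹ * (cont b : ℝ) ^ ε) := by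
          rw [Real.mul_rpow (by norm_num) hp0.le]
          congr 1
          have : -(2 - ε) = -(2 : ℕ) + ε := by push_cast; ring
          rw [this, Real.rpow_add hp0, Real.rpow_neg hp0.le, Real.rpow_natCast]
        rw [e1, mul_assoc]
        have f1 : (1 : ℝ) / 4 ≤ (2 : ℝ) ^ (-(2 - ε)) := by
          calc (1 : ℝ) / 4 = (2 : ℝ) ^ (-2 : ℝ) := by
                rw [Real.rpow_neg (by norm_num)]
                norm_num
            _ ≤ _ := Real.rpow_le_rpow_of_exponent_le (by norm_num) (by linarith)
        have f2 : (8 : ℝ) ≤ (cont b : ℝ) ^ ε := by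
          calc (8 : ℝ) ≤ ((2 : ℝ) ^ ε) ^ k := hk
            _ = ((2 : ℝ) ^ k) ^ ε := by
                rw [← Real.rpow_natCast, ← Real.rpow_mul (by norm_num), ← Real.rpow_natCast,
                  ← Real.rpow_mul (by norm_num), mul_comm]
            _ ≤ _ := Real.rpow_le_rpow (by positivity) hp2 hε.le
        have f3 : cylR b ≤ ((cont b : ℝ) ^ 2)⁻¹ := by
          rw [cylR, one_div]
          apply inv_anti₀ (by positivity)
          nlinarith
        have f4 : 0 ≤ cylR b := by rw [cylR]; positivity
        calc (1 : ℝ) / 4 * (8 * cylR b) ≤ (2 : ℝ) ^ (-(2 - ε)) * (8 * cylR b) :=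
              mul_le_mul_of_nonneg_right f1 (by positivity)
          _ ≤ (2 : ℝ) ^ (-(2 - ε)) * (((cont b : ℝ) ^ 2)⁻¹ * (cont b : ℝ) ^ ε) := by
              apply mul_le_mul_of_nonneg_left _ (by positivity)
              rw [mul_comm]
              exact mul_le_mul f3 f2 (by norm_num) (by positivity)

/-! ### the letters `1` and `2` -/

noncomputable def w2 (b : List ℕ) : ℝ := if b = [1] then 18 / 11 else 63 / 26

theorem words_two_one : words 2 1 = {[1], [2]} := by decide

theorem cone2 (l : List (List ℕ)) (hl : ∀ b ∈ l, b ∈ words 2 1) :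
    (4 * a2 l.flatten ≤ 3 * a1 l.flatten ∧ 4 * a1 l.flatten ≤ 11 * a2 l.flatten) ∧
    (2 * (a1 l.flatten : ℝ) + a2 l.flatten) ≤ 5 * (l.map w2).prod := by
  induction l with
  | nil =>
      simp [a1_nil, a2_nil]
      norm_num
  | cons b l ih =>
      obtain ⟨⟨h1, h2⟩, h3⟩ := ih fun b hb => hl b (List.mem_cons_of_mem _ hb)
      have hb := hl b List.mem_cons_self
      rw [words_two_one, Finset.mem_insert, Finset.mem_singleton] at hb
      rw [List.map_cons, List.prod_cons, List.flatten_cons]
      have r1 : 4 * (a2 l.flatten : ℝ) ≤ 3 * a1 l.flatten := by exact_mod_cast h1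
      have r2 : 4 * (a1 l.flatten : ℝ) ≤ 11 * a2 l.flatten := by exact_mod_cast h2
      rcases hb with rfl | rfl
      · have e : w2 [1] = 18 / 11 := by simp [w2]
        rw [e, List.singleton_append, a1_cons, a2_cons]
        refine ⟨⟨by omega, by omega⟩, ?_⟩
        push_cast
        linarith
      · have e : w2 [2] = 63 / 26 := by simp [w2]
        rw [e, List.singleton_append, a1_cons, a2_cons]
        refine ⟨⟨by omega, by omega⟩, ?_⟩
        push_cast
        linarith

theorem rpow_lower {x : ℝ} (hx : 0 < x) : x⁻¹ * (1 - (x - 1) / 50) ≤ x ^ (-(51 / 50) : ℝ) := by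
  have h1 : x ^ (-(51 / 50) : ℝ) = x⁻¹ * x ^ (-(1 / 50) : ℝ) := by
    rw [← Real.rpow_neg_one x, ← Real.rpow_add hx]
    norm_num
  rw [h1]
  apply mul_le_mul_of_nonneg_left _ (by positivity)
  rw [Real.rpow_def_of_pos hx]
  have h2 := Real.add_one_le_exp (Real.log x * (-(1 / 50)))
  have h3 := Real.log_le_sub_one_of_pos hx
  linarith

theorem good_two : Good 2 (51 / 50) := by
  apply good_of_weights (L := 1) (by norm_num) w2 _ (by norm_num) ?_ ?_ 5 (by norm_num) ?_
  · intro b _
    rw [w2]
    split_ifs <;> norm_num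
  · rw [words_two_one, Finset.sum_pair (by decide)]
    have e1 : w2 [1] = 18 / 11 := by simp [w2]
    have e2 : w2 [2] = 63 / 26 := by simp [w2]
    rw [e1, e2]
    have h1 := rpow_lower (x := 18 / 11) (by norm_num)
    have h2 := rpow_lower (x := 63 / 26) (by norm_num)
    norm_num at h1 h2 ⊢
    linarith
  · intro l hl
    obtain ⟨_, h3⟩ := cone2 l hl
    have h4 : (cont l.flatten : ℝ) ≤ a1 l.flatten := by
      have : cont l.flatten ≤ a1 l.flatten := by rw [cont, a1]; omega
      exact_mod_cast this
    have h5 : (0 : ℝ) ≤ a1 l.flatten := Nat.cast_nonneg _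
    have h6 : (0 : ℝ) ≤ a2 l.flatten := Nat.cast_nonneg _
    linarith

end Pool.Agent.BCF
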