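import Pool.Agent.Work.MP_612dae_nt.Defs

/-!
# One palindromic word gives infinitely many bounded periodic continued fractions
-/

namespace Pool.Agent.BCF

/-! ### the real number of a periodic word -/

/-- `[a₁, …, aₙ, x]` -/
noncomputable def act : List ℕ → ℝ → ℝ
  | [], x => x
  | a :: l, x => a + (act l x)⁻¹

theorem act_pos {x : ℝ} (hx : 0 < x) : ∀ l : List ℕ, 0 < act l x
  | [] => hx
  | a :: l => by
      have h := inv_pos.2 (act_pos hx l)
      have h2 : (0 : ℝ) ≤ a := Nat.cast_nonneg a
      show 0 < (a : ℝ) + (act l x)⁻¹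
      linarith

theorem one_lt_act {x : ℝ} (hx : 1 < x) : ∀ l : List ℕ, (∀ a ∈ l, 1 ≤ a) → 1 < act l x
  | [], _ => hx
  | a :: l, h => by
      have h1 := inv_pos.2 (act_pos (zero_lt_one.trans hx) l)
      have h2 : (1 : ℝ) ≤ a := by exact_mod_cast h a List.mem_cons_self
      show 1 < (a : ℝ) + (act l x)⁻¹
      linarith

theorem floor_act {x : ℝ} (hx : 1 < x) {a : ℕ} {l : List ℕ} (h : ∀ b ∈ l, 1 ≤ b) :
    ⌊act (a :: l) x⌋ = a := by
  have h1 := one_lt_act hx l h
  have h2 : (act l x)⁻¹ < 1 := inv_lt_one_of_one_lt₀ h1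
  have h3 : 0 < (act l x)⁻¹ := inv_pos.2 (by linarith)
  rw [Int.floor_eq_iff]
  show ((a : ℤ) : ℝ) ≤ (a : ℝ) + (act l x)⁻¹ ∧ (a : ℝ) + (act l x)⁻¹ < ((a : ℤ) : ℝ) + 1
  push_cast
  constructor <;> linarith

theorem step_act {x : ℝ} (hx : 1 < x) {a : ℕ} {l : List ℕ} (h : ∀ b ∈ l, 1 ≤ b) :
    step (act (a :: l) x) = act l x := by
  unfold step
  rw [floor_act hx h]
  show ((a : ℝ) + (act l x)⁻¹ - ((a : ℤ) : ℝ))⁻¹ = act l x
  push_cast
  rw [add_sub_cancel_left, inv_inv]

theorem step_iterate_act {x : ℝ} (hx : 1 < x) : ∀ (p l : List ℕ), (∀ b ∈ p ++ l, 1 ≤ b) →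
    step^[p.length] (act (p ++ l) x) = act l x
  | [], l, _ => rfl
  | a :: p, l, h => by
      have h1 : ∀ b ∈ p ++ l, 1 ≤ b := fun b hb => h b (List.mem_cons_of_mem _ hb)
      rw [List.length_cons, Function.iterate_succ_apply, List.cons_append, step_act hx h1]
      exact step_iterate_act hx p l h1

/-- a fixed point of a word is a bounded periodic continued fraction -/
theorem perBdd_of_fixed {m : ℕ} {x : ℝ} (hx : 1 < x) {l : List ℕ} (hl : l ≠ [])
    (h : ∀ b ∈ l, 1 ≤ b ∧ b ≤ m) (hfix : act l x = x) : PerBdd m x := by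
  have h1 : ∀ b ∈ l, 1 ≤ b := fun b hb => (h b hb).1
  have hp : step^[l.length] x = x := by
    have h2 := step_iterate_act hx l [] (by rw [List.append_nil]; exact h1)
    rw [List.append_nil, hfix] at h2
    exact h2
  have hlen : 0 < l.length := List.length_pos_iff.2 hl
  refine ⟨⟨l.length, hlen, hp⟩, fun n => ?_⟩
  have h3 : step^[n] x = step^[n % l.length] x := by
    have h4 : step^[l.length * (n / l.length)] x = x := by
      rw [Function.iterate_mul]
      exact Function.iterate_fixed hp _
    conv_lhs => rw [← Nat.mod_add_div n l.length, Function.iterate_add_apply, h4]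
  rw [h3]
  set i := n % l.length with hi
  have hil : i < l.length := Nat.mod_lt _ hlen
  have h5 : l = l.take i ++ l.drop i := (List.take_append_drop i l).symm
  have h6 : (l.take i).length = i := by rw [List.length_take]; omega
  obtain ⟨a, r, har⟩ : ∃ a r, l.drop i = a :: r := by
    cases hdr : l.drop i with
    | nil =>
        have := congrArg List.length hdr
        rw [List.length_drop, List.length_nil] at this
        omega
    | cons a r => exact ⟨a, r, rfl⟩
  have h7 : step^[i] x = act (a :: r) x := by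
    have h8 := step_iterate_act hx (l.take i) (l.drop i) (by rw [← h5]; exact h1)
    rw [← h5, hfix, h6, har] at h8
    exact h8
  have hmem : ∀ b ∈ a :: r, b ∈ l := by
    intro b hb
    rw [← har] at hb
    exact List.mem_of_mem_drop hb
  rw [h7, floor_act hx fun b hb => h1 b (hmem b (List.mem_cons_of_mem _ hb))]
  have h9 := h a (hmem a List.mem_cons_self)
  exact ⟨by exact_mod_cast h9.1, by exact_mod_cast h9.2⟩

/-! ### matrices -/

theorem mat_nil : mat [] = 1 := rfl

theorem mat_cons (a : ℕ) (l : List ℕ) : mat (a :: l) = !![a, 1; 1, 0] * mat l := by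
  unfold mat
  rw [List.map_cons, List.prod_cons]

theorem mat_append (l l' : List ℕ) : mat (l ++ l') = mat l * mat l' := by
  unfold mat
  rw [List.map_append, List.prod_append]

theorem mat_reverse (l : List ℕ) : mat l.reverse = (mat l).transpose := by
  induction l with
  | nil => simp [mat_nil]
  | cons a l ih =>
      rw [List.reverse_cons, mat_append, ih, mat_cons, mat_cons, mat_nil, mul_one,
        Matrix.transpose_mul]
      congr 1
      ext i j
      fin_cases i <;> fin_cases j <;> rfl

/-- the Moebius action -/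
theorem act_eq (l : List ℕ) {x : ℝ} (hx : 0 < x) :
    0 < (mat l 1 0 : ℝ) * x + mat l 1 1 ∧
    act l x = ((mat l 0 0 : ℝ) * x + mat l 0 1) / ((mat l 1 0 : ℝ) * x + mat l 1 1) := by
  induction l with
  | nil =>
      rw [mat_nil]
      simp [act]
  | cons a l ih =>
      obtain ⟨h1, h2⟩ := ih
      have h3 := act_pos hx l
      have h4 : 0 < (mat l 0 0 : ℝ) * x + mat l 0 1 := by
        rw [h2] at h3
        by_contra hcon
        exact absurd h3 (not_lt.2 (div_nonpos_of_nonpos_of_nonneg (not_lt.1 hcon) h1.le))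
      have e00 : mat (a :: l) 0 0 = a * mat l 0 0 + mat l 1 0 := by
        rw [mat_cons, Matrix.mul_apply, Fin.sum_univ_two]
        simp
      have e01 : mat (a :: l) 0 1 = a * mat l 0 1 + mat l 1 1 := by
        rw [mat_cons, Matrix.mul_apply, Fin.sum_univ_two]
        simp
      have e10 : mat (a :: l) 1 0 = mat l 0 0 := by
        rw [mat_cons, Matrix.mul_apply, Fin.sum_univ_two]
        simp
      have e11 : mat (a :: l) 1 1 = mat l 0 1 := by
        rw [mat_cons, Matrix.mul_apply, Fin.sum_univ_two]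
        simp
      rw [e00, e01, e10, e11]
      refine ⟨h4, ?_⟩
      show (a : ℝ) + (act l x)⁻¹ = _
      rw [h2, inv_div, eq_div_iff h4.ne', add_mul, div_mul_cancel₀ _ h4.ne']
      push_cast
      ring

/-- entries of the matrix of a nonempty word -/
theorem mat_entries {l : List ℕ} (hl : l ≠ []) (h : ∀ b ∈ l, 1 ≤ b) :
    1 ≤ mat l 0 0 ∧ 1 ≤ mat l 0 1 ∧ 1 ≤ mat l 1 0 := by
  induction l with
  | nil => exact absurd rfl hl
  | cons a l ih =>
      have ha := h a List.mem_cons_self
      have e00 : mat (a :: l) 0 0 = a * mat l 0 0 + mat l 1 0 := by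
        rw [mat_cons, Matrix.mul_apply, Fin.sum_univ_two]
        simp
      have e01 : mat (a :: l) 0 1 = a * mat l 0 1 + mat l 1 1 := by
        rw [mat_cons, Matrix.mul_apply, Fin.sum_univ_two]
        simp
      have e10 : mat (a :: l) 1 0 = mat l 0 0 := by
        rw [mat_cons, Matrix.mul_apply, Fin.sum_univ_two]
        simp
      rw [e00, e01, e10]
      by_cases hl' : l = []
      · subst hl'
        rw [mat_nil]
        simp
        omega
      · obtain ⟨h1, h2, h3⟩ := ih hl' fun b hb => h b (List.mem_cons_of_mem _ hb)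
        refine ⟨?_, ?_, h1⟩
        · nlinarith
        · nlinarith

/-- the integer matrix of a word -/
def imat (l : List ℕ) : Matrix (Fin 2) (Fin 2) ℤ := (Nat.castRingHom ℤ).mapMatrix (mat l)

theorem imat_append (l l' : List ℕ) : imat (l ++ l') = imat l * imat l' := by
  unfold imat
  rw [mat_append, map_mul]

theorem imat_reverse (l : List ℕ) : imat l.reverse = (imat l).transpose := by
  unfold imat
  rw [mat_reverse]
  rfl

theorem imat_apply (l : List ℕ) (i j : Fin 2) : imat l i j = (mat l i j : ℤ) := rfl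

theorem imat_det (l : List ℕ) : (imat l).det = (-1) ^ l.length := by
  induction l with
  | nil => simp [imat, mat_nil]
  | cons a l ih =>
      have h1 : imat (a :: l) = !![(a : ℤ), 1; 1, 0] * imat l := by
        unfold imat
        rw [mat_cons, map_mul]
        congr 1
        ext i j
        fin_cases i <;> fin_cases j <;> simp
      rw [h1, Matrix.det_mul, ih, Matrix.det_fin_two_of, List.length_cons, pow_succ]
      ring

/-- the quadratic number of a word: if `(tr)² - 4 det = δ y²` then the number of the word lies in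
`ℚ(√δ)` -/
theorem exists_fixed {m : ℕ} {l : List ℕ} (hl : l ≠ []) (h : ∀ b ∈ l, 1 ≤ b ∧ b ≤ m)
    {δ : ℕ} {y : ℤ} (hδ : (imat l).trace ^ 2 - 4 * (imat l).det = δ * y ^ 2) :
    ∃ x : ℝ, 1 < x ∧ act l x = x ∧ x ∈ pset m δ := by
  have h1 : ∀ b ∈ l, 1 ≤ b := fun b hb => (h b hb).1
  obtain ⟨hA, hB, hC⟩ := mat_entries hl h1
  set A : ℝ := (mat l 0 0 : ℝ) with hAd
  set B : ℝ := (mat l 0 1 : ℝ) with hBd
  set C : ℝ := (mat l 1 0 : ℝ) with hCd
  set D : ℝ := (mat l 1 1 : ℝ) with hDd
  have hA1 : (1 : ℝ) ≤ A := by rw [hAd]; exact_mod_cast hA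
  have hB1 : (1 : ℝ) ≤ B := by rw [hBd]; exact_mod_cast hB
  have hC1 : (1 : ℝ) ≤ C := by rw [hCd]; exact_mod_cast hC
  have hD0 : (0 : ℝ) ≤ D := Nat.cast_nonneg _
  set Δ : ℝ := (A - D) ^ 2 + 4 * B * C with hΔ
  have hΔ0 : 0 < Δ := by positivity
  have hBC : 0 < B * C := by positivity
  have hΔδ : Δ = δ * (|y| : ℝ) ^ 2 := by
    have e : ((((imat l).trace ^ 2 - 4 * (imat l).det : ℤ)) : ℝ) = δ * (y : ℝ) ^ 2 := by
      rw [hδ]
      push_cast
      ring
    rw [Matrix.trace_fin_two, Matrix.det_fin_two] at e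
    rw [imat_apply, imat_apply, imat_apply, imat_apply] at e
    push_cast at e
    rw [sq_abs, ← e, hΔ, hAd, hBd, hCd, hDd]
    ring
  set s : ℝ := √Δ with hs
  have hss : s ^ 2 = Δ := Real.sq_sqrt hΔ0.le
  have hs0 : 0 < s := Real.sqrt_pos.2 hΔ0
  have hsA : |A - D| < s := by
    rw [← Real.sqrt_sq_eq_abs]
    apply Real.sqrt_lt_sqrt (sq_nonneg _)
    rw [hΔ]
    nlinarith
  have hx0 : 0 < (A - D + s) / (2 * C) := by
    have := neg_abs_le (A - D)
    apply div_pos <;> linarith
  set x : ℝ := (A - D + s) / (2 * C) with hx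
  have hquad : C * x ^ 2 + (D - A) * x - B = 0 := by
    have hC0 : C ≠ 0 := by linarith
    have e1 : 2 * C * x = A - D + s := by
      rw [hx]
      field_simp
    have e2 : 4 * C * (C * x ^ 2 + (D - A) * x - B) = 0 := by
      have : 4 * C * (C * x ^ 2 + (D - A) * x - B) =
          (2 * C * x) ^ 2 + 2 * (D - A) * (2 * C * x) - 4 * B * C := by ring
      rw [this, e1]
      nlinarith
    rcases mul_eq_zero.1 e2 with h3 | h3
    · exact absurd h3 (by positivity)
    · exact h3
  obtain ⟨hden, hact⟩ := act_eq l hx0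
  have hfix : act l x = x := by
    rw [hact, div_eq_iff hden.ne']
    nlinarith
  have hx1 : 1 < x := by
    cases l with
    | nil => exact absurd rfl hl
    | cons a l =>
        have h3 := inv_pos.2 (act_pos hx0 l)
        have h4 : (1 : ℝ) ≤ a := by exact_mod_cast h1 a List.mem_cons_self
        have h5 : act (a :: l) x = a + (act l x)⁻¹ := rfl
        rw [hfix] at h5
        linarith
  refine ⟨x, hx1, hfix, perBdd_of_fixed hx1 hl h hfix, ?_⟩
  refine ⟨((mat l 0 0 : ℚ) - mat l 1 1) / (2 * mat l 1 0), (|y| : ℤ) / (2 * mat l 1 0), ?_⟩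
  have hsδ : s = |(y : ℝ)| * √(δ : ℝ) := by
    rw [hs, hΔδ, mul_comm, Real.sqrt_mul (sq_nonneg _), Real.sqrt_sq (abs_nonneg _)]
  rw [hx, hsδ]
  push_cast
  rw [← hAd, ← hCd, ← hDd]
  field_simp

/-! ### the words -/

section words

variable (V : List ℕ)

def wX : List ℕ := V ++ [2, 1, 1, 1] ++ V.reverse
def wY : List ℕ := V ++ [1, 2, 1, 1, 1, 1] ++ V.reverse
/-- `W` repeated `n` times -/
def wpow (n : ℕ) : List ℕ := (List.replicate n (word V)).flatten
def wZ (n : ℕ) : List ℕ := wX V ++ wpow V n ++ wY V ++ wpow V n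

theorem imat_wpow (n : ℕ) : imat (wpow V n) = imat (word V) ^ n := by
  induction n with
  | zero => simp [wpow, imat, mat_nil]
  | succ n ih =>
      have : wpow V (n + 1) = word V ++ wpow V n := by
        simp [wpow, List.replicate_succ]
      rw [this, imat_append, ih, pow_succ']

theorem imat_list2 (a b : ℕ) : imat [a, b] = !![(a : ℤ) * b + 1, a; b, 1] := by
  unfold imat
  rw [mat_cons, mat_cons, mat_nil, mul_one]
  ext i j
  fin_cases i <;> fin_cases j <;> simp

theorem imat_one (a : ℕ) : imat [a] = !![(a : ℤ), 1; 1, 0] := by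
  unfold imat
  rw [mat_cons, mat_nil, mul_one]
  ext i j
  fin_cases i <;> fin_cases j <;> simp

/-- the three words have matrices `P N Pᵀ` -/
theorem imat_word : imat (word V) = imat V * !![12, 7; 7, 4] * (imat V).transpose := by
  have h : imat [1, 1, 2, 1, 1] = !![12, 7; 7, 4] := by
    have : ([1, 1, 2, 1, 1] : List ℕ) = [1, 1] ++ ([2, 1] ++ [1]) := rfl
    rw [this, imat_append, imat_append, imat_list2, imat_list2, imat_one]
    ext i j
    fin_cases i <;> fin_cases j <;> simp [Matrix.mul_apply, Fin.sum_univ_two]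
  rw [word, imat_append, imat_append, imat_reverse, h]

theorem imat_wX : imat (wX V) = imat V * !![8, 5; 3, 2] * (imat V).transpose := by
  have h : imat [2, 1, 1, 1] = !![8, 5; 3, 2] := by
    have : ([2, 1, 1, 1] : List ℕ) = [2, 1] ++ [1, 1] := rfl
    rw [this, imat_append, imat_list2, imat_list2]
    ext i j
    fin_cases i <;> fin_cases j <;> simp [Matrix.mul_apply, Fin.sum_univ_two]
  rw [wX, imat_append, imat_append, imat_reverse, h]

theorem imat_wY : imat (wY V) = imat V * !![18, 11; 13, 8] * (imat V).transpose := by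
  have h : imat [1, 2, 1, 1, 1, 1] = !![18, 11; 13, 8] := by
    have : ([1, 2, 1, 1, 1, 1] : List ℕ) = [1, 2] ++ ([1, 1] ++ [1, 1]) := rfl
    rw [this, imat_append, imat_append, imat_list2, imat_list2]
    ext i j
    fin_cases i <;> fin_cases j <;> simp [Matrix.mul_apply, Fin.sum_univ_two]
  rw [wY, imat_append, imat_append, imat_reverse, h]

/-- the trace identity -/
theorem trace_ident (P S : Matrix (Fin 2) (Fin 2) ℤ) (hS : S.transpose = S) :
    ((P * !![8, 5; 3, 2] * P.transpose) * S * (P * !![18, 11; 13, 8] * P.transpose) * S).trace =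
    ((P * !![12, 7; 7, 4] * P.transpose) * S * (P * !![12, 7; 7, 4] * P.transpose) * S).trace := by
  have h01 : S 1 0 = S 0 1 := by
    have := congrFun (congrFun hS 0) 1
    rwa [Matrix.transpose_apply] at this
  simp only [Matrix.trace_fin_two, Matrix.mul_apply, Fin.sum_univ_two, Matrix.transpose_apply,
    Matrix.of_apply, Matrix.cons_val', Matrix.cons_val_zero, Matrix.cons_val_one,
    Matrix.cons_val_fin_one, h01]
  ring

theorem imat_word_symm : (imat (word V)).transpose = imat (word V) := by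
  rw [← imat_reverse]
  congr 1
  simp [word]

theorem det_word : (imat (word V)).det = -1 := by
  rw [imat_det]
  have : (word V).length = 2 * (V.length + 2) + 1 := by
    simp [word]
    ring
  rw [this, pow_succ, pow_mul]
  simp

/-- powers of the matrix of `W` -/
theorem pow_word (k : ℕ) : ∃ u c : ℤ, imat (word V) ^ k = u • imat (word V) + c • 1 := by
  induction k with
  | zero => exact ⟨0, 1, by simp⟩
  | succ k ih =>
      obtain ⟨u, c, h⟩ := ih
      have hd := det_word V
      set M := imat (word V) with hM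
      have hCH : M * M = M.trace • M + (1 : ℤ) • (1 : Matrix (Fin 2) (Fin 2) ℤ) := by
        rw [Matrix.det_fin_two] at hd
        ext i j
        fin_cases i <;> fin_cases j <;>
          simp only [Matrix.mul_apply, Fin.sum_univ_two, Matrix.trace_fin_two, Matrix.add_apply,
            Matrix.smul_apply, smul_eq_mul, Fin.zero_eta, Fin.mk_one, Matrix.one_apply_eq,
            Matrix.one_apply_ne (zero_ne_one : (0 : Fin 2) ≠ 1),
            Matrix.one_apply_ne (one_ne_zero : (1 : Fin 2) ≠ 0)] <;> first | ring1 | linear_combination -hd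
      refine ⟨u * M.trace + c, u, ?_⟩
      rw [pow_succ, h, add_mul, smul_mul_assoc, hCH, smul_mul_assoc, one_mul, smul_add,
        smul_smul, smul_smul, mul_one, add_smul]
      abel

theorem disc_pow (k : ℕ) : ∃ u : ℤ, (imat (word V) ^ k).trace ^ 2 -
    4 * (imat (word V) ^ k).det = u ^ 2 * ((imat (word V)).trace ^ 2 + 4) := by
  obtain ⟨u, c, h⟩ := pow_word V k
  have hd := det_word V
  refine ⟨u, ?_⟩
  rw [h]
  set M := imat (word V) with hM
  rw [Matrix.det_fin_two] at hd
  simp only [Matrix.det_fin_two, Matrix.trace_fin_two, Matrix.add_apply, Matrix.smul_apply,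
    Matrix.one_apply_eq, smul_eq_mul, Matrix.one_apply_ne (zero_ne_one : (0 : Fin 2) ≠ 1),
    Matrix.one_apply_ne (one_ne_zero : (1 : Fin 2) ≠ 0)]
  linear_combination (-4 * u ^ 2) * hd

/-- the discriminant of the long words -/
theorem disc_wZ (n : ℕ) : ∃ u : ℤ, (imat (wZ V n)).trace ^ 2 - 4 * (imat (wZ V n)).det =
    u ^ 2 * ((imat (word V)).trace ^ 2 + 4) := by
  have hS : (imat (wpow V n)).transpose = imat (wpow V n) := by
    rw [imat_wpow, Matrix.transpose_pow, imat_word_symm]
  have h1 : imat (wZ V n) = imat (wX V) * imat (wpow V n) * imat (wY V) * imat (wpow V n) := by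
    rw [wZ, imat_append, imat_append, imat_append]
  have h2 : (imat (wZ V n)).trace = (imat (word V) ^ (2 * n + 2)).trace := by
    rw [h1, imat_wX, imat_wY, trace_ident _ _ hS, ← imat_word, imat_wpow]
    congr 1
    rw [← pow_succ', ← pow_succ, ← pow_add]
    congr 1
    ring
  have h3 : (imat (wZ V n)).det = (imat (word V) ^ (2 * n + 2)).det := by
    rw [Matrix.det_pow, det_word, imat_det]
    have h4 : Even (wZ V n).length := by
      have hX : (wX V).length = 2 * (V.length + 2) := by simp [wX]; ring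
      have hY : (wY V).length = 2 * (V.length + 3) := by simp [wY]; ring
      rw [wZ, List.length_append, List.length_append, List.length_append, hX, hY]
      exact ⟨(V.length + 2) + (wpow V n).length + (V.length + 3), by ring⟩
    have h5 : Even (2 * n + 2) := ⟨n + 1, by ring⟩
    rw [h4.neg_one_pow, h5.neg_one_pow]
  rw [h2, h3]
  exact disc_pow V _

end words

/-- one palindromic word gives infinitely many periodic continued fractions in its field with the
same bound -/
theorem infinite_pset {m : ℕ} (hm : 2 ≤ m) {V : List ℕ} (hV : ∀ a ∈ V, 1 ≤ a ∧ a ≤ m)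
    {δ y : ℕ} (h : tw V ^ 2 + 4 = δ * y ^ 2) : (pset m δ).Infinite := by
  have hcore : ∀ c : List ℕ, (∀ a ∈ c, 1 ≤ a ∧ a ≤ 2) → ∀ a ∈ V ++ c ++ V.reverse,
      1 ≤ a ∧ a ≤ m := by
    intro c hc a ha
    simp only [List.mem_append, List.mem_reverse] at ha
    rcases ha with (ha | ha) | ha
    · exact hV a ha
    · exact ⟨(hc a ha).1, (hc a ha).2.trans hm⟩
    · exact hV a ha
  have hW : ∀ a ∈ word V, 1 ≤ a ∧ a ≤ m := hcore _ (by decide)
  have hP : ∀ n, ∀ a ∈ wpow V n, 1 ≤ a ∧ a ≤ m := by
    intro n a ha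
    rw [wpow, List.mem_flatten] at ha
    obtain ⟨l, hl, hal⟩ := ha
    rw [List.eq_of_mem_replicate hl] at hal
    exact hW a hal
  have hX : ∀ a ∈ wX V, 1 ≤ a ∧ a ≤ m := hcore _ (by decide)
  have hY : ∀ a ∈ wY V, 1 ≤ a ∧ a ≤ m := hcore _ (by decide)
  have hZ : ∀ n, ∀ a ∈ wZ V n, 1 ≤ a ∧ a ≤ m := by
    intro n a ha
    simp only [wZ, List.mem_append] at ha
    rcases ha with ((ha | ha) | ha) | ha
    · exact hX a ha
    · exact hP n a ha
    · exact hY a ha
    · exact hP n a ha
  have hne : ∀ n, wZ V n ≠ [] := by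
    intro n hcon
    have := congrArg List.length hcon
    simp [wZ, wX] at this
  have htr : (imat (word V)).trace ^ 2 + 4 = δ * (y : ℤ) ^ 2 := by
    have h1 : (imat (word V)).trace = (tw V : ℤ) := by
      rw [tw, Matrix.trace_fin_two, Matrix.trace_fin_two, imat_apply, imat_apply]
      push_cast
      rfl
    rw [h1]
    exact_mod_cast h
  have hex : ∀ n, ∃ x : ℝ, 1 < x ∧ act (wZ V n) x = x ∧ x ∈ pset m δ := by
    intro n
    obtain ⟨u, hu⟩ := disc_wZ V n
    refine exists_fixed (hne n) (hZ n) (y := u * y) ?_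
    rw [hu, htr]
    ring
  choose f hf1 hf2 hf3 using hex
  refine Set.infinite_of_injective_forall_mem (f := f) ?_ hf3
  have key : ∀ n n', n < n' → f n ≠ f n' := by
    intro n n' hnn heq
    set p : List ℕ := wX V ++ wpow V n ++ (V ++ [1]) with hp
    obtain ⟨r₁, hr₁⟩ : ∃ r, wZ V n = p ++ 2 :: r := by
      refine ⟨[1, 1, 1, 1] ++ V.reverse ++ wpow V n, ?_⟩
      simp [wZ, wY, hp]
    obtain ⟨r₂, hr₂⟩ : ∃ r, wZ V n' = p ++ 1 :: r := by
      obtain ⟨k, rfl⟩ := Nat.exists_eq_add_of_lt hnn
      refine ⟨[2, 1, 1] ++ V.reverse ++ wpow V k ++ wY V ++ wpow V (n + k + 1), ?_⟩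
      have h1 : wpow V (n + k + 1) = wpow V n ++ (word V ++ wpow V k) := by
        have : n + k + 1 = n + (k + 1) := by ring
        rw [this, wpow, wpow, wpow, List.replicate_add, List.flatten_append,
          List.replicate_succ, List.flatten_cons]
      have h2 : wZ V (n + k + 1) = wX V ++ (wpow V n ++ (word V ++ wpow V k)) ++ wY V ++
          wpow V (n + k + 1) := by
        rw [wZ, h1]
      rw [h2]
      simp [word, hp]
    have one : ∀ n, ∀ b ∈ wZ V n, 1 ≤ b := fun n b hb => (hZ n b hb).1
    have s1 := step_iterate_act (hf1 n) p (2 :: r₁) (by rw [← hr₁]; exact one n)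
    have s2 := step_iterate_act (hf1 n') p (1 :: r₂) (by rw [← hr₂]; exact one n')
    rw [← hr₁, hf2] at s1
    rw [← hr₂, hf2, ← heq, s1] at s2
    have g1 : ⌊act (2 :: r₁) (f n)⌋ = (2 : ℕ) := floor_act (hf1 n) fun b hb => by
      refine one n b ?_
      rw [hr₁]
      exact List.mem_append_right _ (List.mem_cons_of_mem _ hb)
    have g2 : ⌊act (1 :: r₂) (f n')⌋ = (1 : ℕ) := floor_act (hf1 n') fun b hb => by
      refine one n' b ?_
      rw [hr₂]
      exact List.mem_append_right _ (List.mem_cons_of_mem _ hb)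
    rw [← heq] at g2
    rw [s2, g2] at g1
    norm_num at g1
  intro n n' heq
  rcases lt_trichotomy n n' with h1 | h1 | h1
  · exact absurd heq (key n n' h1)
  · exact h1
  · exact absurd heq.symm (key n' n h1)

end Pool.Agent.BCF
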