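import Pool.Agent.Work.MP_612dae_nt.Blocks
import Pool.Agent.Work.MP_612dae_nt.Ident
import Mathlib.NumberTheory.Pell

/-!
# The principal cycle of discriminant `D`
-/

namespace Pool.Agent.BCF

open Matrix

/-- the largest number below `√D` with the parity of `D` -/
theorem exists_center {D : ℕ} (hD : ¬ IsSquare D) (h4 : D % 4 = 0 ∨ D % 4 = 1) :
    ∃ x E : ℕ, 1 ≤ x ∧ 1 ≤ E ∧ D = x ^ 2 + 4 * E ∧ D < (x + 2) ^ 2 := by
  obtain ⟨s, h1, h2⟩ : ∃ s : ℕ, s * s ≤ D ∧ D < (s + 1) * (s + 1) :=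
    ⟨Nat.sqrt D, Nat.sqrt_le D, Nat.lt_succ_sqrt D⟩
  have h3 : s * s ≠ D := fun h => hD ⟨s, h.symm⟩
  have hs2 : 2 ≤ s := by
    by_contra hcon
    push Not at hcon
    interval_cases s <;> omega
  obtain ⟨x, hx1, hx2, hx3, hx4⟩ : ∃ x : ℕ, 1 ≤ x ∧ x * x < D ∧ D < (x + 2) * (x + 2) ∧
      x % 2 = D % 2 := by
    by_cases hp : s % 2 = D % 2
    · refine ⟨s, by omega, by omega, ?_, hp⟩
      nlinarith
    · obtain ⟨x, rfl⟩ : ∃ x, s = x + 1 := ⟨s - 1, by omega⟩
      refine ⟨x, by omega, ?_, h2, by omega⟩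
      nlinarith
  have hx5 : (x * x) % 4 = D % 4 := by
    have h6 : x % 4 < 4 := Nat.mod_lt _ (by norm_num)
    have h7 : x % 2 = (x % 4) % 2 := by omega
    rw [Nat.mul_mod]
    rw [h7] at hx4
    generalize x % 4 = a at *
    interval_cases a <;> simp at hx4 ⊢ <;> omega
  refine ⟨x, (D - x * x) / 4, hx1, ?_, ?_, ?_⟩
  · omega
  · rw [sq]
    omega
  · rw [sq]
    exact hx3

/-- the matrix of a positive unit -/
theorem exists_unit {D x E : ℕ} (hD : ¬ IsSquare D) (hx : 1 ≤ x) (hE : 1 ≤ E)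
    (hDx : D = x ^ 2 + 4 * E) (hDx2 : D < (x + 2) ^ 2) :
    ∃ Y Q R : ℕ, 1 ≤ Y ∧ 1 ≤ Q ∧ Q ≤ 2 * Y ∧ R ≤ Q ∧ 2 * Y * R + 1 = Q * Q ∧
      x * Q + R = 2 * E * Y := by
  have hD0 : (0 : ℤ) < D := by
    have : 0 < D := by rw [hDx]; omega
    exact_mod_cast this
  have hDs : ¬ IsSquare (D : ℤ) := by
    rintro ⟨r, hr⟩
    apply hD
    refine ⟨r.natAbs, ?_⟩
    have : (D : ℤ) = ((r.natAbs * r.natAbs : ℕ) : ℤ) := by
      rw [hr]
      push_cast
      exact (abs_mul_abs_self r).symm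
    exact_mod_cast this
  obtain ⟨X₀, Y₀, hXY, hY0⟩ := Pell.exists_of_not_isSquare hD0 hDs
  set X : ℤ := |X₀| with hX
  set Y : ℤ := |Y₀| with hY
  have hY1 : 1 ≤ Y := by
    have : 0 < Y := abs_pos.2 hY0
    omega
  have hX0 : 0 ≤ X := abs_nonneg _
  have hpell : X ^ 2 = D * Y ^ 2 + 1 := by
    rw [hX, hY, sq_abs, sq_abs]
    linarith
  have hDx' : (D : ℤ) = (x : ℤ) ^ 2 + 4 * E := by exact_mod_cast hDx
  have hDx2' : (D : ℤ) < ((x : ℤ) + 2) ^ 2 := by exact_mod_cast hDx2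
  have hx' : (1 : ℤ) ≤ x := by exact_mod_cast hx
  have hE' : (1 : ℤ) ≤ E := by exact_mod_cast hE
  set Q : ℤ := X - x * Y with hQ
  have hQ1 : 1 ≤ Q := by
    have h1 : x * Y < X := by
      by_contra hcon
      push Not at hcon
      have : X ^ 2 ≤ (x * Y) ^ 2 := pow_le_pow_left₀ hX0 hcon 2
      rw [hpell, hDx'] at this
      nlinarith [mul_pos (by linarith : (0 : ℤ) < E) (pow_pos (by linarith : (0 : ℤ) < Y) 2)]
    omega
  have hQ2 : Q ≤ 2 * Y := by
    have h1 : X ≤ (x + 2) * Y := by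
      by_contra hcon
      push Not at hcon
      have h2 : (x + 2) * Y + 1 ≤ X := hcon
      have h3 : ((x + 2) * Y + 1) ^ 2 ≤ X ^ 2 := pow_le_pow_left₀ (by positivity) h2 2
      rw [hpell] at h3
      have h4 : (D : ℤ) * Y ^ 2 ≤ ((x : ℤ) + 2) ^ 2 * Y ^ 2 :=
        mul_le_mul_of_nonneg_right hDx2'.le (by positivity)
      nlinarith [mul_pos (by linarith : (0 : ℤ) < (x : ℤ) + 2) (by linarith : (0 : ℤ) < Y)]
    rw [hQ]
    linarith
  set R : ℤ := 2 * E * Y - x * Q with hR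
  have hPR : 2 * Y * R + 1 = Q * Q := by
    rw [hR, hQ]
    linear_combination (-1 : ℤ) * hpell - (Y ^ 2) * hDx'
  have hR0 : 0 ≤ R := by
    by_contra hcon
    push Not at hcon
    nlinarith
  have hR1 : R ≤ Q := by
    by_contra hcon
    push Not at hcon
    nlinarith
  obtain ⟨Yn, hYn⟩ := Int.eq_ofNat_of_zero_le (by linarith : 0 ≤ Y)
  obtain ⟨Qn, hQn⟩ := Int.eq_ofNat_of_zero_le (by linarith : 0 ≤ Q)
  obtain ⟨Rn, hRn⟩ := Int.eq_ofNat_of_zero_le hR0
  rw [hYn] at hY1 hQ2 hPR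
  rw [hQn] at hQ1 hQ2 hPR hR1
  rw [hRn] at hPR hR1
  have hR2 : (x : ℤ) * Qn + Rn = 2 * E * Yn := by
    rw [← hRn, ← hQn, ← hYn, hR]
    ring
  exact ⟨Yn, Qn, Rn, by exact_mod_cast hY1, by exact_mod_cast hQ1, by exact_mod_cast hQ2,
    by exact_mod_cast hR1, by exact_mod_cast hPR, by exact_mod_cast hR2⟩

/-- all letters of the cycle are at most `x` -/
theorem letters_le {D x E Y Q R : ℕ} (hY : 1 ≤ Y) (hDx : D = x ^ 2 + 4 * E)
    (hDx2 : D < (x + 2) ^ 2) (hR : x * Q + R = 2 * E * Y)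
    {h : List ℕ} (hne : h ≠ []) (hpos : ∀ a ∈ x :: h, 1 ≤ a)
    (hmat : mat h = !![2 * Y, Q; Q, R]) : ∀ c ∈ x :: h, c ≤ x := by
  intro c hc
  obtain ⟨u, v, huv⟩ := List.append_of_mem hc
  -- the matrices
  set G := imat u with hG
  have hw : imat (x :: h) = !![(x : ℤ) * (2 * Y) + Q, 2 * E * Y; 2 * Y, Q] := by
    have e00 := mat00 x h
    have e01 := mat01 x h
    have e10 := mat10 x h
    have e11 := mat11 x h
    rw [hmat] at e00 e01 e10 e11
    have f1 : (x : ℤ) * Q + R = 2 * E * Y := by exact_mod_cast hR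
    ext i j
    fin_cases i <;> fin_cases j
    · show ((mat (x :: h) 0 0 : ℕ) : ℤ) = _
      rw [e00]; simp
    · show ((mat (x :: h) 0 1 : ℕ) : ℤ) = _
      rw [e01]; simp; exact f1
    · show ((mat (x :: h) 1 0 : ℕ) : ℤ) = _
      rw [e10]; simp
    · show ((mat (x :: h) 1 1 : ℕ) : ℤ) = _
      rw [e11]; simp
  have hrot : G * imat (c :: (v ++ u)) = imat (x :: h) * G := by
    have h1 : c :: (v ++ u) = (c :: v) ++ u := rfl
    rw [h1, imat_append, ← mul_assoc, hG, ← imat_append, ← huv]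
  have hdet : G.det = (-1) ^ u.length := imat_det u
  set rest := v ++ u with hrest
  have hlen : (x :: h).length = u.length + (v.length + 1) := by
    rw [huv]
    simp
  have hrne : rest ≠ [] := by
    intro hcon
    have h1 := congrArg List.length hcon
    rw [hrest, List.length_append, List.length_nil] at h1
    have h2 : 0 < h.length := List.length_pos_iff.2 hne
    simp at hlen
    omega
  have hrpos : ∀ a ∈ rest, 1 ≤ a := by
    intro a ha
    apply hpos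
    rw [huv]
    rcases List.mem_append.1 ha with ha | ha
    · exact List.mem_append_right _ (List.mem_cons_of_mem _ ha)
    · exact List.mem_append_left _ ha
  have hcpos : 1 ≤ c := hpos c hc
  obtain ⟨m1, m2, m3, _⟩ := mat_mono hrpos
  obtain ⟨n1, n2, n3⟩ := mat_entries hrne hrpos
  set p : ℤ := (mat rest 0 0 : ℤ) with hp
  set q : ℤ := (mat rest 0 1 : ℤ) with hq
  set r : ℤ := (mat rest 1 0 : ℤ) with hr
  set s : ℤ := (mat rest 1 1 : ℤ) with hs
  have hM : imat (c :: rest) = !![c * p + r, c * q + s; p, q] := by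
    ext i j
    fin_cases i <;> fin_cases j
    · show ((mat (c :: rest) 0 0 : ℕ) : ℤ) = _
      rw [mat00]; push_cast; rfl
    · show ((mat (c :: rest) 0 1 : ℕ) : ℤ) = _
      rw [mat01]; push_cast; rfl
    · show ((mat (c :: rest) 1 0 : ℕ) : ℤ) = _
      rw [mat10]; rfl
    · show ((mat (c :: rest) 1 1 : ℕ) : ℤ) = _
      rw [mat11]; rfl
  have hpq : q ≤ p := by rw [hp, hq]; exact_mod_cast m1
  have hp1 : 1 ≤ p := by rw [hp]; exact_mod_cast m3
  have hq1 : 1 ≤ q := by rw [hq]; exact_mod_cast n2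
  have hr1 : 1 ≤ r := by rw [hr]; exact_mod_cast n3
  have hs0 : 0 ≤ s := by rw [hs]; exact Nat.cast_nonneg _
  obtain ⟨g, hg⟩ : ∃ g : ℤ, g = (-1) ^ u.length := ⟨_, rfl⟩
  have hgg : g * g = 1 := by
    rw [hg, ← mul_pow]
    simp
  set α : ℤ := G 0 0 with hα
  set β : ℤ := G 0 1 with hβ
  set γ : ℤ := G 1 0 with hγ
  set ζ : ℤ := G 1 1 with hζ
  have hdet' : α * ζ - β * γ = g := by
    rw [Matrix.det_fin_two] at hdet
    rw [hg, ← hdet]
  rw [hM, hw] at hrot
  have r00 := congrFun (congrFun hrot 0) 0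
  have r01 := congrFun (congrFun hrot 0) 1
  have r10 := congrFun (congrFun hrot 1) 0
  have r11 := congrFun (congrFun hrot 1) 1
  simp only [Matrix.mul_apply, Fin.sum_univ_two, Matrix.of_apply, Matrix.cons_val',
    Matrix.cons_val_zero, Matrix.cons_val_one, Matrix.cons_val_fin_one] at r00 r01 r10 r11
  simp only [← hα, ← hβ, ← hγ, ← hζ] at r00 r01 r10 r11
  have hYZ : (1 : ℤ) ≤ Y := by exact_mod_cast hY
  -- the quadratic form of the rotated word
  set Γ : ℤ := g * (α ^ 2 - x * α * γ - E * γ ^ 2) with hΓ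
  set B : ℤ := g * (E * ζ ^ 2 + x * β * ζ - β ^ 2) with hB
  set κ : ℤ := g * (x * (α * ζ + β * γ) - 2 * α * β + 2 * E * γ * ζ) with hκ
  have k10 : p = 2 * Y * Γ := by
    have h1 : g * p = 2 * Y * (α ^ 2 - x * α * γ - E * γ ^ 2) := by
      rw [← hdet']
      linear_combination α * r10 - γ * r00
    calc p = g * (g * p) := by rw [← mul_assoc, hgg, one_mul]
      _ = _ := by rw [h1, hΓ]; ring
  have k01 : c * q + s = 2 * Y * B := by
    have h1 : g * (c * q + s) = 2 * Y * (E * ζ ^ 2 + x * β * ζ - β ^ 2) := by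
      rw [← hdet']
      linear_combination ζ * r01 - β * r11
    calc (c : ℤ) * q + s = g * (g * (c * q + s)) := by rw [← mul_assoc, hgg, one_mul]
      _ = _ := by rw [h1, hB]; ring
  have kdiff : c * p + r - q = 2 * Y * κ := by
    have h1 : g * (c * p + r - q) =
        2 * Y * (x * (α * ζ + β * γ) - 2 * α * β + 2 * E * γ * ζ) := by
      rw [← hdet']
      linear_combination ζ * r00 - β * r10 - α * r11 + γ * r01
    calc (c : ℤ) * p + r - q = g * (g * (c * p + r - q)) := by rw [← mul_assoc, hgg, one_mul]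
      _ = _ := by rw [h1, hκ]; ring
  have kdisc : κ ^ 2 + 4 * B * Γ = D := by
    have hDx' : (D : ℤ) = (x : ℤ) ^ 2 + 4 * E := by exact_mod_cast hDx
    rw [hDx', hκ, hB, hΓ]
    have e1 : ((x : ℤ) ^ 2 + 4 * E) = ((x : ℤ) ^ 2 + 4 * E) * (g * g) * (g * g) := by
      rw [hgg]; ring
    rw [e1]
    have e2 : (g * g) * (g * g) = (g * g) * (α * ζ - β * γ) ^ 2 := by rw [hdet']; ring
    have e3 : ((x : ℤ) ^ 2 + 4 * E) * (g * g) * (g * g) =
        ((x : ℤ) ^ 2 + 4 * E) * ((g * g) * (α * ζ - β * γ) ^ 2) := by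
      rw [← e2]; ring
    rw [e3]
    ring
  have hΓ1 : 1 ≤ Γ := by
    by_contra hcon
    push Not at hcon
    have : 2 * (Y : ℤ) * Γ ≤ 0 := mul_nonpos_of_nonneg_of_nonpos (by positivity) (by omega)
    omega
  have hB1 : 1 ≤ B := by
    by_contra hcon
    push Not at hcon
    have h1 : 2 * (Y : ℤ) * B ≤ 0 := mul_nonpos_of_nonneg_of_nonpos (by positivity) (by omega)
    have h2 : 0 < (c : ℤ) * q := by
      have : (1 : ℤ) ≤ c := by exact_mod_cast hcpos
      positivity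
    omega
  have hκD : κ ^ 2 < D := by
    have h1 : 0 < B * Γ := mul_pos (by omega) (by omega)
    have h2 : κ ^ 2 + 4 * (B * Γ) = D := by rw [← kdisc]; ring
    linarith
  have hcκ : (c : ℤ) ≤ κ := by
    have hc1 : (1 : ℤ) ≤ c := by exact_mod_cast hcpos
    have h1 : ((c : ℤ) - 1) * p < 2 * Y * κ := by
      have h0 : ((c : ℤ) - 1) * p = c * p - p := by ring
      rw [h0, ← kdiff]
      linarith
    have h2 : 2 * (Y : ℤ) * ((c - 1) * Γ) < 2 * Y * κ := by
      calc 2 * (Y : ℤ) * ((c - 1) * Γ) = (c - 1) * p := by rw [k10]; ring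
        _ < _ := h1
    have h3 : ((c : ℤ) - 1) * Γ < κ := lt_of_mul_lt_mul_left h2 (by positivity)
    have h4 := mul_le_mul_of_nonneg_left hΓ1 (by linarith : (0 : ℤ) ≤ (c : ℤ) - 1)
    rw [mul_one] at h4
    omega
  have hκx : κ < x + 2 := by
    by_contra hcon
    push Not at hcon
    have h1 : ((x : ℤ) + 2) ^ 2 ≤ κ ^ 2 := pow_le_pow_left₀ (by positivity) hcon 2
    have h2 : (D : ℤ) < ((x : ℤ) + 2) ^ 2 := by exact_mod_cast hDx2
    linarith
  have hpar : κ % 2 = (x : ℤ) % 2 := by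
    have h1 : κ ^ 2 % 2 = (x : ℤ) ^ 2 % 2 := by
      have hDx' : (D : ℤ) = (x : ℤ) ^ 2 + 4 * E := by exact_mod_cast hDx
      have : κ ^ 2 = (x : ℤ) ^ 2 + 2 * (2 * E - 2 * B * Γ) := by
        linear_combination kdisc + hDx'
      rw [this, Int.add_mul_emod_self_left]
    have h2 : ∀ z : ℤ, z ^ 2 % 2 = z % 2 := by
      intro z
      rcases Int.emod_two_eq_zero_or_one z with h | h
      · rw [sq, Int.mul_emod, h]; rfl
      · rw [sq, Int.mul_emod, h]; rfl
    rwa [h2, h2] at h1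
  have : (c : ℤ) ≤ x := by omega
  exact_mod_cast this

end Pool.Agent.BCF
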