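import Mathlib

/-!
# Bounded periodic continued fractions in real quadratic fields: definitions
-/

namespace Pool.Agent.BCF

/-- the continued fraction map: `step x = 1 / (x - ⌊x⌋)` -/
noncomputable def step (x : ℝ) : ℝ := (x - ⌊x⌋)⁻¹

/-- the continued fraction of `x` is purely periodic and all its partial quotients
`⌊step^[n] x⌋` lie in `1, …, m` -/
def PerBdd (m : ℕ) (x : ℝ) : Prop :=
  (∃ p, 0 < p ∧ step^[p] x = x) ∧ ∀ n, 1 ≤ ⌊step^[n] x⌋ ∧ ⌊step^[n] x⌋ ≤ (m : ℤ)

/-- the periodic continued fractions bounded by `m` in the field `ℚ(√δ)` -/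
def pset (m δ : ℕ) : Set ℝ := {x | PerBdd m x ∧ ∃ a b : ℚ, x = a + b * √(δ : ℝ)}

/-- the numbers in `(0, 1)` whose continued fraction is infinite with all partial quotients in
`1, …, m` -/
def Em (m : ℕ) : Set ℝ :=
  {x | 0 < x ∧ x < 1 ∧ ∀ n, 1 ≤ ⌊step^[n + 1] x⌋ ∧ ⌊step^[n + 1] x⌋ ≤ (m : ℤ)}

/-- the prime `p` splits in `ℚ(√δ)`, for `δ` squarefree -/
def SplitAt (p δ : ℕ) : Prop := if p = 2 then δ % 8 = 1 else jacobiSym δ p = 1

/-- the prime `p` is inert in `ℚ(√δ)`, for `δ` squarefree -/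
def InertAt (p δ : ℕ) : Prop := if p = 2 then δ % 8 = 5 else jacobiSym δ p = -1

/-- the prime `p` is ramified in `ℚ(√δ)`, for `δ` squarefree -/
def RamAt (p δ : ℕ) : Prop := if p = 2 then δ % 4 ≠ 1 else p ∣ δ

/-- the number of real quadratic fields `ℚ(√δ)`, `1 < δ ≤ X` squarefree, in which the primes of
`P` split, the primes of `Q` are inert and the primes of `R` are ramified, and which contain
infinitely many periodic continued fractions bounded by `m` -/
noncomputable def fieldCount (m : ℕ) (P Q R : Finset ℕ) (X : ℝ) : ℕ :=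
  Set.ncard {δ : ℕ | Squarefree δ ∧ 1 < δ ∧ (δ : ℝ) ≤ X ∧ (∀ p ∈ P, SplitAt p δ) ∧
    (∀ p ∈ Q, InertAt p δ) ∧ (∀ p ∈ R, RamAt p δ) ∧ (pset m δ).Infinite}

/-! ### tools -/

/-- the matrix of a word -/
def mat (l : List ℕ) : Matrix (Fin 2) (Fin 2) ℕ := (l.map fun a => !![a, 1; 1, 0]).prod

/-- a palindrome of odd length -/
def word (V : List ℕ) : List ℕ := V ++ [1, 1, 2, 1, 1] ++ V.reverse

/-- the trace of its matrix -/
def tw (V : List ℕ) : ℕ := (mat (word V)).trace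

end Pool.Agent.BCF
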