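import Pool.Agent.Work.MP_612dae_nt.Defs

/-!
# Periodic continued fractions from a form without small values

An integral binary quadratic form of non-square discriminant `Δ > 0` all of whose nonzero values
are at least `μ` in absolute value gives a purely periodic continued fraction in `ℚ(√Δ)` with all
partial quotients at most `m`, as soon as `√Δ < (m + 1) μ`.
-/

namespace Pool.Agent.BCF

/-- the integral form `A X² + B X Y + C Y²` has discriminant `Δ` and no nonzero value below `μ`,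
and its content divides `N` -/
def Gd (μ : ℝ) (Δ N : ℤ) (A B C : ℤ) : Prop :=
  B ^ 2 - 4 * A * C = Δ ∧ (∀ X Y : ℤ, (X ≠ 0 ∨ Y ≠ 0) →
    μ ≤ |((A * X ^ 2 + B * X * Y + C * Y ^ 2 : ℤ) : ℝ)|) ∧
    ∀ k : ℤ, k ∣ A → k ∣ B → k ∣ C → k ∣ N

theorem Gd.trans {μ : ℝ} {Δ N A B C : ℤ} (h : Gd μ Δ N A B C) (n : ℤ) :
    Gd μ Δ N A (B + 2 * A * n) (A * n ^ 2 + B * n + C) := by
  refine ⟨by rw [← h.1]; ring, fun X Y hXY => ?_, fun k h1 h2 h3 => ?_⟩
  swap
  · have hB : k ∣ B := by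
      have : B = (B + 2 * A * n) - A * (2 * n) := by ring
      rw [this]
      exact dvd_sub h2 (Dvd.dvd.mul_right h1 _)
    refine h.2.2 k h1 hB ?_
    have : C = (A * n ^ 2 + B * n + C) - A * n ^ 2 - B * n := by ring
    rw [this]
    exact dvd_sub (dvd_sub h3 (Dvd.dvd.mul_right h1 _)) (Dvd.dvd.mul_right hB _)
  have h1 := h.2.1 (X + n * Y) Y (by
    by_cases hY : Y = 0
    · left
      rcases hXY with hX | hX
      · rw [hY, mul_zero, add_zero]; exact hX
      · exact absurd hY hX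
    · right; exact hY)
  have e : A * (X + n * Y) ^ 2 + B * (X + n * Y) * Y + C * Y ^ 2 =
      A * X ^ 2 + (B + 2 * A * n) * X * Y + (A * n ^ 2 + B * n + C) * Y ^ 2 := by ring
  rwa [e] at h1

theorem Gd.swap {μ : ℝ} {Δ N A B C : ℤ} (h : Gd μ Δ N A B C) : Gd μ Δ N (-C) (-B) (-A) := by
  refine ⟨by rw [← h.1]; ring, fun X Y hXY => ?_, fun k h1 h2 h3 =>
    h.2.2 k ((dvd_neg).1 h3) ((dvd_neg).1 h2) ((dvd_neg).1 h1)⟩
  have h1 := h.2.1 Y X hXY.symm
  have e : -C * X ^ 2 + -B * X * Y + -A * Y ^ 2 = -(A * Y ^ 2 + B * Y * X + C * X ^ 2) := by ring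
  rw [e, Int.cast_neg, abs_neg]
  exact h1

theorem Gd.neg {μ : ℝ} {Δ N A B C : ℤ} (h : Gd μ Δ N A B C) : Gd μ Δ N (-A) (-B) (-C) := by
  refine ⟨by rw [← h.1]; ring, fun X Y hXY => ?_, fun k h1 h2 h3 =>
    h.2.2 k ((dvd_neg).1 h1) ((dvd_neg).1 h2) ((dvd_neg).1 h3)⟩
  have h1 := h.2.1 X Y hXY
  have e : -A * X ^ 2 + -B * X * Y + -C * Y ^ 2 = -(A * X ^ 2 + B * X * Y + C * Y ^ 2) := by ring
  rw [e, Int.cast_neg, abs_neg]
  exact h1

theorem Gd.left_ne {μ : ℝ} (hμ : 0 < μ) {Δ N A B C : ℤ} (h : Gd μ Δ N A B C) : A ≠ 0 := by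
  rintro rfl
  have h1 := h.2.1 1 0 (Or.inl one_ne_zero)
  norm_num at h1
  linarith

theorem Gd.right_ne {μ : ℝ} (hμ : 0 < μ) {Δ N A B C : ℤ} (h : Gd μ Δ N A B C) : C ≠ 0 := by
  have := h.swap.left_ne hμ
  intro h0
  rw [h0] at this
  exact this neg_zero

theorem Gd.le_left {μ : ℝ} {Δ N A B C : ℤ} (h : Gd μ Δ N A B C) : μ ≤ |(A : ℝ)| := by
  have h1 := h.2.1 1 0 (Or.inl one_ne_zero)
  simpa using h1

/-- some form of the class has outer coefficients of opposite signs -/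
theorem exists_opposite {μ : ℝ} (hμ : 0 < μ) {Δ N : ℤ} (hΔ : 0 < Δ) {A B C : ℤ}
    (h : Gd μ Δ N A B C) : ∃ A' B' C' : ℤ, Gd μ Δ N A' B' C' ∧ A' * C' < 0 := by
  classical
  have hex : ∃ n : ℕ, ∃ A B C : ℤ, Gd μ Δ N A B C ∧ B.natAbs = n := ⟨_, A, B, C, h, rfl⟩
  obtain ⟨A', B', C', h', hn⟩ := Nat.find_spec hex
  have hmin : ∀ A'' B'' C'' : ℤ, Gd μ Δ N A'' B'' C'' → |B'| ≤ |B''| := by
    intro A'' B'' C'' h''
    have h1 := Nat.find_min' hex ⟨A'', B'', C'', h'', rfl⟩
    rw [← hn] at h1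
    rw [Int.abs_eq_natAbs, Int.abs_eq_natAbs]
    exact_mod_cast h1
  have key : ∀ A B C : ℤ, Gd μ Δ N A B C → |B| ≤ |B'| → |B| ≤ |A| := by
    intro A B C h hB
    have hA := h.left_ne hμ
    have h1 := hmin _ _ _ (h.trans 1)
    have h2 := hmin _ _ _ (h.trans (-1))
    by_contra hcon
    push Not at hcon
    rcases abs_cases A with ⟨ha, ha'⟩ | ⟨ha, ha'⟩ <;> rcases abs_cases B with ⟨hb, hb'⟩ | ⟨hb, hb'⟩
    · have : |B + 2 * A * (-1)| < |B| := by
        rw [abs_lt]
        constructor <;> omega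
      omega
    · have : |B + 2 * A * 1| < |B| := by
        rw [abs_lt]
        constructor <;> omega
      omega
    · have : |B + 2 * A * 1| < |B| := by
        rw [abs_lt]
        constructor <;> omega
      omega
    · have : |B + 2 * A * (-1)| < |B| := by
        rw [abs_lt]
        constructor <;> omega
      omega
  have hA := key _ _ _ h' le_rfl
  have hC := key _ _ _ h'.swap (by rw [abs_neg])
  rw [abs_neg, abs_neg] at hC
  refine ⟨A', B', C', h', ?_⟩
  by_contra hcon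
  push Not at hcon
  have h0 : 0 ≤ |B'| := abs_nonneg _
  have h1 : |B'| * |B'| ≤ |A'| * |C'| := mul_le_mul hA hC h0 (abs_nonneg _)
  rw [← abs_mul A', abs_of_nonneg hcon, abs_mul_abs_self] at h1
  have h2 := h'.1
  nlinarith

/-- a number `x > 1` with negative conjugate, the root of a form without small values -/
def Pre (μ : ℝ) (Δ N : ℤ) (x : ℝ) : Prop :=
  ∃ A b C : ℤ, Gd μ Δ N A (-b) C ∧ 0 < A ∧ x = (b + √(Δ : ℝ)) / (2 * A) ∧ 1 < x ∧
    (b - √(Δ : ℝ)) / (2 * A) < 0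

/-- a reduced number: `x > 1` with conjugate in `(-1, 0)` -/
def Red (μ : ℝ) (Δ N : ℤ) (x : ℝ) : Prop :=
  ∃ A b C : ℤ, Gd μ Δ N A (-b) C ∧ 0 < A ∧ x = (b + √(Δ : ℝ)) / (2 * A) ∧ 1 < x ∧
    (b - √(Δ : ℝ)) / (2 * A) < 0 ∧ -1 < (b - √(Δ : ℝ)) / (2 * A)

theorem Red.pre {μ : ℝ} {Δ N : ℤ} {x : ℝ} (h : Red μ Δ N x) : Pre μ Δ N x := by
  obtain ⟨A, b, C, h1, h2, h3, h4, h5, -⟩ := h
  exact ⟨A, b, C, h1, h2, h3, h4, h5⟩

theorem red_step {μ : ℝ} {Δ N : ℤ} (hΔ : 0 < Δ) (hns : Irrational √(Δ : ℝ)) {x : ℝ}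
    (h : Pre μ Δ N x) : Red μ Δ N (step x) := by
  obtain ⟨A, b, C, hG, hA, hx, hx1, hx'⟩ := h
  set s : ℝ := √(Δ : ℝ) with hs
  have hs2 : s ^ 2 = Δ := Real.sq_sqrt (by exact_mod_cast hΔ.le)
  have hs0 : 0 < s := Real.sqrt_pos.2 (by exact_mod_cast hΔ)
  set n : ℤ := ⌊x⌋ with hn
  have hn1 : 1 ≤ n := Int.le_floor.2 (by exact_mod_cast hx1.le)
  have hAr : (0 : ℝ) < A := by exact_mod_cast hA
  have hfl := Int.floor_le x
  have hlt := Int.lt_floor_add_one x
  rw [← hn] at hfl hlt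
  have hxn : (n : ℝ) ≠ x := by
    intro he
    rw [hx, eq_div_iff (by positivity)] at he
    apply hns
    refine ⟨n * (2 * A) - b, ?_⟩
    push_cast
    linarith
  have hxn' : (n : ℝ) < x := lt_of_le_of_ne hfl hxn
  have e1 : 2 * A * (x - n) = s - (2 * A * n - b) := by
    rw [hx]
    field_simp
    ring
  set x' : ℝ := (b - s) / (2 * A) with hx'd
  have e2 : 2 * A * (x' - n) = -(s + (2 * A * n - b)) := by
    rw [hx'd]
    field_simp
    ring
  have hz' : x' - n < -1 := by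
    have : (1 : ℝ) ≤ n := by exact_mod_cast hn1
    linarith
  have hz0 : 0 < x - n := by linarith
  have hz1 : x - n < 1 := by linarith
  set A₁ : ℤ := -(A * n ^ 2 + -b * n + C) with hA₁
  set b₁ : ℤ := 2 * A * n - b with hb₁
  have hdisc : b ^ 2 - 4 * A * C = Δ := by
    have := hG.1
    linarith [this, neg_sq b]
  have e3 : (A₁ : ℝ) = -(A * (x - n) * (x' - n)) := by
    have h4 : (4 * A * A₁ : ℝ) = -((2 * A * (x - n)) * (2 * A * (x' - n))) := by
      rw [e1, e2]
      have hd : (b : ℝ) ^ 2 - 4 * A * C = s ^ 2 := by rw [hs2]; exact_mod_cast hdisc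
      rw [hA₁]
      push_cast
      linear_combination hd
    have h5 : (4 * A : ℝ) * (A₁ - -(A * (x - n) * (x' - n))) = 0 := by linear_combination h4
    rcases mul_eq_zero.1 h5 with h6 | h6
    · exact absurd h6 (by positivity)
    · linarith
  have hA₁0 : (0 : ℝ) < A₁ := by
    rw [e3]
    have : 0 < A * (x - n) * (-(x' - n)) := by
      apply mul_pos (mul_pos hAr hz0)
      linarith
    linarith
  have hst : step x = (x - n)⁻¹ := rfl
  have e4 : step x = (b₁ + s) / (2 * A₁) := by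
    rw [hst, eq_div_iff (by positivity), inv_mul_eq_div, div_eq_iff hz0.ne', e3]
    have hb' : (b₁ : ℝ) + s = -(2 * A * (x' - n)) := by
      rw [e2, hb₁]
      push_cast
      ring
    rw [hb']
    ring
  have e5 : (b₁ - s) / (2 * A₁) = (x' - n)⁻¹ := by
    rw [div_eq_iff (by positivity), inv_mul_eq_div, eq_div_iff (by linarith : x' - n ≠ 0), e3]
    have hb' : (b₁ : ℝ) - s = -(2 * A * (x - n)) := by
      rw [e1, hb₁]
      push_cast
      ring
    rw [hb']
    ring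
  refine ⟨A₁, b₁, -A, ?_, by exact_mod_cast hA₁0, e4, ?_, ?_, ?_⟩
  · have h6 := (hG.trans n).swap
    have e6 : -(-b + 2 * A * n) = -b₁ := by rw [hb₁]; ring
    rw [e6] at h6
    exact h6
  · rw [hst]
    exact (one_lt_inv₀ hz0).2 hz1
  · rw [e5]
    exact inv_neg''.2 (by linarith)
  · rw [e5]
    have : (x' - n)⁻¹ = -((-(x' - n))⁻¹) := by rw [inv_neg, neg_neg]
    rw [this]
    have h7 : (-(x' - n))⁻¹ < 1 := inv_lt_one_of_one_lt₀ (by linarith)
    linarith

theorem red_finite (μ : ℝ) {Δ : ℤ} (N : ℤ) (hΔ : 0 < Δ) : {x | Red μ Δ N x}.Finite := by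
  set s : ℝ := √(Δ : ℝ) with hs
  have hs2 : s ^ 2 = Δ := Real.sq_sqrt (by exact_mod_cast hΔ.le)
  have hs0 : 0 < s := Real.sqrt_pos.2 (by exact_mod_cast hΔ)
  set K : ℤ := ⌈s⌉ with hK
  apply Set.Finite.subset (((Finset.Icc (0 : ℤ) K) ×ˢ (Finset.Icc (0 : ℤ) K)).image
    fun p : ℤ × ℤ => ((p.2 : ℝ) + s) / (2 * p.1)).finite_toSet
  rintro x ⟨A, b, C, hG, hA, hx, hx1, hx', hx''⟩
  have hAr : (0 : ℝ) < A := by exact_mod_cast hA
  have h1 : (b : ℝ) < s := by
    by_contra hcon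
    push Not at hcon
    have : 0 ≤ (b - s) / (2 * A) := div_nonneg (by linarith) (by linarith)
    linarith
  have h2 : -(2 * A) < (b : ℝ) - s := by
    rw [lt_div_iff₀ (by positivity)] at hx''
    linarith
  have h3 : (2 * A : ℝ) < b + s := by
    rw [hx, lt_div_iff₀ (by positivity)] at hx1
    linarith
  have h4 : (A : ℝ) ≤ s := by linarith
  have h5 : (0 : ℝ) ≤ b := by linarith
  rw [Finset.mem_coe, Finset.mem_image]
  refine ⟨(A, b), ?_, hx.symm⟩
  rw [Finset.mem_product, Finset.mem_Icc, Finset.mem_Icc]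
  have h6 := Int.le_ceil s
  rw [← hK] at h6
  refine ⟨⟨hA.le, ?_⟩, ⟨by exact_mod_cast h5, ?_⟩⟩
  · exact_mod_cast h4.trans h6
  · exact_mod_cast h1.le.trans h6

/-- **a form without values below `μ` gives a periodic continued fraction with small partial
quotients** -/
theorem exists_perBdd {μ : ℝ} (hμ : 0 < μ) {Δ N : ℤ} (hΔ : 0 < Δ) (hns : Irrational √(Δ : ℝ))
    {m : ℕ} (hm : √(Δ : ℝ) < (m + 1) * μ) {A B C : ℤ} (h : Gd μ Δ N A B C) :
    ∃ x : ℝ, PerBdd m x ∧ ∃ A b C : ℤ, 0 < A ∧ Gd μ Δ N A (-b) C ∧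
      x = (b + √(Δ : ℝ)) / (2 * A) := by
  have hs2 : √(Δ : ℝ) ^ 2 = Δ := Real.sq_sqrt (by exact_mod_cast hΔ.le)
  have hs0 : 0 < √(Δ : ℝ) := Real.sqrt_pos.2 (by exact_mod_cast hΔ)
  -- a starting point
  obtain ⟨x₀, hx₀⟩ : ∃ x, Pre μ Δ N x := by
    obtain ⟨A, B, C, hG, hAC⟩ := exists_opposite hμ hΔ h
    have key : ∀ A B C : ℤ, Gd μ Δ N A B C → 0 < A → A * C < 0 → ∃ x, Pre μ Δ N x := by
      intro A B C hG hA hAC
      set s : ℝ := √(Δ : ℝ) with hs
      have hAr : (0 : ℝ) < A := by exact_mod_cast hA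
      have hC : C < 0 := by
        by_contra hcon
        push Not at hcon
        have := mul_nonneg hA.le hcon
        linarith
      have hCr : (C : ℝ) < 0 := by exact_mod_cast hC
      have hd : (B : ℝ) ^ 2 - 4 * A * C = s ^ 2 := by rw [hs2]; exact_mod_cast hG.1
      have hBs : |(B : ℝ)| < s := by
        apply abs_lt_of_sq_lt_sq _ hs0.le
        nlinarith
      obtain ⟨hB1, hB2⟩ := abs_lt.1 hBs
      have hr0 : 0 < (((-B : ℤ) : ℝ) + s) / (2 * A) := by
        push_cast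
        apply div_pos <;> linarith
      have hr' : (((-B : ℤ) : ℝ) - s) / (2 * A) < 0 := by
        push_cast
        apply div_neg_of_neg_of_pos <;> linarith
      by_cases h1 : 1 < (((-B : ℤ) : ℝ) + s) / (2 * A)
      · exact ⟨_, A, -B, C, by rwa [neg_neg], hA, rfl, h1, hr'⟩
      · push Not at h1
        have hne : (((-B : ℤ) : ℝ) + s) / (2 * A) ≠ 1 := by
          intro he
          rw [div_eq_one_iff_eq (by positivity)] at he
          apply hns
          refine ⟨2 * A + B, ?_⟩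
          push_cast at he ⊢
          linarith
        have h2 := lt_of_le_of_ne h1 hne
        refine ⟨((B : ℤ) + s) / (2 * (-C : ℤ)), -C, B, -A, hG.swap, by omega, rfl, ?_, ?_⟩
        · push_cast
          rw [one_lt_div (by linarith)]
          rw [div_lt_one (by positivity)] at h2
          push_cast at h2
          nlinarith
        · push_cast
          apply div_neg_of_neg_of_pos <;> linarith
    rcases lt_or_gt_of_ne (hG.left_ne hμ) with h1 | h1
    · exact key _ _ _ hG.neg (by omega) (by linarith [neg_mul_neg A C])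
    · exact key _ _ _ hG h1 hAC
  set S : Set ℝ := {x | Red μ Δ N x} with hS
  have hSf : S.Finite := red_finite μ N hΔ
  have hit : ∀ n, Red μ Δ N (step^[n] (step x₀)) := by
    intro n
    induction n with
    | zero => exact red_step hΔ hns hx₀
    | succ n ih =>
        rw [Function.iterate_succ_apply']
        exact red_step hΔ hns ih.pre
  obtain ⟨i, j, hij, he⟩ : ∃ i j, i < j ∧ step^[i] (step x₀) = step^[j] (step x₀) := by
    have h1 : ¬ Function.Injective fun n => (⟨step^[n] (step x₀), hit n⟩ : S) := by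
      intro hinj
      have : Finite S := hSf
      exact not_injective_infinite_finite _ hinj
    rw [Function.Injective] at h1
    push Not at h1
    obtain ⟨i, j, h2, h3⟩ := h1
    have h2' : step^[i] (step x₀) = step^[j] (step x₀) := congrArg Subtype.val h2
    rcases lt_or_gt_of_ne h3 with h4 | h4
    · exact ⟨i, j, h4, h2'⟩
    · exact ⟨j, i, h4, h2'.symm⟩
  refine ⟨step^[i] (step x₀), ⟨⟨j - i, by omega, ?_⟩, ?_⟩, ?_⟩
  · rw [← Function.iterate_add_apply, Nat.sub_add_cancel hij.le, ← he]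
  · intro n
    rw [← Function.iterate_add_apply]
    obtain ⟨A, b, C, hG, hA, hx, hx1, hx', -⟩ := hit (n + i)
    set x := step^[n + i] (step x₀) with hxd
    refine ⟨Int.le_floor.2 (by exact_mod_cast hx1.le), ?_⟩
    have hAr : (0 : ℝ) < A := by exact_mod_cast hA
    have hμA : μ ≤ A := by
      have := hG.le_left
      rwa [abs_of_pos hAr] at this
    have h1 : x < m + 1 := by
      have h2 : x < √(Δ : ℝ) / A := by
        have : x = (b - √(Δ : ℝ)) / (2 * A) + √(Δ : ℝ) / A := by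
          rw [hx]
          field_simp
          ring
        linarith
      have h3 : √(Δ : ℝ) / A < m + 1 := by
        rw [div_lt_iff₀ hAr]
        refine hm.trans_le ?_
        apply mul_le_mul_of_nonneg_left hμA
        positivity
      linarith
    have h2 : ⌊x⌋ < (m : ℤ) + 1 := by
      rw [Int.floor_lt]
      push_cast
      exact h1
    omega
  · obtain ⟨A, b, C, hG, hA, hx, -⟩ := hit i
    exact ⟨A, b, C, hA, hG, hx⟩

end Pool.Agent.BCF
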