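import Pool.Agent.Work.MP_612dae_nt.LogFam

/-!
# The infinite family of lattices
-/

namespace Pool.Agent.BCF

open Finset

theorem cu_add (t : ℤ) (n m : ℕ) :
    cu t (n + m + 1) = cu t (m + 1) * cu t (n + 1) - cu t m * cu t n := by
  induction m using Nat.twoStepInduction with
  | zero => simp [cu]
  | one =>
      have e1 : cu t (n + 1 + 1) = t * cu t (n + 1) - cu t n := rfl
      have e2 : cu t (1 + 1) = t * cu t 1 - cu t 0 := rfl
      have e3 : cu t 1 = 1 := rfl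
      have e4 : cu t 0 = 0 := rfl
      rw [e1, e2, e3, e4]
      ring
  | more m ih1 ih2 =>
      have e1 : cu t (n + (m + 2) + 1) = t * cu t (n + (m + 1) + 1) - cu t (n + m + 1) := rfl
      have e2 : cu t (m + 2 + 1) = t * cu t (m + 1 + 1) - cu t (m + 1) := rfl
      have e3 : cu t (m + 2) = t * cu t (m + 1) - cu t m := rfl
      rw [e1, ih1, ih2, e2, e3]
      ring

/-- the cofactor: `cu t 12 = t * fp t` -/
def fp (t : ℤ) : ℤ := (t ^ 2 - 1) * (t ^ 2 - 2) * (t ^ 2 - 3) * (t ^ 4 - 4 * t ^ 2 + 1)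

theorem cu12 (t : ℤ) : cu t 12 = t * fp t := by
  simp only [cu, fp]
  ring

theorem fp_even (t : ℤ) : (2 : ℤ) ∣ fp t := by
  have h1 : (2 : ℤ) ∣ (t ^ 2 - 1) * (t ^ 2 - 2) := by
    have h2 := Int.even_mul_succ_self (t ^ 2 - 2)
    have h3 : (t ^ 2 - 2) * (t ^ 2 - 2 + 1) = (t ^ 2 - 1) * (t ^ 2 - 2) := by ring
    rw [h3] at h2
    exact h2.two_dvd
  unfold fp
  exact Dvd.dvd.mul_right (Dvd.dvd.mul_right h1 _) _

theorem cu_mod (t : ℤ) (i : ℕ) : fp t ∣ cu t (12 * i) ∧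
    fp t ∣ cu t (12 * i + 1) - (-cu t 11) ^ i := by
  have h12 : fp t ∣ cu t 12 := ⟨t, by rw [cu12]; ring⟩
  induction i with
  | zero => simp [cu]
  | succ i ih =>
      obtain ⟨h1, h2⟩ := ih
      have e1 : cu t (12 * (i + 1)) = cu t 12 * cu t (12 * i + 1) - cu t 11 * cu t (12 * i) := by
        have := cu_add t (12 * i) 11
        have e : 12 * (i + 1) = 12 * i + 11 + 1 := by ring
        rw [e, this]
      have e2 : cu t (12 * (i + 1) + 1) = cu t 13 * cu t (12 * i + 1) - cu t 12 * cu t (12 * i) := by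
        have := cu_add t (12 * i) 12
        have e : 12 * (i + 1) + 1 = 12 * i + 12 + 1 := by ring
        rw [e, this]
      have e3 : cu t 13 = t * cu t 12 - cu t 11 := rfl
      refine ⟨?_, ?_⟩
      · rw [e1]
        exact dvd_sub (Dvd.dvd.mul_right h12 _) (Dvd.dvd.mul_left h1 _)
      · rw [e2, e3]
        have e4 : (t * cu t 12 - cu t 11) * cu t (12 * i + 1) - cu t 12 * cu t (12 * i) -
            (-cu t 11) ^ (i + 1) = cu t 12 * (t * cu t (12 * i + 1) - cu t (12 * i)) +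
            (-cu t 11) * (cu t (12 * i + 1) - (-cu t 11) ^ i) := by ring
        rw [e4]
        exact dvd_add (Dvd.dvd.mul_right h12 _) (Dvd.dvd.mul_left h2 _)

theorem c_pow (t : ℤ) (i : ℕ) : fp t ∣ (-cu t 11) ^ (2 * i) - 1 := by
  have h1 := c_sq (cu12 t)
  have h2 : (-cu t 11) ^ (2 * i) = (cu t 11 ^ 2) ^ i := by
    rw [pow_mul, neg_sq]
  rw [h2]
  exact h1.trans (sub_one_dvd_pow_sub_one _ _)
where
  sub_one_dvd_pow_sub_one (x : ℤ) (n : ℕ) : x - 1 ∣ x ^ n - 1 := by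
    have := sub_dvd_pow_sub_pow x 1 n
    rwa [one_pow] at this

theorem cu_mod24 (t : ℤ) (j : ℕ) : fp t ∣ cu t (24 * j) ∧ fp t ∣ cu t (24 * j + 1) - 1 := by
  have e : 24 * j = 12 * (2 * j) := by ring
  obtain ⟨h1, h2⟩ := cu_mod t (2 * j)
  rw [e]
  refine ⟨h1, ?_⟩
  have h3 := dvd_add h2 (c_pow t j)
  have e2 : cu t (12 * (2 * j) + 1) - (-cu t 11) ^ (2 * j) + ((-cu t 11) ^ (2 * j) - 1) =
      cu t (12 * (2 * j) + 1) - 1 := by ring
  rwa [e2] at h3

/-- the two scaling factors -/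
def ca (t : ℤ) (j : ℕ) : ℤ := cu t (24 * j + 1) - cu t (24 * j)

def cb (t : ℤ) (j : ℕ) : ℤ := cu t (24 * j + 1) + cu t (24 * j)

theorem ca_mul_cb (t : ℤ) (j : ℕ) : ca t j * cb t j = cu t (48 * j + 1) := by
  have h1 := cu_add t (24 * j) (24 * j)
  have e : 24 * j + 24 * j + 1 = 48 * j + 1 := by ring
  rw [e] at h1
  rw [h1]
  unfold ca cb
  ring

theorem ca_cb_coprime (t : ℤ) (j : ℕ) : IsCoprime (ca t j) (cb t j) := by
  obtain ⟨h1, h2⟩ := cu_mod24 t j
  have h3 : (2 : ℤ) ∣ ca t j - 1 := by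
    have : ca t j - 1 = (cu t (24 * j + 1) - 1) - cu t (24 * j) := by unfold ca; ring
    rw [this]
    exact (fp_even t).trans (dvd_sub h2 h1)
  obtain ⟨k, hk⟩ := h3
  have h4 := cu_norm t (24 * j)
  have h5 : (2 + t) * ca t j ^ 2 + (2 - t) * cb t j ^ 2 = 4 := by
    unfold ca cb
    linear_combination 4 * h4
  have h6 : ca t j = 1 + 2 * k := by linarith
  refine ⟨ca t j - (k ^ 2 + k) * (2 + t) * ca t j, -(k ^ 2 + k) * (2 - t) * cb t j, ?_⟩
  have h7 : ca t j ^ 2 - 4 * (k ^ 2 + k) = 1 := by rw [h6]; ring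
  linear_combination h7 - (k ^ 2 + k) * h5

theorem cu_succ_lt {t : ℤ} (ht : 3 ≤ t) (n : ℕ) : cu t n < cu t (n + 1) := by
  induction n with
  | zero => simp [cu]
  | succ n ih =>
      have h1 := (cu_ge ht n).1
      have e1 : cu t (n + 1 + 1) = t * cu t (n + 1) - cu t n := rfl
      rw [e1]
      nlinarith

/-- the data of the family -/
theorem dat {t : ℤ} (ht : 16 ≤ t) {e : ℝ} (he : e ^ 2 - t * e + 1 = 0) (hlt : (t : ℝ) - e < e)
    {f : ℕ} (hf : fp t = f) {j : ℕ} (hj : 1 ≤ j) :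
    Dat t e f (ca t j) (cb t j) (cu t (48 * j)) (e ^ (24 * j)) ((t - e) ^ (48 * j + 1)) := by
  have htr : (16 : ℝ) ≤ t := by exact_mod_cast ht
  have hee : e * (t - e) = 1 := by linear_combination -he
  obtain ⟨k1, k2, k3, k4, k5, k6⟩ := reg_aux htr (by ring) hee rfl hlt
  have he0 : 0 < e := by linarith
  have he' : ((t : ℝ) - e) ^ 2 - t * (t - e) + 1 = 0 := by linear_combination he
  obtain ⟨h1, h2⟩ := cu_mod24 t j
  obtain ⟨h3, h4⟩ := cu_mod24 t (2 * j)
  rw [hf] at h1 h2 h3 h4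
  have e48 : 24 * (2 * j) = 48 * j := by ring
  rw [e48] at h3 h4
  have hn := cu_norm t (48 * j)
  rw [← ca_mul_cb] at hn
  have hd : ∀ n, (e - (t - e)) * cu t n = e ^ n - (t - e) ^ n := by
    intro n
    rcases n with _ | n
    · simp [cu]
    · rw [cu_pow he, cu_pow he']
      ring
  have hpp : ∀ n : ℕ, e ^ n * (t - e) ^ n = 1 := by
    intro n
    rw [← mul_pow, hee, one_pow]
  have hc0 : 0 ≤ cu t (24 * j) := (cu_ge (by omega : (3 : ℤ) ≤ t) (24 * j)).1
  have hc1 := cu_succ_lt (by omega : (3 : ℤ) ≤ t) (24 * j)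
  refine ⟨?_, ?_, ?_, ?_, ?_, h3, by positivity, by positivity, ?_, ?_, ?_, ?_, ?_⟩
  · unfold ca
    omega
  · unfold cb
    omega
  · linear_combination hn
  · have : ca t j - 1 = (cu t (24 * j + 1) - 1) - cu t (24 * j) := by unfold ca; ring
    rw [this]
    exact dvd_sub h2 h1
  · have : cb t j - 1 = (cu t (24 * j + 1) - 1) + cu t (24 * j) := by unfold cb; ring
    rw [this]
    exact dvd_add h2 h1
  · calc ((t : ℝ) - e) ^ (48 * j + 1) ≤ (t - e) ^ 1 :=
          pow_le_pow_of_le_one k1.le (by linarith) (by omega)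
      _ = t - e := pow_one _
  · have : (e ^ (24 * j)) ^ 2 * e * ((t : ℝ) - e) ^ (48 * j + 1) =
        e ^ (48 * j + 1) * (t - e) ^ (48 * j + 1) := by ring
    rw [this, hpp]
  · unfold ca
    push_cast
    have e1 := hd (24 * j + 1)
    have e2 := hd (24 * j)
    have e3 : (e - 1) * e ^ (24 * j) * (1 + ((t : ℝ) - e) ^ (48 * j + 1)) =
        (e - 1) * e ^ (24 * j) + (e - 1) * (t - e) ^ (24 * j + 1) * (e ^ (24 * j) *
          (t - e) ^ (24 * j)) := by ring
    rw [e3, hpp]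
    have e4 : (e - 1) * ((t : ℝ) - e) ^ (24 * j + 1) = (t - e) ^ (24 * j) -
        (t - e) ^ (24 * j + 1) := by
      have : (e - 1) * ((t : ℝ) - e) ^ (24 * j + 1) = (t - e) ^ (24 * j) * (e * (t - e)) -
        (t - e) ^ (24 * j + 1) := by ring
      rw [this, hee, mul_one]
    rw [mul_one, e4]
    linear_combination e1 - e2
  · unfold cb
    push_cast
    have e1 := hd (24 * j + 1)
    have e2 := hd (24 * j)
    have e3 : (e + 1) * e ^ (24 * j) * (1 - ((t : ℝ) - e) ^ (48 * j + 1)) =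
        (e + 1) * e ^ (24 * j) - (e + 1) * (t - e) ^ (24 * j + 1) * (e ^ (24 * j) *
          (t - e) ^ (24 * j)) := by ring
    rw [e3, hpp]
    have e4 : (e + 1) * ((t : ℝ) - e) ^ (24 * j + 1) = (t - e) ^ (24 * j) +
        (t - e) ^ (24 * j + 1) := by
      have : (e + 1) * ((t : ℝ) - e) ^ (24 * j + 1) = (t - e) ^ (24 * j) * (e * (t - e)) +
        (t - e) ^ (24 * j + 1) := by ring
      rw [this, hee, mul_one]
    rw [mul_one, e4]
    linear_combination e1 + e2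
  · have e1 : ((ca t j : ℝ) * cb t j) = cu t (48 * j + 1) := by exact_mod_cast ca_mul_cb t j
    rw [e1]
    have e2 := cu_pow he (48 * j)
    rw [← e2, mul_comm, hpp]

end Pool.Agent.BCF
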