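import Mathlib

/-!
# Counting coprime pairs in a box, with and without a congruence
-/

namespace Pool.Agent.BCF

open Finset

theorem sum_odd_sq (N : ℕ) :
    ∑ j ∈ Finset.Ioc 0 N, (1 : ℝ) / (2 * (j : ℝ) + 1) ^ 2 ≤
      1 / 4 - 1 / (4 * ((N : ℝ) + 1)) := by
  induction N with
  | zero => simp
  | succ n ih =>
      rw [← Finset.insert_Ioc_right_eq_Ioc_add_one (Nat.zero_le n), Finset.sum_insert (by simp)]
      have h1 : (1 : ℝ) / (2 * ((n + 1 : ℕ) : ℝ) + 1) ^ 2 ≤
          1 / (4 * ((n : ℝ) + 1)) - 1 / (4 * ((n : ℝ) + 2)) := by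
        have h2 : (1 : ℝ) / (4 * ((n : ℝ) + 1)) - 1 / (4 * ((n : ℝ) + 2)) =
            1 / (4 * ((n : ℝ) + 1) * (n + 2)) := by
          field_simp
          ring
        rw [h2]
        apply one_div_le_one_div_of_le (by positivity)
        push_cast
        nlinarith
      push_cast at h1 ih ⊢
      have e : (n : ℝ) + 1 + 1 = n + 2 := by ring
      rw [e]
      linarith

/-- at least half of the pairs in the box are coprime -/
theorem coprime_pairs (f : ℕ) : (f : ℝ) ^ 2 / 2 ≤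
    ((((Ioc 0 f) ×ˢ (Ioc 0 f)).filter fun p : ℕ × ℕ => p.1.Coprime p.2).card : ℝ) := by
  classical
  set box := (Ioc 0 f) ×ˢ (Ioc 0 f) with hbox
  have hcardbox : box.card = f * f := by
    rw [hbox, Finset.card_product, Nat.card_Ioc, Nat.sub_zero]
  have hsplit := Finset.card_filter_add_card_filter_not (s := box)
    (fun p : ℕ × ℕ => p.1.Coprime p.2)
  set M : ℕ → Finset (ℕ × ℕ) := fun d => ((Ioc 0 f).filter (d ∣ ·)) ×ˢ ((Ioc 0 f).filter (d ∣ ·))
    with hM
  have hMcard : ∀ d, (M d).card = (f / d) * (f / d) := by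
    intro d
    simp only [hM]
    rw [Finset.card_product, Nat.Ioc_filter_dvd_card_eq_div]
  have hsub : (box.filter fun p : ℕ × ℕ => ¬ p.1.Coprime p.2) ⊆
      M 2 ∪ (Ioc 0 f).biUnion fun j => M (2 * j + 1) := by
    intro p hp
    rw [Finset.mem_filter, hbox, Finset.mem_product] at hp
    obtain ⟨⟨h1, h2⟩, h3⟩ := hp
    obtain ⟨q, hq, hq1, hq2⟩ := Nat.Prime.not_coprime_iff_dvd.1 h3
    rw [Finset.mem_union]
    rcases hq.eq_two_or_odd' with rfl | hodd
    · left
      simp only [hM, Finset.mem_product, Finset.mem_filter]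
      exact ⟨⟨h1, hq1⟩, ⟨h2, hq2⟩⟩
    · right
      obtain ⟨j, rfl⟩ := hodd
      rw [Finset.mem_biUnion]
      refine ⟨j, ?_, ?_⟩
      · have h4 := Nat.le_of_dvd (Finset.mem_Ioc.1 h1).1 hq1
        have h5 := (Finset.mem_Ioc.1 h1).2
        have h6 : j ≠ 0 := by
          rintro rfl
          exact hq.one_lt.ne' (by norm_num)
        rw [Finset.mem_Ioc]
        omega
      · simp only [hM, Finset.mem_product, Finset.mem_filter]
        exact ⟨⟨h1, hq1⟩, ⟨h2, hq2⟩⟩
  have hle := Finset.card_le_card hsub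
  have hle2 := hle.trans ((Finset.card_union_le _ _).trans
    (Nat.add_le_add_left Finset.card_biUnion_le _))
  have hdiv : ∀ d : ℕ, 0 < d → (((f / d : ℕ) * (f / d : ℕ) : ℕ) : ℝ) ≤ (f : ℝ) ^ 2 * (1 / d ^ 2) := by
    intro d hd
    have h1 : ((f / d : ℕ) : ℝ) ≤ f / d := Nat.cast_div_le
    push_cast
    calc ((f / d : ℕ) : ℝ) * ((f / d : ℕ) : ℝ) ≤ (f / d) * (f / d) := by gcongr
      _ = (f : ℝ) ^ 2 * (1 / d ^ 2) := by ring
  have hle3 : (((box.filter fun p : ℕ × ℕ => ¬ p.1.Coprime p.2).card : ℕ) : ℝ) ≤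
      (f : ℝ) ^ 2 / 2 := by
    have h1 : (((box.filter fun p : ℕ × ℕ => ¬ p.1.Coprime p.2).card : ℕ) : ℝ) ≤
        ((M 2).card : ℝ) + ∑ j ∈ Ioc 0 f, ((M (2 * j + 1)).card : ℝ) := by exact_mod_cast hle2
    refine h1.trans ?_
    have h2 : ((M 2).card : ℝ) ≤ (f : ℝ) ^ 2 * (1 / 4) := by
      rw [hMcard]
      refine (hdiv 2 (by norm_num)).trans (le_of_eq ?_)
      norm_num
    have h3 : ∑ j ∈ Ioc 0 f, ((M (2 * j + 1)).card : ℝ) ≤ (f : ℝ) ^ 2 * (1 / 4) := by
      calc ∑ j ∈ Ioc 0 f, ((M (2 * j + 1)).card : ℝ)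
          ≤ ∑ j ∈ Ioc 0 f, (f : ℝ) ^ 2 * (1 / (2 * (j : ℝ) + 1) ^ 2) := by
            apply Finset.sum_le_sum
            intro j _
            rw [hMcard]
            refine (hdiv (2 * j + 1) (by omega)).trans (le_of_eq ?_)
            push_cast
            ring
        _ = (f : ℝ) ^ 2 * ∑ j ∈ Ioc 0 f, (1 / (2 * (j : ℝ) + 1) ^ 2) := by
            rw [Finset.mul_sum]
        _ ≤ (f : ℝ) ^ 2 * (1 / 4) := by
            apply mul_le_mul_of_nonneg_left _ (by positivity)
            refine (sum_odd_sq f).trans ?_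
            have : (0 : ℝ) ≤ 1 / (4 * (f + 1)) := by positivity
            linarith
    linarith
  have hsum : (((box.filter fun p : ℕ × ℕ => p.1.Coprime p.2).card : ℕ) : ℝ) +
      (((box.filter fun p : ℕ × ℕ => ¬ p.1.Coprime p.2).card : ℕ) : ℝ) = (f : ℝ) * f := by
    have : (box.filter fun p : ℕ × ℕ => p.1.Coprime p.2).card +
      (box.filter fun p : ℕ × ℕ => ¬ p.1.Coprime p.2).card = f * f := by
      rw [hsplit, hcardbox]
    exact_mod_cast this
  nlinarith

/-- the coprime pairs on a line modulo `h` through a primitive vector -/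
theorem line_pairs {g h : ℕ} (hh : 0 < h) {x y : ℤ} (hxy : IsCoprime x y) :
    (((Ioc 0 (g * h)) ×ˢ (Ioc 0 (g * h))).filter fun p : ℕ × ℕ =>
      p.1.Coprime p.2 ∧ (h : ℤ) ∣ p.1 * x + p.2 * y).card ≤ g * g * h.totient := by
  classical
  have : NeZero h := ⟨hh.ne'⟩
  obtain ⟨p, q, hpq⟩ := hxy
  have hpq' : (p : ZMod h) * x + q * y = 1 := by
    have := congrArg (Int.cast : ℤ → ZMod h) hpq
    push_cast at this
    exact this
  set lam : ℕ × ℕ → ZMod h := fun c => q * c.1 - p * c.2 with hlam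
  set F : ℕ × ℕ → (ℕ × ℕ) × (ZMod h)ˣ := fun c =>
    (((c.1 - 1) / h, (c.2 - 1) / h), if hu : IsUnit (lam c) then hu.unit else 1) with hF
  set S := ((Ioc 0 (g * h)) ×ˢ (Ioc 0 (g * h))).filter fun p : ℕ × ℕ =>
      p.1.Coprime p.2 ∧ (h : ℤ) ∣ p.1 * x + p.2 * y with hS
  have hrel : ∀ c ∈ S, (c.1 : ZMod h) = y * lam c ∧ (c.2 : ZMod h) = -(x * lam c) := by
    intro c hc
    rw [hS, Finset.mem_filter] at hc
    have h1 : ((c.1 * x + c.2 * y : ℤ) : ZMod h) = 0 := (ZMod.intCast_zmod_eq_zero_iff_dvd _ _).2 hc.2.2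
    push_cast at h1
    constructor
    · simp only [hlam]
      linear_combination (p : ZMod h) * h1 - (c.1 : ZMod h) * hpq'
    · simp only [hlam]
      linear_combination (q : ZMod h) * h1 - (c.2 : ZMod h) * hpq'
  have hunit : ∀ c ∈ S, IsUnit (lam c) := by
    intro c hc
    obtain ⟨h1, h2⟩ := hrel c hc
    rw [hS, Finset.mem_filter] at hc
    obtain ⟨u, v, huv⟩ := Nat.Coprime.isCoprime hc.2.1
    have h3 : (u : ZMod h) * c.1 + v * c.2 = 1 := by
      have := congrArg (Int.cast : ℤ → ZMod h) huv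
      push_cast at this
      exact this
    apply IsUnit.of_mul_eq_one ((u : ZMod h) * y - v * x)
    rw [← h3]
    linear_combination (-(u : ZMod h)) * h1 - (v : ZMod h) * h2
  have hmaps : ∀ c ∈ S, F c ∈ ((range g) ×ˢ (range g)) ×ˢ (Finset.univ : Finset (ZMod h)ˣ) := by
    intro c hc
    rw [hS, Finset.mem_filter, Finset.mem_product, Finset.mem_Ioc, Finset.mem_Ioc] at hc
    obtain ⟨⟨⟨h1, h2⟩, h3, h4⟩, -⟩ := hc
    rw [Finset.mem_product, Finset.mem_product]
    refine ⟨⟨?_, ?_⟩, Finset.mem_univ _⟩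
    · simp only [hF, Finset.mem_range]
      rw [Nat.div_lt_iff_lt_mul hh]
      omega
    · simp only [hF, Finset.mem_range]
      rw [Nat.div_lt_iff_lt_mul hh]
      omega
  have hinj : Set.InjOn F (S : Set (ℕ × ℕ)) := by
    intro c hc d hd hcd
    have hc' := hunit c hc
    have hd' := hunit d hd
    have e1 : (c.1 - 1) / h = (d.1 - 1) / h := congrArg (fun z => z.1.1) hcd
    have e2 : (c.2 - 1) / h = (d.2 - 1) / h := congrArg (fun z => z.1.2) hcd
    have e3 : lam c = lam d := by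
      have := congrArg (fun z => ((z.2 : (ZMod h)ˣ) : ZMod h)) hcd
      simp only [hF, dif_pos hc', dif_pos hd', IsUnit.unit_spec] at this
      exact this
    obtain ⟨h1, h2⟩ := hrel c hc
    obtain ⟨h3, h4⟩ := hrel d hd
    rw [hS, Finset.mem_coe, Finset.mem_filter, Finset.mem_product, Finset.mem_Ioc,
      Finset.mem_Ioc] at hc hd
    have key : ∀ a b : ℕ, 0 < a → 0 < b → (a : ZMod h) = b → (a - 1) / h = (b - 1) / h → a = b := by
      intro a b ha hb hab hdiv
      have h5 : a ≡ b [MOD h] := (ZMod.natCast_eq_natCast_iff _ _ _).1 hab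
      have h6 : (a - 1) ≡ (b - 1) [MOD h] := by
        apply Nat.ModEq.add_right_cancel' 1
        rw [Nat.sub_add_cancel ha, Nat.sub_add_cancel hb]
        exact h5
      have h7 := Nat.div_add_mod (a - 1) h
      have h8 := Nat.div_add_mod (b - 1) h
      rw [hdiv, show (a - 1) % h = (b - 1) % h from h6, h8] at h7
      omega
    apply Prod.ext
    · exact key _ _ hc.1.1.1 hd.1.1.1 (by rw [h1, h3, e3]) e1
    · exact key _ _ hc.1.2.1 hd.1.2.1 (by rw [h2, h4, e3]) e2
  have hcard := Finset.card_le_card_of_injOn F hmaps hinj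
  rw [Finset.card_product, Finset.card_product, Finset.card_range, Finset.card_univ,
    ZMod.card_units_eq_totient] at hcard
  exact hcard

end Pool.Agent.BCF
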