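import Mathlib

/-!
# Counting primitive vectors of small norm in the order `ℤ[e]`, `e² - t e + 1 = 0`
-/

namespace Pool.Agent.BCF

/-- the real value `x + y e` of the pair `(x, y)` -/
def rv (e : ℝ) (w : ℤ × ℤ) : ℝ := w.1 + w.2 * e

/-- the norm `x² + t x y + y²` of the pair `(x, y)` -/
def nf (t : ℤ) (w : ℤ × ℤ) : ℤ := w.1 ^ 2 + t * w.1 * w.2 + w.2 ^ 2

theorem rv_mul {t : ℤ} {e : ℝ} (he : e ^ 2 - t * e + 1 = 0) (w : ℤ × ℤ) :
    rv e w * rv (t - e) w = nf t w := by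
  unfold rv nf
  push_cast
  linear_combination (-(w.2 : ℝ) ^ 2) * he

/-- two primitive vectors with positive values that are proportional are equal -/
theorem eq_of_cross {e : ℝ} {v w : ℤ × ℤ} (hv : IsCoprime v.1 v.2) (hw : IsCoprime w.1 w.2)
    (hv0 : 0 < rv e v) (hw0 : 0 < rv e w) (h : v.1 * w.2 = w.1 * v.2) : v = w := by
  obtain ⟨a, b, hab⟩ := hv
  obtain ⟨c, d, hcd⟩ := hw
  set l : ℤ := a * w.1 + b * w.2 with hl
  set k : ℤ := c * v.1 + d * v.2 with hk
  have h1 : l * v.1 = w.1 := by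
    rw [hl]
    linear_combination b * h + w.1 * hab
  have h2 : l * v.2 = w.2 := by
    rw [hl]
    linear_combination (-a) * h + w.2 * hab
  have h3 : k * w.1 = v.1 := by
    rw [hk]
    linear_combination (-d) * h + v.1 * hcd
  have h4 : k * w.2 = v.2 := by
    rw [hk]
    linear_combination c * h + v.2 * hcd
  have h5 : l * k = 1 := by
    have e1 : l * k * w.1 = w.1 := by rw [mul_assoc, h3, h1]
    have e2 : l * k * w.2 = w.2 := by rw [mul_assoc, h4, h2]
    linear_combination c * e1 + d * e2 + (1 - l * k) * hcd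
  have h6 : rv e w = l * rv e v := by
    unfold rv
    rw [← h1, ← h2]
    push_cast
    ring
  have h7 : (0 : ℝ) < l := by
    by_contra hcon
    push Not at hcon
    have := mul_nonpos_of_nonpos_of_nonneg hcon hv0.le
    linarith
  have h8 : 0 < l := by exact_mod_cast h7
  have h9 : l = 1 := by
    rcases Int.eq_one_or_neg_one_of_mul_eq_one h5 with h | h
    · exact h
    · omega
  rw [h9, one_mul] at h1 h2
  exact Prod.ext h1 h2

theorem window {t : ℤ} {e : ℝ} (he : e ^ 2 - t * e + 1 = 0) (hlt : (t : ℝ) - e < e) {α Y : ℝ}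
    (hα : 0 < α) (hY : 0 ≤ Y) (W : Finset (ℤ × ℤ)) (hW : ∀ w ∈ W, IsCoprime w.1 w.2 ∧
      α ≤ rv e w ∧ rv e w < 2 * α ∧ |(nf t w : ℝ)| < Y) :
    (W.card : ℝ) ≤ 8 * Y / (e - (t - e)) + 1 := by
  set d : ℝ := e - (t - e) with hd
  have hd0 : 0 < d := by rw [hd]; linarith
  set κ : ℤ × ℤ → ℝ := fun w => (rv (t - e) w / rv e w + Y / α ^ 2) * (4 * α ^ 2 / d) with hκ
  have hslope : ∀ w ∈ W, |rv (t - e) w / rv e w| < Y / α ^ 2 := by
    intro w hw
    obtain ⟨-, h1, h2, h3⟩ := hW w hw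
    have h0 : 0 < rv e w := hα.trans_le h1
    have h4 : rv (t - e) w / rv e w = nf t w / rv e w ^ 2 := by
      rw [← rv_mul he w]
      field_simp
    rw [h4, abs_div, abs_of_pos (by positivity : 0 < rv e w ^ 2)]
    have h5 : α ^ 2 ≤ rv e w ^ 2 := by gcongr
    rw [div_lt_div_iff₀ (by positivity) (by positivity)]
    calc |(nf t w : ℝ)| * α ^ 2 ≤ |(nf t w : ℝ)| * rv e w ^ 2 := by gcongr
      _ < Y * rv e w ^ 2 := by gcongr
  have hmem : ∀ w ∈ W, 0 < κ w ∧ κ w < 8 * Y / d := by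
    intro w hw
    obtain ⟨h1, h2⟩ := abs_lt.1 (hslope w hw)
    have h3 : 0 < 4 * α ^ 2 / d := by positivity
    constructor
    · apply mul_pos _ h3
      linarith
    · have : κ w < (Y / α ^ 2 + Y / α ^ 2) * (4 * α ^ 2 / d) := by
        apply mul_lt_mul_of_pos_right _ h3
        linarith
      refine this.trans_le (le_of_eq ?_)
      field_simp
      ring
  have hinj : Set.InjOn (fun w => ⌊κ w⌋₊) (W : Set (ℤ × ℤ)) := by
    intro v hv w hw hvw
    have hv' := hW v hv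
    have hw' := hW w hw
    have hv0 : 0 < rv e v := hα.trans_le hv'.2.1
    have hw0 : 0 < rv e w := hα.trans_le hw'.2.1
    by_contra hne
    have hcr : v.1 * w.2 - w.1 * v.2 ≠ 0 := by
      intro h0
      exact hne (eq_of_cross hv'.1 hw'.1 hv0 hw0 (by linarith))
    have h1 : (1 : ℝ) ≤ |((v.1 * w.2 - w.1 * v.2 : ℤ) : ℝ)| := by
      rw [← Int.cast_abs]
      exact_mod_cast Int.one_le_abs hcr
    have h2 : rv (t - e) v / rv e v - rv (t - e) w / rv e w =
        ((v.1 * w.2 - w.1 * v.2 : ℤ) : ℝ) * d / (rv e v * rv e w) := by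
      rw [div_sub_div _ _ hv0.ne' hw0.ne']
      congr 1
      rw [hd]
      unfold rv
      push_cast
      ring
    have h3 : 1 < |κ v - κ w| := by
      have e1 : κ v - κ w = (((v.1 * w.2 - w.1 * v.2 : ℤ) : ℝ) * d / (rv e v * rv e w)) *
          (4 * α ^ 2 / d) := by
        rw [← h2]
        simp only [hκ]
        ring
      have e2 : κ v - κ w = ((v.1 * w.2 - w.1 * v.2 : ℤ) : ℝ) * (4 * α ^ 2 /
          (rv e v * rv e w)) := by
        rw [e1]
        field_simp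
      rw [e2, abs_mul, abs_of_pos (a := 4 * α ^ 2 / (rv e v * rv e w)) (by positivity)]
      have e3 : 1 < 4 * α ^ 2 / (rv e v * rv e w) := by
        rw [one_lt_div (by positivity)]
        have := mul_lt_mul'' hv'.2.2.1 hw'.2.2.1 hv0.le hw0.le
        linarith
      calc (1 : ℝ) < 4 * α ^ 2 / (rv e v * rv e w) := e3
        _ ≤ |((v.1 * w.2 - w.1 * v.2 : ℤ) : ℝ)| * (4 * α ^ 2 / (rv e v * rv e w)) :=
          le_mul_of_one_le_left (by positivity) h1
    have a1 := Nat.floor_le (hmem v hv).1.le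
    have a2 := Nat.lt_floor_add_one (κ v)
    have a3 := Nat.floor_le (hmem w hw).1.le
    have a4 := Nat.lt_floor_add_one (κ w)
    have hvw' : ⌊κ v⌋₊ = ⌊κ w⌋₊ := hvw
    rw [hvw'] at a1 a2
    have h4 : |κ v - κ w| < 1 := by
      rw [abs_lt]
      constructor <;> linarith
    linarith
  have hmaps : ∀ w ∈ W, ⌊κ w⌋₊ ∈ Finset.range (⌊8 * Y / d⌋₊ + 1) := by
    intro w hw
    rw [Finset.mem_range, Nat.lt_succ_iff]
    exact Nat.floor_mono (hmem w hw).2.le
  have hcard := Finset.card_le_card_of_injOn _ hmaps hinj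
  rw [Finset.card_range] at hcard
  have h1 : (⌊8 * Y / d⌋₊ : ℝ) ≤ 8 * Y / d := Nat.floor_le (by positivity)
  have h2 : (W.card : ℝ) ≤ (⌊8 * Y / d⌋₊ + 1 : ℕ) := by exact_mod_cast hcard
  push_cast at h2
  linarith

theorem windows {t : ℤ} {e : ℝ} (he : e ^ 2 - t * e + 1 = 0) (hlt : (t : ℝ) - e < e) {Y : ℝ}
    (hY : 0 ≤ Y) (L : ℕ) (W : Finset (ℤ × ℤ)) (hW : ∀ w ∈ W, IsCoprime w.1 w.2 ∧
      1 ≤ rv e w ∧ rv e w < 2 ^ L ∧ |(nf t w : ℝ)| < Y) :
    (W.card : ℝ) ≤ L * (8 * Y / (e - (t - e)) + 1) := by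
  classical
  have hsub : W ⊆ (Finset.range L).biUnion fun i =>
      W.filter fun w => (2 : ℝ) ^ i ≤ rv e w ∧ rv e w < 2 * 2 ^ i := by
    intro w hw
    obtain ⟨-, h1, h2, -⟩ := hW w hw
    obtain ⟨i, hi1, hi2⟩ := exists_nat_pow_near h1 (one_lt_two : (1 : ℝ) < 2)
    rw [Finset.mem_biUnion]
    refine ⟨i, ?_, ?_⟩
    · rw [Finset.mem_range]
      have h3 : (2 : ℝ) ^ i < 2 ^ L := hi1.trans_lt h2
      exact (pow_lt_pow_iff_right₀ one_lt_two).1 h3
    · rw [Finset.mem_filter]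
      refine ⟨hw, hi1, ?_⟩
      rw [pow_succ'] at hi2
      exact hi2
  have h1 := (Finset.card_le_card hsub).trans Finset.card_biUnion_le
  have h2 : (W.card : ℝ) ≤ ∑ i ∈ Finset.range L,
      ((W.filter fun w => (2 : ℝ) ^ i ≤ rv e w ∧ rv e w < 2 * 2 ^ i).card : ℝ) := by
    exact_mod_cast h1
  refine h2.trans ?_
  have h3 : ∀ i ∈ Finset.range L,
      ((W.filter fun w => (2 : ℝ) ^ i ≤ rv e w ∧ rv e w < 2 * 2 ^ i).card : ℝ) ≤
        8 * Y / (e - (t - e)) + 1 := by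
    intro i _
    apply window he hlt (α := 2 ^ i) (by positivity) hY
    intro w hw
    rw [Finset.mem_filter] at hw
    have := hW w hw.1
    exact ⟨this.1, hw.2.1, hw.2.2, this.2.2.2⟩
  refine (Finset.sum_le_sum h3).trans ?_
  rw [Finset.sum_const, Finset.card_range, nsmul_eq_mul]

end Pool.Agent.BCF
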