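import Pool.Agent.Work.MP_612dae_nt.LogCF
import Pool.Agent.Work.MP_612dae_nt.LogWindow
import Pool.Agent.Work.MP_612dae_nt.LogPairs

/-!
# The union bound over the sublattices of index `f`
-/

namespace Pool.Agent.BCF

open Finset

theorem nf_ne {t : ℤ} (ht : 3 ≤ t) {w : ℤ × ℤ} (hw : IsCoprime w.1 w.2) : nf t w ≠ 0 := by
  intro h0
  unfold nf at h0
  have h1 : w.1 ∣ w.2 ^ 2 := ⟨-(w.1 + t * w.2), by linear_combination h0⟩
  have h2 : w.2 ∣ w.1 ^ 2 := ⟨-(w.2 + t * w.1), by linear_combination h0⟩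
  have h3 : IsUnit w.1 := (hw.pow_right (n := 2)).isUnit_of_dvd' dvd_rfl h1
  have h4 : IsUnit w.2 := (hw.pow_left (m := 2)).isUnit_of_dvd' h2 dvd_rfl
  rcases Int.isUnit_iff.1 h3 with h5 | h5 <;> rcases Int.isUnit_iff.1 h4 with h6 | h6 <;>
    rw [h5, h6] at h0 <;> omega

theorem scale {P : ℤ × ℤ → Prop} {e η : ℝ} (hη : 1 < η) (T T' : ℤ × ℤ → ℤ × ℤ)
    (hT : ∀ w, P w → P (T w)) (hT' : ∀ w, P w → P (T' w))
    (hr : ∀ w, rv e (T w) = η * rv e w) (hr' : ∀ w, η * rv e (T' w) = rv e w)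
    {w : ℤ × ℤ} (hw : P w) (h0 : 0 < rv e w) : ∃ w', P w' ∧ 1 ≤ rv e w' ∧ rv e w' < η := by
  have hη0 : 0 < η := by linarith
  have up : ∀ k : ℕ, P (T^[k] w) ∧ rv e (T^[k] w) = η ^ k * rv e w := by
    intro k
    induction k with
    | zero => exact ⟨hw, by simp⟩
    | succ k ih =>
        rw [Function.iterate_succ_apply']
        refine ⟨hT _ ih.1, ?_⟩
        rw [hr, ih.2]
        ring
  have down : ∀ k : ℕ, P (T'^[k] w) ∧ η ^ k * rv e (T'^[k] w) = rv e w := by
    intro k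
    induction k with
    | zero => exact ⟨hw, by simp⟩
    | succ k ih =>
        rw [Function.iterate_succ_apply']
        refine ⟨hT' _ ih.1, ?_⟩
        rw [pow_succ, mul_assoc, hr', ih.2]
  obtain ⟨n, hn1, hn2⟩ := exists_mem_Ico_zpow h0 hη
  rcases n with k | k
  · obtain ⟨h1, h2⟩ := down k
    refine ⟨_, h1, ?_, ?_⟩
    · rw [Int.ofNat_eq_natCast, zpow_natCast] at hn1
      by_contra hcon
      push Not at hcon
      have : η ^ k * rv e (T'^[k] w) < η ^ k * 1 := mul_lt_mul_of_pos_left hcon (by positivity)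
      linarith
    · have hn3 : rv e w < η ^ (k + 1) := by
        have : ((Int.ofNat k) + 1 : ℤ) = ((k + 1 : ℕ) : ℤ) := by simp
        rw [this, zpow_natCast] at hn2
        exact hn2
      rw [pow_succ, ← h2] at hn3
      exact lt_of_mul_lt_mul_left hn3 (by positivity)
  · obtain ⟨h1, h2⟩ := up (k + 1)
    refine ⟨_, h1, ?_, ?_⟩
    · rw [h2]
      have : (η ^ (k + 1))⁻¹ ≤ rv e w := by
        rwa [← zpow_negSucc]
      rwa [inv_le_iff_one_le_mul₀' (by positivity)] at this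
    · rw [h2]
      have hn3 : rv e w < (η ^ k)⁻¹ := by
        have : (Int.negSucc k + 1 : ℤ) = -(k : ℤ) := by
          rw [Int.negSucc_eq]; ring
        rw [this, zpow_neg, zpow_natCast] at hn2
        exact hn2
      have h4 : η ^ k * rv e w < 1 := by
        calc η ^ k * rv e w < η ^ k * (η ^ k)⁻¹ := mul_lt_mul_of_pos_left hn3 (by positivity)
          _ = 1 := mul_inv_cancel₀ (by positivity)
      calc η ^ (k + 1) * rv e w = η * (η ^ k * rv e w) := by ring
        _ < η * 1 := mul_lt_mul_of_pos_left h4 hη0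
        _ = η := mul_one η

/-- the primitive vectors of norm below `Y` in the fundamental domain -/
noncomputable def wset (t : ℤ) (e Y : ℝ) (L M : ℕ) : Finset (ℤ × ℤ) := by
  classical
  exact ((Finset.Icc (-(M : ℤ)) M) ×ˢ (Finset.Icc (-(M : ℤ)) M)).filter fun w =>
    IsCoprime w.1 w.2 ∧ 1 ≤ rv e w ∧ rv e w < 2 ^ L ∧ |(nf t w : ℝ)| < Y

/-- a pair `(a, b)` is bad if its sublattice has a vector of norm below `μ` -/
theorem exists_bad_vector {t : ℤ} (ht : 3 ≤ t) {e : ℝ} (he : e ^ 2 - t * e + 1 = 0)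
    (hlt : (t : ℝ) - e < e) (he1 : 1 < e) {f : ℕ} {c : ℤ} (hf : 0 < f)
    (hc : c ^ 2 - t * c * f + f ^ 2 = 1)
    (hη : 1 < f * e - c) {L : ℕ} (hL : f * e - c ≤ 2 ^ L) {μ : ℝ} {M : ℕ}
    (hM : 2 ^ L + (2 ^ L + μ) * e ≤ M) {a b : ℤ} {v : ℤ × ℤ} (hv : v ≠ 0)
    (hfv : (f : ℤ) ∣ a * v.1 + b * v.2) (hvμ : |(nf t v : ℝ)| < μ) :
    ∃ g ∈ f.divisors, (g : ℝ) ^ 2 < μ ∧ ∃ w ∈ wset t e (μ / g ^ 2) L M,
      ((f / g : ℕ) : ℤ) ∣ a * w.1 + b * w.2 := by
  classical
  -- the primitive vector on the line of `v`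
  have hn0 : Int.gcd v.1 v.2 ≠ 0 := by
    intro h0
    rw [Int.gcd_eq_zero_iff] at h0
    exact hv (Prod.ext h0.1 h0.2)
  set n : ℕ := Int.gcd v.1 v.2 with hn
  have hnpos : 0 < n := Nat.pos_of_ne_zero hn0
  obtain ⟨w1, hw1⟩ : (n : ℤ) ∣ v.1 := Int.gcd_dvd_left ..
  obtain ⟨w2, hw2⟩ : (n : ℤ) ∣ v.2 := Int.gcd_dvd_right ..
  have hcop : IsCoprime w1 w2 := by
    have h1 := Int.gcd_eq_gcd_ab v.1 v.2
    rw [← hn] at h1
    refine ⟨v.1.gcdA v.2, v.1.gcdB v.2, ?_⟩
    have h2 : (n : ℤ) * (v.1.gcdA v.2 * w1 + v.1.gcdB v.2 * w2) = n * 1 := by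
      rw [mul_one]
      conv_rhs => rw [h1]
      linear_combination (-(v.1.gcdA v.2)) * hw1 - (v.1.gcdB v.2) * hw2
    exact mul_left_cancel₀ (by exact_mod_cast hn0) h2
  set g : ℕ := Nat.gcd n f with hg
  have hgf : g ∣ f := Nat.gcd_dvd_right _ _
  have hgn : g ∣ n := Nat.gcd_dvd_left _ _
  have hgpos : 0 < g := Nat.pos_of_dvd_of_pos hgf hf
  have hgle : g ≤ n := Nat.le_of_dvd hnpos hgn
  have hline : ((f / g : ℕ) : ℤ) ∣ a * w1 + b * w2 := by
    have h1 : (f : ℤ) ∣ n * (a * w1 + b * w2) := by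
      have : (n : ℤ) * (a * w1 + b * w2) = a * v.1 + b * v.2 := by
        rw [hw1, hw2]
        ring
      rw [this]
      exact hfv
    obtain ⟨f', hf'⟩ := hgf
    obtain ⟨n', hn'⟩ := hgn
    have h2 : f / g = f' := by
      rw [hf']
      exact Nat.mul_div_cancel_left f' hgpos
    have hcp : Nat.Coprime n' f' := by
      have h3 := Nat.coprime_div_gcd_div_gcd (m := n) (n := f) (by rw [← hg]; exact hgpos)
      rw [← hg, h2] at h3
      have h4 : n / g = n' := by
        rw [hn']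
        exact Nat.mul_div_cancel_left n' hgpos
      rwa [h4] at h3
    rw [h2]
    have h5 : (f' : ℤ) ∣ n' * (a * w1 + b * w2) := by
      have h6 : (g : ℤ) * f' ∣ g * (n' * (a * w1 + b * w2)) := by
        have e1 : ((g : ℤ) * f') = f := by exact_mod_cast hf'.symm
        have e2 : (g : ℤ) * (n' * (a * w1 + b * w2)) = n * (a * w1 + b * w2) := by
          have : (n : ℤ) = g * n' := by exact_mod_cast hn'
          rw [this]
          ring
        rw [e1, e2]
        exact h1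
      exact (mul_dvd_mul_iff_left (by exact_mod_cast hgpos.ne')).1 h6
    have h7 : IsCoprime (f' : ℤ) (n' : ℤ) := (Nat.Coprime.isCoprime hcp).symm
    exact h7.dvd_of_dvd_mul_left h5
  have hnf : (nf t v : ℝ) = n ^ 2 * (nf t (w1, w2) : ℝ) := by
    unfold nf
    rw [hw1, hw2]
    push_cast
    ring
  have hgn' : (g : ℝ) ^ 2 ≤ (n : ℝ) ^ 2 := by
    have : (g : ℝ) ≤ n := by exact_mod_cast hgle
    gcongr
  have hgr : (0 : ℝ) < (g : ℝ) ^ 2 := by positivity
  have hsmall : |(nf t (w1, w2) : ℝ)| < μ / g ^ 2 := by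
    rw [lt_div_iff₀ hgr]
    rw [hnf, abs_mul, abs_of_nonneg (by positivity : (0 : ℝ) ≤ (n : ℝ) ^ 2)] at hvμ
    calc |(nf t (w1, w2) : ℝ)| * (g : ℝ) ^ 2 ≤ |(nf t (w1, w2) : ℝ)| * (n : ℝ) ^ 2 := by gcongr
      _ = (n : ℝ) ^ 2 * |(nf t (w1, w2) : ℝ)| := mul_comm _ _
      _ < μ := hvμ
  -- the invariant
  set P : ℤ × ℤ → Prop := fun w => IsCoprime w.1 w.2 ∧ ((f / g : ℕ) : ℤ) ∣ a * w.1 + b * w.2 ∧
    |(nf t w : ℝ)| < μ / g ^ 2 with hP
  have hdivf : ((f / g : ℕ) : ℤ) ∣ (f : ℤ) := by exact_mod_cast Nat.div_dvd_of_dvd hgf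
  have det : -c * (t * f - c) + (f : ℤ) * f = 1 := by linear_combination hc
  set T : ℤ × ℤ → ℤ × ℤ := fun w => (-c * w.1 - f * w.2, f * w.1 + (t * f - c) * w.2) with hT
  set T' : ℤ × ℤ → ℤ × ℤ := fun w => ((t * f - c) * w.1 + f * w.2, -(f * w.1) - c * w.2) with hT'
  have cop_of : ∀ x y p q r s : ℤ, p * s - q * r = 1 → IsCoprime x y →
      IsCoprime (p * x + q * y) (r * x + s * y) := by
    rintro x y p q r s hd ⟨u, v, huv⟩
    refine ⟨u * s - v * r, v * p - u * q, ?_⟩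
    linear_combination (p * s - q * r) * huv + hd
  have hTP : ∀ w, P w → P (T w) := by
    rintro w ⟨h1, h2, h3⟩
    refine ⟨?_, ?_, ?_⟩
    · have := cop_of w.1 w.2 (-c) (-f) f (t * f - c) (by linear_combination det) h1
      have e1 : -c * w.1 - f * w.2 = -c * w.1 + -(f : ℤ) * w.2 := by ring
      simp only [hT]
      rw [e1]
      exact this
    · simp only [hT]
      have e1 : a * (-c * w.1 - f * w.2) + b * (f * w.1 + (t * f - c) * w.2) =
          -c * (a * w.1 + b * w.2) + f * (-(a * w.2) + b * w.1 + b * t * w.2) := by ring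
      rw [e1]
      exact dvd_add (Dvd.dvd.mul_left h2 _) (Dvd.dvd.mul_right hdivf _)
    · have e1 : nf t (T w) = nf t w := by
        simp only [hT, nf]
        linear_combination (w.1 ^ 2 + t * w.1 * w.2 + w.2 ^ 2) * hc
      rw [e1]
      exact h3
  have hTP' : ∀ w, P w → P (T' w) := by
    rintro w ⟨h1, h2, h3⟩
    refine ⟨?_, ?_, ?_⟩
    · have := cop_of w.1 w.2 (t * f - c) f (-f) (-c) (by linear_combination det) h1
      have e1 : -(f * w.1) - c * w.2 = -(f : ℤ) * w.1 + -c * w.2 := by ring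
      simp only [hT']
      rw [e1]
      exact this
    · simp only [hT']
      have e1 : a * ((t * f - c) * w.1 + f * w.2) + b * (-(f * w.1) - c * w.2) =
          -c * (a * w.1 + b * w.2) + f * (a * t * w.1 + a * w.2 - b * w.1) := by ring
      rw [e1]
      exact dvd_add (Dvd.dvd.mul_left h2 _) (Dvd.dvd.mul_right hdivf _)
    · have e1 : nf t (T' w) = nf t w := by
        simp only [hT', nf]
        linear_combination (w.1 ^ 2 + t * w.1 * w.2 + w.2 ^ 2) * hc
      rw [e1]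
      exact h3
  have hr : ∀ w, rv e (T w) = (f * e - c) * rv e w := by
    intro w
    simp only [hT, rv]
    push_cast
    linear_combination (-(f : ℝ) * w.2) * he
  have hr' : ∀ w, (f * e - c) * rv e (T' w) = rv e w := by
    intro w
    have hcr : (c : ℝ) ^ 2 - t * c * f + (f : ℝ) ^ 2 = 1 := by exact_mod_cast hc
    simp only [hT', rv]
    push_cast
    linear_combination (-(f : ℝ) ^ 2 * w.1 - (f : ℝ) * c * w.2) * he + ((w.1 : ℝ) + w.2 * e) * hcr
  -- a positive starting vector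
  have hrv0 : ∀ w : ℤ × ℤ, IsCoprime w.1 w.2 → rv e w ≠ 0 := by
    intro w hw h0
    have h1 := rv_mul he w
    rw [h0, zero_mul] at h1
    have h2 : nf t w = 0 := by exact_mod_cast h1.symm
    exact nf_ne ht hw h2
  obtain ⟨w₀, hw₀, hpos⟩ : ∃ w, P w ∧ 0 < rv e w := by
    have hPw : P (w1, w2) := ⟨hcop, hline, hsmall⟩
    rcases lt_or_gt_of_ne (hrv0 (w1, w2) hcop) with h | h
    · refine ⟨(-w1, -w2), ⟨hcop.neg_neg, ?_, ?_⟩, ?_⟩
      · have : a * -w1 + b * -w2 = -(a * w1 + b * w2) := by ring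
        simp only
        rw [this]
        exact (dvd_neg).2 hline
      · have : nf t (-w1, -w2) = nf t (w1, w2) := by
          unfold nf
          ring
        rw [this]
        exact hsmall
      · have : rv e (-w1, -w2) = -rv e (w1, w2) := by
          unfold rv
          push_cast
          ring
        rw [this]
        linarith
    · exact ⟨_, hPw, h⟩
  obtain ⟨w, ⟨hw1', hw2', hw3'⟩, hge, hlt'⟩ := scale hη T T' hTP hTP' hr hr' hw₀ hpos
  have hnfw : (1 : ℝ) ≤ |(nf t w : ℝ)| := by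
    rw [← Int.cast_abs]
    exact_mod_cast Int.one_le_abs (nf_ne ht hw1')
  have hg2 : (g : ℝ) ^ 2 < μ := by
    have h1 : 1 < μ / (g : ℝ) ^ 2 := hnfw.trans_lt hw3'
    rwa [one_lt_div hgr] at h1
  refine ⟨g, Nat.mem_divisors.2 ⟨hgf, hf.ne'⟩, hg2, w, ?_, hw2'⟩
  unfold wset
  rw [Finset.mem_filter, Finset.mem_product, Finset.mem_Icc, Finset.mem_Icc]
  have hrvL : rv e w < 2 ^ L := hlt'.trans_le hL
  have hg1 : (1 : ℝ) ≤ (g : ℝ) ^ 2 := by
    have : (1 : ℝ) ≤ g := by exact_mod_cast hgpos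
    nlinarith
  have hμ0 : 0 < μ := by linarith
  have hY : μ / (g : ℝ) ^ 2 ≤ μ := div_le_self hμ0.le hg1
  have hrv' : |rv (t - e) w| < μ := by
    have h1 := rv_mul he w
    have h2 : |rv e w| * |rv (t - e) w| = |(nf t w : ℝ)| := by rw [← abs_mul, h1]
    have h3 : |rv (t - e) w| ≤ |rv e w| * |rv (t - e) w| := by
      apply le_mul_of_one_le_left (abs_nonneg _)
      rw [abs_of_pos (by linarith)]
      exact hge
    linarith
  have hd1 : 1 ≤ e - (t - e) := by
    have h1 : (e - (t - e)) ^ 2 = (t : ℝ) ^ 2 - 4 := by linear_combination 4 * he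
    have h2 : (3 : ℝ) ≤ t := by exact_mod_cast ht
    by_contra hcon
    push Not at hcon
    have h3 : 0 < e - (t - e) := by linarith
    nlinarith
  have hb2 : |(w.2 : ℝ)| ≤ 2 ^ L + μ := by
    have h1 : (w.2 : ℝ) * (e - (t - e)) = rv e w - rv (t - e) w := by
      unfold rv
      ring
    have h2 : |(w.2 : ℝ)| * (e - (t - e)) = |rv e w - rv (t - e) w| := by
      rw [← h1, abs_mul, abs_of_pos (by linarith : 0 < e - (t - e))]
    have h3 : |rv e w - rv (t - e) w| ≤ 2 ^ L + μ := by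
      refine (abs_sub _ _).trans ?_
      rw [abs_of_pos (by linarith : 0 < rv e w)]
      linarith
    calc |(w.2 : ℝ)| ≤ |(w.2 : ℝ)| * (e - (t - e)) := le_mul_of_one_le_right (abs_nonneg _) hd1
      _ ≤ 2 ^ L + μ := by rw [h2]; exact h3
  have hb1 : |(w.1 : ℝ)| ≤ 2 ^ L + (2 ^ L + μ) * e := by
    have h1 : (w.1 : ℝ) = rv e w - w.2 * e := by
      unfold rv
      ring
    rw [h1]
    refine (abs_sub _ _).trans ?_
    rw [abs_of_pos (by linarith : 0 < rv e w), abs_mul, abs_of_pos (by linarith : 0 < e)]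
    have : |(w.2 : ℝ)| * e ≤ (2 ^ L + μ) * e := by
      apply mul_le_mul_of_nonneg_right hb2 (by linarith)
    linarith
  have hpow : (0 : ℝ) < 2 ^ L := by positivity
  have hM2 : |(w.2 : ℝ)| ≤ M := by
    refine hb2.trans (le_trans ?_ hM)
    nlinarith
  have hM1 : |(w.1 : ℝ)| ≤ M := hb1.trans hM
  rw [abs_le] at hM1 hM2
  refine ⟨⟨⟨?_, ?_⟩, ⟨?_, ?_⟩⟩, hw1', hge, hrvL, hw3'⟩
  · exact_mod_cast hM1.1
  · exact_mod_cast hM1.2
  · exact_mod_cast hM2.1
  · exact_mod_cast hM2.2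

/-- **the union bound**: some sublattice of index `f` has no vector of norm below `f d / m` -/
theorem exists_good {t : ℤ} (ht : 3 ≤ t) {e : ℝ} (he : e ^ 2 - t * e + 1 = 0)
    (hlt : (t : ℝ) - e < e) (he1 : 1 < e) (het : e < t) {f : ℕ} {c : ℤ} (hf : 0 < f)
    (hc : c ^ 2 - t * c * f + f ^ 2 = 1)
    (hη : 1 < f * e - c) {L : ℕ} (hL : f * e - c ≤ 2 ^ L)
    (hcond : (L : ℝ) * √((f : ℝ) * t) * f.divisors.card < f / 4) :
    ∃ a b : ℕ, a.Coprime b ∧ ∀ v : ℤ × ℤ, v ≠ 0 → (f : ℤ) ∣ a * v.1 + b * v.2 →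
      f * (e - (t - e)) / (32 * L : ℕ) ≤ |(nf t v : ℝ)| := by
  classical
  have hL0 : 0 < L := by
    rcases Nat.eq_zero_or_pos L with h | h
    · rw [h, pow_zero] at hL
      linarith
    · exact h
  have hLr : (1 : ℝ) ≤ L := by exact_mod_cast hL0
  have hfr : (0 : ℝ) < f := by exact_mod_cast hf
  set d : ℝ := e - (t - e) with hd
  have hd0 : 0 < d := by rw [hd]; linarith
  have hdt : d < t := by rw [hd]; linarith
  set μ : ℝ := f * d / (32 * L : ℕ) with hμ
  have hμ0 : 0 < μ := by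
    rw [hμ]
    positivity
  have hμ1 : μ ≤ f * t := by
    rw [hμ]
    push_cast
    rw [div_le_iff₀ (by positivity)]
    have h1 : (f : ℝ) * d ≤ f * t := by gcongr
    have h2 : (f : ℝ) * t ≤ f * t * (32 * L) := by
      apply le_mul_of_one_le_right
      · have : (0 : ℝ) < t := hd0.trans hdt
        positivity
      · linarith
    linarith
  by_contra hcon
  push Not at hcon
  set M : ℕ := ⌈2 ^ L + (2 ^ L + μ) * e⌉₊ with hMd
  have hM : 2 ^ L + (2 ^ L + μ) * e ≤ M := Nat.le_ceil _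
  set box := (Ioc 0 f) ×ˢ (Ioc 0 f) with hbox
  set G : Finset ℕ := f.divisors.filter fun g : ℕ => (g : ℝ) ^ 2 < μ with hG
  set S : ℕ → ℤ × ℤ → Finset (ℕ × ℕ) := fun g w => box.filter fun p : ℕ × ℕ =>
    p.1.Coprime p.2 ∧ ((f / g : ℕ) : ℤ) ∣ p.1 * w.1 + p.2 * w.2 with hS
  have hsub : (box.filter fun p : ℕ × ℕ => p.1.Coprime p.2) ⊆
      G.biUnion fun g => (wset t e (μ / g ^ 2) L M).biUnion fun w => S g w := by
    intro p hp
    rw [Finset.mem_filter] at hp
    obtain ⟨v, hv, hfv, hvμ⟩ := hcon p.1 p.2 hp.2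
    obtain ⟨g, hg, hg2, w, hw, hgw⟩ := exists_bad_vector ht he hlt he1 hf hc hη hL hM hv hfv hvμ
    rw [Finset.mem_biUnion]
    refine ⟨g, Finset.mem_filter.2 ⟨hg, hg2⟩, ?_⟩
    rw [Finset.mem_biUnion]
    exact ⟨w, hw, Finset.mem_filter.2 ⟨hp.1, hp.2, hgw⟩⟩
  have hScard : ∀ g ∈ G, ∀ w ∈ wset t e (μ / g ^ 2) L M, ((S g w).card : ℝ) ≤
      (g : ℝ) ^ 2 * (f / g).totient := by
    intro g hg w hw
    rw [hG, Finset.mem_filter, Nat.mem_divisors] at hg
    have hgf := hg.1.1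
    have hgpos : 0 < g := Nat.pos_of_dvd_of_pos hgf hf
    have h1 : 0 < f / g := Nat.div_pos (Nat.le_of_dvd hf hgf) hgpos
    have h2 := line_pairs (g := g) h1 (x := w.1) (y := w.2) (by
      unfold wset at hw
      rw [Finset.mem_filter] at hw
      exact hw.2.1)
    rw [Nat.mul_div_cancel' hgf] at h2
    have h3 : ((S g w).card : ℝ) ≤ ((g * g * (f / g).totient : ℕ) : ℝ) := by exact_mod_cast h2
    push_cast at h3
    rw [sq]
    exact h3
  have hWcard : ∀ g ∈ G, ((wset t e (μ / g ^ 2) L M).card : ℝ) ≤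
      L * (8 * (μ / g ^ 2) / d + 1) := by
    intro g hg
    apply windows he hlt (by positivity) L
    intro w hw
    unfold wset at hw
    rw [Finset.mem_filter] at hw
    exact hw.2
  have hcount : ((box.filter fun p : ℕ × ℕ => p.1.Coprime p.2).card : ℝ) ≤
      ∑ g ∈ G, L * (8 * (μ / g ^ 2) / d + 1) * ((g : ℝ) ^ 2 * (f / g).totient) := by
    have h1 := (Finset.card_le_card hsub).trans Finset.card_biUnion_le
    have h2 : ((box.filter fun p : ℕ × ℕ => p.1.Coprime p.2).card : ℝ) ≤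
        ∑ g ∈ G, (((wset t e (μ / g ^ 2) L M).biUnion fun w => S g w).card : ℝ) := by
      exact_mod_cast h1
    refine h2.trans (Finset.sum_le_sum fun g hg => ?_)
    have h3 : (((wset t e (μ / g ^ 2) L M).biUnion fun w => S g w).card : ℝ) ≤
        ∑ w ∈ wset t e (μ / g ^ 2) L M, ((S g w).card : ℝ) := by
      exact_mod_cast Finset.card_biUnion_le
    refine h3.trans ((Finset.sum_le_sum (hScard g hg)).trans ?_)
    rw [Finset.sum_const, nsmul_eq_mul]
    exact mul_le_mul_of_nonneg_right (hWcard g hg) (by positivity)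
  have hsum : ∑ g ∈ G, L * (8 * (μ / g ^ 2) / d + 1) * ((g : ℝ) ^ 2 * (f / g).totient) ≤
      8 * L * (μ / d) * f + L * √μ * f * f.divisors.card := by
    have h1 : ∀ g ∈ G, L * (8 * (μ / g ^ 2) / d + 1) * ((g : ℝ) ^ 2 * (f / g).totient) ≤
        8 * L * (μ / d) * ((f / g).totient : ℝ) + L * √μ * f := by
      intro g hg
      rw [hG, Finset.mem_filter, Nat.mem_divisors] at hg
      have hgf := hg.1.1
      have hgpos : 0 < g := Nat.pos_of_dvd_of_pos hgf hf
      have hgr : (0 : ℝ) < g := by exact_mod_cast hgpos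
      have e1 : L * (8 * (μ / g ^ 2) / d + 1) * ((g : ℝ) ^ 2 * (f / g).totient) =
          8 * L * (μ / d) * ((f / g).totient : ℝ) + L * ((g : ℝ) ^ 2 * (f / g).totient) := by
        field_simp
      rw [e1]
      have h2 : (g : ℝ) ≤ √μ := by
        apply Real.le_sqrt_of_sq_le
        exact hg.2.le
      have h3 : (g : ℝ) * (f / g).totient ≤ f := by
        have h4 : g * (f / g).totient ≤ f := by
          calc g * (f / g).totient ≤ g * (f / g) := Nat.mul_le_mul_left g (Nat.totient_le _)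
            _ = f := Nat.mul_div_cancel' hgf
        exact_mod_cast h4
      have h5 : (g : ℝ) ^ 2 * (f / g).totient ≤ √μ * f := by
        calc (g : ℝ) ^ 2 * (f / g).totient = g * (g * (f / g).totient) := by ring
          _ ≤ √μ * f := mul_le_mul h2 h3 (by positivity) (Real.sqrt_nonneg _)
      have h6 : L * ((g : ℝ) ^ 2 * (f / g).totient) ≤ L * (√μ * f) := by gcongr
      linarith
    refine (Finset.sum_le_sum h1).trans ?_
    rw [Finset.sum_add_distrib, ← Finset.mul_sum, Finset.sum_const, nsmul_eq_mul]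
    have h2 : ∑ g ∈ G, ((f / g).totient : ℝ) ≤ f := by
      have h3 : ∑ g ∈ G, ((f / g).totient : ℝ) ≤ ∑ g ∈ f.divisors, ((f / g).totient : ℝ) :=
        Finset.sum_le_sum_of_subset_of_nonneg (Finset.filter_subset _ _) fun _ _ _ =>
          Nat.cast_nonneg _
      refine h3.trans (le_of_eq ?_)
      have h4 : ∑ g ∈ f.divisors, (f / g).totient = f := by
        rw [Nat.sum_div_divisors f fun k => k.totient, Nat.sum_totient]
      exact_mod_cast h4
    have h3 : (G.card : ℝ) ≤ f.divisors.card := by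
      exact_mod_cast Finset.card_le_card (Finset.filter_subset _ _)
    have h4 : 8 * L * (μ / d) * ∑ g ∈ G, ((f / g).totient : ℝ) ≤ 8 * L * (μ / d) * f := by
      gcongr
    have h5 : (G.card : ℝ) * (L * √μ * f) ≤ f.divisors.card * (L * √μ * f) := by
      gcongr
    linarith
  have hhalf := coprime_pairs f
  have htot := (hhalf.trans hcount).trans hsum
  have h1 : 8 * L * (μ / d) * f = (f : ℝ) ^ 2 / 4 := by
    rw [hμ]
    push_cast
    field_simp
    ring
  have h2 : √μ ≤ √((f : ℝ) * t) := Real.sqrt_le_sqrt hμ1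
  have h3 : L * √μ * f * f.divisors.card ≤ (L * √((f : ℝ) * t) * f.divisors.card) * f := by
    calc L * √μ * f * f.divisors.card = L * √μ * f.divisors.card * f := by ring
      _ ≤ _ := by gcongr
  have h4 : (L * √((f : ℝ) * t) * f.divisors.card) * f < f / 4 * f :=
    mul_lt_mul_of_pos_right hcond hfr
  rw [h1] at htot
  nlinarith

end Pool.Agent.BCF
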