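import Mathlib

/-!
# General tools for the union bound: windows, scaling, counting
-/

namespace Pool.Agent.BCF

open Finset

/-- a linear form with real coefficients -/
def lf (α β : ℝ) (w : ℤ × ℤ) : ℝ := α * w.1 + β * w.2

/-- two primitive vectors with positive values that are proportional are equal -/
theorem eq_of_cross' {α β : ℝ} {v w : ℤ × ℤ} (hv : IsCoprime v.1 v.2) (hw : IsCoprime w.1 w.2)
    (hv0 : 0 < lf α β v) (hw0 : 0 < lf α β w) (h : v.1 * w.2 = w.1 * v.2) : v = w := by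
  obtain ⟨a, b, hab⟩ := hv
  obtain ⟨c, d, hcd⟩ := hw
  set l : ℤ := a * w.1 + b * w.2 with hl
  set k : ℤ := c * v.1 + d * v.2 with hk
  have h1 : l * v.1 = w.1 := by
    rw [hl]
    linear_combination b * h + w.1 * hab
  have h2 : l * v.2 = w.2 := by
    rw [hl]
    linear_combination (-a) * h + w.2 * hab
  have h3 : k * w.1 = v.1 := by
    rw [hk]
    linear_combination (-d) * h + v.1 * hcd
  have h4 : k * w.2 = v.2 := by
    rw [hk]
    linear_combination c * h + v.2 * hcd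
  have h5 : l * k = 1 := by
    have e1 : l * k * w.1 = w.1 := by rw [mul_assoc, h3, h1]
    have e2 : l * k * w.2 = w.2 := by rw [mul_assoc, h4, h2]
    linear_combination c * e1 + d * e2 + (1 - l * k) * hcd
  have h6 : lf α β w = l * lf α β v := by
    unfold lf
    rw [← h1, ← h2]
    push_cast
    ring
  have h7 : (0 : ℝ) < l := by
    by_contra hcon
    push Not at hcon
    have := mul_nonpos_of_nonpos_of_nonneg hcon hv0.le
    linarith
  have h8 : 0 < l := by exact_mod_cast h7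
  have h9 : l = 1 := by
    rcases Int.eq_one_or_neg_one_of_mul_eq_one h5 with h | h
    · exact h
    · omega
  rw [h9, one_mul] at h1 h2
  exact Prod.ext h1 h2

/-- primitive vectors in one window -/
theorem window' {α β α' β' D : ℝ} (hD : 0 < D) (hdet : |α * β' - α' * β| = D) {R Y : ℝ}
    (hR : 0 < R) (hY : 0 ≤ Y) (W : Finset (ℤ × ℤ)) (hW : ∀ w ∈ W, IsCoprime w.1 w.2 ∧
      R ≤ lf α β w ∧ lf α β w < 2 * R ∧ |lf α β w * lf α' β' w| < Y) :
    (W.card : ℝ) ≤ 8 * Y / D + 1 := by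
  set κ : ℤ × ℤ → ℝ := fun w => (lf α' β' w / lf α β w + Y / R ^ 2) * (4 * R ^ 2 / D) with hκ
  have hslope : ∀ w ∈ W, |lf α' β' w / lf α β w| < Y / R ^ 2 := by
    intro w hw
    obtain ⟨-, h1, h2, h3⟩ := hW w hw
    have h0 : 0 < lf α β w := hR.trans_le h1
    have h4 : lf α' β' w / lf α β w = (lf α β w * lf α' β' w) / lf α β w ^ 2 := by
      field_simp
    rw [h4, abs_div, abs_of_pos (by positivity : 0 < lf α β w ^ 2)]
    have h5 : R ^ 2 ≤ lf α β w ^ 2 := by gcongr
    rw [div_lt_div_iff₀ (by positivity) (by positivity)]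
    calc |lf α β w * lf α' β' w| * R ^ 2 ≤ |lf α β w * lf α' β' w| * lf α β w ^ 2 := by gcongr
      _ < Y * lf α β w ^ 2 := by gcongr
  have hmem : ∀ w ∈ W, 0 < κ w ∧ κ w < 8 * Y / D := by
    intro w hw
    obtain ⟨h1, h2⟩ := abs_lt.1 (hslope w hw)
    have h3 : 0 < 4 * R ^ 2 / D := by positivity
    constructor
    · apply mul_pos _ h3
      linarith
    · have : κ w < (Y / R ^ 2 + Y / R ^ 2) * (4 * R ^ 2 / D) := by
        apply mul_lt_mul_of_pos_right _ h3
        linarith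
      refine this.trans_le (le_of_eq ?_)
      field_simp
      ring
  have hinj : Set.InjOn (fun w => ⌊κ w⌋₊) (W : Set (ℤ × ℤ)) := by
    intro v hv w hw hvw
    have hv' := hW v hv
    have hw' := hW w hw
    have hv0 : 0 < lf α β v := hR.trans_le hv'.2.1
    have hw0 : 0 < lf α β w := hR.trans_le hw'.2.1
    by_contra hne
    have hcr : v.1 * w.2 - w.1 * v.2 ≠ 0 := by
      intro h0
      exact hne (eq_of_cross' hv'.1 hw'.1 hv0 hw0 (by linarith))
    have h1 : (1 : ℝ) ≤ |((v.1 * w.2 - w.1 * v.2 : ℤ) : ℝ)| := by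
      rw [← Int.cast_abs]
      exact_mod_cast Int.one_le_abs hcr
    have h2 : lf α' β' v / lf α β v - lf α' β' w / lf α β w =
        (-((v.1 * w.2 - w.1 * v.2 : ℤ) : ℝ)) * (α * β' - α' * β) / (lf α β v * lf α β w) := by
      rw [div_sub_div _ _ hv0.ne' hw0.ne']
      congr 1
      unfold lf
      push_cast
      ring
    have h3 : 1 < |κ v - κ w| := by
      have e1 : κ v - κ w = ((-((v.1 * w.2 - w.1 * v.2 : ℤ) : ℝ)) * (α * β' - α' * β) /
          (lf α β v * lf α β w)) * (4 * R ^ 2 / D) := by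
        rw [← h2]
        simp only [hκ]
        ring
      have e2 : |κ v - κ w| = |((v.1 * w.2 - w.1 * v.2 : ℤ) : ℝ)| * (4 * R ^ 2 /
          (lf α β v * lf α β w)) := by
        rw [e1, abs_mul, abs_div, abs_mul, abs_neg, hdet,
          abs_of_pos (a := lf α β v * lf α β w) (by positivity),
          abs_of_pos (a := 4 * R ^ 2 / D) (by positivity)]
        field_simp
      rw [e2]
      have e3 : 1 < 4 * R ^ 2 / (lf α β v * lf α β w) := by
        rw [one_lt_div (by positivity)]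
        have := mul_lt_mul'' hv'.2.2.1 hw'.2.2.1 hv0.le hw0.le
        linarith
      calc (1 : ℝ) < 4 * R ^ 2 / (lf α β v * lf α β w) := e3
        _ ≤ |((v.1 * w.2 - w.1 * v.2 : ℤ) : ℝ)| * (4 * R ^ 2 / (lf α β v * lf α β w)) :=
          le_mul_of_one_le_left (by positivity) h1
    have a1 := Nat.floor_le (hmem v hv).1.le
    have a2 := Nat.lt_floor_add_one (κ v)
    have a3 := Nat.floor_le (hmem w hw).1.le
    have a4 := Nat.lt_floor_add_one (κ w)
    have hvw' : ⌊κ v⌋₊ = ⌊κ w⌋₊ := hvw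
    rw [hvw'] at a1 a2
    have h4 : |κ v - κ w| < 1 := by
      rw [abs_lt]
      constructor <;> linarith
    linarith
  have hmaps : ∀ w ∈ W, ⌊κ w⌋₊ ∈ Finset.range (⌊8 * Y / D⌋₊ + 1) := by
    intro w hw
    rw [Finset.mem_range, Nat.lt_succ_iff]
    exact Nat.floor_mono (hmem w hw).2.le
  have hcard := Finset.card_le_card_of_injOn _ hmaps hinj
  rw [Finset.card_range] at hcard
  have h1 : (⌊8 * Y / D⌋₊ : ℝ) ≤ 8 * Y / D := Nat.floor_le (by positivity)
  have h2 : (W.card : ℝ) ≤ (⌊8 * Y / D⌋₊ + 1 : ℕ) := by exact_mod_cast hcard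
  push_cast at h2
  linarith

/-- primitive vectors in `L` windows -/
theorem windows' {α β α' β' D : ℝ} (hD : 0 < D) (hdet : |α * β' - α' * β| = D) {Y : ℝ}
    (hY : 0 ≤ Y) (L : ℕ) (W : Finset (ℤ × ℤ)) (hW : ∀ w ∈ W, IsCoprime w.1 w.2 ∧
      1 ≤ lf α β w ∧ lf α β w < 2 ^ L ∧ |lf α β w * lf α' β' w| < Y) :
    (W.card : ℝ) ≤ L * (8 * Y / D + 1) := by
  classical
  have hsub : W ⊆ (Finset.range L).biUnion fun i =>
      W.filter fun w => (2 : ℝ) ^ i ≤ lf α β w ∧ lf α β w < 2 * 2 ^ i := by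
    intro w hw
    obtain ⟨-, h1, h2, -⟩ := hW w hw
    obtain ⟨i, hi1, hi2⟩ := exists_nat_pow_near h1 (one_lt_two : (1 : ℝ) < 2)
    rw [Finset.mem_biUnion]
    refine ⟨i, ?_, ?_⟩
    · rw [Finset.mem_range]
      have h3 : (2 : ℝ) ^ i < 2 ^ L := hi1.trans_lt h2
      exact (pow_lt_pow_iff_right₀ one_lt_two).1 h3
    · rw [Finset.mem_filter]
      refine ⟨hw, hi1, ?_⟩
      rw [pow_succ'] at hi2
      exact hi2
  have h1 := (Finset.card_le_card hsub).trans Finset.card_biUnion_le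
  have h2 : (W.card : ℝ) ≤ ∑ i ∈ Finset.range L,
      ((W.filter fun w => (2 : ℝ) ^ i ≤ lf α β w ∧ lf α β w < 2 * 2 ^ i).card : ℝ) := by
    exact_mod_cast h1
  refine h2.trans ?_
  have h3 : ∀ i ∈ Finset.range L,
      ((W.filter fun w => (2 : ℝ) ^ i ≤ lf α β w ∧ lf α β w < 2 * 2 ^ i).card : ℝ) ≤
        8 * Y / D + 1 := by
    intro i _
    apply window' hD hdet (R := 2 ^ i) (by positivity) hY
    intro w hw
    rw [Finset.mem_filter] at hw
    have := hW w hw.1
    exact ⟨this.1, hw.2.1, hw.2.2, this.2.2.2⟩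
  refine (Finset.sum_le_sum h3).trans ?_
  rw [Finset.sum_const, Finset.card_range, nsmul_eq_mul]

/-- moving a vector into a fundamental domain -/
theorem scale' {α : Type*} {P : α → Prop} {ρ : α → ℝ} {η κ : ℝ} (hη : 1 < η) (hκ : 0 < κ)
    (T T' : α → α) (hT : ∀ w, P w → P (T w)) (hT' : ∀ w, P w → P (T' w))
    (hr : ∀ w, P w → ρ (T w) = η * ρ w) (hr' : ∀ w, P w → η * ρ (T' w) = ρ w)
    {w : α} (hw : P w) (h0 : 0 < ρ w) : ∃ w', P w' ∧ κ ≤ ρ w' ∧ ρ w' < κ * η := by
  have hη0 : 0 < η := by linarith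
  have up : ∀ k : ℕ, P (T^[k] w) ∧ ρ (T^[k] w) = η ^ k * ρ w := by
    intro k
    induction k with
    | zero => exact ⟨hw, by simp⟩
    | succ k ih =>
        rw [Function.iterate_succ_apply']
        refine ⟨hT _ ih.1, ?_⟩
        rw [hr _ ih.1, ih.2]
        ring
  have down : ∀ k : ℕ, P (T'^[k] w) ∧ η ^ k * ρ (T'^[k] w) = ρ w := by
    intro k
    induction k with
    | zero => exact ⟨hw, by simp⟩
    | succ k ih =>
        rw [Function.iterate_succ_apply']
        refine ⟨hT' _ ih.1, ?_⟩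
        rw [pow_succ, mul_assoc, hr' _ ih.1, ih.2]
  obtain ⟨n, hn1, hn2⟩ := exists_mem_Ico_zpow (div_pos h0 hκ) hη
  rw [le_div_iff₀ hκ] at hn1
  rw [div_lt_iff₀ hκ] at hn2
  rcases n with k | k
  · obtain ⟨h1, h2⟩ := down k
    rw [Int.ofNat_eq_natCast, zpow_natCast] at hn1
    have : ((Int.ofNat k) + 1 : ℤ) = ((k + 1 : ℕ) : ℤ) := by simp
    rw [this, zpow_natCast] at hn2
    have hk : 0 < η ^ k := by positivity
    refine ⟨_, h1, ?_, ?_⟩
    · rw [← h2] at hn1
      exact le_of_mul_le_mul_left hn1 hk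
    · rw [← h2, pow_succ, mul_assoc] at hn2
      have := lt_of_mul_lt_mul_left hn2 hk.le
      linarith
  · obtain ⟨h1, h2⟩ := up (k + 1)
    rw [zpow_negSucc] at hn1
    have : (Int.negSucc k + 1 : ℤ) = -(k : ℤ) := by
      rw [Int.negSucc_eq]; ring
    rw [this, zpow_neg, zpow_natCast] at hn2
    have hk : 0 < η ^ (k + 1) := by positivity
    have hk' : 0 < η ^ k := by positivity
    refine ⟨_, h1, ?_, ?_⟩
    · rw [h2]
      calc κ = η ^ (k + 1) * ((η ^ (k + 1))⁻¹ * κ) := by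
            rw [← mul_assoc, mul_inv_cancel₀ hk.ne', one_mul]
        _ ≤ η ^ (k + 1) * ρ w := by gcongr
    · rw [h2]
      calc η ^ (k + 1) * ρ w < η ^ (k + 1) * ((η ^ k)⁻¹ * κ) :=
            mul_lt_mul_of_pos_left hn2 hk
        _ = κ * η := by
            rw [pow_succ]
            field_simp

end Pool.Agent.BCF
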