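import Mathlib

/-!
# The two regions of the geodesic: elementary inequalities
-/

namespace Pool.Agent.BCF

theorem lin_up {A B x y : ℝ} (hA : 0 ≤ A) (hB : 0 ≤ B) : |A * x + B * y| ≤ A * |x| + B * |y| := by
  refine (abs_add_le _ _).trans (le_of_eq ?_)
  rw [abs_mul, abs_mul, abs_of_nonneg hA, abs_of_nonneg hB]

theorem lin_lo {A B x y : ℝ} (hA : 0 ≤ A) (hB : 0 ≤ B) : A * |x| - B * |y| ≤ |A * x + B * y| := by
  have h := abs_add_le (A * x + B * y) (-(B * y))
  have e : A * x + B * y + -(B * y) = A * x := by ring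
  rw [e, abs_neg, abs_mul A x, abs_mul B y, abs_of_nonneg hA, abs_of_nonneg hB] at h
  linarith

theorem reg_aux {t e e' d : ℝ} (ht : 16 ≤ t) (he : e + e' = t) (hee : e * e' = 1)
    (hd : d = e - e') (hlt : e' < e) : 0 < e' ∧ e' ≤ 1 / 15 ∧ 15 ≤ e ∧ (7 / 8) * t ≤ d ∧ d ≤ t ∧
      d + 2 * e' = t := by
  have h0 : 0 < e := by
    by_contra hcon
    push Not at hcon
    linarith
  have h1 : 0 < e' := by
    by_contra hcon
    push Not at hcon
    nlinarith
  have h2 : 15 ≤ e := by
    by_contra hcon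
    push Not at hcon
    have h3 : 1 < e' := by linarith
    have h4 : 1 < e := by linarith
    nlinarith
  have h3 : e' ≤ 1 / 15 := by
    rw [le_div_iff₀ (by norm_num)]
    nlinarith
  refine ⟨h1, h3, h2, ?_, ?_, ?_⟩ <;> linarith

/-- the forward region -/
theorem regF {t e e' d τ p s V V' : ℝ} (ht : 16 ≤ t) (he : e + e' = t) (hee : e * e' = 1)
    (hd : d = e - e') (hlt : e' < e) (hτ : 0 < τ) (hτ1 : τ ≤ e')
    (hV : t * V = (t + τ * d) * p - (2 * e * τ) * s)
    (hV' : t * V' = (d - t * τ) * s + (2 * e') * p)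
    (h1 : |V| ≤ e * |V'|) (h2 : e * τ * |V'| ≤ |V|) : |p * s| ≤ 4 * |V * V'| := by
  obtain ⟨k1, k2, k3, k4, k5, k6⟩ := reg_aux ht he hee hd hlt
  have ht0 : 0 < t := by linarith
  have he0 : 0 < e := by linarith
  have hd0 : 0 < d := by linarith
  have hs0 := abs_nonneg s
  have hp0 := abs_nonneg p
  have hV0 := abs_nonneg V
  have hV'0 := abs_nonneg V'
  have htτ : t * τ ≤ (1 / 15) * t := by nlinarith
  have hdt : 0 ≤ d - t * τ := by linarith
  have a1 : (t + τ * d) * |p| ≤ t * |V| + (2 * e * τ) * |s| := by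
    have h3 : (t + τ * d) * p = t * V + (2 * e * τ) * s := by rw [hV]; ring
    have h4 : |(t + τ * d) * p| ≤ t * |V| + (2 * e * τ) * |s| := by
      rw [h3]
      exact lin_up ht0.le (by positivity)
    rwa [abs_mul, abs_of_pos (by positivity : 0 < t + τ * d)] at h4
  have a2 : t * |V'| ≤ (d - t * τ) * |s| + (2 * e') * |p| := by
    have h4 : |t * V'| ≤ (d - t * τ) * |s| + (2 * e') * |p| := by
      rw [hV']
      exact lin_up hdt (by positivity)
    rwa [abs_mul, abs_of_pos ht0] at h4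
  have a3 : (d - t * τ) * |s| - (2 * e') * |p| ≤ t * |V'| := by
    have h4 : (d - t * τ) * |s| - (2 * e') * |p| ≤ |t * V'| := by
      rw [hV']
      exact lin_lo hdt (by positivity)
    rwa [abs_mul, abs_of_pos ht0] at h4
  have q1 : 0 ≤ τ * d * |p| := by positivity
  have b2 : (t - 2) * |p| ≤ e * t * |s| := by
    have h3 : t * |V| ≤ e * (t * |V'|) := by
      have := mul_le_mul_of_nonneg_left h1 ht0.le
      linarith
    have h4 : e * (t * |V'|) ≤ e * ((d - t * τ) * |s| + (2 * e') * |p|) :=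
      mul_le_mul_of_nonneg_left a2 he0.le
    have h5 : e * ((2 * e') * |p|) = 2 * |p| := by
      calc e * ((2 * e') * |p|) = 2 * (e * e') * |p| := by ring
        _ = 2 * |p| := by rw [hee]; ring
    have h7 : e * (d - t * τ + 2 * τ) * |s| ≤ e * t * |s| := by
      apply mul_le_mul_of_nonneg_right _ hs0
      apply mul_le_mul_of_nonneg_left _ he0.le
      nlinarith
    linarith
  have b3 : 7 * |p| ≤ 8 * (e * |s|) := by
    have h4 : (7 / 8 * t) * |p| ≤ (t - 2) * |p| := mul_le_mul_of_nonneg_right (by linarith) hp0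
    have h5 : t * (7 * |p|) ≤ t * (8 * (e * |s|)) := by linarith
    exact le_of_mul_le_mul_left h5 ht0
  have b4 : |s| ≤ 2 * |V'| := by
    have h3 : (2 * e') * |p| ≤ (16 / 7) * |s| := by
      have h4 : e' * (7 * |p|) ≤ e' * (8 * (e * |s|)) := mul_le_mul_of_nonneg_left b3 k1.le
      have h5 : e' * (8 * (e * |s|)) = 8 * |s| := by
        calc e' * (8 * (e * |s|)) = 8 * (e * e') * |s| := by ring
          _ = 8 * |s| := by rw [hee]; ring
      linarith
    have h5 : t * τ * |s| ≤ (1 / 15) * t * |s| := mul_le_mul_of_nonneg_right htτ hs0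
    have h6 : (7 / 8) * t * |s| ≤ d * |s| := mul_le_mul_of_nonneg_right k4 hs0
    have h7 : (16 / 7) * |s| ≤ (1 / 7) * t * |s| := by
      apply mul_le_mul_of_nonneg_right _ hs0
      linarith
    have q2 : 0 ≤ t * |s| := by positivity
    have h8 : t * |s| ≤ t * (2 * |V'|) := by linarith
    exact le_of_mul_le_mul_left h8 ht0
  have b5 : |p| ≤ 2 * |V| := by
    have h3 : e * τ * |s| ≤ 2 * |V| := by
      have : e * τ * |s| ≤ e * τ * (2 * |V'|) := by
        apply mul_le_mul_of_nonneg_left b4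
        positivity
      linarith
    have h6 : 4 * |V| ≤ t * |V| := mul_le_mul_of_nonneg_right (by linarith) hV0
    have h4 : t * |p| ≤ t * (2 * |V|) := by linarith
    exact le_of_mul_le_mul_left h4 ht0
  rw [abs_mul, abs_mul]
  calc |p| * |s| ≤ (2 * |V|) * (2 * |V'|) := mul_le_mul b5 b4 hs0 (by positivity)
    _ = 4 * (|V| * |V'|) := by ring

/-- the backward region -/
theorem regB {t e e' d τ p s V V' : ℝ} (ht : 16 ≤ t) (he : e + e' = t) (hee : e * e' = 1)
    (hd : d = e - e') (hlt : e' < e) (hτ : 0 < τ) (hτ1 : τ ≤ e')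
    (hV : t * V = -((d + t * τ) * p) + (2 * e) * s)
    (hV' : t * V' = (t - τ * d) * s - (2 * e' * τ) * p)
    (h1 : e * |V'| ≤ |V|) (h2 : τ * |V| ≤ e * |V'|) : |p * s| ≤ 4 * |V * V'| := by
  obtain ⟨k1, k2, k3, k4, k5, k6⟩ := reg_aux ht he hee hd hlt
  have ht0 : 0 < t := by linarith
  have he0 : 0 < e := by linarith
  have hd0 : 0 < d := by linarith
  have hs0 := abs_nonneg s
  have hp0 := abs_nonneg p
  have hV0 := abs_nonneg V
  have hV'0 := abs_nonneg V'
  have hτ15 : τ ≤ 1 / 15 := by linarith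
  have hτd : τ * d ≤ (1 / 15) * t := by nlinarith
  have htτ : t * τ ≤ (1 / 15) * t := by nlinarith
  have htd : 0 < t - τ * d := by linarith
  have hdt : 0 < d + t * τ := by positivity
  have a2 : (t - τ * d) * |s| ≤ t * |V'| + (2 * e' * τ) * |p| := by
    have h3 : (t - τ * d) * s = t * V' + (2 * e' * τ) * p := by rw [hV']; ring
    have h4 : |(t - τ * d) * s| ≤ t * |V'| + (2 * e' * τ) * |p| := by
      rw [h3]
      exact lin_up ht0.le (by positivity)
    rwa [abs_mul, abs_of_pos htd] at h4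
  have a1 : t * |V| ≤ (d + t * τ) * |p| + (2 * e) * |s| := by
    have h3 : t * V = (d + t * τ) * (-p) + (2 * e) * s := by rw [hV]; ring
    have h4 : |t * V| ≤ (d + t * τ) * |(-p)| + (2 * e) * |s| := by
      rw [h3]
      exact lin_up hdt.le (by positivity)
    rwa [abs_mul, abs_of_pos ht0, abs_neg] at h4
  have a3 : (d + t * τ) * |p| - (2 * e) * |s| ≤ t * |V| := by
    have h3 : t * V = (d + t * τ) * (-p) + (2 * e) * s := by rw [hV]; ring
    have h4 : (d + t * τ) * |(-p)| - (2 * e) * |s| ≤ |t * V| := by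
      rw [h3]
      exact lin_lo hdt.le (by positivity)
    rwa [abs_mul, abs_of_pos ht0, abs_neg] at h4
  have b1 : e * |s| ≤ 2 * |p| := by
    have h3 : e * ((t - τ * d) * |s|) ≤ e * (t * |V'|) + 2 * τ * |p| := by
      have h4 : e * ((t - τ * d) * |s|) ≤ e * (t * |V'| + (2 * e' * τ) * |p|) :=
        mul_le_mul_of_nonneg_left a2 he0.le
      have h5 : e * ((2 * e' * τ) * |p|) = 2 * τ * |p| := by
        calc e * ((2 * e' * τ) * |p|) = 2 * (e * e') * τ * |p| := by ring
          _ = 2 * τ * |p| := by rw [hee]; ring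
      linarith
    have h6 : e * (t * |V'|) ≤ t * |V| := by
      have := mul_le_mul_of_nonneg_left h1 ht0.le
      linarith
    have hes : 0 ≤ e * |s| := by positivity
    have h9 : (2 / 3 * t) * (e * |s|) ≤ (t - τ * d - 2) * (e * |s|) := by
      apply mul_le_mul_of_nonneg_right _ hes
      linarith
    have h10 : (d + t * τ + 2 * τ) * |p| ≤ (4 / 3 * t) * |p| := by
      apply mul_le_mul_of_nonneg_right _ hp0
      linarith
    have h11 : t * (e * |s|) ≤ t * (2 * |p|) := by linarith
    exact le_of_mul_le_mul_left h11 ht0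
  have b2 : |p| ≤ 2 * |V| := by
    have h3 : (7 / 8 * t) * |p| ≤ (d + t * τ) * |p| := by
      apply mul_le_mul_of_nonneg_right _ hp0
      have : 0 < t * τ := by positivity
      linarith
    have h5 : 4 * |p| ≤ (3 / 8 * t) * |p| := by
      apply mul_le_mul_of_nonneg_right _ hp0
      linarith
    have h6 : t * |p| ≤ t * (2 * |V|) := by linarith
    exact le_of_mul_le_mul_left h6 ht0
  have b3 : |s| ≤ 2 * |V'| := by
    have h3 : (2 * e' * τ) * |p| ≤ 4 * |V'| := by
      have h4 : (2 * e' * τ) * |p| ≤ (2 * e' * τ) * (2 * |V|) :=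
        mul_le_mul_of_nonneg_left b2 (by positivity)
      have h5 : 4 * e' * (τ * |V|) ≤ 4 * e' * (e * |V'|) :=
        mul_le_mul_of_nonneg_left h2 (by positivity)
      have h6 : 4 * e' * (e * |V'|) = 4 * |V'| := by
        calc 4 * e' * (e * |V'|) = 4 * (e * e') * |V'| := by ring
          _ = 4 * |V'| := by rw [hee]; ring
      linarith
    have h9 : (2 / 3 * t) * |s| ≤ (t - τ * d) * |s| := by
      apply mul_le_mul_of_nonneg_right _ hs0
      linarith
    have h10 : 4 * |V'| ≤ (1 / 4 * t) * |V'| := by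
      apply mul_le_mul_of_nonneg_right _ hV'0
      linarith
    have h11 : t * |s| ≤ t * (2 * |V'|) := by linarith
    exact le_of_mul_le_mul_left h11 ht0
  rw [abs_mul, abs_mul]
  calc |p| * |s| ≤ (2 * |V|) * (2 * |V'|) := mul_le_mul b2 b3 hs0 (by positivity)
    _ = 4 * (|V| * |V'|) := by ring

end Pool.Agent.BCF
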