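import Pool.Agent.Work.MP_612dae_nt.LogPairs

/-!
# The union bound, in general form
-/

namespace Pool.Agent.BCF

open Finset

/-- if every coprime pair is killed by one of the listed primitive vectors, then there are many
listed vectors -/
theorem union_bound {ι : Type*} {f : ℕ} (hf : 0 < f) (J : Finset ι)
    (W : ι → ℕ → Finset (ℤ × ℤ)) {κ₁ κ₂ μ : ℝ} (hκ₁ : 0 ≤ κ₁) (hκ₂ : 0 ≤ κ₂)
    (hcop : ∀ j ∈ J, ∀ g ∈ f.divisors, ∀ w ∈ W j g, IsCoprime w.1 w.2)
    (hcard : ∀ j ∈ J, ∀ g ∈ f.divisors, ((W j g).card : ℝ) ≤ κ₁ / (g : ℝ) ^ 2 + κ₂)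
    (hbad : ∀ p q : ℕ, p.Coprime q → ∃ g ∈ f.divisors, (g : ℝ) ^ 2 < μ ∧ ∃ j ∈ J, ∃ w ∈ W j g,
      ((f / g : ℕ) : ℤ) ∣ p * w.1 + q * w.2) :
    (f : ℝ) ^ 2 / 2 ≤ J.card * (κ₁ * f + κ₂ * √μ * f * f.divisors.card) := by
  classical
  have hfr : (0 : ℝ) < f := by exact_mod_cast hf
  set box := (Ioc 0 f) ×ˢ (Ioc 0 f) with hbox
  set G : Finset ℕ := f.divisors.filter fun g : ℕ => (g : ℝ) ^ 2 < μ with hG
  set S : ℕ → ℤ × ℤ → Finset (ℕ × ℕ) := fun g w => box.filter fun p : ℕ × ℕ =>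
    p.1.Coprime p.2 ∧ ((f / g : ℕ) : ℤ) ∣ p.1 * w.1 + p.2 * w.2 with hS
  have hsub : (box.filter fun p : ℕ × ℕ => p.1.Coprime p.2) ⊆
      G.biUnion fun g => J.biUnion fun j => (W j g).biUnion fun w => S g w := by
    intro p hp
    rw [Finset.mem_filter] at hp
    obtain ⟨g, hg, hg2, j, hj, w, hw, hgw⟩ := hbad p.1 p.2 hp.2
    rw [Finset.mem_biUnion]
    refine ⟨g, Finset.mem_filter.2 ⟨hg, hg2⟩, ?_⟩
    rw [Finset.mem_biUnion]
    refine ⟨j, hj, ?_⟩
    rw [Finset.mem_biUnion]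
    exact ⟨w, hw, Finset.mem_filter.2 ⟨hp.1, hp.2, hgw⟩⟩
  have hScard : ∀ g ∈ G, ∀ j ∈ J, ∀ w ∈ W j g, ((S g w).card : ℝ) ≤
      (g : ℝ) ^ 2 * (f / g).totient := by
    intro g hg j hj w hw
    rw [hG, Finset.mem_filter] at hg
    have hgd := hg.1
    rw [Nat.mem_divisors] at hgd
    have hgf := hgd.1
    have hgpos : 0 < g := Nat.pos_of_dvd_of_pos hgf hf
    have h1 : 0 < f / g := Nat.div_pos (Nat.le_of_dvd hf hgf) hgpos
    have h2 := line_pairs (g := g) h1 (hcop j hj g hg.1 w hw)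
    rw [Nat.mul_div_cancel' hgf] at h2
    have h3 : ((S g w).card : ℝ) ≤ ((g * g * (f / g).totient : ℕ) : ℝ) := by exact_mod_cast h2
    push_cast at h3
    rw [sq]
    exact h3
  have hcount : ((box.filter fun p : ℕ × ℕ => p.1.Coprime p.2).card : ℝ) ≤
      ∑ g ∈ G, (J.card : ℝ) * ((κ₁ / (g : ℝ) ^ 2 + κ₂) * ((g : ℝ) ^ 2 * (f / g).totient)) := by
    have h1 := (Finset.card_le_card hsub).trans Finset.card_biUnion_le
    have h2 : ((box.filter fun p : ℕ × ℕ => p.1.Coprime p.2).card : ℝ) ≤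
        ∑ g ∈ G, ((J.biUnion fun j => (W j g).biUnion fun w => S g w).card : ℝ) := by
      exact_mod_cast h1
    refine h2.trans (Finset.sum_le_sum fun g hg => ?_)
    have h3 : ((J.biUnion fun j => (W j g).biUnion fun w => S g w).card : ℝ) ≤
        ∑ j ∈ J, (((W j g).biUnion fun w => S g w).card : ℝ) := by
      exact_mod_cast Finset.card_biUnion_le
    refine h3.trans ?_
    have h4 : ∀ j ∈ J, (((W j g).biUnion fun w => S g w).card : ℝ) ≤
        (κ₁ / (g : ℝ) ^ 2 + κ₂) * ((g : ℝ) ^ 2 * (f / g).totient) := by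
      intro j hj
      have h5 : (((W j g).biUnion fun w => S g w).card : ℝ) ≤ ∑ w ∈ W j g, ((S g w).card : ℝ) := by
        exact_mod_cast Finset.card_biUnion_le
      refine h5.trans ((Finset.sum_le_sum (hScard g hg j hj)).trans ?_)
      rw [Finset.sum_const, nsmul_eq_mul]
      apply mul_le_mul_of_nonneg_right (hcard j hj g _) (by positivity)
      rw [hG, Finset.mem_filter] at hg
      exact hg.1
    refine (Finset.sum_le_sum h4).trans ?_
    rw [Finset.sum_const, nsmul_eq_mul]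
  have hsum : ∑ g ∈ G, (J.card : ℝ) * ((κ₁ / (g : ℝ) ^ 2 + κ₂) *
      ((g : ℝ) ^ 2 * (f / g).totient)) ≤
      J.card * (κ₁ * f + κ₂ * √μ * f * f.divisors.card) := by
    rw [← Finset.mul_sum]
    apply mul_le_mul_of_nonneg_left _ (Nat.cast_nonneg _)
    have h1 : ∀ g ∈ G, (κ₁ / (g : ℝ) ^ 2 + κ₂) * ((g : ℝ) ^ 2 * (f / g).totient) ≤
        κ₁ * ((f / g).totient : ℝ) + κ₂ * √μ * f := by
      intro g hg
      rw [hG, Finset.mem_filter, Nat.mem_divisors] at hg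
      have hgf := hg.1.1
      have hgpos : 0 < g := Nat.pos_of_dvd_of_pos hgf hf
      have hgr : (0 : ℝ) < g := by exact_mod_cast hgpos
      have e1 : (κ₁ / (g : ℝ) ^ 2 + κ₂) * ((g : ℝ) ^ 2 * (f / g).totient) =
          κ₁ * ((f / g).totient : ℝ) + κ₂ * ((g : ℝ) ^ 2 * (f / g).totient) := by
        field_simp
      rw [e1]
      have h2 : (g : ℝ) ≤ √μ := by
        apply Real.le_sqrt_of_sq_le
        exact hg.2.le
      have h3 : (g : ℝ) * (f / g).totient ≤ f := by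
        have h4 : g * (f / g).totient ≤ f := by
          calc g * (f / g).totient ≤ g * (f / g) := Nat.mul_le_mul_left g (Nat.totient_le _)
            _ = f := Nat.mul_div_cancel' hgf
        exact_mod_cast h4
      have h5 : (g : ℝ) ^ 2 * (f / g).totient ≤ √μ * f := by
        calc (g : ℝ) ^ 2 * (f / g).totient = g * (g * (f / g).totient) := by ring
          _ ≤ √μ * f := mul_le_mul h2 h3 (by positivity) (Real.sqrt_nonneg _)
      have h6 : κ₂ * ((g : ℝ) ^ 2 * (f / g).totient) ≤ κ₂ * (√μ * f) := by gcongr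
      linarith
    refine (Finset.sum_le_sum h1).trans ?_
    rw [Finset.sum_add_distrib, ← Finset.mul_sum, Finset.sum_const, nsmul_eq_mul]
    have h2 : ∑ g ∈ G, ((f / g).totient : ℝ) ≤ f := by
      have h3 : ∑ g ∈ G, ((f / g).totient : ℝ) ≤ ∑ g ∈ f.divisors, ((f / g).totient : ℝ) :=
        Finset.sum_le_sum_of_subset_of_nonneg (Finset.filter_subset _ _) fun _ _ _ =>
          Nat.cast_nonneg _
      refine h3.trans (le_of_eq ?_)
      have h4 : ∑ g ∈ f.divisors, (f / g).totient = f := by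
        rw [Nat.sum_div_divisors f fun k => k.totient, Nat.sum_totient]
      exact_mod_cast h4
    have h3 : (G.card : ℝ) ≤ f.divisors.card := by
      exact_mod_cast Finset.card_le_card (Finset.filter_subset _ _)
    have h4 : κ₁ * ∑ g ∈ G, ((f / g).totient : ℝ) ≤ κ₁ * f := by
      gcongr
    have h5 : (G.card : ℝ) * (κ₂ * √μ * f) ≤ f.divisors.card * (κ₂ * √μ * f) := by
      gcongr
    linarith
  exact ((coprime_pairs f).trans hcount).trans hsum

/-- the primitive vector on the line of a vector of a sublattice of index `f` -/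
theorem prim_part {f : ℕ} (hf : 0 < f) {a b : ℤ} {v : ℤ × ℤ} (hv : v ≠ 0)
    (hfv : (f : ℤ) ∣ a * v.1 + b * v.2) (Q : ℤ × ℤ → ℤ)
    (hQ : ∀ (n : ℤ) (x y : ℤ), Q (n * x, n * y) = n ^ 2 * Q (x, y)) {μ : ℝ}
    (hvμ : |(Q v : ℝ)| < μ) :
    ∃ g ∈ f.divisors, ∃ w : ℤ × ℤ, IsCoprime w.1 w.2 ∧ ((f / g : ℕ) : ℤ) ∣ a * w.1 + b * w.2 ∧
      |(Q w : ℝ)| < μ / (g : ℝ) ^ 2 := by
  have hn0 : Int.gcd v.1 v.2 ≠ 0 := by
    intro h0
    rw [Int.gcd_eq_zero_iff] at h0
    exact hv (Prod.ext h0.1 h0.2)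
  set n : ℕ := Int.gcd v.1 v.2 with hn
  have hnpos : 0 < n := Nat.pos_of_ne_zero hn0
  obtain ⟨w1, hw1⟩ : (n : ℤ) ∣ v.1 := Int.gcd_dvd_left ..
  obtain ⟨w2, hw2⟩ : (n : ℤ) ∣ v.2 := Int.gcd_dvd_right ..
  have hcop : IsCoprime w1 w2 := by
    have h1 := Int.gcd_eq_gcd_ab v.1 v.2
    rw [← hn] at h1
    refine ⟨v.1.gcdA v.2, v.1.gcdB v.2, ?_⟩
    have h2 : (n : ℤ) * (v.1.gcdA v.2 * w1 + v.1.gcdB v.2 * w2) = n * 1 := by
      rw [mul_one]
      conv_rhs => rw [h1]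
      linear_combination (-(v.1.gcdA v.2)) * hw1 - (v.1.gcdB v.2) * hw2
    exact mul_left_cancel₀ (by exact_mod_cast hn0) h2
  set g : ℕ := Nat.gcd n f with hg
  have hgf : g ∣ f := Nat.gcd_dvd_right _ _
  have hgn : g ∣ n := Nat.gcd_dvd_left _ _
  have hgpos : 0 < g := Nat.pos_of_dvd_of_pos hgf hf
  have hgle : g ≤ n := Nat.le_of_dvd hnpos hgn
  refine ⟨g, Nat.mem_divisors.2 ⟨hgf, hf.ne'⟩, (w1, w2), hcop, ?_, ?_⟩
  · have h1 : (f : ℤ) ∣ n * (a * w1 + b * w2) := by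
      have : (n : ℤ) * (a * w1 + b * w2) = a * v.1 + b * v.2 := by
        rw [hw1, hw2]
        ring
      rw [this]
      exact hfv
    obtain ⟨f', hf'⟩ := hgf
    obtain ⟨n', hn'⟩ := hgn
    have h2 : f / g = f' := by
      rw [hf']
      exact Nat.mul_div_cancel_left f' hgpos
    have hcp : Nat.Coprime n' f' := by
      have h3 := Nat.coprime_div_gcd_div_gcd (m := n) (n := f) (by rw [← hg]; exact hgpos)
      rw [← hg, h2] at h3
      have h4 : n / g = n' := by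
        rw [hn']
        exact Nat.mul_div_cancel_left n' hgpos
      rwa [h4] at h3
    rw [h2]
    have h5 : (f' : ℤ) ∣ n' * (a * w1 + b * w2) := by
      have h6 : (g : ℤ) * f' ∣ g * (n' * (a * w1 + b * w2)) := by
        have e1 : ((g : ℤ) * f') = f := by exact_mod_cast hf'.symm
        have e2 : (g : ℤ) * (n' * (a * w1 + b * w2)) = n * (a * w1 + b * w2) := by
          have : (n : ℤ) = g * n' := by exact_mod_cast hn'
          rw [this]
          ring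
        rw [e1, e2]
        exact h1
      exact (mul_dvd_mul_iff_left (by exact_mod_cast hgpos.ne')).1 h6
    have h7 : IsCoprime (f' : ℤ) (n' : ℤ) := (Nat.Coprime.isCoprime hcp).symm
    exact h7.dvd_of_dvd_mul_left h5
  · have hnf : (Q v : ℝ) = (n : ℝ) ^ 2 * (Q (w1, w2) : ℝ) := by
      have h1 : Q v = (n : ℤ) ^ 2 * Q (w1, w2) := by
        have : v = (n * w1, n * w2) := Prod.ext hw1 hw2
        rw [this]
        exact hQ n w1 w2
      rw [h1]
      push_cast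
      ring
    have hgr : (0 : ℝ) < (g : ℝ) ^ 2 := by positivity
    have hgn' : (g : ℝ) ^ 2 ≤ (n : ℝ) ^ 2 := by
      have : (g : ℝ) ≤ n := by exact_mod_cast hgle
      gcongr
    rw [lt_div_iff₀ hgr]
    rw [hnf, abs_mul, abs_of_nonneg (by positivity : (0 : ℝ) ≤ (n : ℝ) ^ 2)] at hvμ
    calc |(Q (w1, w2) : ℝ)| * (g : ℝ) ^ 2 ≤ |(Q (w1, w2) : ℝ)| * (n : ℝ) ^ 2 := by gcongr
      _ = (n : ℝ) ^ 2 * |(Q (w1, w2) : ℝ)| := mul_comm _ _
      _ < μ := hvμ

end Pool.Agent.BCF
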