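import Pool.Agent.Work.MP_612dae_nt.LogOrb
import Pool.Agent.Work.MP_612dae_nt.LogGen
import Pool.Agent.Work.MP_612dae_nt.LogUnion
import Pool.Agent.Work.MP_612dae_nt.LogReg

/-!
# The lattices `ℤ b + ℤ a e` and their short vectors
-/

namespace Pool.Agent.BCF

open Finset

/-- the norm form of the lattice `ℤ b + ℤ a e` -/
def Qm (t a b : ℤ) (w : ℤ × ℤ) : ℤ := b ^ 2 * w.1 ^ 2 + t * a * b * w.1 * w.2 + a ^ 2 * w.2 ^ 2

/-- the data of one lattice of the infinite family -/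
structure Dat (t : ℤ) (e : ℝ) (f : ℕ) (a b r : ℤ) (κ τ : ℝ) : Prop where
  a_pos : 0 < a
  b_pos : 0 < b
  norm : (a * b) ^ 2 - t * (a * b) * r + r ^ 2 = 1
  fa : (f : ℤ) ∣ a - 1
  fb : (f : ℤ) ∣ b - 1
  fr : (f : ℤ) ∣ r
  κ_pos : 0 < κ
  τ_pos : 0 < τ
  τ_le : τ ≤ t - e
  κτ : κ ^ 2 * e * τ = 1
  da : (e - (t - e)) * a = (e - 1) * κ * (1 + τ)
  db : (e - (t - e)) * b = (e + 1) * κ * (1 - τ)
  θ : τ * ((a * b) * e - r) = 1

theorem nf_ne' {t : ℤ} (ht : 3 ≤ t) {w : ℤ × ℤ} (hw : w ≠ 0) : nf t w ≠ 0 := by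
  have hn0 : Int.gcd w.1 w.2 ≠ 0 := by
    intro h0
    rw [Int.gcd_eq_zero_iff] at h0
    exact hw (Prod.ext h0.1 h0.2)
  set n : ℕ := Int.gcd w.1 w.2 with hn
  obtain ⟨w1, hw1⟩ : (n : ℤ) ∣ w.1 := Int.gcd_dvd_left ..
  obtain ⟨w2, hw2⟩ : (n : ℤ) ∣ w.2 := Int.gcd_dvd_right ..
  have hcop : IsCoprime w1 w2 := by
    have h1 := Int.gcd_eq_gcd_ab w.1 w.2
    rw [← hn] at h1
    refine ⟨w.1.gcdA w.2, w.1.gcdB w.2, ?_⟩
    have h2 : (n : ℤ) * (w.1.gcdA w.2 * w1 + w.1.gcdB w.2 * w2) = n * 1 := by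
      rw [mul_one]
      conv_rhs => rw [h1]
      linear_combination (-(w.1.gcdA w.2)) * hw1 - (w.1.gcdB w.2) * hw2
    exact mul_left_cancel₀ (by exact_mod_cast hn0) h2
  have h1 : nf t w = (n : ℤ) ^ 2 * nf t (w1, w2) := by
    unfold nf
    rw [hw1, hw2]
    ring
  rw [h1]
  have h2 := nf_ne ht (w := (w1, w2)) hcop
  have h3 : (n : ℤ) ≠ 0 := by exact_mod_cast hn0
  exact mul_ne_zero (pow_ne_zero 2 h3) h2

/-- the vectors of small norm of a limit lattice in a fundamental domain -/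
noncomputable def zset (t : ℤ) (e Y : ℝ) (L M : ℕ) (s : ℤ) : Finset (ℤ × ℤ) := by
  classical
  exact ((Finset.Icc (-(M : ℤ)) M) ×ˢ (Finset.Icc (-(M : ℤ)) M)).filter fun w =>
    IsCoprime w.1 w.2 ∧ 1 ≤ lf (e + 1) (s * (e - 1) * e) w ∧
      lf (e + 1) (s * (e - 1) * e) w < 2 ^ L ∧
      |lf (e + 1) (s * (e - 1) * e) w * lf (t - e + 1) (s * (t - e - 1) * (t - e)) w| < Y

theorem zeta_nf {t : ℤ} {e : ℝ} (he : e ^ 2 - t * e + 1 = 0) {s : ℤ} (w : ℤ × ℤ) :
    lf (e + 1) (s * (e - 1) * e) w * lf (t - e + 1) (s * (t - e - 1) * (t - e)) w =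
      nf t (w.1 - s * w.2, w.1 + s * (t - 1) * w.2) := by
  have h1 := rv_mul he (w.1 - s * w.2, w.1 + s * (t - 1) * w.2)
  rw [← h1]
  have e1 : lf (e + 1) (s * (e - 1) * e) w = rv e (w.1 - s * w.2, w.1 + s * (t - 1) * w.2) := by
    unfold lf rv
    push_cast
    linear_combination (s * w.2 : ℝ) * he
  have e2 : lf (t - e + 1) (s * (t - e - 1) * (t - e)) w =
      rv (t - e) (w.1 - s * w.2, w.1 + s * (t - 1) * w.2) := by
    unfold lf rv
    push_cast
    linear_combination (s * w.2 : ℝ) * he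
  rw [e1, e2]

theorem zeta_ge {t : ℤ} (ht : 3 ≤ t) {e : ℝ} (he : e ^ 2 - t * e + 1 = 0) {s : ℤ}
    (hs : s ^ 2 = 1) {w : ℤ × ℤ} (hw : IsCoprime w.1 w.2) :
    1 ≤ |lf (e + 1) (s * (e - 1) * e) w * lf (t - e + 1) (s * (t - e - 1) * (t - e)) w| := by
  rw [zeta_nf he, ← Int.cast_abs]
  have h1 : nf t (w.1 - s * w.2, w.1 + s * (t - 1) * w.2) ≠ 0 := by
    apply nf_ne' ht
    intro h0
    have e1 : w.1 - s * w.2 = 0 := congrArg Prod.fst h0
    have e2 : w.1 + s * (t - 1) * w.2 = 0 := congrArg Prod.snd h0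
    have e3 : s * (t * w.2) = 0 := by linear_combination e2 - e1
    have hs0 : s ≠ 0 := by
      rintro rfl
      norm_num at hs
    have e4 : w.2 = 0 := by
      rcases mul_eq_zero.1 e3 with h | h
      · exact absurd h hs0
      · rcases mul_eq_zero.1 h with h | h
        · omega
        · exact h
    have e5 : w.1 = 0 := by rw [e4] at e1; linarith
    rw [e4, e5] at hw
    obtain ⟨x, y, hxy⟩ := hw
    norm_num at hxy
  exact_mod_cast Int.one_le_abs h1

/-- the number of vectors of small norm of a limit lattice in a fundamental domain -/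
theorem zset_card {t : ℤ} (ht : 3 ≤ t) {e : ℝ} (he : e ^ 2 - t * e + 1 = 0)
    (hlt : (t : ℝ) - e < e) {Y : ℝ} (hY : 0 ≤ Y) (L M : ℕ) {s : ℤ} (hs : s ^ 2 = 1) :
    ((zset t e Y L M s).card : ℝ) ≤ L * (8 * Y / ((e - (t - e)) * t) + 1) := by
  have htr : (0 : ℝ) < t := by
    have : (3 : ℝ) ≤ t := by exact_mod_cast ht
    linarith
  have hsr : (s : ℝ) ^ 2 = 1 := by exact_mod_cast hs
  have hsabs : |(s : ℝ)| = 1 := by
    rw [← sq_abs] at hsr
    nlinarith [abs_nonneg (s : ℝ)]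
  have hdet : |(e + 1) * (s * (t - e - 1) * (t - e)) - (t - e + 1) * (s * (e - 1) * e)| =
      (e - (t - e)) * t := by
    have : (e + 1) * (s * (t - e - 1) * (t - e)) - (t - e + 1) * (s * (e - 1) * e) =
        -s * ((e - (t - e)) * t) := by linear_combination ((s : ℝ) * (2 * e - t)) * he
    rw [this, abs_mul, abs_neg, hsabs, one_mul, abs_of_pos]
    apply mul_pos _ htr
    linarith
  apply windows' (by
    apply mul_pos _ htr
    linarith) hdet hY L
  intro w hw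
  unfold zset at hw
  rw [Finset.mem_filter] at hw
  exact hw.2

theorem Qm_ne {t : ℤ} (ht : 3 ≤ t) {a b : ℤ} (ha : 0 < a) (hb : 0 < b) {w : ℤ × ℤ}
    (hw : IsCoprime w.1 w.2) : Qm t a b w ≠ 0 := by
  have e1 : Qm t a b w = nf t (b * w.1, a * w.2) := by
    unfold Qm nf
    ring
  rw [e1]
  apply nf_ne' ht
  intro h0
  have h1 : b * w.1 = 0 := congrArg Prod.fst h0
  have h2 : a * w.2 = 0 := congrArg Prod.snd h0
  have h3 : w.1 = 0 := by
    rcases mul_eq_zero.1 h1 with h | h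
    · omega
    · exact h
  have h4 : w.2 = 0 := by
    rcases mul_eq_zero.1 h2 with h | h
    · omega
    · exact h
  rw [h3, h4] at hw
  obtain ⟨x, y, hxy⟩ := hw
  norm_num at hxy

/-- the position of a short vector can be moved into one of the two regions, where its norm
controls the norm in a limit lattice -/
theorem move_to_region {t : ℤ} (ht : 16 ≤ t) {e : ℝ} (he : e ^ 2 - t * e + 1 = 0)
    (hlt : (t : ℝ) - e < e) {f : ℕ} (h12 : cu t 12 = t * f) {a b r : ℤ}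
    {κ τ : ℝ} (D : Dat t e f a b r κ τ) {p q h : ℤ} (hh : h ∣ (f : ℤ)) {w₀ : ℤ × ℤ}
    (hw₀ : IsCoprime w₀.1 w₀.2) (hz₀ : Zp t p q h w₀) {μ : ℝ} (hμ : |(Qm t a b w₀ : ℝ)| < μ) :
    ∃ s : ℤ, (s = 1 ∨ s = -1) ∧ ∃ w : ℤ × ℤ, IsCoprime w.1 w.2 ∧ Zp t p q h w ∧
      |lf (e + 1) (s * (e - 1) * e) w * lf (t - e + 1) (s * (t - e - 1) * (t - e)) w| <
        4 * (e - (t - e)) ^ 2 * τ * μ := by
  obtain ⟨ha, hb, hn, hfa, hfb, hfr, hκ, hτ, hτ1, hκτ, hda, hdb, hθ⟩ := D
  have htr : (16 : ℝ) ≤ t := by exact_mod_cast ht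
  have hee : e * (t - e) = 1 := by linear_combination -he
  obtain ⟨k1, k2, k3, k4, k5, k6⟩ := reg_aux htr (by ring) hee rfl hlt
  have he0 : 0 < e := by linarith
  have hnr : ((a : ℝ) * b) ^ 2 - t * (a * b) * r + r ^ 2 = 1 := by exact_mod_cast hn
  have hθ' : (a : ℝ) * b * (t - e) - r = τ := by
    have h1 : ((a * b) * e - r) * ((a : ℝ) * b * (t - e) - r) = 1 := by
      linear_combination hnr + (a * b : ℝ) ^ 2 * hee
    calc (a : ℝ) * b * (t - e) - r = τ * ((a * b) * e - r) * ((a : ℝ) * b * (t - e) - r) := by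
          rw [hθ, one_mul]
      _ = τ * (((a * b) * e - r) * ((a : ℝ) * b * (t - e) - r)) := by ring
      _ = τ := by rw [h1, mul_one]
  set vl : ℤ × ℤ → ℝ := fun w => lf b (a * e) w with hvl
  set vl' : ℤ × ℤ → ℝ := fun w => lf b (a * (t - e)) w with hvl'
  have hvv : ∀ w, vl w * vl' w = Qm t a b w := by
    intro w
    simp only [hvl, hvl', lf, Qm]
    push_cast
    linear_combination ((a : ℝ) ^ 2 * (w.2 : ℝ) ^ 2) * hee
  have hQ0 : ∀ w : ℤ × ℤ, IsCoprime w.1 w.2 → (Qm t a b w : ℝ) ≠ 0 := by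
    intro w hw
    exact_mod_cast Qm_ne (by omega) ha hb hw
  have hv0 : ∀ w : ℤ × ℤ, IsCoprime w.1 w.2 → 0 < |vl w| ∧ 0 < |vl' w| := by
    intro w hw
    have h1 := hQ0 w hw
    rw [← hvv w] at h1
    exact ⟨abs_pos.2 (left_ne_zero_of_mul h1), abs_pos.2 (right_ne_zero_of_mul h1)⟩
  have m1 : ∀ w, τ * vl (Mm t a b r w) = vl w := by
    intro w
    have h1 : vl (Mm t a b r w) = ((a * b) * e - r) * vl w := by
      simp only [hvl, lf, Mm]
      push_cast
      linear_combination (-(a : ℝ) ^ 2 * b * w.2) * he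
    rw [h1, ← mul_assoc, hθ, one_mul]
  have m2 : ∀ w, vl' (Mm t a b r w) = τ * vl' w := by
    intro w
    rw [← hθ']
    simp only [hvl', lf, Mm]
    push_cast
    linear_combination (-(a : ℝ) ^ 2 * b * w.2) * he
  have m3 : ∀ w, vl (Mi t a b r w) = τ * vl w := by
    intro w
    rw [← hθ']
    simp only [hvl, lf, Mi]
    push_cast
    linear_combination (-(a : ℝ) ^ 2 * b * w.2) * hee
  have m4 : ∀ w, τ * vl' (Mi t a b r w) = vl' w := by
    intro w
    have h1 : vl' (Mi t a b r w) = ((a * b) * e - r) * vl' w := by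
      simp only [hvl', lf, Mi]
      push_cast
      linear_combination (-(a : ℝ) ^ 2 * b * w.2) * hee
    rw [h1, ← mul_assoc, hθ, one_mul]
  set P : ℤ × ℤ → Prop := fun w => IsCoprime w.1 w.2 ∧ Zp t p q h w ∧ |(Qm t a b w : ℝ)| < μ
    with hP
  have hQM : ∀ w, Qm t a b (Mm t a b r w) = Qm t a b w := by
    intro w
    simp only [Qm, Mm]
    linear_combination (b ^ 2 * w.1 ^ 2 + t * a * b * w.1 * w.2 + a ^ 2 * w.2 ^ 2) * hn
  have hQMi : ∀ w, Qm t a b (Mi t a b r w) = Qm t a b w := by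
    intro w
    simp only [Qm, Mi]
    linear_combination (b ^ 2 * w.1 ^ 2 + t * a * b * w.1 * w.2 + a ^ 2 * w.2 ^ 2) * hn
  have hPM : ∀ w, P w → P (Mm t a b r w) := by
    rintro w ⟨h1, h2, h3⟩
    exact ⟨mm_coprime hn h1, zp_mm h12 hh hfa hfb hfr h2, by rw [hQM]; exact h3⟩
  have hPMi : ∀ w, P w → P (Mi t a b r w) := by
    rintro w ⟨h1, h2, h3⟩
    exact ⟨mi_coprime hn h1, zp_mi h12 hh hfa hfb hfr h2, by rw [hQMi]; exact h3⟩
  have hτ2 : τ ≤ 1 / 15 := by linarith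
  have hη : 1 < 1 / τ ^ 2 := by
    rw [one_lt_div (by positivity)]
    nlinarith
  obtain ⟨w, ⟨hw1, hw2, hw3⟩, hge, hltw⟩ := scale' (P := P) (ρ := fun w => |vl w| / |vl' w|)
    (κ := e * τ) hη (by positivity) (Mm t a b r) (Mi t a b r) hPM hPMi (by
      intro w hw
      have h1 : |vl w| = τ * |vl (Mm t a b r w)| := by rw [← m1 w, abs_mul, abs_of_pos hτ]
      have h2 : |vl' (Mm t a b r w)| = τ * |vl' w| := by rw [m2 w, abs_mul, abs_of_pos hτ]
      have h3 := (hv0 w hw.1).2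
      rw [h1, h2]
      field_simp) (by
      intro w hw
      have h1 : |vl (Mi t a b r w)| = τ * |vl w| := by rw [m3 w, abs_mul, abs_of_pos hτ]
      have h2 : |vl' w| = τ * |vl' (Mi t a b r w)| := by rw [← m4 w, abs_mul, abs_of_pos hτ]
      have h3 := (hv0 _ (hPMi w hw).1).2
      rw [h1, h2]
      field_simp) (w := w₀) ⟨hw₀, hz₀, hμ⟩ (div_pos (hv0 w₀ hw₀).1 (hv0 w₀ hw₀).2)
  obtain ⟨hp1, hp2⟩ := hv0 w hw1
  rw [le_div_iff₀ hp2] at hge
  have hltw' : τ * |vl w| ≤ e * |vl' w| := by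
    rw [div_lt_iff₀ hp2] at hltw
    have h1 : e * τ * (1 / τ ^ 2) * |vl' w| = e / τ * |vl' w| := by
      field_simp
    rw [h1] at hltw
    have h2 : τ * |vl w| ≤ τ * (e / τ * |vl' w|) := mul_le_mul_of_nonneg_left hltw.le hτ.le
    have h3 : τ * (e / τ * |vl' w|) = e * |vl' w| := by field_simp
    linarith
  set X : ℝ := (w.1 : ℝ) with hX
  set Z : ℝ := (w.2 : ℝ) with hZ
  set d : ℝ := e - (t - e) with hd
  have hd0 : 0 < d := by linarith
  set V : ℝ := (e + 1) * (1 - τ) * X + (e - 1) * (1 + τ) * e * Z with hV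
  set V' : ℝ := (e + 1) * (1 - τ) * X + (e - 1) * (1 + τ) * (t - e) * Z with hV'
  have v1 : κ * V = d * vl w := by
    simp only [hvl, lf]
    rw [← hX, ← hZ, hV]
    linear_combination (-X) * hdb - (e * Z) * hda
  have v2 : κ * V' = d * vl' w := by
    simp only [hvl', lf]
    rw [← hX, ← hZ, hV']
    linear_combination (-X) * hdb - ((t - e) * Z) * hda
  have c1 : e * τ * |V'| ≤ |V| := by
    have h1 : κ * |V| = d * |vl w| := by
      rw [← abs_of_pos hκ, ← abs_mul, v1, abs_mul, abs_of_pos hd0]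
    have h2 : κ * |V'| = d * |vl' w| := by
      rw [← abs_of_pos hκ, ← abs_mul, v2, abs_mul, abs_of_pos hd0]
    have h3 : κ * (e * τ * |V'|) ≤ κ * |V| := by
      rw [h1]
      calc κ * (e * τ * |V'|) = e * τ * (κ * |V'|) := by ring
        _ = d * (e * τ * |vl' w|) := by rw [h2]; ring
        _ ≤ d * |vl w| := by gcongr
    exact le_of_mul_le_mul_left h3 hκ
  have c2 : τ * |V| ≤ e * |V'| := by
    have h1 : κ * |V| = d * |vl w| := by
      rw [← abs_of_pos hκ, ← abs_mul, v1, abs_mul, abs_of_pos hd0]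
    have h2 : κ * |V'| = d * |vl' w| := by
      rw [← abs_of_pos hκ, ← abs_mul, v2, abs_mul, abs_of_pos hd0]
    have h3 : κ * (τ * |V|) ≤ κ * (e * |V'|) := by
      calc κ * (τ * |V|) = τ * (κ * |V|) := by ring
        _ = d * (τ * |vl w|) := by rw [h1]; ring
        _ ≤ d * (e * |vl' w|) := by gcongr
        _ = κ * (e * |V'|) := by
            calc d * (e * |vl' w|) = e * (d * |vl' w|) := by ring
              _ = κ * (e * |V'|) := by rw [← h2]; ring
    exact le_of_mul_le_mul_left h3 hκ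
  have hVV : |V * V'| * κ ^ 2 = d ^ 2 * |(Qm t a b w : ℝ)| := by
    have h1 : (V * V') * κ ^ 2 = d ^ 2 * (Qm t a b w : ℝ) := by
      calc (V * V') * κ ^ 2 = (κ * V) * (κ * V') := by ring
        _ = d ^ 2 * (vl w * vl' w) := by rw [v1, v2]; ring
        _ = _ := by rw [hvv]
    have h2 : |(V * V') * κ ^ 2| = |d ^ 2 * (Qm t a b w : ℝ)| := by rw [h1]
    rwa [abs_mul, abs_mul (d ^ 2), abs_of_pos (by positivity : 0 < κ ^ 2),
      abs_of_pos (by positivity : 0 < d ^ 2)] at h2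
  -- the conclusion from the two inequalities
  have fin : ∀ P S : ℝ, |P * (e * S)| ≤ 4 * |V * V'| → |P * S| < 4 * d ^ 2 * τ * μ := by
    intro P S h1
    have h2 : |P * (e * S)| = e * |P * S| := by
      have : P * (e * S) = e * (P * S) := by ring
      rw [this, abs_mul, abs_of_pos he0]
    rw [h2] at h1
    have h3 : (κ ^ 2 * e * τ) * |P * S| ≤ 4 * d ^ 2 * τ * |(Qm t a b w : ℝ)| := by
      calc (κ ^ 2 * e * τ) * |P * S| = κ ^ 2 * τ * (e * |P * S|) := by ring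
        _ ≤ κ ^ 2 * τ * (4 * |V * V'|) := by gcongr
        _ = 4 * τ * (|V * V'| * κ ^ 2) := by ring
        _ = _ := by rw [hVV]; ring
    rw [hκτ, one_mul] at h3
    refine h3.trans_lt ?_
    gcongr
  rcases le_total (|V|) (e * |V'|) with h1 | h1
  · refine ⟨1, Or.inl rfl, w, hw1, hw2, ?_⟩
    have h2 := regF (t := t) (e := e) (e' := t - e) (d := d) (τ := τ)
      (p := (e + 1) * X + (e - 1) * e * Z) (s := e * ((t - e + 1) * X + (t - e - 1) * (t - e) * Z))
      (V := V) (V' := V') htr (by ring) hee rfl hlt hτ hτ1 (by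
        rw [hV, hd]
        linear_combination (-(2 * e * τ) * (X + (t - e) * Z)) * he) (by
        rw [hV', hd]
        linear_combination ((2 * e - t - t * τ) * (X + (t - e) * Z)) * he) h1 c1
    have h3 := fin _ _ h2
    unfold lf
    rw [← hX, ← hZ]
    push_cast
    simp only [one_mul]
    exact h3
  · refine ⟨-1, Or.inr rfl, w, hw1, hw2, ?_⟩
    have h2 := regB (t := t) (e := e) (e' := t - e) (d := d) (τ := τ)
      (p := (e + 1) * X + -1 * (e - 1) * e * Z)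
      (s := e * ((t - e + 1) * X + -1 * (t - e - 1) * (t - e) * Z))
      (V := V) (V' := V') htr (by ring) hee rfl hlt hτ hτ1 (by
        rw [hV, hd]
        linear_combination (2 * e * (X - (t - e) * Z)) * he) (by
        rw [hV', hd]
        linear_combination ((t - 2 * e * τ + t * τ) * (X - (t - e) * Z)) * he) h1 c2
    have h3 := fin _ _ h2
    unfold lf
    rw [← hX, ← hZ]
    push_cast
    exact h3

end Pool.Agent.BCF
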