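import Mathlib

/-!
# A cube root bound for the number of divisors
-/

namespace Pool.Agent.BCF

theorem succ_cube_le (e : ℕ) : (e + 1) ^ 3 ≤ 8 * 2 ^ e := by
  induction e with
  | zero => norm_num
  | succ n ih =>
      rcases Nat.lt_or_ge n 3 with h | h
      · interval_cases n <;> norm_num
      · have h1 : (n + 1 + 1) ^ 3 ≤ 2 * (n + 1) ^ 3 := by
          nlinarith [mul_le_mul h h (by norm_num) (by omega), mul_le_mul (mul_le_mul h h
            (by norm_num) (by omega)) h (by norm_num) (by positivity)]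
        calc (n + 1 + 1) ^ 3 ≤ 2 * (n + 1) ^ 3 := h1
          _ ≤ 2 * (8 * 2 ^ n) := Nat.mul_le_mul_left 2 ih
          _ = 8 * 2 ^ (n + 1) := by ring

theorem succ_le_two_pow (e : ℕ) : e + 1 ≤ 2 ^ e := Nat.lt_two_pow_self

/-- the number of divisors satisfies `τ(n)³ ≤ 4096 n` -/
theorem card_divisors_cube {n : ℕ} (hn : n ≠ 0) : n.divisors.card ^ 3 ≤ 4096 * n := by
  classical
  rw [Nat.card_divisors hn, ← Finset.prod_pow]
  have h1 : ∀ p ∈ n.primeFactors, (n.factorization p + 1) ^ 3 ≤
      (if p < 8 then 8 else 1) * p ^ n.factorization p := by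
    intro p hp
    have hp2 : 2 ≤ p := (Nat.prime_of_mem_primeFactors hp).two_le
    by_cases h8 : p < 8
    · rw [if_pos h8]
      refine (succ_cube_le _).trans (Nat.mul_le_mul_left 8 (Nat.pow_le_pow_left hp2 _))
    · rw [if_neg h8, one_mul]
      calc (n.factorization p + 1) ^ 3 ≤ (2 ^ n.factorization p) ^ 3 :=
            Nat.pow_le_pow_left (succ_le_two_pow _) 3
        _ = 8 ^ n.factorization p := by rw [← pow_mul, mul_comm, pow_mul]; norm_num
        _ ≤ p ^ n.factorization p := Nat.pow_le_pow_left (by omega) _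
  refine (Finset.prod_le_prod' h1).trans ?_
  rw [Finset.prod_mul_distrib]
  have h2 : ∏ p ∈ n.primeFactors, p ^ n.factorization p = n := by
    conv_rhs => rw [← Nat.prod_factorization_pow_eq_self hn]
    rfl
  rw [h2]
  apply Nat.mul_le_mul_right
  rw [Finset.prod_ite, Finset.prod_const, Finset.prod_const_one, mul_one]
  have h3 : (n.primeFactors.filter fun p => p < 8) ⊆ {2, 3, 5, 7} := by
    intro p hp
    rw [Finset.mem_filter] at hp
    have hpp := Nat.prime_of_mem_primeFactors hp.1
    obtain ⟨-, h4⟩ := hp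
    interval_cases p <;> simp_all (config := { decide := true })
  calc 8 ^ (n.primeFactors.filter fun p => p < 8).card ≤ 8 ^ 4 :=
        Nat.pow_le_pow_right (by norm_num) (Finset.card_le_card h3)
    _ = 4096 := by norm_num

end Pool.Agent.BCF
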