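import Pool.Agent.Work.MP_612dae_nt.LogDat

/-!
# The union bound for the lattices of the infinite family
-/

namespace Pool.Agent.BCF

open Finset

theorem zeta_ee {t f c s : ℤ} {e : ℝ} (he : e ^ 2 - t * e + 1 = 0) (hs : s ^ 2 = 1)
    (w : ℤ × ℤ) : lf (e + 1) (s * (e - 1) * e) (Ee t f c s w) =
      (t * f * e - c) * lf (e + 1) (s * (e - 1) * e) w := by
  have hsr : (s : ℝ) ^ 2 = 1 := by exact_mod_cast hs
  unfold lf Ee
  push_cast
  linear_combination ((f : ℝ) * (2 * w.1 + s * (t - 2 - t * e) * w.2)) * he +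
    ((f : ℝ) * (e - 1) * e * (t + 2) * w.1) * hsr

theorem zeta_ei {t f c s : ℤ} {e : ℝ} (he : e ^ 2 - t * e + 1 = 0) (hs : s ^ 2 = 1)
    (w : ℤ × ℤ) : lf (e + 1) (s * (e - 1) * e) (Ei t f c s w) =
      (t * f * (t - e) - c) * lf (e + 1) (s * (e - 1) * e) w := by
  have hsr : (s : ℝ) ^ 2 = 1 := by exact_mod_cast hs
  unfold lf Ei
  push_cast
  linear_combination (-(f : ℝ) * (2 * w.1 + s * (t - 2 - t * e) * w.2)) * he -
    ((f : ℝ) * (e - 1) * e * (t + 2) * w.1) * hsr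

theorem move_to_zset {t : ℤ} (ht : 16 ≤ t) {e : ℝ} (he : e ^ 2 - t * e + 1 = 0)
    (hlt : (t : ℝ) - e < e) {f : ℕ} (h12 : cu t 12 = t * f) {p q h : ℤ} (hh : h ∣ (f : ℤ))
    {L : ℕ} (hL : e ^ 12 ≤ 2 ^ L) {s : ℤ} (hs : s ^ 2 = 1) {w₀ : ℤ × ℤ}
    (hw₀ : IsCoprime w₀.1 w₀.2) (hz₀ : Zp t p q h w₀) {Y : ℝ}
    (hY : |lf (e + 1) (s * (e - 1) * e) w₀ * lf (t - e + 1) (s * (t - e - 1) * (t - e)) w₀| < Y)
    {M : ℕ} (hM : 2 ^ L + e ^ 2 * (2 ^ L + e * Y) ≤ M) :
    ∃ w ∈ zset t e Y L M s, Zp t p q h w := by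
  have htr : (16 : ℝ) ≤ t := by exact_mod_cast ht
  have hee : e * (t - e) = 1 := by linear_combination -he
  obtain ⟨k1, k2, k3, k4, k5, k6⟩ := reg_aux htr (by ring) hee rfl hlt
  have he0 : 0 < e := by linarith
  have he' : ((t : ℝ) - e) ^ 2 - t * (t - e) + 1 = 0 := by linear_combination he
  have hp := cu_pow he 11
  simp only [Nat.reduceAdd] at hp
  rw [h12] at hp
  have hη : (t : ℝ) * (f : ℤ) * e - cu t 11 = e ^ 12 := by
    rw [hp]
    push_cast
    ring
  have hp' := cu_pow he' 11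
  simp only [Nat.reduceAdd] at hp'
  rw [h12] at hp'
  have hη' : (t : ℝ) * (f : ℤ) * (t - e) - cu t 11 = (t - e) ^ 12 := by
    rw [hp']
    push_cast
    ring
  have hpp : e ^ 12 * (t - e) ^ 12 = 1 := by rw [← mul_pow, hee, one_pow]
  have hnc : cu t 11 ^ 2 - t * cu t 11 * (t * f) + (t * f) ^ 2 = 1 := by
    have := cu_norm t 11
    simp only [Nat.reduceAdd] at this
    rwa [h12] at this
  set z : ℤ × ℤ → ℝ := fun w => lf (e + 1) (s * (e - 1) * e) w with hz
  set z' : ℤ × ℤ → ℝ := fun w => lf (t - e + 1) (s * (t - e - 1) * (t - e)) w with hz'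
  have z1 : ∀ w, z (Ee t f (cu t 11) s w) = e ^ 12 * z w := by
    intro w
    rw [← hη]
    exact zeta_ee he hs w
  have z2 : ∀ w, z' (Ee t f (cu t 11) s w) = (t - e) ^ 12 * z' w := by
    intro w
    rw [← hη']
    exact zeta_ee he' hs w
  have z3 : ∀ w, z (Ei t f (cu t 11) s w) = (t - e) ^ 12 * z w := by
    intro w
    rw [← hη']
    exact zeta_ei he hs w
  have z4 : ∀ w, z' (Ei t f (cu t 11) s w) = e ^ 12 * z' w := by
    intro w
    have h1 := zeta_ei (f := f) (c := cu t 11) he' hs w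
    have h2 : (t : ℝ) - (t - e) = e := by ring
    rw [h2] at h1
    rw [← hη]
    exact h1
  set P : ℤ × ℤ → Prop := fun w => IsCoprime w.1 w.2 ∧ Zp t p q h w ∧ |z w * z' w| < Y with hP
  have hPE : ∀ w, P w → P (Ee t f (cu t 11) s w) := by
    rintro w ⟨h1, h2, h3⟩
    refine ⟨ee_coprime hs hnc h1, zp_ee h12 hh h2, ?_⟩
    have : z (Ee t f (cu t 11) s w) * z' (Ee t f (cu t 11) s w) = z w * z' w := by
      rw [z1, z2]
      linear_combination (z w * z' w) * hpp
    rw [this]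
    exact h3
  have hPEi : ∀ w, P w → P (Ei t f (cu t 11) s w) := by
    rintro w ⟨h1, h2, h3⟩
    refine ⟨ei_coprime hs hnc h1, zp_ei h12 hh h2, ?_⟩
    have : z (Ei t f (cu t 11) s w) * z' (Ei t f (cu t 11) s w) = z w * z' w := by
      rw [z3, z4]
      linear_combination (z w * z' w) * hpp
    rw [this]
    exact h3
  have hz0 : z w₀ ≠ 0 := by
    intro h0
    have h1 := zeta_ge (by omega : (3 : ℤ) ≤ t) he hs hw₀
    have h2 : z w₀ * z' w₀ = 0 := by rw [h0, zero_mul]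
    have h3 : (1 : ℝ) ≤ |z w₀ * z' w₀| := h1
    rw [h2, abs_zero] at h3
    linarith
  obtain ⟨w₁, hw₁, hpos⟩ : ∃ w, P w ∧ 0 < z w := by
    rcases lt_or_gt_of_ne hz0 with h | h
    · refine ⟨(-w₀.1, -w₀.2), ⟨hw₀.neg_neg, ?_, ?_⟩, ?_⟩
      · apply zp_smul (k := -1) _ hz₀
        refine ⟨⟨0, ?_⟩, ⟨0, ?_⟩⟩
        · simp only; ring
        · simp only; ring
      · have : z (-w₀.1, -w₀.2) * z' (-w₀.1, -w₀.2) = z w₀ * z' w₀ := by
          simp only [hz, hz', lf]
          push_cast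
          ring
        rw [this]
        exact hY
      · have : z (-w₀.1, -w₀.2) = -z w₀ := by
          simp only [hz, lf]
          push_cast
          ring
        rw [this]
        linarith
    · exact ⟨w₀, ⟨hw₀, hz₀, hY⟩, h⟩
  have he12 : 1 < e ^ 12 := one_lt_pow₀ (by linarith) (by norm_num)
  obtain ⟨w, ⟨hw1, hw2, hw3⟩, hge, hltw⟩ := scale' (P := P) (ρ := z) (κ := 1) he12 one_pos
    (Ee t f (cu t 11) s) (Ei t f (cu t 11) s) hPE hPEi (fun w _ => z1 w) (by
      intro w _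
      rw [z3, ← mul_assoc, hpp, one_mul]) hw₁ hpos
  rw [one_mul] at hltw
  have hzL : z w < 2 ^ L := hltw.trans_le hL
  have hz'Y : |z' w| < Y := by
    have h1 : |z w * z' w| = z w * |z' w| := by rw [abs_mul, abs_of_pos (by linarith)]
    rw [h1] at hw3
    have h2 : |z' w| ≤ z w * |z' w| := le_mul_of_one_le_left (abs_nonneg _) hge
    linarith
  have hsr : (s : ℝ) ^ 2 = 1 := by exact_mod_cast hs
  have hsabs : |(s : ℝ)| = 1 := by
    rw [← sq_abs] at hsr
    nlinarith [abs_nonneg (s : ℝ)]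
  have hY0 : 0 < Y := (abs_nonneg _).trans_lt hz'Y
  have hp2 : (0 : ℝ) < 2 ^ L := by positivity
  have hq : 0 < 2 ^ L + e * Y := by positivity
  have hb2 : |(w.2 : ℝ)| ≤ 2 ^ L + e * Y := by
    have h1 : s * ((e - 1) * t * w.2) = z w - e * z' w := by
      simp only [hz, hz', lf]
      linear_combination (-(w.1 + s * (t - e) * w.2 : ℝ)) * he
    have h2 : (e - 1) * t * |(w.2 : ℝ)| = |z w - e * z' w| := by
      rw [← h1, abs_mul, hsabs, one_mul, abs_mul,
        abs_of_pos (mul_pos (by linarith) (by linarith) : 0 < (e - 1) * (t : ℝ))]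
    have h3 : |z w - e * z' w| ≤ 2 ^ L + e * Y := by
      refine (abs_sub _ _).trans ?_
      rw [abs_of_pos (by linarith : 0 < z w), abs_mul, abs_of_pos he0]
      have : e * |z' w| ≤ e * Y := by gcongr
      linarith
    have h4 : |(w.2 : ℝ)| ≤ (e - 1) * t * |(w.2 : ℝ)| := by
      apply le_mul_of_one_le_left (abs_nonneg _)
      exact one_le_mul_of_one_le_of_one_le (by linarith) (by linarith)
    linarith
  have hb1 : |(w.1 : ℝ)| ≤ 2 ^ L + e ^ 2 * (2 ^ L + e * Y) := by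
    have h1 : (e + 1) * w.1 = z w - s * ((e - 1) * e * w.2) := by
      simp only [hz, lf]
      ring
    have h2 : (e + 1) * |(w.1 : ℝ)| = |z w - s * ((e - 1) * e * w.2)| := by
      rw [← h1, abs_mul, abs_of_pos (by linarith : 0 < e + 1)]
    have h3 : |z w - s * ((e - 1) * e * w.2)| ≤ 2 ^ L + (e - 1) * e * |(w.2 : ℝ)| := by
      refine (abs_sub _ _).trans ?_
      rw [abs_of_pos (by linarith : 0 < z w), abs_mul, hsabs, one_mul, abs_mul,
        abs_of_pos (mul_pos (by linarith) he0 : 0 < (e - 1) * e)]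
      linarith
    have h4 : (e - 1) * e * |(w.2 : ℝ)| ≤ e ^ 2 * (2 ^ L + e * Y) := by
      have h5 : (e - 1) * e ≤ e ^ 2 := by
        have : e ^ 2 = (e - 1) * e + e := by ring
        linarith
      exact mul_le_mul h5 hb2 (abs_nonneg _) (by positivity)
    have h5 : |(w.1 : ℝ)| ≤ (e + 1) * |(w.1 : ℝ)| :=
      le_mul_of_one_le_left (abs_nonneg _) (by linarith)
    linarith
  have hM2 : |(w.2 : ℝ)| ≤ M := by
    refine hb2.trans (le_trans ?_ hM)
    have : 2 ^ L + e * Y ≤ e ^ 2 * (2 ^ L + e * Y) := by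
      apply le_mul_of_one_le_left hq.le
      exact one_le_pow₀ (by linarith)
    linarith
  have hM1 : |(w.1 : ℝ)| ≤ M := hb1.trans hM
  rw [abs_le] at hM1 hM2
  refine ⟨w, ?_, hw2⟩
  unfold zset
  rw [Finset.mem_filter, Finset.mem_product, Finset.mem_Icc, Finset.mem_Icc]
  refine ⟨⟨⟨?_, ?_⟩, ⟨?_, ?_⟩⟩, hw1, hge, hzL, hw3⟩
  · exact_mod_cast hM1.1
  · exact_mod_cast hM1.2
  · exact_mod_cast hM2.1
  · exact_mod_cast hM2.2

theorem Dat.prod_le {t : ℤ} {e : ℝ} (he : e ^ 2 - t * e + 1 = 0) {f : ℕ} {a b r : ℤ} {κ τ : ℝ}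
    (D : Dat t e f a b r κ τ) : τ * ((a * b) * (e - (t - e))) ≤ 1 := by
  obtain ⟨ha, hb, hn, hfa, hfb, hfr, hκ, hτ, hτ1, hκτ, hda, hdb, hθ⟩ := D
  have hee : e * (t - e) = 1 := by linear_combination -he
  have hnr : ((a : ℝ) * b) ^ 2 - t * (a * b) * r + r ^ 2 = 1 := by exact_mod_cast hn
  have hθ' : (a : ℝ) * b * (t - e) - r = τ := by
    have h1 : ((a * b) * e - r) * ((a : ℝ) * b * (t - e) - r) = 1 := by
      linear_combination hnr + (a * b : ℝ) ^ 2 * hee
    calc (a : ℝ) * b * (t - e) - r = τ * ((a * b) * e - r) * ((a : ℝ) * b * (t - e) - r) := by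
          rw [hθ, one_mul]
      _ = τ * (((a * b) * e - r) * ((a : ℝ) * b * (t - e) - r)) := by ring
      _ = τ := by rw [h1, mul_one]
  have h2 : τ * ((a * b) * (e - (t - e))) = 1 - τ ^ 2 := by
    linear_combination hθ - τ * hθ'
  rw [h2]
  nlinarith

/-- **the union bound for the family**: some sublattice of index `f` of `ℤ b + ℤ a e` has no short
vector -/
theorem exists_good_fam {t : ℤ} (ht : 16 ≤ t) {e : ℝ} (he : e ^ 2 - t * e + 1 = 0)
    (hlt : (t : ℝ) - e < e) {f : ℕ} (hf : 0 < f) (h12 : cu t 12 = t * f) {a b r : ℤ} {κ τ : ℝ}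
    (D : Dat t e f a b r κ τ) {L : ℕ} (hL : e ^ 12 ≤ 2 ^ L)
    (hcond : 12 * (L : ℝ) * (t : ℝ) ^ 2 * (f.divisors.card : ℝ) ^ 2 < f) :
    ∃ p q : ℕ, p.Coprime q ∧ ∀ v : ℤ × ℤ, v ≠ 0 → (f : ℤ) ∣ p * v.1 + q * v.2 →
      (f : ℝ) * (a * b) * (e - (t - e)) / (3072 * L : ℕ) ≤ |(Qm t a b v : ℝ)| := by
  classical
  have htr : (16 : ℝ) ≤ t := by exact_mod_cast ht
  have hee : e * (t - e) = 1 := by linear_combination -he
  obtain ⟨k1, k2, k3, k4, k5, k6⟩ := reg_aux htr (by ring) hee rfl hlt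
  have he0 : 0 < e := by linarith
  have hL0 : 0 < L := by
    rcases Nat.eq_zero_or_pos L with h | h
    · rw [h, pow_zero] at hL
      have : 1 < e ^ 12 := one_lt_pow₀ (by linarith) (by norm_num)
      linarith
    · exact h
  have hLr : (0 : ℝ) < L := by exact_mod_cast hL0
  have hfr : (0 : ℝ) < f := by exact_mod_cast hf
  set d : ℝ := e - (t - e) with hd
  have hd0 : 0 < d := by linarith
  have har : (0 : ℝ) < a := by exact_mod_cast D.a_pos
  have hbr : (0 : ℝ) < b := by exact_mod_cast D.b_pos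
  have hτ := D.τ_pos
  have hprod := D.prod_le he
  rw [← hd] at hprod
  set μ : ℝ := (f : ℝ) * (a * b) * d / (3072 * L : ℕ) with hμ
  have hμ0 : 0 < μ := by
    rw [hμ]
    positivity
  set Y : ℝ := 4 * d ^ 2 * τ * μ with hY
  have hY0 : 0 < Y := by positivity
  have hYle : Y ≤ 4 * d ^ 2 * f / (3072 * L) := by
    have h1 : Y = (4 * d ^ 2 * f / (3072 * L)) * (τ * ((a * b) * d)) := by
      rw [hY, hμ]
      push_cast
      field_simp
    rw [h1]
    apply mul_le_of_le_one_right (by positivity) hprod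
  by_contra hcon
  push Not at hcon
  set M : ℕ := ⌈2 ^ L + e ^ 2 * (2 ^ L + e * Y)⌉₊ with hMd
  have hM : 2 ^ L + e ^ 2 * (2 ^ L + e * Y) ≤ M := Nat.le_ceil _
  set J : Finset (ℤ × ℕ) := ({1, -1} : Finset ℤ) ×ˢ Finset.range 12 with hJ
  have hJcard : J.card = 24 := by
    rw [hJ, Finset.card_product, Finset.card_range]
    rfl
  have hJs : ∀ j ∈ J, j.1 ^ 2 = 1 := by
    intro j hj
    rw [hJ, Finset.mem_product, Finset.mem_insert, Finset.mem_singleton] at hj
    rcases hj.1 with h | h <;> rw [h] <;> norm_num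
  set W : ℤ × ℕ → ℕ → Finset (ℤ × ℤ) := fun j g =>
    (zset t e (Y / (g : ℝ) ^ 2) L M j.1).image ((Am t)^[j.2]) with hW
  have hub := union_bound hf J W (κ₁ := 8 * L * Y / (d * t)) (κ₂ := L) (μ := Y)
    (by
      have : (0 : ℝ) < t := by linarith
      positivity) hLr.le (by
      intro j _ g _ w hw
      simp only [hW, Finset.mem_image] at hw
      obtain ⟨w', hw', rfl⟩ := hw
      apply am_iter_coprime
      unfold zset at hw'
      rw [Finset.mem_filter] at hw'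
      exact hw'.2.1) (by
      intro j hj g hg
      have h1 : (W j g).card ≤ (zset t e (Y / (g : ℝ) ^ 2) L M j.1).card := Finset.card_image_le
      have h2 := zset_card (by omega : (3 : ℤ) ≤ t) he hlt (Y := Y / (g : ℝ) ^ 2) (by positivity)
        L M (hJs j hj)
      have h3 : ((W j g).card : ℝ) ≤ ((zset t e (Y / (g : ℝ) ^ 2) L M j.1).card : ℝ) := by
        exact_mod_cast h1
      refine (h3.trans h2).trans (le_of_eq ?_)
      rw [← hd]
      ring) (by
      intro p q hpq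
      obtain ⟨v, hv, hfv, hvμ⟩ := hcon p q hpq
      obtain ⟨g, hg, w₀, hw₀, hline, hsmall⟩ := prim_part hf hv hfv (Qm t a b) (by
        intro n x y
        unfold Qm
        ring) hvμ
      have hgd := hg
      rw [Nat.mem_divisors] at hgd
      have hgpos : 0 < g := Nat.pos_of_dvd_of_pos hgd.1 hf
      have hgr : (0 : ℝ) < (g : ℝ) ^ 2 := by positivity
      have hh : ((f / g : ℕ) : ℤ) ∣ (f : ℤ) := by exact_mod_cast Nat.div_dvd_of_dvd hgd.1
      obtain ⟨s, hs, w₁, hw₁, hz₁, hY₁⟩ := move_to_region ht he hlt h12 D hh hw₀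
        (p := p) (q := q) ⟨0, by norm_num, hline⟩ hsmall
      have hs2 : s ^ 2 = 1 := by
        rcases hs with h | h <;> rw [h] <;> norm_num
      have hYg : 4 * (e - (t - e)) ^ 2 * τ * (μ / (g : ℝ) ^ 2) = Y / (g : ℝ) ^ 2 := by
        rw [hY, ← hd]
        ring
      rw [hYg] at hY₁
      have hg1 : (1 : ℝ) ≤ (g : ℝ) ^ 2 := by
        have : (1 : ℝ) ≤ g := by exact_mod_cast hgpos
        nlinarith
      have hYY : Y / (g : ℝ) ^ 2 ≤ Y := div_le_self hY0.le hg1
      have hg2 : (g : ℝ) ^ 2 < Y := by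
        have h1 := (zeta_ge (by omega : (3 : ℤ) ≤ t) he hs2 hw₁).trans_lt hY₁
        rwa [one_lt_div hgr] at h1
      obtain ⟨w₂, hw₂, i, hi, hd₂⟩ := move_to_zset ht he hlt h12 hh hL hs2 hw₁ hz₁ hY₁
        (M := M) (by
          refine le_trans ?_ hM
          gcongr)
      refine ⟨g, hg, hg2, (s, i), ?_, (Am t)^[i] w₂, ?_, hd₂⟩
      · rw [hJ, Finset.mem_product, Finset.mem_insert, Finset.mem_singleton, Finset.mem_range]
        exact ⟨hs, hi⟩
      · simp only [hW]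
        exact Finset.mem_image_of_mem _ hw₂)
  rw [hJcard] at hub
  -- the first term
  have h1 : 24 * (8 * L * Y / (d * t) * f) ≤ (f : ℝ) ^ 2 / 4 := by
    have ht0 : (0 : ℝ) < t := by linarith
    have h2 : 8 * L * Y / (d * t) * f ≤ 8 * L * (4 * d ^ 2 * f / (3072 * L)) / (d * t) * f := by
      gcongr
    have h3 : 8 * L * (4 * d ^ 2 * f / (3072 * L)) / (d * t) * f = (f : ℝ) ^ 2 / 96 * (d / t) := by
      field_simp
      ring
    have h4 : d / t ≤ 1 := by
      rw [div_le_one ht0]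
      exact k5
    have h5 : (f : ℝ) ^ 2 / 96 * (d / t) ≤ (f : ℝ) ^ 2 / 96 * 1 := by gcongr
    linarith
  -- the second term
  have h2 : 96 * (L * √Y * f.divisors.card) < f := by
    apply lt_of_pow_lt_pow_left₀ 2 hfr.le
    have h3 : √Y ^ 2 = Y := Real.sq_sqrt hY0.le
    have h4 : Y ≤ (t : ℝ) ^ 2 * f / (768 * L) := by
      refine hYle.trans ?_
      have h5 : d ^ 2 ≤ (t : ℝ) ^ 2 := by
        apply pow_le_pow_left₀ hd0.le k5
      have h6 : 4 * d ^ 2 * f / (3072 * L) ≤ 4 * (t : ℝ) ^ 2 * f / (3072 * L) := by gcongr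
      refine h6.trans (le_of_eq ?_)
      field_simp
      ring
    calc (96 * (L * √Y * f.divisors.card)) ^ 2
        = 9216 * (L : ℝ) ^ 2 * (√Y ^ 2) * (f.divisors.card : ℝ) ^ 2 := by ring
      _ = 9216 * (L : ℝ) ^ 2 * Y * (f.divisors.card : ℝ) ^ 2 := by rw [h3]
      _ ≤ 9216 * (L : ℝ) ^ 2 * ((t : ℝ) ^ 2 * f / (768 * L)) * (f.divisors.card : ℝ) ^ 2 := by
          gcongr
      _ = (12 * (L : ℝ) * (t : ℝ) ^ 2 * (f.divisors.card : ℝ) ^ 2) * f := by
          field_simp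
          ring
      _ < f * f := mul_lt_mul_of_pos_right hcond hfr
      _ = (f : ℝ) ^ 2 := by ring
  have h3 : 24 * (L * √Y * f * f.divisors.card) < (f : ℝ) ^ 2 / 4 := by
    have : 96 * (L * √Y * f.divisors.card) * f < f * f := mul_lt_mul_of_pos_right h2 hfr
    nlinarith
  push_cast at hub
  linarith

end Pool.Agent.BCF
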