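import Pool.Agent.Work.MP_612dae_nt.LogCheb

/-!
# Infinitely many periodic continued fractions with partial quotients of size `log ε`
-/

namespace Pool.Agent.BCF

open Finset

/-- `x` is a root of an integral form of discriminant `Δ` whose content divides `N` -/
def Lev (N Δ : ℤ) (x : ℝ) : Prop :=
  ∃ A b C : ℤ, 0 < A ∧ b ^ 2 - 4 * A * C = Δ ∧ (∀ k : ℤ, k ∣ A → k ∣ b → k ∣ C → k ∣ N) ∧
    x = (b + √(Δ : ℝ)) / (2 * A)

theorem Lev.root {N Δ : ℤ} (hΔ : 0 < Δ) {x : ℝ} (h : Lev N Δ x) : ∃ A b C : ℤ, 0 < A ∧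
    b ^ 2 - 4 * A * C = Δ ∧ (∀ k : ℤ, k ∣ A → k ∣ b → k ∣ C → k ∣ N) ∧
    A * x ^ 2 - b * x + C = 0 := by
  obtain ⟨A, b, C, hA, hd, hk, hx⟩ := h
  refine ⟨A, b, C, hA, hd, hk, ?_⟩
  have hAr : (0 : ℝ) < A := by exact_mod_cast hA
  have hs : √(Δ : ℝ) ^ 2 = Δ := Real.sq_sqrt (by exact_mod_cast hΔ.le)
  have h1 : 2 * A * x - b = √(Δ : ℝ) := by
    rw [hx]
    field_simp
    ring
  have h2 : (2 * A * x - b) ^ 2 = (b : ℝ) ^ 2 - 4 * A * C := by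
    rw [h1, hs, ← hd]
    push_cast
    ring
  have h3 : 4 * A * (A * x ^ 2 - b * x + C) = 0 := by linear_combination h2
  rcases mul_eq_zero.1 h3 with h | h
  · exact absurd h (by positivity)
  · exact h

theorem Lev.le {N Δ₁ Δ₂ : ℤ} (hN : 0 < N) (h₁ : 0 < Δ₁) (h₂ : 0 < Δ₂) {x : ℝ}
    (hx : Irrational x) (H₁ : Lev N Δ₁ x) (H₂ : Lev N Δ₂ x) : Δ₂ ≤ N ^ 2 * Δ₁ := by
  obtain ⟨A₁, b₁, C₁, hA₁, hd₁, -, hr₁⟩ := H₁.root h₁
  obtain ⟨A₂, b₂, C₂, hA₂, hd₂, hk₂, hr₂⟩ := H₂.root h₂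
  have key : ((A₁ * b₂ - A₂ * b₁ : ℤ) : ℝ) * x = ((A₁ * C₂ - A₂ * C₁ : ℤ) : ℝ) := by
    push_cast
    linear_combination (A₂ : ℝ) * hr₁ - (A₁ : ℝ) * hr₂
  have e1 : A₁ * b₂ - A₂ * b₁ = 0 := by
    by_contra hne
    apply hx
    refine ⟨((A₁ * C₂ - A₂ * C₁ : ℤ) : ℚ) / ((A₁ * b₂ - A₂ * b₁ : ℤ) : ℚ), ?_⟩
    have hne' : ((A₁ * b₂ - A₂ * b₁ : ℤ) : ℝ) ≠ 0 := by exact_mod_cast hne
    push_cast at key hne' ⊢
    rw [← key]
    field_simp
  have e2 : A₁ * C₂ - A₂ * C₁ = 0 := by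
    rw [e1] at key
    have : ((A₁ * C₂ - A₂ * C₁ : ℤ) : ℝ) = 0 := by rw [← key]; simp
    exact_mod_cast this
  set g : ℕ := Int.gcd A₁ A₂ with hg
  have hgpos : 0 < g := by
    rw [hg]
    exact Int.gcd_pos_of_ne_zero_left _ hA₁.ne'
  obtain ⟨q, hq⟩ : (g : ℤ) ∣ A₁ := Int.gcd_dvd_left ..
  obtain ⟨p, hp⟩ : (g : ℤ) ∣ A₂ := Int.gcd_dvd_right ..
  have hg0 : (0 : ℤ) < g := by exact_mod_cast hgpos
  have hcop : IsCoprime q p := by
    have h1 := Int.gcd_eq_gcd_ab A₁ A₂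
    rw [← hg] at h1
    refine ⟨A₁.gcdA A₂, A₁.gcdB A₂, ?_⟩
    have h2 : (g : ℤ) * (A₁.gcdA A₂ * q + A₁.gcdB A₂ * p) = g * 1 := by
      rw [mul_one]
      conv_rhs => rw [h1]
      linear_combination (-(A₁.gcdA A₂)) * hq - (A₁.gcdB A₂) * hp
    exact mul_left_cancel₀ hg0.ne' h2
  have hq0 : 0 < q := by
    by_contra hcon
    push Not at hcon
    have := mul_nonpos_of_nonneg_of_nonpos hg0.le hcon
    linarith
  have hp0 : 0 < p := by
    by_contra hcon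
    push Not at hcon
    have := mul_nonpos_of_nonneg_of_nonpos hg0.le hcon
    linarith
  have f1 : q * b₂ = p * b₁ := by
    have : (g : ℤ) * (q * b₂ - p * b₁) = 0 := by
      rw [hq, hp] at e1
      linear_combination e1
    rcases mul_eq_zero.1 this with h | h
    · exact absurd h hg0.ne'
    · linarith
  have f2 : q * C₂ = p * C₁ := by
    have : (g : ℤ) * (q * C₂ - p * C₁) = 0 := by
      rw [hq, hp] at e2
      linear_combination e2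
    rcases mul_eq_zero.1 this with h | h
    · exact absurd h hg0.ne'
    · linarith
  have d1 : p ∣ b₂ := hcop.symm.dvd_of_dvd_mul_left ⟨b₁, f1⟩
  have d2 : p ∣ C₂ := hcop.symm.dvd_of_dvd_mul_left ⟨C₁, f2⟩
  have hpN : p ≤ N := Int.le_of_dvd hN (hk₂ p ⟨g, by rw [hp]; ring⟩ d1 d2)
  have h5 : q ^ 2 * Δ₂ = p ^ 2 * Δ₁ := by
    have h6 : q * A₂ = p * A₁ := by rw [hq, hp]; ring
    rw [← hd₁, ← hd₂]
    linear_combination (q * b₂ + p * b₁) * f1 - 4 * (q * C₂) * h6 - 4 * (p * A₁) * f2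
  have hq1 : (1 : ℤ) ≤ q ^ 2 := one_le_pow₀ (by omega)
  calc Δ₂ = 1 * Δ₂ := (one_mul _).symm
    _ ≤ q ^ 2 * Δ₂ := mul_le_mul_of_nonneg_right hq1 h₂.le
    _ = p ^ 2 * Δ₁ := h5
    _ ≤ N ^ 2 * Δ₁ := mul_le_mul_of_nonneg_right (pow_le_pow_left₀ hp0.le hpN 2) h₁.le

/-- a good sublattice of a lattice of the family gives a periodic continued fraction -/
theorem exists_of_good_fam {t u δ : ℕ} (hδ : ¬ IsSquare δ) (hu : 1 ≤ u)
    (hdisc : t ^ 2 = δ * u ^ 2 + 4) {e : ℝ} (hd : e - (t - e) = u * √(δ : ℝ))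
    {f L : ℕ} (hf : 0 < f) (hL : 0 < L) {a b : ℤ} (ha : 0 < a) (hb : 0 < b)
    (hab : IsCoprime a b) {p q : ℕ} (hpq : p.Coprime q)
    (h : ∀ v : ℤ × ℤ, v ≠ 0 → (f : ℤ) ∣ p * v.1 + q * v.2 →
      (f : ℝ) * (a * b) * (e - (t - e)) / (3072 * L : ℕ) ≤ |(Qm t a b v : ℝ)|) :
    ∃ x ∈ pset (3072 * L) δ, Irrational x ∧
      Lev ((f : ℤ) ^ 2) ((f : ℤ) ^ 2 * (a * b) ^ 2 * (δ * u ^ 2)) x := by
  have hδ0 : 0 < δ := by
    rcases Nat.eq_zero_or_pos δ with h0 | h0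
    · exact absurd ⟨0, by rw [h0]⟩ hδ
    · exact h0
  have hfr : (0 : ℝ) < f := by exact_mod_cast hf
  have hur : (0 : ℝ) < u := by exact_mod_cast hu
  have har : (0 : ℝ) < a := by exact_mod_cast ha
  have hbr : (0 : ℝ) < b := by exact_mod_cast hb
  have hsδ : 0 < √(δ : ℝ) := Real.sqrt_pos.2 (by exact_mod_cast hδ0)
  have hLr : (0 : ℝ) < (3072 * L : ℕ) := by exact_mod_cast (by omega : 0 < 3072 * L)
  set Δ : ℤ := (f : ℤ) ^ 2 * (a * b) ^ 2 * (δ * u ^ 2) with hΔ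
  have hΔ0 : 0 < Δ := by
    rw [hΔ]
    positivity
  have hsΔ : √(Δ : ℝ) = f * (a * b) * u * √(δ : ℝ) := by
    have e1 : (Δ : ℝ) = (f * (a * b) * u) ^ 2 * (δ : ℝ) := by
      rw [hΔ]
      push_cast
      ring
    rw [e1, Real.sqrt_mul (by positivity), Real.sqrt_sq (by positivity)]
  have hirr : Irrational √(Δ : ℝ) := by
    rw [hsΔ]
    have h1 : Irrational √(δ : ℝ) := irrational_sqrt_natCast_iff.2 hδ
    have h2 := h1.intCast_mul (m := (f : ℤ) * (a * b) * u) (by positivity)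
    push_cast at h2
    exact h2
  obtain ⟨p0, q0, hpq0⟩ := Nat.Coprime.isCoprime hpq
  set μ : ℝ := (f : ℝ) * (a * b) * (e - (t - e)) / (3072 * L : ℕ) with hμ
  have hμ' : μ * (3072 * L : ℕ) = √(Δ : ℝ) := by
    rw [hμ, hsΔ, hd, div_mul_cancel₀ _ hLr.ne']
    ring
  have hμ0 : 0 < μ := by
    rw [hμ, hd]
    positivity
  have hG : Gd μ Δ ((f : ℤ) ^ 2) (b ^ 2 * q ^ 2 - t * a * b * p * q + a ^ 2 * p ^ 2)
      (f * (2 * b ^ 2 * q * p0 + t * a * b * (q * q0 - p * p0) - 2 * a ^ 2 * p * q0))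
      (f ^ 2 * (b ^ 2 * p0 ^ 2 + t * a * b * p0 * q0 + a ^ 2 * q0 ^ 2)) := by
    refine ⟨?_, ?_, ?_⟩
    · have h1 : (t : ℤ) ^ 2 = δ * u ^ 2 + 4 := by exact_mod_cast hdisc
      rw [hΔ]
      linear_combination (f : ℤ) ^ 2 * (a * b) ^ 2 * (p0 * p + q0 * q) ^ 2 * h1 +
        (f : ℤ) ^ 2 * (a * b) ^ 2 * (δ * u ^ 2) * (p0 * p + q0 * q + 1) * hpq0
    · intro X Y hXY
      have h1 := h (q * X + f * p0 * Y, -(p * X) + f * q0 * Y) (by
        intro h0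
        have e1 : (q : ℤ) * X + f * p0 * Y = 0 := congrArg Prod.fst h0
        have e2 : -((p : ℤ) * X) + f * q0 * Y = 0 := congrArg Prod.snd h0
        have e3 : (f : ℤ) * Y = 0 := by
          linear_combination (p : ℤ) * e1 + (q : ℤ) * e2 - f * Y * hpq0
        have e4 : Y = 0 := by
          rcases mul_eq_zero.1 e3 with h2 | h2
          · exact absurd h2 (by exact_mod_cast hf.ne')
          · exact h2
        have e5 : X = 0 := by
          rw [e4] at e1 e2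
          linear_combination q0 * e1 - p0 * e2 - X * hpq0
        rcases hXY with h2 | h2
        · exact h2 e5
        · exact h2 e4) (by
        refine ⟨Y, ?_⟩
        simp only
        linear_combination (f : ℤ) * Y * hpq0)
      have e6 : Qm t a b (q * X + f * p0 * Y, -(p * X) + f * q0 * Y) =
          (b ^ 2 * q ^ 2 - t * a * b * p * q + a ^ 2 * p ^ 2) * X ^ 2 +
          f * (2 * b ^ 2 * q * p0 + t * a * b * (q * q0 - p * p0) - 2 * a ^ 2 * p * q0) * X * Y +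
          f ^ 2 * (b ^ 2 * p0 ^ 2 + t * a * b * p0 * q0 + a ^ 2 * q0 ^ 2) * Y ^ 2 := by
        unfold Qm
        ring
      rw [e6] at h1
      exact h1
    · intro k h1 h2 h3
      have hb2 : k ∣ (f : ℤ) ^ 2 * b ^ 2 := by
        have e1 : (f : ℤ) ^ 2 * b ^ 2 =
            (b ^ 2 * q ^ 2 - t * a * b * p * q + a ^ 2 * p ^ 2) * (f * q0) ^ 2 +
            f * (2 * b ^ 2 * q * p0 + t * a * b * (q * q0 - p * p0) - 2 * a ^ 2 * p * q0) *
              ((f * q0) * p) +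
            f ^ 2 * (b ^ 2 * p0 ^ 2 + t * a * b * p0 * q0 + a ^ 2 * q0 ^ 2) * p ^ 2 := by
          linear_combination (-(f : ℤ) ^ 2 * b ^ 2 * (p0 * p + q0 * q + 1)) * hpq0
        rw [e1]
        exact dvd_add (dvd_add (Dvd.dvd.mul_right h1 _) (Dvd.dvd.mul_right h2 _))
          (Dvd.dvd.mul_right h3 _)
      have ha2 : k ∣ (f : ℤ) ^ 2 * a ^ 2 := by
        have e1 : (f : ℤ) ^ 2 * a ^ 2 =
            (b ^ 2 * q ^ 2 - t * a * b * p * q + a ^ 2 * p ^ 2) * (-(f * p0)) ^ 2 +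
            f * (2 * b ^ 2 * q * p0 + t * a * b * (q * q0 - p * p0) - 2 * a ^ 2 * p * q0) *
              ((-(f * p0)) * q) +
            f ^ 2 * (b ^ 2 * p0 ^ 2 + t * a * b * p0 * q0 + a ^ 2 * q0 ^ 2) * q ^ 2 := by
          linear_combination (-(f : ℤ) ^ 2 * a ^ 2 * (p0 * p + q0 * q + 1)) * hpq0
        rw [e1]
        exact dvd_add (dvd_add (Dvd.dvd.mul_right h1 _) (Dvd.dvd.mul_right h2 _))
          (Dvd.dvd.mul_right h3 _)
      obtain ⟨x, y, hxy⟩ := hab.pow (m := 2) (n := 2)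
      have : (f : ℤ) ^ 2 = x * ((f : ℤ) ^ 2 * a ^ 2) + y * ((f : ℤ) ^ 2 * b ^ 2) := by
        linear_combination (-(f : ℤ) ^ 2) * hxy
      rw [this]
      exact dvd_add (Dvd.dvd.mul_left ha2 _) (Dvd.dvd.mul_left hb2 _)
  obtain ⟨x, hx, A, b', C, hA, hGx, hxA⟩ := exists_perBdd hμ0 hΔ0 hirr (m := 3072 * L) (by
    rw [← hμ']
    nlinarith) hG
  have hAr : (A : ℝ) ≠ 0 := by exact_mod_cast hA.ne'
  refine ⟨x, ⟨hx, b' / (2 * A), f * (a * b) * u / (2 * A), ?_⟩, ?_, A, b', C, hA, ?_, ?_, hxA⟩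
  · rw [hxA, hsΔ]
    push_cast
    field_simp
  · rw [hxA]
    have h1 : Irrational ((b' : ℝ) + √(Δ : ℝ)) := hirr.intCast_add b'
    have h2 := h1.div_intCast (m := 2 * A) (by omega)
    push_cast at h2
    exact h2
  · have := hGx.1
    rw [neg_sq] at this
    exact this
  · intro k h1 h2 h3
    exact hGx.2.2 k h1 ((dvd_neg).2 h2) h3

end Pool.Agent.BCF
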