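import Pool.Agent.Work.MP_612dae_nt.LogCore
import Pool.Agent.Work.MP_612dae_nt.LogDiv
import Pool.Agent.Work.MP_612dae_nt.AllMain

/-!
# Partial quotients of size `log ε` in every real quadratic field
-/

namespace Pool.Agent.BCF

open Finset

/-- a sublattice without small norms gives a periodic continued fraction -/
theorem exists_of_good {t u δ : ℕ} (hδ : ¬ IsSquare δ) (hu : 1 ≤ u)
    (hdisc : t ^ 2 = δ * u ^ 2 + 4) {e : ℝ} (hd : e - (t - e) = u * √(δ : ℝ))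
    {f L : ℕ} (hf : 0 < f) (hL : 0 < L) {a b : ℕ} (hab : a.Coprime b)
    (h : ∀ v : ℤ × ℤ, v ≠ 0 → (f : ℤ) ∣ a * v.1 + b * v.2 →
      f * (e - (t - e)) / (32 * L : ℕ) ≤ |(nf t v : ℝ)|) :
    (pset (32 * L) δ).Nonempty := by
  have hδ0 : 0 < δ := by
    rcases Nat.eq_zero_or_pos δ with h0 | h0
    · exact absurd ⟨0, by rw [h0]⟩ hδ
    · exact h0
  have hfr : (0 : ℝ) < f := by exact_mod_cast hf
  have hur : (0 : ℝ) < u := by exact_mod_cast hu
  have hsδ : 0 < √(δ : ℝ) := Real.sqrt_pos.2 (by exact_mod_cast hδ0)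
  have hLr : (0 : ℝ) < (32 * L : ℕ) := by exact_mod_cast (by omega : 0 < 32 * L)
  set Δ : ℤ := (f : ℤ) ^ 2 * (δ * u ^ 2) with hΔ
  have hΔ0 : 0 < Δ := by
    rw [hΔ]
    positivity
  have hsΔ : √(Δ : ℝ) = f * u * √(δ : ℝ) := by
    have e1 : (Δ : ℝ) = (f * u) ^ 2 * (δ : ℝ) := by
      rw [hΔ]
      push_cast
      ring
    rw [e1, Real.sqrt_mul (by positivity), Real.sqrt_sq (by positivity)]
  have hirr : Irrational √(Δ : ℝ) := by
    rw [hsΔ]
    have h1 : Irrational √(δ : ℝ) := irrational_sqrt_natCast_iff.2 hδ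
    have h2 := h1.natCast_mul (m := f * u) (by positivity)
    push_cast at h2
    exact h2
  obtain ⟨p, q, hpq⟩ := Nat.Coprime.isCoprime hab
  set μ : ℝ := f * (e - (t - e)) / (32 * L : ℕ) with hμ
  have hμ' : μ * (32 * L : ℕ) = √(Δ : ℝ) := by
    rw [hμ, hsΔ, hd, div_mul_cancel₀ _ hLr.ne']
    ring
  have hμ0 : 0 < μ := by
    rw [hμ, hd]
    positivity
  have hG : Gd μ Δ 0 ((b : ℤ) ^ 2 - t * a * b + a ^ 2)
      (f * (2 * b * p + t * (b * q - a * p) - 2 * a * q)) (f ^ 2 * (p ^ 2 + t * p * q + q ^ 2)) := by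
    refine ⟨?_, ?_, fun k _ _ _ => dvd_zero k⟩
    · have h1 : (t : ℤ) ^ 2 = δ * u ^ 2 + 4 := by exact_mod_cast hdisc
      rw [hΔ]
      linear_combination (f : ℤ) ^ 2 * (p * a + q * b) ^ 2 * h1 +
        (f : ℤ) ^ 2 * (δ * u ^ 2) * (p * a + q * b + 1) * hpq
    · intro X Y hXY
      have h1 := h (b * X + f * p * Y, -(a * X) + f * q * Y) (by
        intro h0
        have e1 : (b : ℤ) * X + f * p * Y = 0 := congrArg Prod.fst h0
        have e2 : -((a : ℤ) * X) + f * q * Y = 0 := congrArg Prod.snd h0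
        have e3 : (f : ℤ) * Y = 0 := by
          linear_combination (a : ℤ) * e1 + (b : ℤ) * e2 - f * Y * hpq
        have e4 : Y = 0 := by
          rcases mul_eq_zero.1 e3 with h2 | h2
          · exact absurd h2 (by exact_mod_cast hf.ne')
          · exact h2
        have e5 : X = 0 := by
          rw [e4] at e1 e2
          linear_combination q * e1 - p * e2 - X * hpq
        rcases hXY with h2 | h2
        · exact h2 e5
        · exact h2 e4) (by
        refine ⟨Y, ?_⟩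
        simp only
        linear_combination (f : ℤ) * Y * hpq)
      have e6 : nf t (b * X + f * p * Y, -(a * X) + f * q * Y) =
          ((b : ℤ) ^ 2 - t * a * b + a ^ 2) * X ^ 2 +
          f * (2 * b * p + t * (b * q - a * p) - 2 * a * q) * X * Y +
          f ^ 2 * (p ^ 2 + t * p * q + q ^ 2) * Y ^ 2 := by
        unfold nf
        ring
      rw [e6] at h1
      exact h1
  obtain ⟨x, hx, A, b', C, hA, -, hxA⟩ := exists_perBdd hμ0 hΔ0 hirr (m := 32 * L) (by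
    rw [← hμ']
    nlinarith) hG
  refine ⟨x, hx, b' / (2 * A), f * u / (2 * A), ?_⟩
  rw [hxA, hsΔ]
  push_cast
  have hAr : (A : ℝ) ≠ 0 := by exact_mod_cast hA.ne'
  field_simp

/-- the sequence `0, 1, t, t² - 1, …` with `eⁿ⁺¹ = cu (n+1) e - cu n` -/
def cu (t : ℤ) : ℕ → ℤ
  | 0 => 0
  | 1 => 1
  | n + 2 => t * cu t (n + 1) - cu t n

theorem cu_norm (t : ℤ) (n : ℕ) :
    cu t n ^ 2 - t * cu t n * cu t (n + 1) + cu t (n + 1) ^ 2 = 1 := by
  induction n with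
  | zero => simp [cu]
  | succ n ih =>
      have : cu t (n + 1 + 1) = t * cu t (n + 1) - cu t n := rfl
      rw [this]
      linear_combination ih

theorem cu_pow {t : ℤ} {e : ℝ} (he : e ^ 2 - t * e + 1 = 0) (n : ℕ) :
    e ^ (n + 1) = cu t (n + 1) * e - cu t n := by
  induction n with
  | zero => simp [cu]
  | succ n ih =>
      have : cu t (n + 1 + 1) = t * cu t (n + 1) - cu t n := rfl
      rw [pow_succ, ih, this]
      push_cast
      linear_combination (cu t (n + 1) : ℝ) * he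

theorem cu_ge {t : ℤ} (ht : 3 ≤ t) (n : ℕ) : 0 ≤ cu t n ∧ cu t n ≤ cu t (n + 1) ∧
    (t - 1) ^ n ≤ cu t (n + 1) := by
  induction n with
  | zero => simp [cu]
  | succ n ih =>
      obtain ⟨h1, h2, h3⟩ := ih
      have e1 : cu t (n + 1 + 1) = t * cu t (n + 1) - cu t n := rfl
      have h4 : 0 ≤ cu t (n + 1) := h1.trans h2
      refine ⟨h4, ?_, ?_⟩
      · rw [e1]
        nlinarith
      · rw [e1, pow_succ]
        nlinarith

theorem numeric (l : ℕ) (hl : 11 ≤ l) : 2 ^ 37 * 12 ^ 6 * l ^ 6 < (2 ^ (l - 1)) ^ 8 := by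
  induction l, hl using Nat.le_induction with
  | base => norm_num
  | succ n hn ih =>
      have h1 : (n + 1) ^ 6 ≤ 256 * n ^ 6 := by
        have h2 : n + 1 ≤ 2 * n := by omega
        calc (n + 1) ^ 6 ≤ (2 * n) ^ 6 := Nat.pow_le_pow_left h2 6
          _ = 64 * n ^ 6 := by ring
          _ ≤ 256 * n ^ 6 := Nat.mul_le_mul_right _ (by norm_num)
      have h3 : (2 ^ (n + 1 - 1)) ^ 8 = 256 * (2 ^ (n - 1)) ^ 8 := by
        obtain ⟨k, rfl⟩ : ∃ k, n = k + 1 := ⟨n - 1, by omega⟩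
        simp only [Nat.add_sub_cancel]
        have : 2 ^ (k + 1) = 2 * 2 ^ k := by ring
        rw [this, mul_pow]
        norm_num
      rw [h3]
      calc 2 ^ 37 * 12 ^ 6 * (n + 1) ^ 6 ≤ 2 ^ 37 * 12 ^ 6 * (256 * n ^ 6) :=
            Nat.mul_le_mul_left _ h1
        _ = 256 * (2 ^ 37 * 12 ^ 6 * n ^ 6) := by ring
        _ < 256 * (2 ^ (n - 1)) ^ 8 := Nat.mul_lt_mul_of_pos_left ih (by norm_num)

theorem half_pow {t : ℕ} (ht : 2 ^ 10 ≤ t) : (t : ℝ) ^ 11 / 2 ≤ ((t : ℝ) - 1) ^ 11 := by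
  have h1 : (1024 : ℝ) ≤ t := by
    have : 1024 ≤ t := by simpa using ht
    exact_mod_cast this
  have ht0 : (0 : ℝ) < t := by linarith
  have h2 : (1 : ℝ) / 2 ≤ (1 - 1 / t) ^ 11 := by
    have h3 : (1 : ℝ) / t ≤ 1 / 1024 := one_div_le_one_div_of_le (by norm_num) h1
    have h4 := one_add_mul_le_pow (a := -(1 / (t : ℝ))) (by
      have : (0 : ℝ) < 1 / t := by positivity
      linarith) 11
    have h5 : (1 + -(1 / (t : ℝ))) = 1 - 1 / t := by ring
    rw [h5] at h4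
    refine le_trans ?_ h4
    push_cast
    linarith
  have h6 : ((t : ℝ) - 1) = t * (1 - 1 / t) := by field_simp
  rw [h6, mul_pow]
  have h7 : (0 : ℝ) < (t : ℝ) ^ 11 := by positivity
  nlinarith

/-- the growth condition for the union bound -/
theorem cond_of {t : ℕ} (ht : 2 ^ 10 ≤ t) {f : ℕ} (hf : ((t : ℝ) - 1) ^ 11 ≤ f) {l : ℕ}
    (hl : 11 ≤ l) (hlt : 2 ^ (l - 1) ≤ t) :
    ((12 * l : ℕ) : ℝ) * √((f : ℝ) * t) * f.divisors.card < f / 4 := by
  have ht1 : 1024 ≤ t := by simpa using ht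
  have htr : (0 : ℝ) < t := by
    have : 0 < t := by omega
    exact_mod_cast this
  have hhalf := half_pow ht
  have hfr : (0 : ℝ) < f := by
    have : (0 : ℝ) < (t : ℝ) ^ 11 / 2 := by positivity
    linarith
  have hf0 : f ≠ 0 := by
    rintro rfl
    simp at hfr
  have hdiv := card_divisors_cube hf0
  have hdivr : ((f.divisors.card : ℝ)) ^ 3 ≤ 4096 * f := by exact_mod_cast hdiv
  have hnum := numeric l hl
  have h1 : (2 : ℝ) ^ 37 * 12 ^ 6 * (l : ℝ) ^ 6 < (t : ℝ) ^ 8 := by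
    have h2 : 2 ^ 37 * 12 ^ 6 * l ^ 6 < t ^ 8 := hnum.trans_le (Nat.pow_le_pow_left hlt 8)
    exact_mod_cast h2
  have h3 : (2 : ℝ) ^ 36 * ((12 * l : ℕ) : ℝ) ^ 6 * (t : ℝ) ^ 3 < f := by
    calc (2 : ℝ) ^ 36 * ((12 * l : ℕ) : ℝ) ^ 6 * (t : ℝ) ^ 3
        = (2 : ℝ) ^ 37 * 12 ^ 6 * (l : ℝ) ^ 6 * ((t : ℝ) ^ 3 / 2) := by
          push_cast
          ring
      _ < (t : ℝ) ^ 8 * ((t : ℝ) ^ 3 / 2) := mul_lt_mul_of_pos_right h1 (by positivity)
      _ = (t : ℝ) ^ 11 / 2 := by ring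
      _ ≤ f := hhalf.trans hf
  apply lt_of_pow_lt_pow_left₀ 6 (by positivity)
  have hs : √((f : ℝ) * t) ^ 6 = ((f : ℝ) * t) ^ 3 := by
    have : √((f : ℝ) * t) ^ 6 = (√((f : ℝ) * t) ^ 2) ^ 3 := by ring
    rw [this, Real.sq_sqrt (by positivity)]
  have hc6 : ((f.divisors.card : ℝ)) ^ 6 ≤ (4096 * (f : ℝ)) ^ 2 := by
    have e1 : ((f.divisors.card : ℝ)) ^ 6 = (((f.divisors.card : ℝ)) ^ 3) ^ 2 := by ring
    rw [e1]
    gcongr
  rw [mul_pow, mul_pow, hs]
  calc ((12 * l : ℕ) : ℝ) ^ 6 * ((f : ℝ) * t) ^ 3 * (f.divisors.card : ℝ) ^ 6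
      ≤ ((12 * l : ℕ) : ℝ) ^ 6 * ((f : ℝ) * t) ^ 3 * (4096 * (f : ℝ)) ^ 2 := by gcongr
    _ = ((2 : ℝ) ^ 36 * ((12 * l : ℕ) : ℝ) ^ 6 * (t : ℝ) ^ 3) * ((f : ℝ) ^ 5 / 2 ^ 12) := by ring
    _ < f * ((f : ℝ) ^ 5 / 2 ^ 12) := mul_lt_mul_of_pos_right h3 (by positivity)
    _ = (f / 4) ^ 6 := by ring

/-- large traces -/
theorem large_case {t u δ : ℕ} (ht : 2 ^ 10 < t) (hδ : ¬ IsSquare δ) (hu : 1 ≤ u)
    (hdisc : t ^ 2 = δ * u ^ 2 + 4) : (pset (384 * Nat.clog 2 t) δ).Nonempty := by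
  have ht1 : 1024 < t := by simpa using ht
  have htr : (1024 : ℝ) < t := by exact_mod_cast ht1
  have hδ0 : 0 < δ := by
    rcases Nat.eq_zero_or_pos δ with h0 | h0
    · exact absurd ⟨0, by rw [h0]⟩ hδ
    · exact h0
  have hur : (0 : ℝ) < u := by exact_mod_cast hu
  have hsδ : 0 < √(δ : ℝ) := Real.sqrt_pos.2 (by exact_mod_cast hδ0)
  have hsδ2 : √(δ : ℝ) ^ 2 = δ := Real.sq_sqrt (by positivity)
  have hdr : (t : ℝ) ^ 2 = δ * (u : ℝ) ^ 2 + 4 := by exact_mod_cast hdisc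
  set e : ℝ := ((t : ℝ) + u * √(δ : ℝ)) / 2 with hed
  have he : e ^ 2 - ((t : ℤ) : ℝ) * e + 1 = 0 := by
    rw [hed]
    push_cast
    linear_combination ((u : ℝ) ^ 2 / 4) * hsδ2 - (1 / 4 : ℝ) * hdr
  have hus : 0 < u * √(δ : ℝ) := by positivity
  have hut : u * √(δ : ℝ) < t := by
    apply lt_of_pow_lt_pow_left₀ 2 (by positivity)
    rw [mul_pow, hsδ2, hdr]
    nlinarith
  have hlt : (((t : ℕ) : ℤ) : ℝ) - e < e := by
    rw [hed]
    push_cast
    linarith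
  have hd : e - ((((t : ℕ) : ℤ) : ℝ) - e) = u * √(δ : ℝ) := by
    rw [hed]
    push_cast
    ring
  have he1 : 1 < e := by
    rw [hed]
    linarith
  have het : e < (((t : ℕ) : ℤ) : ℝ) := by
    rw [hed]
    push_cast
    linarith
  have ht3 : (3 : ℤ) ≤ (t : ℤ) := by exact_mod_cast (by omega : 3 ≤ t)
  obtain ⟨hc0, hc1, hc2⟩ := cu_ge ht3 11
  obtain ⟨f, hf⟩ := Int.eq_ofNat_of_zero_le (hc0.trans hc1)
  have hpow := cu_pow he 11
  rw [hf] at hpow hc1 hc2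
  have hnorm := cu_norm (t : ℤ) 11
  rw [hf] at hnorm
  simp only [Nat.reduceAdd] at hf hpow hc1 hc2 hnorm
  have hf0 : 0 < f := by
    have h1 : (0 : ℤ) < ((t : ℤ) - 1) ^ 11 := by
      apply pow_pos
      omega
    have : (0 : ℤ) < f := h1.trans_le hc2
    exact_mod_cast this
  have hfge : ((t : ℝ) - 1) ^ 11 ≤ f := by
    have : ((((t : ℤ) - 1) ^ 11 : ℤ) : ℝ) ≤ ((f : ℤ) : ℝ) := by exact_mod_cast hc2
    push_cast at this
    exact this
  set l := Nat.clog 2 t with hl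
  have hl11 : 11 ≤ l := by
    rw [hl]
    have h1 : 10 < Nat.clog 2 t := by
      rw [Nat.lt_clog_iff_pow_lt (by norm_num)]
      exact ht
    omega
  have hl2 : 2 ^ (l - 1) ≤ t := by
    have : 2 ^ (l - 1) < t := by
      rw [← Nat.lt_clog_iff_pow_lt (by norm_num), ← hl]
      omega
    exact this.le
  have htl : t ≤ 2 ^ l := Nat.le_pow_clog (by norm_num) t
  have hη1 : 1 < (f : ℝ) * e - (cu (t : ℤ) 11 : ℤ) := by
    have : (f : ℝ) * e - (cu (t : ℤ) 11 : ℤ) = e ^ 12 := by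
      rw [hpow]
      push_cast
      ring
    rw [this]
    exact one_lt_pow₀ he1 (by norm_num)
  have hηL : (f : ℝ) * e - (cu (t : ℤ) 11 : ℤ) ≤ 2 ^ (12 * l) := by
    have : (f : ℝ) * e - (cu (t : ℤ) 11 : ℤ) = e ^ 12 := by
      rw [hpow]
      push_cast
      ring
    rw [this]
    have h1 : e ≤ 2 ^ l := by
      have h2 : (t : ℝ) ≤ 2 ^ l := by exact_mod_cast htl
      push_cast at het
      linarith
    calc e ^ 12 ≤ (2 ^ l) ^ 12 := by gcongr
      _ = 2 ^ (12 * l) := by rw [← pow_mul, mul_comm]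
  obtain ⟨a, b, hab, hgood⟩ := exists_good ht3 he hlt he1 het hf0 (c := cu (t : ℤ) 11)
    (by linear_combination hnorm) hη1 hηL (by
      have := cond_of ht.le hfge hl11 hl2
      push_cast at this ⊢
      exact this)
  have := exists_of_good hδ hu hdisc (e := e) (by push_cast at hd; exact hd) hf0
    (by omega : 0 < 12 * l) hab (by
      intro v hv hfv
      have := hgood v hv hfv
      push_cast at this ⊢
      exact this)
  have e1 : 32 * (12 * l) = 384 * l := by ring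
  rwa [e1] at this

/-- small traces -/
theorem small_case {t u δ : ℕ} (ht3 : 3 ≤ t) (ht : t ≤ 2 ^ 10) (hδ : ¬ IsSquare δ) (hu : 1 ≤ u)
    (hdisc : t ^ 2 = δ * u ^ 2 + 4) : (pset (384 * Nat.clog 2 t) δ).Nonempty := by
  have h1 : Nat.sqrt δ < t := by
    rw [Nat.sqrt_lt']
    nlinarith [Nat.mul_le_mul_left δ (Nat.one_le_pow 2 u hu)]
  have h2 : bnd δ ≤ 384 * Nat.clog 2 t := by
    have h3 : bnd δ ≤ 2 * t - 1 := by
      unfold bnd
      split_ifs <;> omega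
    refine h3.trans ?_
    have h4 : 2 ≤ Nat.clog 2 t := by
      have : 1 < Nat.clog 2 t := by
        rw [Nat.lt_clog_iff_pow_lt (by norm_num)]
        omega
      omega
    rcases Nat.lt_or_ge 256 t with h5 | h5
    · have h6 : 8 < Nat.clog 2 t := by
        rw [Nat.lt_clog_iff_pow_lt (by norm_num)]
        norm_num
        exact h5
      norm_num at ht
      omega
    · omega
  exact ((all_fields hδ).mono (pset_mono h2)).nonempty

theorem trace_case {t u δ : ℕ} (ht3 : 3 ≤ t) (hδ : ¬ IsSquare δ) (hu : 1 ≤ u)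
    (hdisc : t ^ 2 = δ * u ^ 2 + 4) : (pset (384 * Nat.clog 2 t) δ).Nonempty := by
  rcases Nat.lt_or_ge (2 ^ 10) t with h | h
  · exact large_case h hδ hu hdisc
  · exact small_case ht3 h hδ hu hdisc

end Pool.Agent.BCF
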