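import Pool.Agent.Work.MP_612dae_nt.LogMain

/-!
# The dynamics on the sublattices: residue classes along the geodesic
-/

namespace Pool.Agent.BCF

/-- multiplication by the unit `e` on `ℤ + ℤ e` -/
def Am (t : ℤ) (w : ℤ × ℤ) : ℤ × ℤ := (-w.2, w.1 + t * w.2)

/-- multiplication by the unit of the lattice `ℤ b + ℤ a e` -/
def Mm (t a b r : ℤ) (w : ℤ × ℤ) : ℤ × ℤ :=
  (-(r * w.1) - a ^ 2 * w.2, b ^ 2 * w.1 + (t * a * b - r) * w.2)

/-- its inverse -/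
def Mi (t a b r : ℤ) (w : ℤ × ℤ) : ℤ × ℤ :=
  ((t * a * b - r) * w.1 + a ^ 2 * w.2, -(b ^ 2 * w.1) - r * w.2)

/-- multiplication by `e ^ 12` on the limit lattices -/
def Ee (t f c s : ℤ) (w : ℤ × ℤ) : ℤ × ℤ :=
  (f * (2 * w.1 + s * (t - 2) * w.2) - c * w.1, f * (s * (t + 2) * w.1 + (t ^ 2 - 2) * w.2) - c * w.2)

/-- its inverse -/
def Ei (t f c s : ℤ) (w : ℤ × ℤ) : ℤ × ℤ :=
  ((f * t ^ 2 - c) * w.1 - f * (2 * w.1 + s * (t - 2) * w.2),
    (f * t ^ 2 - c) * w.2 - f * (s * (t + 2) * w.1 + (t ^ 2 - 2) * w.2))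

/-- the linear form defining a sublattice -/
def dt (p q : ℤ) (w : ℤ × ℤ) : ℤ := p * w.1 + q * w.2

/-- componentwise congruence of `w` and `k w'` -/
def cg (h k : ℤ) (w w' : ℤ × ℤ) : Prop := h ∣ w.1 - k * w'.1 ∧ h ∣ w.2 - k * w'.2

theorem cg_am {t h k : ℤ} {w w' : ℤ × ℤ} (H : cg h k w w') : cg h k (Am t w) (Am t w') := by
  obtain ⟨h1, h2⟩ := H
  refine ⟨?_, ?_⟩
  · have : (Am t w).1 - k * (Am t w').1 = -(w.2 - k * w'.2) := by
      simp only [Am]; ring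
    rw [this]
    exact (dvd_neg).2 h2
  · have : (Am t w).2 - k * (Am t w').2 = (w.1 - k * w'.1) + t * (w.2 - k * w'.2) := by
      simp only [Am]; ring
    rw [this]
    exact dvd_add h1 (Dvd.dvd.mul_left h2 _)

theorem cg_iter {t h k : ℤ} {w w' : ℤ × ℤ} (H : cg h k w w') (i : ℕ) :
    cg h k ((Am t)^[i] w) ((Am t)^[i] w') := by
  induction i with
  | zero => exact H
  | succ i ih =>
      rw [Function.iterate_succ_apply', Function.iterate_succ_apply']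
      exact cg_am ih

theorem dt_of_cg {h k p q : ℤ} {w w' : ℤ × ℤ} (H : cg h k w w') (hd : h ∣ dt p q w') :
    h ∣ dt p q w := by
  obtain ⟨h1, h2⟩ := H
  have : dt p q w = p * (w.1 - k * w'.1) + q * (w.2 - k * w'.2) + k * dt p q w' := by
    simp only [dt]; ring
  rw [this]
  exact dvd_add (dvd_add (Dvd.dvd.mul_left h1 _) (Dvd.dvd.mul_left h2 _)) (Dvd.dvd.mul_left hd _)

theorem am_iter (t : ℤ) (w : ℤ × ℤ) (n : ℕ) : (Am t)^[n + 1] w =
    (-(cu t (n + 1) * w.2) - cu t n * w.1, cu t (n + 1) * (w.1 + t * w.2) - cu t n * w.2) := by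
  induction n with
  | zero => simp [Am, cu]
  | succ n ih =>
      rw [Function.iterate_succ_apply', ih]
      have e1 : cu t (n + 1 + 1) = t * cu t (n + 1) - cu t n := rfl
      rw [e1]
      simp only [Am]
      ext
      · simp only; ring
      · simp only; ring

theorem am_coprime {t : ℤ} {w : ℤ × ℤ} (hw : IsCoprime w.1 w.2) :
    IsCoprime (Am t w).1 (Am t w).2 := by
  obtain ⟨u, v, huv⟩ := hw
  refine ⟨u * t - v, u, ?_⟩
  simp only [Am]
  linear_combination huv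

theorem am_iter_coprime {t : ℤ} {w : ℤ × ℤ} (hw : IsCoprime w.1 w.2) (i : ℕ) :
    IsCoprime ((Am t)^[i] w).1 ((Am t)^[i] w).2 := by
  induction i with
  | zero => exact hw
  | succ i ih =>
      rw [Function.iterate_succ_apply']
      exact am_coprime ih

/-- some power of `e` moves `w` into the sublattice -/
def Zp (t p q h : ℤ) (w : ℤ × ℤ) : Prop := ∃ i < 12, h ∣ dt p q ((Am t)^[i] w)

theorem iter12 {t f : ℤ} (h12 : cu t 12 = t * f) {h : ℤ} (hh : h ∣ f) (w : ℤ × ℤ) :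
    cg h (-cu t 11) ((Am t)^[12] w) w := by
  have h1 := am_iter t w 11
  simp only [Nat.reduceAdd] at h1
  rw [h1, h12]
  refine ⟨?_, ?_⟩
  · have : -(t * f * w.2) - cu t 11 * w.1 - -cu t 11 * w.1 = f * (-(t * w.2)) := by ring
    simp only
    rw [this]
    exact Dvd.dvd.mul_right hh _
  · have : t * f * (w.1 + t * w.2) - cu t 11 * w.2 - -cu t 11 * w.2 = f * (t * (w.1 + t * w.2)) := by
      ring
    simp only
    rw [this]
    exact Dvd.dvd.mul_right hh _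

theorem c_sq {t f : ℤ} (h12 : cu t 12 = t * f) : f ∣ cu t 11 ^ 2 - 1 := by
  have h1 := cu_norm t 11
  simp only [Nat.reduceAdd] at h1
  rw [h12] at h1
  refine ⟨t * (t * cu t 11) - t ^ 2 * f, ?_⟩
  linear_combination h1

/-- a dilated vector of the sublattice -/
theorem dt_of_smul {f h c p q : ℤ} (hh : h ∣ f) (hc : f ∣ c ^ 2 - 1) {w w' : ℤ × ℤ}
    (H : cg h (-c) w w') (hd : h ∣ dt p q w) : h ∣ dt p q w' := by
  obtain ⟨h1, h2⟩ := H
  have h3 : h ∣ c ^ 2 - 1 := hh.trans hc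
  have : dt p q w' = -(c ^ 2 - 1) * dt p q w' + c * (p * (w.1 - -c * w'.1) + q * (w.2 - -c * w'.2)) -
      c * dt p q w := by
    simp only [dt]; ring
  rw [this]
  refine dvd_sub (dvd_add ?_ ?_) (Dvd.dvd.mul_left hd _)
  · exact Dvd.dvd.mul_right ((dvd_neg).2 h3) _
  · exact Dvd.dvd.mul_left (dvd_add (Dvd.dvd.mul_left h1 _) (Dvd.dvd.mul_left h2 _)) _

section inv

variable {t f : ℤ} (h12 : cu t 12 = t * f) {h : ℤ} (hh : h ∣ f) {p q : ℤ}

include h12 hh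

theorem zp_forward {w w' : ℤ × ℤ} (H : cg h 1 w' (Am t w)) (hz : Zp t p q h w) :
    Zp t p q h w' := by
  obtain ⟨i, hi, hd⟩ := hz
  rcases i with _ | i
  · refine ⟨11, by norm_num, ?_⟩
    have h1 := cg_iter (t := t) H 11
    rw [← Function.iterate_succ_apply] at h1
    exact dt_of_cg h1 (dt_of_cg (iter12 h12 hh w) hd)
  · refine ⟨i, by omega, ?_⟩
    have h1 := cg_iter (t := t) H i
    rw [← Function.iterate_succ_apply] at h1
    exact dt_of_cg h1 hd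

theorem zp_backward {w w' : ℤ × ℤ} (H : cg h 1 (Am t w') w) (hz : Zp t p q h w) :
    Zp t p q h w' := by
  obtain ⟨i, hi, hd⟩ := hz
  have h1 := cg_iter (t := t) H i
  rw [← Function.iterate_succ_apply] at h1
  have h2 := dt_of_cg h1 hd
  by_cases hi' : i = 11
  · subst hi'
    refine ⟨0, by norm_num, ?_⟩
    have h3 := iter12 h12 hh w'
    exact dt_of_smul hh (c_sq h12) h3 h2
  · exact ⟨i + 1, by omega, h2⟩

omit h12 hh in
theorem zp_smul {w w' : ℤ × ℤ} {k : ℤ} (H : cg h k w' w) (hz : Zp t p q h w) :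
    Zp t p q h w' := by
  obtain ⟨i, hi, hd⟩ := hz
  exact ⟨i, hi, dt_of_cg (cg_iter H i) hd⟩

theorem zp_mm {a b r : ℤ} (ha : f ∣ a - 1) (hb : f ∣ b - 1) (hr : f ∣ r) {w : ℤ × ℤ}
    (hz : Zp t p q h w) : Zp t p q h (Mm t a b r w) := by
  apply zp_forward h12 hh _ hz
  obtain ⟨x, hx⟩ := hh.trans ha
  obtain ⟨y, hy⟩ := hh.trans hb
  obtain ⟨z, hz⟩ := hh.trans hr
  have e1 : a = 1 + h * x := by linarith
  have e2 : b = 1 + h * y := by linarith
  refine ⟨⟨-(z * w.1) - (2 * x + h * x ^ 2) * w.2, ?_⟩,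
    ⟨(2 * y + h * y ^ 2) * w.1 + (t * (x + y + h * x * y) - z) * w.2, ?_⟩⟩
  · simp only [Mm, Am]
    rw [hz, e1]
    ring
  · simp only [Mm, Am]
    rw [hz, e1, e2]
    ring

theorem zp_mi {a b r : ℤ} (ha : f ∣ a - 1) (hb : f ∣ b - 1) (hr : f ∣ r) {w : ℤ × ℤ}
    (hz : Zp t p q h w) : Zp t p q h (Mi t a b r w) := by
  apply zp_backward h12 hh _ hz
  obtain ⟨x, hx⟩ := hh.trans ha
  obtain ⟨y, hy⟩ := hh.trans hb
  obtain ⟨z, hz⟩ := hh.trans hr
  have e1 : a = 1 + h * x := by linarith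
  have e2 : b = 1 + h * y := by linarith
  refine ⟨⟨(2 * y + h * y ^ 2) * w.1 + z * w.2, ?_⟩,
    ⟨(t * (x + y + h * x * y) - z) * w.1 + (2 * x + h * x ^ 2) * w.2 -
      t * ((2 * y + h * y ^ 2) * w.1) - t * (z * w.2), ?_⟩⟩
  · simp only [Mi, Am]
    rw [hz, e2]
    ring
  · simp only [Mi, Am]
    rw [hz, e1, e2]
    ring

theorem zp_ee {s : ℤ} {w : ℤ × ℤ} (hz : Zp t p q h w) :
    Zp t p q h (Ee t f (cu t 11) s w) := by
  apply zp_smul (k := -cu t 11) _ hz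
  obtain ⟨x, hx⟩ := hh
  refine ⟨⟨x * (2 * w.1 + s * (t - 2) * w.2), ?_⟩,
    ⟨x * (s * (t + 2) * w.1 + (t ^ 2 - 2) * w.2), ?_⟩⟩
  · simp only [Ee]
    rw [hx]
    ring
  · simp only [Ee]
    rw [hx]
    ring

theorem zp_ei {s : ℤ} {w : ℤ × ℤ} (hz : Zp t p q h w) :
    Zp t p q h (Ei t f (cu t 11) s w) := by
  apply zp_smul (k := -cu t 11) _ hz
  obtain ⟨x, hx⟩ := hh
  refine ⟨⟨x * t ^ 2 * w.1 - x * (2 * w.1 + s * (t - 2) * w.2), ?_⟩,
    ⟨x * t ^ 2 * w.2 - x * (s * (t + 2) * w.1 + (t ^ 2 - 2) * w.2), ?_⟩⟩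
  · simp only [Ei]
    rw [hx]
    ring
  · simp only [Ei]
    rw [hx]
    ring

end inv

theorem cop_lin {x y p q r s : ℤ} (hd : p * s - q * r = 1) (hxy : IsCoprime x y) :
    IsCoprime (p * x + q * y) (r * x + s * y) := by
  obtain ⟨u, v, huv⟩ := hxy
  refine ⟨u * s - v * r, v * p - u * q, ?_⟩
  linear_combination (p * s - q * r) * huv + hd

theorem mm_coprime {t a b r : ℤ} (hn : (a * b) ^ 2 - t * (a * b) * r + r ^ 2 = 1) {w : ℤ × ℤ}
    (hw : IsCoprime w.1 w.2) : IsCoprime (Mm t a b r w).1 (Mm t a b r w).2 := by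
  have := cop_lin (p := -r) (q := -a ^ 2) (r := b ^ 2) (s := t * a * b - r)
    (by linear_combination hn) hw
  simp only [Mm]
  have e1 : -(r * w.1) - a ^ 2 * w.2 = -r * w.1 + -a ^ 2 * w.2 := by ring
  rw [e1]
  exact this

theorem mi_coprime {t a b r : ℤ} (hn : (a * b) ^ 2 - t * (a * b) * r + r ^ 2 = 1) {w : ℤ × ℤ}
    (hw : IsCoprime w.1 w.2) : IsCoprime (Mi t a b r w).1 (Mi t a b r w).2 := by
  have := cop_lin (p := t * a * b - r) (q := a ^ 2) (r := -b ^ 2) (s := -r)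
    (by linear_combination hn) hw
  simp only [Mi]
  have e1 : -(b ^ 2 * w.1) - r * w.2 = -b ^ 2 * w.1 + -r * w.2 := by ring
  rw [e1]
  exact this

theorem ee_coprime {t f c s : ℤ} (hs : s ^ 2 = 1)
    (hn : c ^ 2 - t * c * (t * f) + (t * f) ^ 2 = 1) {w : ℤ × ℤ}
    (hw : IsCoprime w.1 w.2) : IsCoprime (Ee t f c s w).1 (Ee t f c s w).2 := by
  have := cop_lin (p := 2 * f - c) (q := f * s * (t - 2)) (r := f * s * (t + 2))
    (s := f * (t ^ 2 - 2) - c) (by linear_combination hn - f ^ 2 * (t ^ 2 - 4) * hs) hw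
  simp only [Ee]
  have e1 : f * (2 * w.1 + s * (t - 2) * w.2) - c * w.1 =
    (2 * f - c) * w.1 + f * s * (t - 2) * w.2 := by ring
  have e2 : f * (s * (t + 2) * w.1 + (t ^ 2 - 2) * w.2) - c * w.2 =
    f * s * (t + 2) * w.1 + (f * (t ^ 2 - 2) - c) * w.2 := by ring
  rw [e1, e2]
  exact this

theorem ei_coprime {t f c s : ℤ} (hs : s ^ 2 = 1)
    (hn : c ^ 2 - t * c * (t * f) + (t * f) ^ 2 = 1) {w : ℤ × ℤ}
    (hw : IsCoprime w.1 w.2) : IsCoprime (Ei t f c s w).1 (Ei t f c s w).2 := by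
  have := cop_lin (p := f * t ^ 2 - c - 2 * f) (q := -(f * s * (t - 2)))
    (r := -(f * s * (t + 2))) (s := f * t ^ 2 - c - f * (t ^ 2 - 2))
    (by linear_combination hn - f ^ 2 * (t ^ 2 - 4) * hs) hw
  simp only [Ei]
  have e1 : (f * t ^ 2 - c) * w.1 - f * (2 * w.1 + s * (t - 2) * w.2) =
    (f * t ^ 2 - c - 2 * f) * w.1 + -(f * s * (t - 2)) * w.2 := by ring
  have e2 : (f * t ^ 2 - c) * w.2 - f * (s * (t + 2) * w.1 + (t ^ 2 - 2) * w.2) =
    -(f * s * (t + 2)) * w.1 + (f * t ^ 2 - c - f * (t ^ 2 - 2)) * w.2 := by ring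
  rw [e1, e2]
  exact this

end Pool.Agent.BCF
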