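import Pool.Agent.Work.MP_612dae_nt.Defs1

/-!
# Multiplicities for the family of determinant one
-/

namespace Pool.Agent.BCF

open Finset

theorem det_V (V : List ℕ) : (mat V 0 0 : ℤ) * mat V 1 1 - (mat V 0 1 : ℤ) * mat V 1 0 =
    (-1) ^ V.length := by
  induction V with
  | nil => simp [mat]
  | cons v V ih =>
      rw [mat00, mat01, mat10, mat11, List.length_cons, pow_succ, ← ih]
      push_cast
      ring

theorem tau1_add (V : List ℕ) :
    (tau1 V : ℤ) + (-1) ^ V.length = a1 V * (b1 V + 2 * b2 V) := by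
  rw [← det_V, tau1, s12, a1, b1, b2]
  push_cast
  ring

theorem tau1_sub (V : List ℕ) :
    (tau1 V : ℤ) - (-1) ^ V.length = b1 V * (a1 V + 2 * a2 V) := by
  rw [← det_V, tau1, s12, a1, b1, a2]
  push_cast
  ring

theorem neg_one_sq' (V : List ℕ) : ((-1 : ℤ) ^ V.length) ^ 2 = 1 := by
  rw [← pow_mul, mul_comm, pow_mul]
  simp

theorem tau1_ge {V : List ℕ} (h : ∀ a ∈ V, 1 ≤ a) : 2 ≤ tau1 V := by
  obtain ⟨h1, h2⟩ := a_pos h
  have h3 : a1 V ≤ b1 V := by rw [a1, b1]; omega
  have h4 : 2 * 2 ≤ a1 V * b1 V := Nat.mul_le_mul (by omega) (by omega)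
  rw [tau1]
  omega

theorem dvd_a1 {V : List ℕ} (h : ∀ a ∈ V, 1 ≤ a) : a1 V ∣ tau1 V ^ 2 - 1 := by
  have h1 := tau1_ge h
  have h2 : 1 ≤ tau1 V ^ 2 := Nat.one_le_pow _ _ (by omega)
  have h3 : ((tau1 V ^ 2 - 1 : ℕ) : ℤ) =
      a1 V * ((b1 V + 2 * b2 V) * ((tau1 V : ℤ) - (-1) ^ V.length)) := by
    rw [← mul_assoc, ← tau1_add]
    push_cast [h2]
    linear_combination neg_one_sq' V
  have h4 : (a1 V : ℤ) ∣ ((tau1 V ^ 2 - 1 : ℕ) : ℤ) := ⟨_, h3⟩
  exact_mod_cast h4

theorem dvd_b1 {V : List ℕ} (h : ∀ a ∈ V, 1 ≤ a) : b1 V ∣ tau1 V ^ 2 - 1 := by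
  have h1 := tau1_ge h
  have h2 : 1 ≤ tau1 V ^ 2 := Nat.one_le_pow _ _ (by omega)
  have h3 : ((tau1 V ^ 2 - 1 : ℕ) : ℤ) =
      b1 V * ((a1 V + 2 * a2 V) * ((tau1 V : ℤ) + (-1) ^ V.length)) := by
    rw [← mul_assoc, ← tau1_sub]
    push_cast [h2]
    linear_combination neg_one_sq' V
  have h4 : (b1 V : ℤ) ∣ ((tau1 V ^ 2 - 1 : ℕ) : ℤ) := ⟨_, h3⟩
  exact_mod_cast h4

/-- a word is determined by the trace, the parity of its length, and two divisors -/
theorem word_inj1 {V V' : List ℕ} (h : ∀ a ∈ V, 1 ≤ a) (h' : ∀ a ∈ V', 1 ≤ a)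
    (ht : tau1 V = tau1 V') (hpar : V.length % 2 = V'.length % 2) (ha : a1 V = a1 V')
    (hb : b1 V = b1 V') : V = V' := by
  obtain ⟨p1, p2⟩ := a_pos h
  have hη : ((-1 : ℤ)) ^ V'.length = (-1) ^ V.length := by
    rcases Nat.even_or_odd V.length with hp | hp
    · have hp' : Even V'.length := by
        rw [Nat.even_iff] at hp ⊢
        omega
      rw [hp.neg_one_pow, hp'.neg_one_pow]
    · have hp' : Odd V'.length := by
        rw [Nat.odd_iff] at hp ⊢
        omega
      rw [hp.neg_one_pow, hp'.neg_one_pow]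
  have e1 := tau1_sub V
  have e2 := tau1_sub V'
  rw [hη, ← ht, e1, ← hb, ← ha] at e2
  have hb0 : (b1 V : ℤ) ≠ 0 := by
    have h3 : a1 V ≤ b1 V := by rw [a1, b1]; omega
    have : 0 < b1 V := by omega
    exact_mod_cast this.ne'
  have e3 := mul_left_cancel₀ hb0 e2
  have e4 : (a2 V : ℤ) = a2 V' := by linarith
  exact a_inj h h' ha (by exact_mod_cast e4)

/-- at most `2 d(τ² - 1)²` words have a given trace -/
theorem card_le_tau1 (A : Finset (List ℕ)) (hA : ∀ V ∈ A, ∀ a ∈ V, 1 ≤ a) (D : ℕ)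
    (hD : ∀ V ∈ A, (tau1 V ^ 2 - 1).divisors.card ≤ D) :
    A.card ≤ 2 * (D * D) * (A.image tau1).card := by
  classical
  apply Finset.card_le_mul_card_image
  intro t ht
  rw [Finset.mem_image] at ht
  obtain ⟨V₀, hV₀, rfl⟩ := ht
  have hne : tau1 V₀ ^ 2 - 1 ≠ 0 := by
    have h1 := tau1_ge (hA V₀ hV₀)
    have h2 : 2 * 2 ≤ tau1 V₀ * tau1 V₀ := Nat.mul_le_mul h1 h1
    rw [sq]
    omega
  calc (A.filter fun V => tau1 V = tau1 V₀).card
      ≤ ((Finset.range 2) ×ˢ ((tau1 V₀ ^ 2 - 1).divisors ×ˢ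
          (tau1 V₀ ^ 2 - 1).divisors)).card := by
        apply Finset.card_le_card_of_injOn (fun V => (V.length % 2, (a1 V, b1 V)))
        · intro V hV
          rw [Finset.mem_coe, Finset.mem_filter] at hV
          rw [Finset.mem_coe, Finset.mem_product, Finset.mem_product, Finset.mem_range,
            Nat.mem_divisors, Nat.mem_divisors]
          refine ⟨Nat.mod_lt _ (by norm_num), ⟨?_, hne⟩, ?_, hne⟩
          · rw [← hV.2]
            exact dvd_a1 (hA V hV.1)
          · rw [← hV.2]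
            exact dvd_b1 (hA V hV.1)
        · intro V hV V' hV' heq
          rw [Finset.mem_coe, Finset.mem_filter] at hV hV'
          simp only [Prod.mk.injEq] at heq
          exact word_inj1 (hA V hV.1) (hA V' hV'.1) (hV.2.trans hV'.2.symm) heq.1 heq.2.1
            heq.2.2
    _ = 2 * ((tau1 V₀ ^ 2 - 1).divisors.card * (tau1 V₀ ^ 2 - 1).divisors.card) := by
        rw [Finset.card_product, Finset.card_product, Finset.card_range]
    _ ≤ 2 * (D * D) := Nat.mul_le_mul_left _ (Nat.mul_le_mul (hD V₀ hV₀) (hD V₀ hV₀))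

/-- the solutions of `t² = δ y² + 1` at least double -/
theorem doubling1 {δ t y t' y' : ℕ} (hδ : 1 ≤ δ) (hy : 0 < y) (h : t ^ 2 = δ * y ^ 2 + 1)
    (h' : t' ^ 2 = δ * y' ^ 2 + 1) (hlt : y < y') : 2 * y ≤ y' := by
  have hty : y ≤ t := by
    by_contra hcon
    push Not at hcon
    have h1 : t * t ≤ y * y := Nat.mul_le_mul hcon.le hcon.le
    nlinarith [Nat.mul_le_mul_right (y ^ 2) hδ]
  have hty' : y' ≤ t' := by
    by_contra hcon
    push Not at hcon
    have h1 : t' * t' ≤ y' * y' := Nat.mul_le_mul hcon.le hcon.le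
    nlinarith [Nat.mul_le_mul_right (y' ^ 2) hδ]
  by_contra hcon
  push Not at hcon
  -- `t y' > t' y`
  have e : (t * y') ^ 2 + y ^ 2 = (t' * y) ^ 2 + y' ^ 2 := by
    calc (t * y') ^ 2 + y ^ 2 = t ^ 2 * y' ^ 2 + y ^ 2 := by ring
      _ = t' ^ 2 * y ^ 2 + y' ^ 2 := by rw [h, h']; ring
      _ = _ := by ring
  have h1 : t' * y < t * y' := by
    by_contra hc
    push Not at hc
    have q1 := Nat.mul_le_mul hc hc
    have q2 := Nat.mul_lt_mul'' hlt hlt
    nlinarith
  have h3 : t' * y + t * y' + y ^ 2 ≤ y' ^ 2 := by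
    obtain ⟨k, hk⟩ := Nat.exists_eq_add_of_lt h1
    have hB := Nat.le_mul_of_pos_left (2 * (t' * y) + k + 1) (Nat.succ_pos k)
    rw [hk] at e ⊢
    generalize t' * y = B at *
    rw [Nat.succ_eq_add_one] at hB
    nlinarith
  have h4 : y' * y ≤ t' * y := Nat.mul_le_mul_right _ hty'
  have h5 : y * y' ≤ t * y' := Nat.mul_le_mul_right _ hty
  nlinarith

/-- a field contains few of the traces -/
theorem card_le_sf1 (S : Finset ℕ) (T : ℕ) (hS : ∀ t ∈ S, 2 ≤ t ∧ t ≤ T) :
    S.card ≤ (Nat.log 2 T + 1) * (S.image fun t => sf (t ^ 2 - 1)).card := by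
  classical
  apply Finset.card_le_mul_card_image
  intro d hd
  choose y hy using sf_spec
  have hsub : ∀ t ∈ S, t ^ 2 - 1 + 1 = t ^ 2 := by
    intro t ht
    have h1 : 2 ≤ t := (hS t ht).1
    have h2 : 1 ≤ t ^ 2 := Nat.one_le_pow _ _ (by omega)
    omega
  have hpell : ∀ t ∈ S, t ^ 2 = sf (t ^ 2 - 1) * y (t ^ 2 - 1) ^ 2 + 1 := by
    intro t ht
    have h1 := (hy (t ^ 2 - 1)).1
    rw [mul_comm] at h1
    rw [h1, hsub t ht]
  have hsf0 : ∀ t ∈ S, 1 ≤ sf (t ^ 2 - 1) := by
    intro t ht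
    exact Nat.one_le_iff_ne_zero.2 (hy (t ^ 2 - 1)).2.ne_zero
  have hy0 : ∀ t ∈ S, 0 < y (t ^ 2 - 1) := by
    intro t ht
    rcases Nat.eq_zero_or_pos (y (t ^ 2 - 1)) with h | h
    · have h1 := hpell t ht
      rw [h] at h1
      have h2 := (hS t ht).1
      simp at h1
      omega
    · exact h
  calc (S.filter fun t => sf (t ^ 2 - 1) = d).card
      ≤ (Finset.range (Nat.log 2 T + 1)).card := by
        apply Finset.card_le_card_of_injOn (fun t => Nat.log 2 (y (t ^ 2 - 1)))
        · intro t ht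
          rw [Finset.mem_coe, Finset.mem_filter] at ht
          rw [Finset.mem_coe, Finset.mem_range]
          apply Nat.lt_succ_of_le
          apply Nat.log_mono_right
          have h1 := hpell t ht.1
          have h2 := hsf0 t ht.1
          have h4 := (hS t ht.1).2
          by_contra hcon
          push Not at hcon
          have h5 : t * t < y (t ^ 2 - 1) * y (t ^ 2 - 1) :=
            Nat.mul_lt_mul'' (by omega) (by omega)
          have h6 : 1 * y (t ^ 2 - 1) ^ 2 ≤ sf (t ^ 2 - 1) * y (t ^ 2 - 1) ^ 2 :=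
            Nat.mul_le_mul_right _ h2
          generalize y (t ^ 2 - 1) = Y at *
          generalize sf (t ^ 2 - 1) = s at *
          nlinarith
        · have key : ∀ t ∈ S, ∀ t' ∈ S, sf (t ^ 2 - 1) = d → sf (t' ^ 2 - 1) = d →
              y (t ^ 2 - 1) < y (t' ^ 2 - 1) →
              Nat.log 2 (y (t ^ 2 - 1)) < Nat.log 2 (y (t' ^ 2 - 1)) := by
            intro t ht t' ht' hd1 hd2 hlt
            have h1 := hpell t ht
            have h2 := hpell t' ht'
            rw [hd1] at h1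
            rw [hd2] at h2
            have hd0 : 1 ≤ d := by
              rw [← hd1]
              exact hsf0 t ht
            have h3 := doubling1 hd0 (hy0 t ht) h1 h2 hlt
            have h4 : Nat.log 2 (y (t ^ 2 - 1)) + 1 = Nat.log 2 (y (t ^ 2 - 1) * 2) :=
              (Nat.log_mul_base (by norm_num) (hy0 t ht).ne').symm
            have h5 := Nat.log_mono_right (b := 2) h3
            rw [mul_comm] at h5
            omega
          intro t ht t' ht' heq
          rw [Finset.mem_coe, Finset.mem_filter] at ht ht'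
          have h1 := hpell t ht.1
          have h2 := hpell t' ht'.1
          simp only at heq
          rcases lt_trichotomy (y (t ^ 2 - 1)) (y (t' ^ 2 - 1)) with hl | hl | hl
          · have := key t ht.1 t' ht'.1 ht.2 ht'.2 hl
            omega
          · rw [ht.2, hl] at h1
            rw [ht'.2] at h2
            exact Nat.pow_left_injective (by norm_num : (2 : ℕ) ≠ 0) (h1.trans h2.symm)
          · have := key t' ht'.1 t ht.1 ht'.2 ht.2 hl
            omega
    _ = _ := Finset.card_range _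

end Pool.Agent.BCF
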