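import Pool.Agent.Work.MP_612dae_nt.Many
import Pool.Agent.Work.MP_612dae_nt.Mult1

/-!
# Many squarefree `δ ≤ X` with `τ₁(V)² = δ y² + 1`
-/

namespace Pool.Agent.BCF

open Finset Filter

theorem tau1_le {V : List ℕ} (h : ∀ a ∈ V, 1 ≤ a) : tau1 V ≤ 45 * cont V ^ 2 := by
  obtain ⟨h1, h2, h3, h4⟩ := mat_mono h
  have h5 : mat V 1 1 ≤ mat V 0 0 := by
    by_cases hV : V = []
    · subst hV
      simp [mat]
    · exact (h4 hV).trans h2
  set p := mat V 0 0 with hp
  have e : cont V = p := rfl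
  have g1 : a1 V ≤ 3 * p := by rw [a1]; omega
  have g3 : b1 V ≤ 5 * p := by rw [b1]; omega
  have k1 := Nat.mul_le_mul g1 g3
  have k2 : p * mat V 1 0 ≤ p * p := Nat.mul_le_mul_left _ h2
  have k3 : p * mat V 1 1 ≤ p * p := Nat.mul_le_mul_left _ h5
  have k4 : mat V 0 1 * mat V 1 0 ≤ p * p := Nat.mul_le_mul h1 h2
  have k5 : mat V 0 1 * mat V 1 1 ≤ p * p := Nat.mul_le_mul h1 h5
  rw [tau1, s12, e, ← hp]
  nlinarith

/-- the kernels -/
theorem many_kernels1 {P : List ℕ → Prop} {m : ℕ} {s s' : ℝ} (hG : GoodP P m s) (hs' : s' < s) :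
    ∀ᶠ X : ℝ in atTop, ∃ S : Finset ℕ, X ^ (s' / 4) ≤ (S.card : ℝ) ∧
      ∀ δ ∈ S, Squarefree δ ∧ 1 < δ ∧ (δ : ℝ) ≤ X ∧
        ∃ V : List ℕ, (∀ a ∈ V, 1 ≤ a ∧ a ≤ m) ∧ P V ∧
          ∃ y : ℕ, tau1 V ^ 2 = δ * y ^ 2 + 1 := by
  classical
  obtain ⟨c, N₀, hc, hN₀, hGood⟩ := hG
  set η : ℝ := (s - s') / 24 with hη
  have hη0 : 0 < η := by rw [hη]; linarith
  obtain ⟨C, hC1, hdiv⟩ := Pool.Agent.Work.MP_aac176_nt.divisor_bound η hη0
  have hC0 : 0 < C := by linarith
  set κ : ℝ := 2 * (C * C) * (2 / η / Real.log 2 + 1) * (3000 : ℝ) ^ (s / 4) / c with hκ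
  have hlog2 : 0 < Real.log 2 := Real.log_pos (by norm_num)
  have h1000 : (0 : ℝ) < (3000 : ℝ) ^ (s / 4) := Real.rpow_pos_of_pos (by norm_num) _
  have hκ0 : 0 < κ := by positivity
  have hexp : 0 < (s - s') / 8 := by linarith
  filter_upwards [(tendsto_rpow_atTop hexp).eventually_ge_atTop κ, eventually_ge_atTop (3000 : ℝ),
    eventually_ge_atTop (3000 * N₀ ^ 4)] with X hXκ hX hXN
  have hX0 : 0 < X := by linarith
  have hX1 : 1 ≤ X := by linarith
  set N : ℝ := (X / 3000) ^ ((1 : ℝ) / 4) with hN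
  have hX1000 : 1 ≤ X / 3000 := by
    rw [one_le_div (by norm_num)]
    exact hX
  have hN1 : 1 ≤ N := Real.one_le_rpow hX1000 (by norm_num)
  have hN4 : N ^ 4 = X / 3000 := by
    rw [hN, ← Real.rpow_natCast, ← Real.rpow_mul (by linarith)]
    norm_num
  have hNN : N₀ ≤ N := by
    have h1 : N₀ ^ 4 ≤ N ^ 4 := by
      rw [hN4, le_div_iff₀ (by norm_num)]
      linarith
    exact le_of_pow_le_pow_left₀ (by norm_num) (by linarith) h1
  obtain ⟨A, hA1, hA2⟩ := hGood N hNN
  have hpos : ∀ V ∈ A, ∀ a ∈ V, 1 ≤ a := fun V hV a ha => ((hA1 V hV).1 a ha).1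
  -- bound of the traces
  have htau : ∀ V ∈ A, (tau1 V : ℝ) ≤ 45 * N ^ 2 := by
    intro V hV
    have h1 : (tau1 V : ℝ) ≤ 45 * (cont V : ℝ) ^ 2 := by exact_mod_cast tau1_le (hpos V hV)
    have h2 := (hA1 V hV).2.1
    have h3 : (0 : ℝ) ≤ cont V := Nat.cast_nonneg _
    nlinarith
  have htau2 : ∀ V ∈ A, ((tau1 V ^ 2 : ℕ) : ℝ) ≤ X := by
    intro V hV
    have h1 := htau V hV
    have h2 : (0 : ℝ) ≤ tau1 V := Nat.cast_nonneg _
    have h3 : (tau1 V : ℝ) ^ 2 ≤ (45 * N ^ 2) ^ 2 := pow_le_pow_left₀ h2 h1 2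
    have h4 : (1 : ℝ) ≤ N ^ 4 := one_le_pow₀ hN1
    push_cast
    have h5 : (45 * N ^ 2) ^ 2 = 2025 * N ^ 4 := by ring
    rw [h5] at h3
    have h6 : X = 3000 * N ^ 4 := by rw [hN4]; field_simp
    rw [h6]
    linarith
  set T : ℕ := ⌊45 * N ^ 2⌋₊ with hT
  have hTX : (T : ℝ) ≤ X := by
    have h1 : (T : ℝ) ≤ 45 * N ^ 2 := Nat.floor_le (by positivity)
    have h2 : (1 : ℝ) ≤ N ^ 2 := one_le_pow₀ hN1
    have h6 : X = 3000 * N ^ 4 := by rw [hN4]; field_simp
    rw [h6]
    nlinarith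
  -- divisors
  have hXη0 : 0 < X ^ η := Real.rpow_pos_of_pos hX0 _
  have hXη1 : 1 ≤ X ^ η := Real.one_le_rpow hX1 hη0.le
  set D : ℕ := ⌊C * X ^ η⌋₊ with hD
  have hDle : (D : ℝ) ≤ C * X ^ η := Nat.floor_le (by positivity)
  have hDiv : ∀ V ∈ A, (tau1 V ^ 2 - 1).divisors.card ≤ D := by
    intro V hV
    have hge := tau1_ge (hpos V hV)
    have h22 : 2 * 2 ≤ tau1 V * tau1 V := Nat.mul_le_mul hge hge
    apply Nat.le_floor
    refine (hdiv _ (by rw [sq]; omega)).trans ?_
    apply mul_le_mul_of_nonneg_left _ hC0.le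
    apply Real.rpow_le_rpow (Nat.cast_nonneg _) _ hη0.le
    refine le_trans ?_ (htau2 V hV)
    exact_mod_cast Nat.sub_le _ _
  have k1 := card_le_tau1 A hpos D hDiv
  have k2 := card_le_sf1 (A.image tau1) T (by
    intro t ht
    rw [Finset.mem_image] at ht
    obtain ⟨V, hV, rfl⟩ := ht
    exact ⟨tau1_ge (hpos V hV), Nat.le_floor (htau V hV)⟩)
  set S : Finset ℕ := (A.image tau1).image fun t => sf (t ^ 2 - 1) with hS
  refine ⟨S, ?_, ?_⟩
  · -- the logarithm
    have hlog : (Nat.log 2 T : ℝ) + 1 ≤ (2 / η / Real.log 2 + 1) * X ^ η := by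
      have h1 : (Nat.log 2 T : ℝ) ≤ Real.logb 2 (T : ℝ) := by
        have := Real.natLog_le_logb T 2
        exact_mod_cast this
      have h2 : Real.logb 2 (T : ℝ) ≤ Real.log X / Real.log 2 := by
        rw [Real.logb]
        apply div_le_div_of_nonneg_right _ hlog2.le
        rcases Nat.eq_zero_or_pos T with h0 | h0
        · rw [h0]
          simp
          exact Real.log_nonneg hX1
        · exact Real.log_le_log (by exact_mod_cast h0) hTX
      have h3 : Real.log X ≤ X ^ η / η := Real.log_le_rpow_div hX0.le hη0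
      have h4 : Real.log X / Real.log 2 ≤ (X ^ η / η) / Real.log 2 :=
        div_le_div_of_nonneg_right h3 hlog2.le
      have h5 : (X ^ η / η) / Real.log 2 ≤ 2 / η / Real.log 2 * X ^ η := by
        have : (X ^ η / η) / Real.log 2 = 1 / η / Real.log 2 * X ^ η := by
          field_simp
        rw [this]
        apply mul_le_mul_of_nonneg_right _ hXη0.le
        apply div_le_div_of_nonneg_right _ hlog2.le
        apply div_le_div_of_nonneg_right (by norm_num) hη0.le
      linarith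
    have hlog0 : (0 : ℝ) ≤ (Nat.log 2 T : ℝ) + 1 := by positivity
    have k1' : (A.card : ℝ) ≤ 2 * (D * D) * (A.image tau1).card := by exact_mod_cast k1
    have k2' : ((A.image tau1).card : ℝ) ≤ ((Nat.log 2 T : ℝ) + 1) * S.card := by
      exact_mod_cast k2
    have hD0 : (0 : ℝ) ≤ D := Nat.cast_nonneg _
    have k3 : c * N ^ s ≤ 2 * ((C * X ^ η) * (C * X ^ η)) *
        (((2 / η / Real.log 2 + 1) * X ^ η) * S.card) := by
      calc c * N ^ s ≤ A.card := hA2
        _ ≤ 2 * (D * D) * (A.image tau1).card := k1'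
        _ ≤ 2 * ((C * X ^ η) * (C * X ^ η)) * (((2 / η / Real.log 2 + 1) * X ^ η) * S.card) := by
            apply mul_le_mul
            · have := mul_le_mul hDle hDle hD0 (by positivity)
              linarith
            · refine k2'.trans ?_
              exact mul_le_mul_of_nonneg_right hlog (Nat.cast_nonneg _)
            · positivity
            · positivity
    have hNs : N ^ s = X ^ (s / 4) / (3000 : ℝ) ^ (s / 4) := by
      rw [hN, ← Real.rpow_mul (by linarith), Real.div_rpow hX0.le (by norm_num)]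
      ring_nf
    have hsplit : X ^ (s / 4) = X ^ (s' / 4) * X ^ ((s - s') / 8) * (X ^ η * X ^ η * X ^ η) := by
      rw [← Real.rpow_add hX0, ← Real.rpow_add hX0, ← Real.rpow_add hX0, ← Real.rpow_add hX0]
      congr 1
      rw [hη]
      ring
    rw [hNs, hsplit] at k3
    set a : ℝ := X ^ (s' / 4) with ha
    have ha0 : 0 < a := Real.rpow_pos_of_pos hX0 _
    set u : ℝ := X ^ ((s - s') / 8) with hu
    set e : ℝ := X ^ η with he
    set K : ℝ := (3000 : ℝ) ^ (s / 4) with hK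
    set R : ℝ := 2 / η / Real.log 2 + 1 with hR
    have hR0 : 0 < R := by positivity
    have k4 : c * (a * u) / K ≤ 2 * (C * C) * R * S.card := by
      have e2 : 0 < e * e * e := by positivity
      have k5 : c * (a * u) / K * (e * e * e) ≤ 2 * (C * C) * R * S.card * (e * e * e) := by
        calc c * (a * u) / K * (e * e * e) = c * (a * u * (e * e * e) / K) := by ring
          _ ≤ 2 * ((C * e) * (C * e)) * (R * e * S.card) := k3
          _ = _ := by ring
      exact le_of_mul_le_mul_right k5 e2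
    have k6 : c * (a * κ) / K ≤ 2 * (C * C) * R * S.card := by
      refine le_trans ?_ k4
      apply div_le_div_of_nonneg_right _ h1000.le
      apply mul_le_mul_of_nonneg_left _ hc.le
      exact mul_le_mul_of_nonneg_left hXκ ha0.le
    have k7 : c * (a * κ) / K = 2 * (C * C) * R * a := by
      rw [hκ]
      field_simp
    rw [k7] at k6
    exact le_of_mul_le_mul_left k6 (by positivity)
  · intro δ hδ
    rw [hS, Finset.mem_image] at hδ
    obtain ⟨t, ht, rfl⟩ := hδ
    rw [Finset.mem_image] at ht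
    obtain ⟨V, hV, rfl⟩ := ht
    obtain ⟨y, hy1, hy2⟩ := sf_spec (tau1 V ^ 2 - 1)
    have ht0 := tau1_ge (hpos V hV)
    have h22 : 2 * 2 ≤ tau1 V * tau1 V := Nat.mul_le_mul ht0 ht0
    have hsq : tau1 V ^ 2 = sf (tau1 V ^ 2 - 1) * y ^ 2 + 1 := by
      rw [mul_comm, hy1, sq]
      omega
    have hy0 : 0 < y := by
      rcases Nat.eq_zero_or_pos y with h | h
      · rw [h, sq (tau1 V)] at hsq
        simp at hsq
        omega
      · exact h
    refine ⟨hy2, ?_, ?_, V, (hA1 V hV).1, (hA1 V hV).2.2, y, hsq⟩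
    · rcases Nat.lt_or_ge 1 (sf (tau1 V ^ 2 - 1)) with h | h
      · exact h
      · exfalso
        have h1 : sf (tau1 V ^ 2 - 1) ≠ 0 := hy2.ne_zero
        have h2 : sf (tau1 V ^ 2 - 1) = 1 := by omega
        rw [h2, one_mul] at hsq
        have h3 : y < tau1 V := by
          by_contra hcon
          push Not at hcon
          nlinarith
        nlinarith
    · refine le_trans ?_ (htau2 V hV)
      have : sf (tau1 V ^ 2 - 1) ≤ tau1 V ^ 2 := by
        have h3 : sf (tau1 V ^ 2 - 1) ≤ sf (tau1 V ^ 2 - 1) * y ^ 2 :=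
          Nat.le_mul_of_pos_right _ (by positivity)
        omega
      exact_mod_cast this

end Pool.Agent.BCF
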