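import Pool.Agent.Work.MP_612dae_nt.Words

/-!
# A lower bound for the number of words of bounded weight
-/

namespace Pool.Agent.BCF

open Finset

/-- the renewal lower bound -/
theorem renewal (B : Finset (List ℕ)) (w : List ℕ → ℝ) (hw : ∀ b ∈ B, 1 < w b) (s : ℝ)
    (hs : 0 ≤ s) (hsum : 1 ≤ ∑ b ∈ B, w b ^ (-s)) :
    ∃ c : ℝ, 0 < c ∧ ∀ N : ℝ, 1 ≤ N → ∃ A : Finset (List (List ℕ)),
      (∀ l ∈ A, (∀ b ∈ l, b ∈ B) ∧ (l.map w).prod ≤ N) ∧ c * N ^ s ≤ (A.card : ℝ) := by
  classical
  have hB : B.Nonempty := by
    rw [Finset.nonempty_iff_ne_empty]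
    rintro rfl
    rw [Finset.sum_empty] at hsum
    linarith
  obtain ⟨bM, hbM, hM⟩ := B.exists_max_image w hB
  obtain ⟨bm, hbm, hm⟩ := B.exists_min_image w hB
  set M := w bM with hMd
  set d := w bm with hdd
  have hM1 : 1 < M := hw _ hbM
  have hd1 : 1 < d := hw _ hbm
  have hM0 : 0 < M := by linarith
  have hd0 : 0 < d := by linarith
  refine ⟨M ^ (-s), Real.rpow_pos_of_pos hM0 _, ?_⟩
  have key : ∀ k : ℕ, ∀ N : ℝ, 1 ≤ N → N ≤ d ^ k → ∃ A : Finset (List (List ℕ)),
      (∀ l ∈ A, (∀ b ∈ l, b ∈ B) ∧ (l.map w).prod ≤ N) ∧ M ^ (-s) * N ^ s ≤ (A.card : ℝ) := by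
    intro k
    induction k with
    | zero =>
        intro N h1 h2
        have hN : N = 1 := le_antisymm (by simpa using h2) h1
        refine ⟨{[]}, ?_, ?_⟩
        · intro l hl
          rw [Finset.mem_singleton.1 hl]
          simp [h1]
        · rw [hN, Real.one_rpow, mul_one, Finset.card_singleton, Nat.cast_one]
          exact Real.rpow_le_one_of_one_le_of_nonpos hM1.le (by linarith)
    | succ k ih =>
        intro N h1 h2
        by_cases hNM : N < M
        · refine ⟨{[]}, ?_, ?_⟩
          · intro l hl
            rw [Finset.mem_singleton.1 hl]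
            simp [h1]
          · rw [Finset.card_singleton, Nat.cast_one, Real.rpow_neg hM0.le,
              inv_mul_le_iff₀ (Real.rpow_pos_of_pos hM0 _), mul_one]
            exact Real.rpow_le_rpow (by linarith) hNM.le hs
        · push Not at hNM
          have hN0 : 0 < N := by linarith
          have hex : ∀ b : List ℕ, ∃ A : Finset (List (List ℕ)), b ∈ B →
              (∀ l ∈ A, (∀ b ∈ l, b ∈ B) ∧ (l.map w).prod ≤ N / w b) ∧
                M ^ (-s) * (N / w b) ^ s ≤ (A.card : ℝ) := by
            intro b
            by_cases hb : b ∈ B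
            · have hb0 : 0 < w b := by linarith [hw b hb]
              have h3 : 1 ≤ N / w b := by
                rw [one_le_div hb0]
                exact (hM b hb).trans hNM
              have h4 : N / w b ≤ d ^ k := by
                rw [div_le_iff₀ hb0]
                calc N ≤ d ^ k * d := by rw [← pow_succ]; exact h2
                  _ ≤ d ^ k * w b := by
                    apply mul_le_mul_of_nonneg_left (hm b hb) (by positivity)
              obtain ⟨A, hA⟩ := ih _ h3 h4
              exact ⟨A, fun _ => hA⟩
            · exact ⟨∅, fun h => absurd h hb⟩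
          choose A hA using hex
          refine ⟨B.biUnion fun b => (A b).image (fun l => b :: l), ?_, ?_⟩
          · intro l hl
            rw [Finset.mem_biUnion] at hl
            obtain ⟨b, hb, hl⟩ := hl
            rw [Finset.mem_image] at hl
            obtain ⟨t, ht, rfl⟩ := hl
            have hb0 : 0 < w b := by linarith [hw b hb]
            obtain ⟨h3, h4⟩ := (hA b hb).1 t ht
            refine ⟨fun b' hb' => ?_, ?_⟩
            · rcases List.mem_cons.1 hb' with rfl | hb'
              · exact hb
              · exact h3 b' hb'
            · rw [List.map_cons, List.prod_cons]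
              rw [le_div_iff₀ hb0] at h4
              rw [mul_comm]
              exact h4
          · rw [Finset.card_biUnion]
            · push_cast
              calc M ^ (-s) * N ^ s ≤ M ^ (-s) * N ^ s * ∑ b ∈ B, w b ^ (-s) := by
                    apply le_mul_of_one_le_right _ hsum
                    have := Real.rpow_pos_of_pos hM0 (-s)
                    have := Real.rpow_pos_of_pos hN0 s
                    positivity
                _ = ∑ b ∈ B, M ^ (-s) * (N / w b) ^ s := by
                    rw [Finset.mul_sum]
                    apply Finset.sum_congr rfl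
                    intro b hb
                    have hb0 : 0 < w b := by linarith [hw b hb]
                    rw [Real.div_rpow hN0.le hb0.le, Real.rpow_neg hb0.le]
                    ring
                _ ≤ ∑ b ∈ B, (((A b).image (fun l => b :: l)).card : ℝ) := by
                    apply Finset.sum_le_sum
                    intro b hb
                    rw [Finset.card_image_of_injective _ (fun x y h => (List.cons.inj h).2)]
                    exact (hA b hb).2
            · intro b hb b' hb' hne
              rw [Function.onFun, Finset.disjoint_left]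
              intro l hl hl'
              rw [Finset.mem_image] at hl hl'
              obtain ⟨t, _, rfl⟩ := hl
              obtain ⟨t', _, h⟩ := hl'
              exact hne (List.cons.inj h).1.symm
  intro N hN
  obtain ⟨k, hk⟩ := pow_unbounded_of_one_lt N hd1
  exact key k N hN hk.le

/-- lists of blocks of the same positive length are determined by their concatenation -/
theorem flatten_inj {L : ℕ} (hL : 0 < L) : ∀ l l' : List (List ℕ), (∀ b ∈ l, b.length = L) →
    (∀ b ∈ l', b.length = L) → l.flatten = l'.flatten → l = l'
  | [], [], _, _, _ => rfl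
  | [], b :: l', _, h', h => by
      have h1 := congrArg List.length h
      rw [List.flatten_cons, List.length_append, h' b List.mem_cons_self] at h1
      simp at h1
      omega
  | b :: l, [], h', _, h => by
      have h1 := congrArg List.length h
      rw [List.flatten_cons, List.length_append, h' b List.mem_cons_self] at h1
      simp at h1
      omega
  | b :: l, b' :: l', h1, h2, h => by
      rw [List.flatten_cons, List.flatten_cons] at h
      have h3 : b.length = b'.length := by
        rw [h1 b List.mem_cons_self, h2 b' List.mem_cons_self]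
      obtain ⟨h4, h5⟩ := List.append_inj h h3
      rw [h4, flatten_inj hL l l' (fun x hx => h1 x (List.mem_cons_of_mem _ hx))
        (fun x hx => h2 x (List.mem_cons_of_mem _ hx)) h5]

/-- `p`-entry of the matrix of a word -/
def cont (l : List ℕ) : ℕ := mat l 0 0

/-- there are at least `c N^s` words with letters in `1, …, m` and continuant at most `N` -/
def Good (m : ℕ) (s : ℝ) : Prop := ∃ c : ℝ, 0 < c ∧ ∀ N : ℝ, 1 ≤ N → ∃ A : Finset (List ℕ),
  (∀ V ∈ A, (∀ a ∈ V, 1 ≤ a ∧ a ≤ m) ∧ (cont V : ℝ) ≤ N) ∧ c * N ^ s ≤ (A.card : ℝ)

/-- blocks of the same length whose weights control the continuants give many words -/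
theorem good_of_weights {m L : ℕ} (hL : 0 < L) (w : List ℕ → ℝ) (s : ℝ) (hs : 0 ≤ s)
    (hw : ∀ b ∈ words m L, 1 < w b) (hsum : 1 ≤ ∑ b ∈ words m L, w b ^ (-s))
    (C : ℝ) (hC : 1 ≤ C)
    (hcont : ∀ l : List (List ℕ), (∀ b ∈ l, b ∈ words m L) →
      (cont l.flatten : ℝ) ≤ C * (l.map w).prod) : Good m s := by
  classical
  obtain ⟨c, hc, h⟩ := renewal (words m L) w hw s hs hsum
  have hC0 : 0 < C := by linarith
  refine ⟨min (c * C ^ (-s)) (C ^ (-s)), ?_, ?_⟩
  · have := Real.rpow_pos_of_pos hC0 (-s)
    positivity
  · intro N hN
    by_cases hNC : N < C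
    · refine ⟨{[]}, ?_, ?_⟩
      · intro V hV
        rw [Finset.mem_singleton.1 hV]
        refine ⟨by simp, ?_⟩
        have : cont [] = 1 := by simp [cont, mat]
        rw [this]
        simpa using hN
      · rw [Finset.card_singleton, Nat.cast_one]
        have h1 : 0 ≤ N ^ s := by positivity
        calc min (c * C ^ (-s)) (C ^ (-s)) * N ^ s ≤ C ^ (-s) * N ^ s :=
              mul_le_mul_of_nonneg_right (min_le_right _ _) h1
          _ ≤ 1 := by
              rw [Real.rpow_neg hC0.le, inv_mul_le_iff₀ (Real.rpow_pos_of_pos hC0 _), mul_one]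
              exact Real.rpow_le_rpow (by linarith) hNC.le hs
    · push Not at hNC
      have h1 : 1 ≤ N / C := by rwa [one_le_div hC0]
      obtain ⟨A, hA1, hA2⟩ := h (N / C) h1
      refine ⟨A.image List.flatten, ?_, ?_⟩
      · intro V hV
        rw [Finset.mem_image] at hV
        obtain ⟨l, hl, rfl⟩ := hV
        obtain ⟨h2, h3⟩ := hA1 l hl
        refine ⟨?_, ?_⟩
        · intro a ha
          rw [List.mem_flatten] at ha
          obtain ⟨b, hb, hab⟩ := ha
          exact (mem_words.1 (h2 b hb)).2 a hab
        · refine (hcont l h2).trans ?_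
          rw [le_div_iff₀ hC0] at h3
          rw [mul_comm]
          exact h3
      · rw [Finset.card_image_of_injOn]
        · refine le_trans ?_ hA2
          have h2 : 0 ≤ N ^ s := by positivity
          calc min (c * C ^ (-s)) (C ^ (-s)) * N ^ s ≤ c * C ^ (-s) * N ^ s :=
                mul_le_mul_of_nonneg_right (min_le_left _ _) h2
            _ = c * (N / C) ^ s := by
                rw [Real.div_rpow (by linarith) hC0.le, Real.rpow_neg hC0.le]
                ring
        · intro l hl l' hl' heq
          exact flatten_inj hL l l' (fun b hb => (mem_words.1 ((hA1 l hl).1 b hb)).1)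
            (fun b hb => (mem_words.1 ((hA1 l' hl').1 b hb)).1) heq

end Pool.Agent.BCF
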