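import Pool.Agent.Work.MP_612dae_nt.CoreIdent

/-!
# The fields `ℚ(√2)`, `ℚ(√3)`, `ℚ(√5)`
-/

namespace Pool.Agent.BCF

theorem id_even (b : ℤ) (R : Matrix (Fin 2) (Fin 2) ℤ) (hR : R.transpose = R) :
    (!![2, 1; -1, 0] * R * !![2 * b ^ 2, 2 * b - 1; 2 * b + 1, 2] * R).trace =
      (!![2 * b, 1; 1, 0] * R * !![2 * b, 1; 1, 0] * R).trace := by
  have h01 : R 1 0 = R 0 1 := by
    have := congrFun (congrFun hR 0) 1
    rwa [Matrix.transpose_apply] at this
  simp only [Matrix.trace_fin_two, Matrix.mul_apply, Fin.sum_univ_two,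
    Matrix.of_apply, Matrix.cons_val', Matrix.cons_val_zero, Matrix.cons_val_one,
    Matrix.cons_val_fin_one, h01]
  ring

theorem id_odd (a : ℤ) (R : Matrix (Fin 2) (Fin 2) ℤ) (hR : R.transpose = R) :
    (!![1, 1; -1, 0] * R * !![a ^ 2, 2 * a - 1; 2 * a + 1, 4] * R).trace =
      (!![a, 1; 1, 0] * R * !![a, 1; 1, 0] * R).trace := by
  have h01 : R 1 0 = R 0 1 := by
    have := congrFun (congrFun hR 0) 1
    rwa [Matrix.transpose_apply] at this
  simp only [Matrix.trace_fin_two, Matrix.mul_apply, Fin.sum_univ_two,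
    Matrix.of_apply, Matrix.cons_val', Matrix.cons_val_zero, Matrix.cons_val_one,
    Matrix.cons_val_fin_one, h01]
  ring

theorem letters_le {m k : ℕ} (hm : k ≤ m) {l : List ℕ} (h : ∀ a ∈ l, 1 ≤ a ∧ a ≤ k) :
    ∀ a ∈ l, 1 ≤ a ∧ a ≤ m := fun a ha => ⟨(h a ha).1, (h a ha).2.trans hm⟩

theorem imat_eq {l : List ℕ} {A : Matrix (Fin 2) (Fin 2) ℕ} {B : Matrix (Fin 2) (Fin 2) ℤ}
    (h : mat l = A) (h' : ∀ i j, ((A i j : ℕ) : ℤ) = B i j) : imat l = B := by
  ext i j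
  rw [imat_apply, h, h']

theorem trace_eq {l : List ℕ} {p q r s : ℕ} (h : mat l = !![p, q; r, s]) :
    (imat l).trace ^ 2 - 4 * (imat l).det = (p + s : ℤ) ^ 2 - 4 * (p * s - q * r) := by
  rw [imat_eq (B := !![(p : ℤ), q; r, s]) h (by intro i j; fin_cases i <;> fin_cases j <;> rfl),
    Matrix.trace_fin_two_of, Matrix.det_fin_two_of]

theorem infinite_two {m : ℕ} (hm : 3 ≤ m) : (pset m 2).Infinite := by
  refine infinite_core (W := [2, 2]) (X := [2, 1, 1, 1, 2]) (Y := [2, 3, 1, 1, 2])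
    (letters_le hm (by decide)) (letters_le hm (by decide)) (letters_le hm (by decide))
    !![2 * 1, 1; 1, 0] !![2, 1; -1, 0] !![2 * 1 ^ 2, 2 * 1 - 1; 2 * 1 + 1, 2] !![2, 1; 1, 0]
    (by decide) (by decide) ?_ ?_ ?_ (by decide) (by decide) (id_even 1)
    ⟨[2], [1, 1, 2], [2, 2], 3, 2, by decide, by decide, by decide⟩ (y := 4) ?_
  · exact imat_eq (A := !![5, 2; 2, 1]) (by decide) (by decide)
  · exact imat_eq (A := !![21, 8; 8, 3]) (by decide) (by decide)
  · exact imat_eq (A := !![41, 16; 18, 7]) (by decide) (by decide)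
  · rw [trace_eq (p := 5) (q := 2) (r := 2) (s := 1) (by decide)]
    norm_num

theorem infinite_three {m : ℕ} (hm : 3 ≤ m) : (pset m 3).Infinite := by
  refine infinite_core (W := [2, 1, 2, 1]) (X := [2, 1, 3, 1, 1, 2, 1])
    (Y := [2, 1, 2, 2, 1, 1, 1, 2, 1])
    (letters_le hm (by decide)) (letters_le hm (by decide)) (letters_le hm (by decide))
    !![2 * 1, 1; 1, 0] !![2, 1; -1, 0] !![2 * 1 ^ 2, 2 * 1 - 1; 2 * 1 + 1, 2] !![4, 3; 3, 2]
    (by decide) (by decide) ?_ ?_ ?_ (by decide) (by decide) (id_even 1)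
    ⟨[2, 1, 2], [1, 1, 1, 2, 1], [2, 1, 2, 1], 2, 1, by decide, by decide, by decide⟩
    (y := 8) ?_
  · exact imat_eq (A := !![11, 8; 4, 3]) (by decide) (by decide)
  · exact imat_eq (A := !![89, 64; 32, 23]) (by decide) (by decide)
  · exact imat_eq (A := !![265, 192; 98, 71]) (by decide) (by decide)
  · rw [trace_eq (p := 11) (q := 8) (r := 4) (s := 3) (by decide)]
    norm_num

theorem infinite_five {m : ℕ} (hm : 4 ≤ m) : (pset m 5).Infinite := by
  refine infinite_core (W := [1, 1, 1, 1]) (X := [1, 1, 3, 1, 1]) (Y := [1, 1, 1, 4, 2, 1, 1])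
    (letters_le hm (by decide)) (letters_le hm (by decide)) (letters_le hm (by decide))
    !![1, 1; 1, 0] !![1, 1; -1, 0] !![1 ^ 2, 2 * 1 - 1; 2 * 1 + 1, 4] !![3, 2; 2, 1]
    (by decide) (by decide) ?_ ?_ ?_ (by decide) (by decide) (id_odd 1)
    ⟨[1, 1, 1], [2, 1, 1], [1, 1, 1, 1], 4, 1, by decide, by decide, by decide⟩
    (y := 3) ?_
  · exact imat_eq (A := !![5, 3; 3, 2]) (by decide) (by decide)
  · exact imat_eq (A := !![16, 9; 9, 5]) (by decide) (by decide)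
  · exact imat_eq (A := !![76, 45; 49, 29]) (by decide) (by decide)
  · rw [trace_eq (p := 5) (q := 3) (r := 3) (s := 2) (by decide)]
    norm_num

end Pool.Agent.BCF
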